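import Pool.Agent.Lib.MP_754a42_al.Stmt

/-!
# MP_754a42_al, row A1: `D_{a,b}` is a derivation; first identities in a representation.

* `IsMalcev.skew`: polarise `self`.
* `IsMalcev.pol`: `malcev` at `x+w` minus `malcev` at `x` minus `malcev` at `w`.
* `IsMalcev.der`: let `P(x,w;y,z)` be (left side) - (right side) of `pol`, so `P = 0`.  Then
  `D(ab,cd) - D_{a,b}c·d - c·D_{a,b}d = - 1/2 P(a,b;c,d) - P(a,b;d,c) - P(a,c;b,d) - 3/2 P(a,c;d,b) - 1/2 P(a,d;b,c)`
  as an identity in the free anticommutative algebra (checked by computer).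
* `IsRep.rel1`: the identity `malcev` of the null extension at `x = (a,0), y = (b,0), z = (0,w)`, second component.
* `IsRep.der`: `IsMalcev.der` of the null extension at `(a,0),(b,0),(c,0),(0,v)`, second component.
-/

namespace Pool.Agent.MP_754a42_al

variable {F A V : Type*} [Field F] [CharZero F] [AddCommGroup A] [Module F A]
  [AddCommGroup V] [Module F V] {mul : A →ₗ[F] A →ₗ[F] A} {ρ : A →ₗ[F] Module.End F V}

omit [CharZero F] in
theorem IsMalcev.skew (h : IsMalcev mul) (a b : A) : mul a b = - mul b a := by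
  have h1 := h.self (a + b)
  simp only [map_add, LinearMap.add_apply, h.self, zero_add, add_zero] at h1
  rw [eq_neg_iff_add_eq_zero, add_comm]
  exact h1

omit [CharZero F] in
theorem IsMalcev.pol (h : IsMalcev mul) (x w y z : A) :
    mul (mul x y) (mul w z) + mul (mul w y) (mul x z) =
      mul (mul (mul x y) z) w + mul (mul (mul w y) z) x + mul (mul (mul y z) x) w
      + mul (mul (mul y z) w) x + mul (mul (mul z x) w) y + mul (mul (mul z w) x) y := by
  have h1 := h.malcev (x + w) y z
  have h2 := h.malcev x y z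
  have h3 := h.malcev w y z
  simp only [map_add, LinearMap.add_apply] at h1
  rw [h2, h3] at h1
  have h4 : mul (mul x y) (mul w z) + mul (mul w y) (mul x z) =
      (mul (mul (mul x y) z) x + mul (mul (mul y z) x) x + mul (mul (mul z x) x) y +
        mul (mul w y) (mul x z) +
        (mul (mul x y) (mul w z) +
          (mul (mul (mul w y) z) w + mul (mul (mul y z) w) w + mul (mul (mul z w) w) y))) -
      (mul (mul (mul x y) z) x + mul (mul (mul y z) x) x + mul (mul (mul z x) x) y) -
      (mul (mul (mul w y) z) w + mul (mul (mul y z) w) w + mul (mul (mul z w) w) y) := by abel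
  rw [h4, h1]
  abel

theorem IsMalcev.der (h : IsMalcev mul) (a b c d : A) :
    mul a (mul b (mul c d)) - mul b (mul a (mul c d)) + mul (mul a b) (mul c d)
      = mul (mul a (mul b c) - mul b (mul a c) + mul (mul a b) c) d
        + mul c (mul a (mul b d) - mul b (mul a d) + mul (mul a b) d) := by
  have e1 := h.pol a b c d
  have e2 := h.pol a b d c
  have e3 := h.pol a c b d
  have e4 := h.pol a c d b
  have e5 := h.pol a d b c
  simp only [h.skew b a, h.skew c a, h.skew d a, h.skew c b, h.skew d b, h.skew d c, map_neg,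
    LinearMap.neg_apply, h.skew (mul c d) (mul a b), h.skew (mul b d) (mul a c),
    h.skew (mul b c) (mul a d), neg_neg] at e1 e2 e3 e4 e5
  simp only [map_add, map_sub, LinearMap.add_apply, LinearMap.sub_apply,
    h.skew b (mul c d), h.skew a (mul c d), h.skew a (mul b c), h.skew b (mul a c),
    h.skew a (mul b d), h.skew b (mul a d), map_neg, LinearMap.neg_apply,
    h.skew a (mul (mul c d) b), h.skew b (mul (mul c d) a), h.skew c (mul (mul b d) a),
    h.skew c (mul (mul a d) b), h.skew c (mul (mul a b) d), neg_neg]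
  linear_combination (norm := module) (-(1 / 2 : F)) • e1 - e2 - e3 - (3 / 2 : F) • e4 - (1 / 2 : F) • e5

omit [CharZero F] in
theorem IsRep.rel1 (h : IsRep mul ρ) (a b : A) (w : V) :
    ρ a (ρ a (ρ b w) - ρ b (ρ a w) - ρ (mul a b) w)
      + (ρ a (ρ b (ρ a w)) - ρ b (ρ a (ρ a w)) - ρ (mul a b) (ρ a w)) = 0 := by
  have h1 := congrArg Prod.snd (h.malcev (a, 0) (b, 0) (0, w))
  simp only [nullExt_apply, map_zero, sub_zero, zero_sub, Prod.snd_add, LinearMap.zero_apply,
    map_neg, sub_neg_eq_add, zero_add, neg_neg, neg_zero] at h1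
  simp only [map_sub]
  have h2 : ρ a (ρ a (ρ b w)) - ρ a (ρ b (ρ a w)) - ρ a (ρ (mul a b) w)
      + (ρ a (ρ b (ρ a w)) - ρ b (ρ a (ρ a w)) - ρ (mul a b) (ρ a w)) =
      ρ a (ρ a (ρ b w)) - ρ b (ρ a (ρ a w)) - ρ a (ρ (mul a b) w) - ρ (mul a b) (ρ a w) := by abel
  rw [h2]
  rw [h1]
  abel

theorem IsRep.der (h : IsRep mul ρ) (a b c : A) (v : V) :
    ρ a (ρ b (ρ c v)) - ρ b (ρ a (ρ c v)) + ρ (mul a b) (ρ c v)
      = ρ (mul a (mul b c) - mul b (mul a c) + mul (mul a b) c) v
        + ρ c (ρ a (ρ b v) - ρ b (ρ a v) + ρ (mul a b) v) := by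
  have h1 := congrArg Prod.snd (IsMalcev.der h (a, 0) (b, 0) (c, 0) (0, v))
  simp only [nullExt_apply, map_zero, sub_zero, zero_sub, Prod.snd_add, Prod.snd_sub, Prod.fst_add,
    Prod.fst_sub, LinearMap.zero_apply, zero_add, add_zero, neg_zero] at h1
  exact h1

end Pool.Agent.MP_754a42_al
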