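import Pool.Agent.Lib.MP_754a42_al.Stmt

/-!
# MP_754a42_al, row A3: sufficient identities for a representation.

`d(a,b) = ρ_a ρ_b - ρ_b ρ_a - ρ_{ab}` (an element of the ring `Module.End F V`).  Let
 `Z(a,b) = ρaρaρb - ρbρaρa - ρaρ_{ab} - ρ_{ab}ρa`   (`= ρ_a d(a,b) + d(a,b) ρ_a`, so `Z = 0` by `r1`),
 `Y(a,c) = ρ_{(ca)a} - ρaρaρc + ρaρcρa + ρ_{ac}ρa`   (`= -1/2 Z(a,c) - 1/2 rel2(a;a,c)`, so `Y = 0`),
 `X(a;b,c) = ρ_{ac}ρb - ρ_{ab}ρc + ρaρcρb - ρ_{(ab)c} + ρaρ_{bc} - ρ_{(bc)a} - ρbρaρc + ρbρ_{ca}`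
   (`= -3/2 rel2(a;b,c) + 1/2 rel1(a,c;b) + rel2(b;a,c) - 3/2 rel2(c;a,b)`, so `X = 0`),
where `rel2(z;a,b) = [ρ_z, d(a,b)] - 3/2 d(ab,z) + 1/2 d(bz,a) + 1/2 d(za,b)` (zero by `r2`) and
`rel1(a,c;b) = ρ_a∘d(c,b) + ρ_c∘d(a,b)` (`∘` = anticommutator), the polarisation of `r1`: `r1 (a+c) b - r1 a b - r1 c b`.
(All three are identities modulo `mul b a = - mul a b`; checked by computer.)
The Malcev identity of `A ⊕ V` at `x = (a,u), y = (b,v), z = (c,w)`: first component = Malcev identity of `A`; second component is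
`Y(a,c) v`, `Z(a,b) w`, `X(a;b,c) u` (up to sign) added up.  Work it out: with `(a,u)(b,v) = (ab, ρ_a v - ρ_b u)`:
`v`-terms: `-ρ_{ac}ρ_a v = ρ_aρ_cρ_a v - ρ_aρ_aρ_c v + ρ_{(ca)a} v`;
`w`-terms: `ρ_{ab}ρ_a w = -ρ_aρ_{ab} w + ρ_aρ_aρ_b w - ρ_bρ_aρ_a w`;
`u`-terms: `ρ_{ac}ρ_b u - ρ_{ab}ρ_c u = -ρ_aρ_cρ_b u + ρ_{(ab)c} u - ρ_aρ_{bc} u + ρ_{(bc)a} u + ρ_bρ_aρ_c u - ρ_bρ_{ca} u`.
-/

namespace Pool.Agent.MP_754a42_al

variable {F A V : Type*} [Field F] [CharZero F] [AddCommGroup A] [Module F A]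
  [AddCommGroup V] [Module F V] {mul : A →ₗ[F] A →ₗ[F] A} {ρ : A →ₗ[F] Module.End F V}

/-- `d(a,b) = ρ_a ρ_b - ρ_b ρ_a - ρ_{ab}` -/
def dd (mul : A →ₗ[F] A →ₗ[F] A) (ρ : A →ₗ[F] Module.End F V) (a b : A) : Module.End F V :=
  ρ a * ρ b - ρ b * ρ a - ρ (mul a b)

private theorem skew' (h : IsMalcev mul) (a b : A) : mul b a = - mul a b := by
  have h1 := h.self (a + b)
  simp only [map_add, LinearMap.add_apply, h.self, zero_add, add_zero] at h1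
  exact eq_neg_of_add_eq_zero_left h1

private theorem opZ (r1 : ∀ a b, ρ a * dd mul ρ a b + dd mul ρ a b * ρ a = 0) (a b : A) :
    ρ a * ρ a * ρ b - ρ b * ρ a * ρ a - ρ a * ρ (mul a b) - ρ (mul a b) * ρ a = 0 := by
  have h1 := r1 a b
  rw [← h1]
  simp only [dd]
  noncomm_ring

private theorem opY (h : IsMalcev mul)
    (r1 : ∀ a b, ρ a * dd mul ρ a b + dd mul ρ a b * ρ a = 0)
    (r2 : ∀ z a b, ρ z * dd mul ρ a b - dd mul ρ a b * ρ z = (3/2 : F) • dd mul ρ (mul a b) z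
      - (1/2 : F) • dd mul ρ (mul b z) a - (1/2 : F) • dd mul ρ (mul z a) b) (a c : A) :
    ρ (mul (mul c a) a) - ρ a * ρ a * ρ c + ρ a * ρ c * ρ a + ρ (mul a c) * ρ a = 0 := by
  have h1 := r2 a a c
  have h2 := opZ r1 a c
  have e1 : mul a c = - mul c a := skew' h c a
  have e2 : mul a a = 0 := h.self a
  simp only [dd, e1, e2, map_neg, map_zero, LinearMap.neg_apply, LinearMap.zero_apply, mul_sub, sub_mul, mul_neg, neg_mul, zero_mul, mul_zero, sub_zero, mul_assoc] at h1 h2 ⊢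
  linear_combination (norm := module) (-1/2 : F) • h1 + (-1/2 : F) • h2

private theorem opX (h : IsMalcev mul)
    (r1 : ∀ a b, ρ a * dd mul ρ a b + dd mul ρ a b * ρ a = 0)
    (r2 : ∀ z a b, ρ z * dd mul ρ a b - dd mul ρ a b * ρ z = (3/2 : F) • dd mul ρ (mul a b) z
      - (1/2 : F) • dd mul ρ (mul b z) a - (1/2 : F) • dd mul ρ (mul z a) b) (a b c : A) :
    ρ (mul a c) * ρ b - ρ (mul a b) * ρ c + ρ a * ρ c * ρ b - ρ (mul (mul a b) c)
      + ρ a * ρ (mul b c) - ρ (mul (mul b c) a) - ρ b * ρ a * ρ c + ρ b * ρ (mul c a) = 0 := by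
  have h1 := r2 a b c
  have h2 := r2 b a c
  have h3 := r2 c a b
  have h4 := r1 (a + c) b
  have h5 := r1 a b
  have h6 := r1 c b
  have e1 : mul a c = - mul c a := skew' h c a
  have e2 : mul c b = - mul b c := skew' h b c
  have e3 : mul b a = - mul a b := skew' h a b
  simp only [dd, e1, e2, e3, map_add, LinearMap.add_apply, add_mul, mul_add, map_neg, map_zero, LinearMap.neg_apply, LinearMap.zero_apply, mul_sub, sub_mul, mul_neg, neg_mul, zero_mul, mul_zero, sub_zero, mul_assoc] at h1 h2 h3 h4 h5 h6 ⊢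
  linear_combination (norm := module) (-3/2 : F) • h1 + h2 + (-3/2 : F) • h3 + (1/2 : F) • h4 - (1/2 : F) • h5 - (1/2 : F) • h6

theorem isRep_of_rel (h : IsMalcev mul)
    (r1 : ∀ a b, ρ a * dd mul ρ a b + dd mul ρ a b * ρ a = 0)
    (r2 : ∀ z a b, ρ z * dd mul ρ a b - dd mul ρ a b * ρ z = (3/2 : F) • dd mul ρ (mul a b) z
      - (1/2 : F) • dd mul ρ (mul b z) a - (1/2 : F) • dd mul ρ (mul z a) b) : IsRep mul ρ := by
  refine ⟨fun x => ?_, fun x y z => ?_⟩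
  · simp [h.self]
  · obtain ⟨a, u⟩ := x
    obtain ⟨b, v⟩ := y
    obtain ⟨c, w⟩ := z
    have hZ := LinearMap.congr_fun (opZ r1 a b) w
    have hY := LinearMap.congr_fun (opY h r1 r2 a c) v
    have hX := LinearMap.congr_fun (opX h r1 r2 a b c) u
    ext1
    · simpa using h.malcev a b c
    · simp only [nullExt_apply, Prod.snd_add, map_sub, LinearMap.sub_apply, LinearMap.add_apply,
        Module.End.mul_apply, LinearMap.zero_apply] at hZ hY hX ⊢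
      linear_combination (norm := module) hX - hY - hZ

end Pool.Agent.MP_754a42_al
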