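import Pool.Agent.Lib.MP_754a42_al.X12

/-!
# MP_754a42_al: symmetric powers as homogeneous polynomials (definitions).
-/

namespace Pool.Agent.MP_754a42_al

universe u

variable {F : Type u} [Field F] {g : Type u} [AddCommGroup g] [Module F g] {ι : Type} [Fintype ι]

/-- homogeneous polynomials of degree `k` -/
abbrev Sy (F : Type u) [Field F] (ι : Type) (k : ℕ) : Type u :=
  ↥(MvPolynomial.homogeneousSubmodule ι F k)

/-- `x ↦ ∑ x_i X_i` -/
noncomputable def lin (b : Module.Basis ι F g) : g →ₗ[F] MvPolynomial ι F :=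
  ∑ i, (b.coord i).smulRight (MvPolynomial.X i : MvPolynomial ι F)

theorem lin_apply (b : Module.Basis ι F g) (x : g) :
    lin b x = ∑ i, b.coord i x • (MvPolynomial.X i : MvPolynomial ι F) := by
  simp [lin, LinearMap.sum_apply]

theorem lin_mem (b : Module.Basis ι F g) (x : g) :
    lin b x ∈ MvPolynomial.homogeneousSubmodule ι F 1 := by
  rw [lin_apply]
  exact Submodule.sum_mem _ fun i _ => Submodule.smul_mem _ _ (MvPolynomial.isHomogeneous_X F i)

/-- multiplication `x f` -/
noncomputable def mS (b : Module.Basis ι F g) (k : ℕ) : g →ₗ[F] Sy F ι k →ₗ[F] Sy F ι (k+1) :=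
  LinearMap.mk₂ F (fun x f => ⟨lin b x * f.1, by
      have h1 := lin_mem b x
      have h2 := f.2
      rw [MvPolynomial.mem_homogeneousSubmodule] at *
      rw [add_comm]
      exact h1.mul h2⟩)
    (fun x y f => by ext1; simp [add_mul]) (fun c x f => by ext1; simp)
    (fun x f g => by ext1; simp [mul_add]) (fun c x f => by ext1; simp)

@[simp] theorem mS_val (b : Module.Basis ι F g) (k : ℕ) (x : g) (f : Sy F ι k) :
    ((mS b k x f : Sy F ι (k+1)) : MvPolynomial ι F) = lin b x * f.1 := rfl

theorem mS_comm (b : Module.Basis ι F g) (k : ℕ) (x y : g) (f : Sy F ι k) :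
    mS b (k+1) x (mS b k y f) = mS b (k+1) y (mS b k x f) := by
  ext1; simp only [mS_val]; ring

/-- the product of two linear forms -/
noncomputable def sq (b : Module.Basis ι F g) : g →ₗ[F] g →ₗ[F] Sy F ι 2 :=
  LinearMap.mk₂ F (fun x y => mS b 1 x ⟨lin b y, lin_mem b y⟩)
    (fun x y f => by simp) (fun c x f => by simp)
    (fun x f g => by ext1; simp [mul_add]) (fun c x f => by ext1; simp)

@[simp] theorem sq_val (b : Module.Basis ι F g) (x y : g) :
    ((sq b x y : Sy F ι 2) : MvPolynomial ι F) = lin b x * lin b y := rfl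

end Pool.Agent.MP_754a42_al
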