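import Pool.Agent.Lib.MP_754a42_al.N7
import Pool.Agent.Lib.MP_754a42_al.S0

/-!
# MP_754a42_al: the base data (definitions used by the F rows).
-/

open scoped TensorProduct

namespace Pool.Agent.MP_754a42_al

universe u

variable {F : Type u} [Field F] {A : Type u} [AddCommGroup A] [Module F A]
  {L : Type u} [LieRing L] [LieAlgebra F L] {M : Type u} [AddCommGroup M] [Module F M]

/-- `δ(a,b) = [r a, r b] - r (a b)` -/
noncomputable def dl (mul : A →ₗ[F] A →ₗ[F] A) (r : A →ₗ[F] L) : A →ₗ[F] A →ₗ[F] L :=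
  LinearMap.mk₂ F (fun a b => ⁅r a, r b⁆ - r (mul a b))
    (fun x y f => by simp; abel) (fun c x f => by simp [smul_sub])
    (fun x f g => by simp; abel) (fun c x f => by simp [smul_sub])

@[simp] theorem dl_apply (mul : A →ₗ[F] A →ₗ[F] A) (r : A →ₗ[F] L) (a b : A) :
    dl mul r a b = ⁅r a, r b⁆ - r (mul a b) := rfl

/-- `A²`, the span of all products -/
def A2 (mul : A →ₗ[F] A →ₗ[F] A) : Submodule F A := Submodule.span F {c | ∃ a b, mul a b = c}

/-- `v ⊗ (u ⊗ x) ↦ v ⊗ (u·x) - u ⊗ (v·x)` -/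
noncomputable def TT (m : L →ₗ[F] L →ₗ[F] M) : L ⊗[F] (L ⊗[F] L) →ₗ[F] L ⊗[F] M :=
  (LinearMap.lTensor L (TensorProduct.lift m)).comp
    (LinearMap.id - (TensorProduct.leftComm F L L L).toLinearMap)

theorem TT_apply (m : L →ₗ[F] L →ₗ[F] M) (v u x : L) :
    TT m (v ⊗ₜ (u ⊗ₜ x)) = v ⊗ₜ m u x - u ⊗ₜ m v x := by
  simp [TT]

/-- `v ⊗ (u ⊗ x) ↦ [[v,u],x]` -/
noncomputable def th3 (F : Type u) [Field F] (L : Type u) [LieRing L] [LieAlgebra F L] :
    L ⊗[F] (L ⊗[F] L) →ₗ[F] L :=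
  TensorProduct.lift (LinearMap.mk₂ F
    (fun v w => TensorProduct.lift (LinearMap.mk₂ F (fun u x => (⁅⁅v, u⁆, x⁆ : L))
      (fun x y f => by simp) (fun c x f => by simp)
      (fun x f g => by simp) (fun c x f => by simp)) w)
    (fun x y f => by
      induction f using TensorProduct.induction_on with
      | zero => simp
      | tmul a b => simp
      | add a b ha hb => simp only [map_add, ha, hb]; abel)
    (fun c x f => by
      induction f using TensorProduct.induction_on with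
      | zero => simp
      | tmul a b => simp
      | add a b ha hb => simp only [map_add, ha, hb, smul_add])
    (fun x f g => by simp) (fun c x f => by simp))

theorem th3_apply (v u x : L) : th3 F L (v ⊗ₜ (u ⊗ₜ x)) = ⁅⁅v, u⁆, x⁆ := by
  simp [th3]

/-- The base data: `L` Lie algebra generated by `r(A)` as `r(A) + δ(A,A)`, `M` a quotient of `S²L` killing `r a · δ(a,b)`,
`ad` the action of `L` on `M`, and condition `(★)`. -/
structure Base (mul : A →ₗ[F] A →ₗ[F] A) (r : A →ₗ[F] L) (m : L →ₗ[F] L →ₗ[F] M)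
    (ad : L →ₗ[F] M →ₗ[F] M) : Prop where
  anti : ∀ a, mul a a = 0
  V1 : ∀ z a b, ⁅r z, dl mul r a b⁆ = (3/2 : F) • dl mul r (mul a b) z
    - (1/2 : F) • dl mul r (mul b z) a - (1/2 : F) • dl mul r (mul z a) b
  spanL : ∀ P : Submodule F L, (∀ a, r a ∈ P) → (∀ a b, dl mul r a b ∈ P) → ∀ v, v ∈ P
  comm : ∀ x y, m x y = m y x
  spanM : ∀ P : Submodule F M, (∀ x y, m x y ∈ P) → ∀ q, q ∈ P
  ad_m : ∀ v x y, ad v (m x y) = m ⁅v, x⁆ y + m x ⁅v, y⁆
  mal : ∀ a b, m (r a) (dl mul r a b) = 0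
  star : ∀ ξ : L ⊗[F] (L ⊗[F] L), TT m ξ = 0 → th3 F L ξ = 0

/-- projection to the exterior side: `C = A/A²` via `κ`, `q : L → C × Λ²C`, `prN : M → Λ⁴C × Λ³C` -/
structure ProjN (mul : A →ₗ[F] A →ₗ[F] A) (r : A →ₗ[F] L) (m : L →ₗ[F] L →ₗ[F] M)
    {C : Type u} [AddCommGroup C] [Module F C] (κ : A →ₗ[F] C) (q : L →ₗ[F] (C × Lm F C 2))
    (prN : M →ₗ[F] (Lm F C 4 × Lm F C 3)) : Prop where
  surj : Function.Surjective κ
  ker : ∀ a, κ a = 0 ↔ a ∈ A2 mul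
  q_r : ∀ a, q (r a) = (κ a, 0)
  q_dl : ∀ a b, q (dl mul r a b) = (0, (2 : F) • pr (κ a) (κ b))
  pr_m : ∀ v u, prN (m v u) = (mulP 2 (q v).2 (q u).2, wd 2 (q v).1 (q u).2 + wd 2 (q u).1 (q v).2)

/-- projection to the polynomial side: `g = L/D` via `γ`, `prS : M → S²g` -/
structure ProjS (mul : A →ₗ[F] A →ₗ[F] A) (r : A →ₗ[F] L) (m : L →ₗ[F] L →ₗ[F] M)
    {g : Type u} [AddCommGroup g] [Module F g] (γ : L →ₗ[F] g) {ι : Type} [Fintype ι]
    (b : Module.Basis ι F g) (prS : M →ₗ[F] Sy F ι 2) : Prop where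
  surj : Function.Surjective γ
  ker : ∀ v, γ v = 0 ↔ v ∈ Submodule.span F {w | ∃ a b, dl mul r a b = w}
  pr_m : ∀ v u, prS (m v u) = sq b (γ v) (γ u)

/-- `W'' = span { r a · δ(b,μ) : μ ∈ A² }` -/
def W2 (mul : A →ₗ[F] A →ₗ[F] A) (r : A →ₗ[F] L) (m : L →ₗ[F] L →ₗ[F] M) : Submodule F M :=
  Submodule.span F {w | ∃ a b, ∃ μ ∈ A2 mul, m (r a) (dl mul r b μ) = w}

end Pool.Agent.MP_754a42_al
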