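import Pool.Agent.Lib.MP_754a42_al.Ext

/-!
# MP_754a42_al: contraction and the Euler identity
-/

open scoped TensorProduct

namespace Pool.Agent.MP_754a42_al

universe u

variable {F : Type u} [Field F] {C : Type u} [AddCommGroup C] [Module F C]

theorem ct_mem (m : ℕ) (φ : Module.Dual F C) (g : Lm F C (m+1)) :
    CliffordAlgebra.contractLeft (Q := (0 : QuadraticForm F C)) φ (g : ExteriorAlgebra F C)
      ∈ ⋀[F]^m C := by
  induction m with
  | zero =>
    refine span_wd 0 (Submodule.comap ((CliffordAlgebra.contractLeft (Q := (0 : QuadraticForm F C)) φ).comp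
      (Submodule.subtype _)) (⋀[F]^0 C)) (fun x f => ?_) g
    show CliffordAlgebra.contractLeft (Q := (0 : QuadraticForm F C)) φ
      (ExteriorAlgebra.ι F x * (f : ExteriorAlgebra F C)) ∈ ⋀[F]^0 C
    have := CliffordAlgebra.contractLeft_ι_mul (Q := (0 : QuadraticForm F C)) φ x (f : ExteriorAlgebra F C)
    have h0 : CliffordAlgebra.contractLeft (Q := (0 : QuadraticForm F C)) φ (f : ExteriorAlgebra F C) = 0 := by
      obtain ⟨f, hf⟩ := f
      have hf' : f ∈ (1 : Submodule F (ExteriorAlgebra F C)) := by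
        have : (⋀[F]^0 C) = 1 := pow_zero _
        rw [← this]; exact hf
      obtain ⟨c, rfl⟩ := Submodule.mem_one.1 hf'
      exact CliffordAlgebra.contractLeft_algebraMap (Q := (0 : QuadraticForm F C)) φ c
    have e : CliffordAlgebra.contractLeft (Q := (0 : QuadraticForm F C)) φ
      (ExteriorAlgebra.ι F x * (f : ExteriorAlgebra F C)) = φ x • (f : ExteriorAlgebra F C) := by
      rw [show (ExteriorAlgebra.ι F x : ExteriorAlgebra F C) = CliffordAlgebra.ι _ x from rfl, this, h0, mul_zero, sub_zero]
    rw [e]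
    exact Submodule.smul_mem _ _ f.2
  | succ m ih =>
    refine span_wd (m+1) (Submodule.comap ((CliffordAlgebra.contractLeft (Q := (0 : QuadraticForm F C)) φ).comp
      (Submodule.subtype _)) (⋀[F]^(m+1) C)) (fun x f => ?_) g
    show CliffordAlgebra.contractLeft (Q := (0 : QuadraticForm F C)) φ
      (ExteriorAlgebra.ι F x * (f : ExteriorAlgebra F C)) ∈ ⋀[F]^(m+1) C
    have e : CliffordAlgebra.contractLeft (Q := (0 : QuadraticForm F C)) φ
      (ExteriorAlgebra.ι F x * (f : ExteriorAlgebra F C)) = φ x • (f : ExteriorAlgebra F C)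
        - ExteriorAlgebra.ι F x * CliffordAlgebra.contractLeft (Q := (0 : QuadraticForm F C)) φ (f : ExteriorAlgebra F C) :=
      CliffordAlgebra.contractLeft_ι_mul (Q := (0 : QuadraticForm F C)) φ x (f : ExteriorAlgebra F C)
    rw [e]
    refine Submodule.sub_mem _ (Submodule.smul_mem _ _ f.2) ?_
    exact wd_mem m x ⟨_, ih f⟩

/-- contraction with a linear form -/
noncomputable def ct (m : ℕ) : Module.Dual F C →ₗ[F] Lm F C (m+1) →ₗ[F] Lm F C m :=
  LinearMap.mk₂ F (fun φ g => ⟨CliffordAlgebra.contractLeft (Q := (0 : QuadraticForm F C)) φ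
      (g : ExteriorAlgebra F C), ct_mem m φ g⟩)
    (fun x y f => by ext; simp) (fun c x f => by ext; simp)
    (fun x f g => by ext; simp) (fun c x f => by ext; simp)

theorem ct_val (m : ℕ) (φ : Module.Dual F C) (g : Lm F C (m+1)) :
    ((ct m φ g : Lm F C m) : ExteriorAlgebra F C) =
      CliffordAlgebra.contractLeft (Q := (0 : QuadraticForm F C)) φ (g : ExteriorAlgebra F C) := rfl

theorem ct_wd_zero (φ : Module.Dual F C) (x : C) (f : Lm F C 0) :
    ct 0 φ (wd 0 x f) = φ x • f := by
  ext
  rw [ct_val]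
  have h0 : CliffordAlgebra.contractLeft (Q := (0 : QuadraticForm F C)) φ (f : ExteriorAlgebra F C) = 0 := by
    obtain ⟨f, hf⟩ := f
    have hf' : f ∈ (1 : Submodule F (ExteriorAlgebra F C)) := by
      have : (⋀[F]^0 C) = 1 := pow_zero _
      rw [← this]; exact hf
    obtain ⟨c, rfl⟩ := Submodule.mem_one.1 hf'
    exact CliffordAlgebra.contractLeft_algebraMap (Q := (0 : QuadraticForm F C)) φ c
  have := CliffordAlgebra.contractLeft_ι_mul (Q := (0 : QuadraticForm F C)) φ x (f : ExteriorAlgebra F C)
  rw [h0, mul_zero, sub_zero] at this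
  exact this

theorem ct_wd (m : ℕ) (φ : Module.Dual F C) (x : C) (f : Lm F C (m+1)) :
    ct (m+1) φ (wd (m+1) x f) = φ x • f - wd m x (ct m φ f) := by
  ext
  exact CliffordAlgebra.contractLeft_ι_mul (Q := (0 : QuadraticForm F C)) φ x (f : ExteriorAlgebra F C)

theorem sum_coord {ι : Type*} [Fintype ι] (b : Module.Basis ι F C) {Z : Type*} [AddCommGroup Z]
    [Module F Z] (T : C →ₗ[F] Z) (x : C) : ∑ i, b.coord i x • T (b i) = T x := by
  have h := b.sum_repr x
  have h2 : T (∑ i, b.repr x i • b i) = T x := by rw [h]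
  rw [← h2, map_sum]
  exact Finset.sum_congr rfl fun i _ => by rw [map_smul]; rfl

/-- Euler identity -/
theorem euler {ι : Type*} [Fintype ι] (b : Module.Basis ι F C) (m : ℕ) (g : Lm F C (m+1)) :
    ∑ i, wd m (b i) (ct m (b.coord i) g) = ((m : F) + 1) • g := by
  induction m with
  | zero =>
    have := ext_wd 0 (∑ i, (wd 0 (b i)).comp (ct 0 (b.coord i))) ((((0:ℕ) : F) + 1) • LinearMap.id)
      (fun x f => by
        simp only [LinearMap.sum_apply, LinearMap.comp_apply, ct_wd_zero, map_smul, LinearMap.smul_apply,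
          LinearMap.id_apply, Nat.cast_zero, zero_add, one_smul]
        exact sum_coord b ((wd 0).flip f) x) g
    simpa [LinearMap.sum_apply] using this
  | succ m ih =>
    have := ext_wd (m+1) (∑ i, (wd (m+1) (b i)).comp (ct (m+1) (b.coord i)))
      ((((m+1 : ℕ) : F) + 1) • LinearMap.id)
      (fun x f => by
        simp only [LinearMap.sum_apply, LinearMap.comp_apply, ct_wd, map_sub, map_smul, LinearMap.smul_apply,
          LinearMap.id_apply, Finset.sum_sub_distrib]
        have h1 : ∑ i, (b.coord i) x • wd (m+1) (b i) f = wd (m+1) x f :=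
          sum_coord b ((wd (m+1)).flip f) x
        have h2 : ∑ i, wd (m+1) (b i) (wd m x (ct m (b.coord i) f))
            = - wd (m+1) x (((m : F) + 1) • f) := by
          rw [← ih f, map_sum, ← Finset.sum_neg_distrib]
          exact Finset.sum_congr rfl (fun i _ => wd_skew m (b i) x _)
        rw [h1, h2, map_smul]
        push_cast
        module) g
    simpa [LinearMap.sum_apply] using this

end Pool.Agent.MP_754a42_al
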