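import Pool.Agent.Lib.MP_754a42_al.Stmt

/-!
# MP_754a42_al, row E1: the smallest closed pair is reached by a finite iteration.

Definitions: `stepN N Q`, `stepQ N Q` add to `N`, `Q` everything that the closure conditions force in one step; `chain 0 = (⊥, ⊥)`,
`chain (k+1) = (stepN (chain k), stepQ (chain k))`.
1. `chain` is monotone: `(chain k).1 ≤ (chain (k+1)).1`, `(chain k).2 ≤ (chain (k+1)).2` (`le_sup_left`...).
2. `chain k ≤ (N,Q)` componentwise for every closed pair `(N,Q)` (induction; for the `th`-part: if `N' ≤ N`, `Q' ≤ Q` and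
   `map N'.mkQ Q'.mkQ (Alt ξ) = 0` then `map N.mkQ Q.mkQ (Alt ξ) = 0`, by factoring, so `th ξ ∈ N`).
   Hence `(chain k).1 ≤ rad mul`.
3. If `chain (k+1) = chain k`, then `chain k` is a closed pair, so `rad mul ≤ (chain k).1` (`sInf_le`).
4. `d k := finrank (chain k).1 + finrank (chain k).2` is monotone and bounded by `n := finrank LH + finrank (LH ⊗ LH)`; if
   `chain (k+1) ≠ chain k` then `d (k+1) > d k` (`Submodule.finrank_lt_finrank_of_lt`).  So there is `k ≤ n` with
   `chain (k+1) = chain k` (otherwise `d (n+1) ≥ n+1`), then `chain n = chain k` (constant from `k` on), and `(chain n).1 = rad mul`.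
-/

open scoped TensorProduct

namespace Pool.Agent.MP_754a42_al

universe u

variable {F A : Type u} [Field F] [AddCommGroup A] [Module F A] (mul : A →ₗ[F] A →ₗ[F] A)

theorem e1_stepN_mono_self (N : Submodule F (LH F A)) (Q : Submodule F (LH F A ⊗[F] LH F A)) :
    N ≤ stepN mul N Q :=
  le_sup_left.trans (le_sup_left.trans le_sup_left)

theorem e1_stepQ_mono_self (N : Submodule F (LH F A)) (Q : Submodule F (LH F A ⊗[F] LH F A)) :
    Q ≤ stepQ mul N Q :=
  le_sup_left.trans (le_sup_left.trans (le_sup_left.trans le_sup_left))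

theorem e1_star {N N' : Submodule F (LH F A)} {Q Q' : Submodule F (LH F A ⊗[F] LH F A)}
    (hN : N' ≤ N) (hQ : Q' ≤ Q) (z : LH F A ⊗[F] (LH F A ⊗[F] LH F A))
    (hz : TensorProduct.map N'.mkQ Q'.mkQ z = 0) : TensorProduct.map N.mkQ Q.mkQ z = 0 := by
  have h1 : N.mkQ = (N'.mapQ N LinearMap.id hN) ∘ₗ N'.mkQ := by
    ext x <;> rfl
  have h2 : Q.mkQ = (Q'.mapQ Q LinearMap.id hQ) ∘ₗ Q'.mkQ := by
    refine LinearMap.ext fun x => ?_
    rfl
  rw [h1, h2, TensorProduct.map_comp, LinearMap.comp_apply, hz, map_zero]

theorem e1_chain_le {N : Submodule F (LH F A)} {Q : Submodule F (LH F A ⊗[F] LH F A)}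
    (h : Closed mul N Q) (k : ℕ) : (chain mul k).1 ≤ N ∧ (chain mul k).2 ≤ Q := by
  induction k with
  | zero => exact ⟨bot_le, bot_le⟩
  | succ k ih =>
    obtain ⟨h1, h2⟩ := ih
    constructor
    · change stepN mul (chain mul k).1 (chain mul k).2 ≤ N
      refine sup_le (sup_le (sup_le h1 ?_) ?_) ?_
      · rw [Submodule.span_le]
        rintro y ⟨x, rfl⟩
        exact h.self x
      · rw [Submodule.span_le]
        rintro y ⟨x, n, hn, rfl⟩
        exact h.ideal x n (h1 hn)
      · rintro y ⟨ξ, hξ, rfl⟩
        exact h.star ξ (e1_star h1 h2 _ hξ)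
    · change stepQ mul (chain mul k).1 (chain mul k).2 ≤ Q
      refine sup_le (sup_le (sup_le (sup_le h2 ?_) ?_) ?_) ?_
      · rw [Submodule.span_le]
        rintro t ⟨x, y, rfl⟩
        exact h.symm x y
      · rw [Submodule.span_le]
        rintro t ⟨a, b, rfl⟩
        exact h.mal a b
      · rw [Submodule.span_le]
        rintro t ⟨v, q, hq, rfl⟩
        exact h.ad v q (h2 hq)
      · rw [Submodule.span_le]
        rintro t ⟨n, hn, x, rfl⟩
        exact h.left n (h1 hn) x

theorem e1_closed {N : Submodule F (LH F A)} {Q : Submodule F (LH F A ⊗[F] LH F A)}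
    (hN : stepN mul N Q ≤ N) (hQ : stepQ mul N Q ≤ Q) : Closed mul N Q where
  symm x y := by
    refine hQ ?_
    refine Submodule.mem_sup_left (Submodule.mem_sup_left (Submodule.mem_sup_left
      (Submodule.mem_sup_right ?_)))
    exact Submodule.subset_span ⟨x, y, rfl⟩
  mal a b := by
    refine hQ ?_
    refine Submodule.mem_sup_left (Submodule.mem_sup_left (Submodule.mem_sup_right ?_))
    exact Submodule.subset_span ⟨a, b, rfl⟩
  ad v q hq := by
    refine hQ ?_
    refine Submodule.mem_sup_left (Submodule.mem_sup_right ?_)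
    exact Submodule.subset_span ⟨v, q, hq, rfl⟩
  left n hn x := by
    refine hQ ?_
    refine Submodule.mem_sup_right ?_
    exact Submodule.subset_span ⟨n, hn, x, rfl⟩
  self x := by
    refine hN ?_
    refine Submodule.mem_sup_left (Submodule.mem_sup_left (Submodule.mem_sup_right ?_))
    exact Submodule.subset_span ⟨x, rfl⟩
  ideal x n hn := by
    refine hN ?_
    refine Submodule.mem_sup_left (Submodule.mem_sup_right ?_)
    exact Submodule.subset_span ⟨x, n, hn, rfl⟩
  star ξ hξ := by
    refine hN ?_
    refine Submodule.mem_sup_right ?_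
    exact ⟨ξ, hξ, rfl⟩

theorem e1_const {k : ℕ} (h : chain mul (k + 1) = chain mul k) (j : ℕ) :
    chain mul (k + j) = chain mul k := by
  induction j with
  | zero => rfl
  | succ j ih =>
    have h1 : chain mul (k + j + 1) =
        (stepN mul (chain mul (k + j)).1 (chain mul (k + j)).2,
          stepQ mul (chain mul (k + j)).1 (chain mul (k + j)).2) := rfl
    have h2 : chain mul (k + 1) =
        (stepN mul (chain mul k).1 (chain mul k).2,
          stepQ mul (chain mul k).1 (chain mul k).2) := rfl
    rw [← Nat.add_assoc, h1, ih, ← h2, h]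

theorem chain_eq_rad [FiniteDimensional F A] :
    (chain mul (Module.finrank F (LH F A) + Module.finrank F (LH F A ⊗[F] LH F A))).1 = rad mul := by
  set n := Module.finrank F (LH F A) + Module.finrank F (LH F A ⊗[F] LH F A) with hn
  -- some step is constant
  have hex : ∃ k, k ≤ n ∧ chain mul (k + 1) = chain mul k := by
    by_contra hcon
    push Not at hcon
    have hd : ∀ k, k ≤ n + 1 → k ≤ Module.finrank F (chain mul k).1 + Module.finrank F (chain mul k).2 := by
      intro k
      induction k with
      | zero => intro _; exact Nat.zero_le _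
      | succ k ih =>
        intro hk
        have h1 := ih (by omega)
        have hne := hcon k (by omega)
        have h2 : (chain mul k).1 ≤ (chain mul (k + 1)).1 := e1_stepN_mono_self mul _ _
        have h3 : (chain mul k).2 ≤ (chain mul (k + 1)).2 := e1_stepQ_mono_self mul _ _
        have h4 := Submodule.finrank_mono h2
        have h5 := Submodule.finrank_mono h3
        by_cases h6 : (chain mul k).1 = (chain mul (k + 1)).1
        · have h7 : (chain mul k).2 ≠ (chain mul (k + 1)).2 := fun h8 => hne (Prod.ext h6 h8).symm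
          have h9 := Submodule.finrank_lt_finrank_of_lt (lt_of_le_of_ne h3 h7)
          omega
        · have h9 := Submodule.finrank_lt_finrank_of_lt (lt_of_le_of_ne h2 h6)
          omega
    have h1 := hd (n + 1) le_rfl
    have h2 := Submodule.finrank_le (chain mul (n + 1)).1
    have h3 := Submodule.finrank_le (chain mul (n + 1)).2
    omega
  obtain ⟨k, hk, hkc⟩ := hex
  have hnk : chain mul n = chain mul k := by
    obtain ⟨j, hj⟩ := Nat.exists_eq_add_of_le hk
    rw [hj]
    exact e1_const mul hkc j
  rw [hnk]
  apply le_antisymm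
  · unfold rad
    refine le_sInf ?_
    rintro N ⟨Q, hNQ⟩
    exact (e1_chain_le mul hNQ k).1
  · unfold rad
    refine sInf_le ⟨(chain mul k).2, ?_⟩
    refine e1_closed mul ?_ ?_
    · have := congrArg Prod.fst hkc
      exact this.le
    · have := congrArg Prod.snd hkc
      exact this.le

end Pool.Agent.MP_754a42_al
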