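import Mathlib

/-!
# MP_754a42_al: the exterior powers of a vector space, letter interface.
`Lm F C m = ⋀[F]^m C`;  `wd x f = x ∧ f`,  `pr x y = x ∧ y : Lm 2`,  `mulP p f = p ∧ f` (`p : Lm 2`),
`ct φ` contraction.  Basic facts are proved here.
-/

open scoped TensorProduct

namespace Pool.Agent.MP_754a42_al

universe u

section
variable (F : Type u) [Field F] (C : Type u) [AddCommGroup C] [Module F C]

/-- the `m`-th exterior power -/
abbrev Lm (m : ℕ) : Type u := ↥(⋀[F]^m C)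

variable {F C}

theorem wd_mem (m : ℕ) (x : C) (f : Lm F C m) :
    ExteriorAlgebra.ι F x * (f : ExteriorAlgebra F C) ∈ ⋀[F]^(m+1) C := by
  have : (⋀[F]^(m+1) C) = LinearMap.range (ExteriorAlgebra.ι F : C →ₗ[F] _) * ⋀[F]^m C :=
    pow_succ' _ _
  rw [this]
  exact Submodule.mul_mem_mul ⟨x, rfl⟩ f.2

/-- `wd x f = x ∧ f` -/
noncomputable def wd (m : ℕ) : C →ₗ[F] Lm F C m →ₗ[F] Lm F C (m+1) :=
  LinearMap.mk₂ F (fun x f => ⟨ExteriorAlgebra.ι F x * f.1, wd_mem m x f⟩)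
    (fun x y f => by ext; simp [add_mul]) (fun c x f => by ext; simp)
    (fun x f g => by ext; simp [mul_add]) (fun c x f => by ext; simp)

@[simp] theorem wd_val (m : ℕ) (x : C) (f : Lm F C m) :
    ((wd m x f : Lm F C (m+1)) : ExteriorAlgebra F C) = ExteriorAlgebra.ι F x * f.1 := rfl

theorem wd_self (m : ℕ) (x : C) (f : Lm F C m) : wd (m+1) x (wd m x f) = 0 := by
  ext; simp [← mul_assoc]

theorem wd_skew (m : ℕ) (x y : C) (f : Lm F C m) :
    wd (m+1) x (wd m y f) = - wd (m+1) y (wd m x f) := by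
  have h := wd_self m (x+y) f
  simp only [map_add, LinearMap.add_apply, wd_self, zero_add, add_zero] at h
  rw [eq_neg_iff_add_eq_zero]
  rw [add_comm (wd (m+1) x (wd m y f))]; exact h

/-- induction: `Lm (m+1)` is spanned by the `x ∧ f` -/
theorem span_wd (m : ℕ) (P : Submodule F (Lm F C (m+1))) (h : ∀ x f, wd m x f ∈ P)
    (g : Lm F C (m+1)) : g ∈ P := by
  obtain ⟨g, hg⟩ := g
  have hg' : g ∈ LinearMap.range (ExteriorAlgebra.ι F : C →ₗ[F] _) * ⋀[F]^m C := by
    rw [← pow_succ']; exact hg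
  suffices H : ∃ h' : g ∈ ⋀[F]^(m+1) C, (⟨g, h'⟩ : Lm F C (m+1)) ∈ P from H.2
  induction hg' using Submodule.mul_induction_on' with
  | mem_mul_mem a ha b hb =>
    obtain ⟨x, rfl⟩ := ha
    exact ⟨wd_mem m x ⟨b, hb⟩, h x ⟨b, hb⟩⟩
  | add a ha b hb iha ihb =>
    have e : (⋀[F]^(m+1) C) = LinearMap.range (ExteriorAlgebra.ι F : C →ₗ[F] _) * ⋀[F]^m C :=
      pow_succ' _ _
    have ha' : a ∈ ⋀[F]^(m+1) C := by rw [e]; exact ha
    have hb' : b ∈ ⋀[F]^(m+1) C := by rw [e]; exact hb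
    obtain ⟨h1, h2⟩ := iha ha'
    obtain ⟨h3, h4⟩ := ihb hb'
    exact ⟨Submodule.add_mem _ h1 h3, P.add_mem h2 h4⟩

/-- two linear maps on `Lm (m+1)` that agree on the `x ∧ f` are equal -/
theorem ext_wd (m : ℕ) {Z : Type*} [AddCommGroup Z] [Module F Z] (s t : Lm F C (m+1) →ₗ[F] Z)
    (h : ∀ x f, s (wd m x f) = t (wd m x f)) (g : Lm F C (m+1)) : s g = t g := by
  have := span_wd m (LinearMap.eqLocus s t) (fun x f => h x f) g
  exact this

/-- the unit -/
noncomputable def one : Lm F C 0 := ⟨1, by simp⟩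

/-- `pr x y = x ∧ y` -/
noncomputable def pr : C →ₗ[F] C →ₗ[F] Lm F C 2 :=
  LinearMap.mk₂ F (fun x y => wd 1 x (wd 0 y one))
    (fun x y f => by simp) (fun c x f => by simp)
    (fun x f g => by simp) (fun c x f => by simp)

@[simp] theorem pr_val (x y : C) :
    ((pr x y : Lm F C 2) : ExteriorAlgebra F C) = ExteriorAlgebra.ι F x * ExteriorAlgebra.ι F y := by
  show ExteriorAlgebra.ι F x * (ExteriorAlgebra.ι F y * 1) = _
  rw [mul_one]

theorem pr_self (x : C) : (pr x x : Lm F C 2) = 0 := by ext; simp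

theorem pr_skew (x y : C) : (pr x y : Lm F C 2) = - pr y x := by
  have h := pr_self (F := F) (x+y)
  simp only [map_add, LinearMap.add_apply, pr_self, zero_add, add_zero] at h
  rw [eq_neg_iff_add_eq_zero, add_comm]; exact h

theorem mulP_mem (m : ℕ) (p : Lm F C 2) (f : Lm F C m) :
    (p : ExteriorAlgebra F C) * (f : ExteriorAlgebra F C) ∈ ⋀[F]^(m+2) C := by
  have : (⋀[F]^(m+2) C) = ⋀[F]^2 C * ⋀[F]^m C := by
    have h : m + 2 = 2 + m := add_comm _ _
    rw [h]
    exact pow_add _ _ _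
  rw [this]
  exact Submodule.mul_mem_mul p.2 f.2

/-- `mulP p f = p ∧ f` -/
noncomputable def mulP (m : ℕ) : Lm F C 2 →ₗ[F] Lm F C m →ₗ[F] Lm F C (m+2) :=
  LinearMap.mk₂ F (fun p f => ⟨p.1 * f.1, mulP_mem m p f⟩)
    (fun x y f => by ext; simp [add_mul]) (fun c x f => by ext; simp)
    (fun x f g => by ext; simp [mul_add]) (fun c x f => by ext; simp)

@[simp] theorem mulP_val (m : ℕ) (p : Lm F C 2) (f : Lm F C m) :
    ((mulP m p f : Lm F C (m+2)) : ExteriorAlgebra F C) = p.1 * f.1 := rfl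

theorem mulP_pr (m : ℕ) (x y : C) (f : Lm F C m) :
    mulP m (pr x y) f = wd (m+1) x (wd m y f) := by
  ext; simp [mul_assoc]

/-- induction: `Lm 2` is spanned by the `x ∧ y` -/
theorem span_pr (P : Submodule F (Lm F C 2)) (h : ∀ x y, pr x y ∈ P) (g : Lm F C 2) : g ∈ P := by
  refine span_wd 1 P (fun x f => ?_) g
  refine span_wd 0 (P.comap (wd 1 x)) (fun y f => ?_) f
  -- `f : Lm 0` is a scalar
  obtain ⟨f, hf⟩ := f
  have hf' : f ∈ (1 : Submodule F (ExteriorAlgebra F C)) := by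
    have : (⋀[F]^0 C) = 1 := pow_zero _
    rw [← this]; exact hf
  obtain ⟨c, rfl⟩ := Submodule.mem_one.1 hf'
  have : (⟨algebraMap F _ c, hf⟩ : Lm F C 0) = c • one := by
    ext; simp [one, Algebra.algebraMap_eq_smul_one]
  rw [this]
  simp only [map_smul, Submodule.mem_comap]
  exact P.smul_mem _ (h x y)

theorem ext_pr {Z : Type*} [AddCommGroup Z] [Module F Z] (s t : Lm F C 2 →ₗ[F] Z)
    (h : ∀ x y, s (pr x y) = t (pr x y)) (g : Lm F C 2) : s g = t g :=
  span_pr (LinearMap.eqLocus s t) (fun x f => h x f) g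

theorem mulP_wd (m : ℕ) (p : Lm F C 2) (x : C) (f : Lm F C m) :
    mulP (m+1) p (wd m x f) = wd (m+2) x (mulP m p f) := by
  have := ext_pr ((LinearMap.flip (mulP (m+1))) (wd m x f))
    ((wd (m+2) x).comp ((LinearMap.flip (mulP m)) f)) (fun a b => by
      simp only [LinearMap.flip_apply, LinearMap.comp_apply, mulP_pr]
      rw [wd_skew (m+1) x a, wd_skew m x b]
      simp) p
  simpa using this

theorem mulP_comm (m : ℕ) (p q : Lm F C 2) (f : Lm F C m) :
    mulP (m+2) p (mulP m q f) = mulP (m+2) q (mulP m p f) := by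
  have := ext_pr ((LinearMap.flip (mulP (m+2))) (mulP m q f))
    ((mulP (m+2) q).comp ((LinearMap.flip (mulP m)) f)) (fun a b => by
      simp only [LinearMap.flip_apply, LinearMap.comp_apply, mulP_pr]
      rw [mulP_wd, mulP_wd]) p
  simpa using this

/-- `Lm (m+2)` is spanned by the `p ∧ f` -/
theorem span_mulP (m : ℕ) (P : Submodule F (Lm F C (m+2))) (h : ∀ p f, mulP m p f ∈ P)
    (g : Lm F C (m+2)) : g ∈ P := by
  refine span_wd (m+1) P (fun x f => ?_) g
  refine span_wd m (P.comap (wd (m+1) x)) (fun y f => ?_) f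
  rw [Submodule.mem_comap, ← mulP_pr]
  exact h _ _

theorem ext_mulP (m : ℕ) {Z : Type*} [AddCommGroup Z] [Module F Z] (s t : Lm F C (m+2) →ₗ[F] Z)
    (h : ∀ x f, s (mulP m x f) = t (mulP m x f)) (g : Lm F C (m+2)) : s g = t g :=
  span_mulP m (LinearMap.eqLocus s t) (fun x f => h x f) g

end

end Pool.Agent.MP_754a42_al
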