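import Mathlib

/-!
# MP_754a42_al, row N2: two combinatorial tricks.

* `SK`: `f a b c = f b a c = - f b c a = - f c b a = f c a b = f a c b = - f a b c`, so `2 f a b c = 0`.
* `L5`: 10 values `ψ(i,j|rest)` on the five letters; the ten instances of `h4` (after normalising with `h1,h2,h3`) form an
  invertible linear system over `ℚ`.  One way: pair symmetry as for curvature tensors.  Put, for fixed letters, `g(u,v|x,y,z)`.
  `h4` for `(u,v,x)`: `g(u,v|x,y,z) + g(v,x|u,y,z) + g(x,u|v,y,z) = 0`.  Summing the instances of `h4` for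
  `(u,v,x),(u,v,y),(x,y,u),(x,y,v)` with suitable signs gives `g(u,v|x,y,z) = g(x,y|u,v,z)`; since the right side is skew in the
  pair `(v,z)`-like exchanges (alternating in the last three letters `u,v,z`), `g` is skew under all transpositions of the 5
  letters, so `h4` reads `3 g = 0`.  (Or: `linear_combination`-search; every value is a combination of the ten relations,
  e.g. compute the coefficients with `python`/`sympy`.)  `Z` is a module over a field of characteristic 0:
  finish with `smul_eq_zero`, or state it via `(2:F) • v = 0`.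
-/

namespace Pool.Agent.MP_754a42_al

variable {F : Type*} [Field F] [CharZero F] {X Z : Type*} [AddCommGroup Z] [Module F Z]

include F in
theorem SK (f : X → X → X → Z) (h1 : ∀ a b c, f a b c = f b a c) (h2 : ∀ a b c, f a b c = - f a c b)
    (a b c : X) : f a b c = 0 := by
  have e : f a b c = - f a b c := by
    calc f a b c = - f a c b := h2 a b c
      _ = - f c a b := by rw [h1 a c b]
      _ = f c b a := by rw [h2 c a b, neg_neg]
      _ = f b c a := h1 c b a
      _ = - f b a c := h2 b c a
      _ = - f a b c := by rw [h1 b a c]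
  have key : (2 : F) • f a b c = 0 := by
    rw [two_smul]
    nth_rewrite 1 [e]
    exact neg_add_cancel _
  rcases smul_eq_zero.mp key with h | h
  · exact absurd h two_ne_zero
  · exact h

include F in
theorem L5 (g : X → X → X → X → X → Z) (h1 : ∀ y z a b c, g y z a b c = - g z y a b c)
    (h2 : ∀ y z a b c, g y z a b c = - g y z b a c) (h3 : ∀ y z a b c, g y z a b c = - g y z a c b)
    (h4 : ∀ y z a b c, g y z a b c + g z a y b c + g a y z b c = 0)
    (y z a b c : X) : g y z a b c = 0 := by
  have e1 : g a y z b c = -g y a z b c := by rw [h1 a y z b c]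
  have e2 : g y z b a c = -g y z a b c := by rw [h2 y z b a c]
  have e3 : g b y z a c = -g y b z a c := by rw [h1 b y z a c]
  have e4 : g y z c a b = g y z a b c := by rw [h2 y z c a b, h3 y z a c b, neg_neg]
  have e5 : g c y z a b = -g y c z a b := by rw [h1 c y z a b]
  have e6 : g y a b z c = -g y a z b c := by rw [h2 y a b z c]
  have e7 : g b y a z c = g y b z a c := by rw [h1 b y a z c, h2 y b a z c, neg_neg]
  have e8 : g y a c z b = g y a z b c := by rw [h2 y a c z b, h3 y a z c b, neg_neg]
  have e9 : g c y a z b = g y c z a b := by rw [h1 c y a z b, h2 y c a z b, neg_neg]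
  have e10 : g y b c z a = g y b z a c := by rw [h2 y b c z a, h3 y b z c a, neg_neg]
  have e11 : g c y b z a = -g y c z a b := by rw [h1 c y b z a, h2 y c b z a, h3 y c z b a, neg_neg]
  have e12 : g z a b y c = -g z a y b c := by rw [h2 z a b y c]
  have e13 : g a b z y c = -g a b y z c := by rw [h2 a b z y c]
  have e14 : g b z a y c = g z b y a c := by rw [h1 b z a y c, h2 z b a y c, neg_neg]
  have e15 : g z a c y b = g z a y b c := by rw [h2 z a c y b, h3 z a y c b, neg_neg]
  have e16 : g a c z y b = -g a c y z b := by rw [h2 a c z y b]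
  have e17 : g c z a y b = g z c y a b := by rw [h1 c z a y b, h2 z c a y b, neg_neg]
  have e18 : g z b c y a = g z b y a c := by rw [h2 z b c y a, h3 z b y c a, neg_neg]
  have e19 : g b c z y a = -g b c y z a := by rw [h2 b c z y a]
  have e20 : g c z b y a = -g z c y a b := by rw [h1 c z b y a, h2 z c b y a, h3 z c y b a, neg_neg]
  have e21 : g a b c y z = g a b y z c := by rw [h2 a b c y z, h3 a b y c z, neg_neg]
  have e22 : g b c a y z = g b c y z a := by rw [h2 b c a y z, h3 b c y a z, neg_neg]
  have e23 : g c a b y z = -g a c y z b := by rw [h1 c a b y z, h2 a c b y z, h3 a c y b z, neg_neg]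
  have key : (6 : F) • g y z a b c = 0 := by
    linear_combination (norm := module) (2 : F) • h4 y z a b c + (-2 : F) • e1 + (-2 : F) • h4 y z b a c + (2 : F) • e2 + (2 : F) • e3 + (2 : F) • h4 y z c a b + (-2 : F) • e4 + (-2 : F) • e5 + (-1 : F) • h4 y a b z c + (1 : F) • e6 + (1 : F) • e7 + (1 : F) • h4 y a c z b + (-1 : F) • e8 + (-1 : F) • e9 + (-1 : F) • h4 y b c z a + (1 : F) • e10 + (1 : F) • e11 + (1 : F) • h4 z a b y c + (-1 : F) • e12 + (-1 : F) • e13 + (-1 : F) • e14 + (-1 : F) • h4 z a c y b + (1 : F) • e15 + (1 : F) • e16 + (1 : F) • e17 + (1 : F) • h4 z b c y a + (-1 : F) • e18 + (-1 : F) • e19 + (-1 : F) • e20 + (2 : F) • h4 a b c y z + (-2 : F) • e21 + (-2 : F) • e22 + (-2 : F) • e23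
  rcases smul_eq_zero.mp key with h | h
  · exact absurd h (by norm_num)
  · exact h

end Pool.Agent.MP_754a42_al
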