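import Pool.Agent.Lib.MP_754a42_al.Base
import Pool.Agent.Lib.MP_754a42_al.N2

/-!
# MP_754a42_al, row F3: first consequences of the base data.

Write `δ = dl mul r`, `x·y = m x y`, `W'' = W2 mul r m`.
* `dl_self`: `⁅ra,ra⁆ = 0`, `mul a a = 0`.  `dl_skew`: polarise.
* `jac`: Jacobi `⁅⁅ra,rb⁆,rc⁆ + cyc = 0` with `⁅ra,rb⁆ = r(ab) + δ(a,b)`:
  `⁅⁅ra,rb⁆,rc⁆ = ⁅r(ab),rc⁆ - ⁅rc, δ(a,b)⁆ = r((ab)c) + δ(ab,c) - [3/2 δ(ab,c) - 1/2 δ(bc,a) - 1/2 δ(ca,b)]` (V1).
  Cyclic sum: `rJ + Σ - (3/2 - 1/2 - 1/2) Σ = rJ + 1/2 Σ = 0`, `Σ = δ(ab,c)+δ(bc,a)+δ(ca,b)`.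
* `om1`: `r a · δ(b,c) = - r b · δ(a,c)`: polarise `mal` (`mal (a+b) c`).  `om2`: `dl_skew`.
* `om_W2`: `r μ · δ(x,z) = - r x · δ(μ,z) = r x · δ(z,μ) ∈ W''` for `μ ∈ A²`.
* `F3`: apply `ad (r a)` to `m (r x) (δ(x,z)) = 0` (`mal`): `0 = ⁅ra,rx⁆·δ(x,z) + rx·⁅ra,δ(x,z)⁆`,
  `⁅ra,rx⁆ = r(ax) + δ(a,x)`, `⁅ra,δ(x,z)⁆ = 3/2 δ(xz,a) - 1/2 δ(za,x) - 1/2 δ(ax,z)` (V1; `z := a, a := x, b := z`).
  So `δ(a,x)·δ(x,z) = - r(ax)·δ(x,z) - rx·(...)`, and every term on the right is in `W''` (products are in `A²`; `dl_skew`).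
* `F4`: let `ψ(x,y;z,u,v) := W''.mkQ (δ(xy,z)·δ(u,v))`.  `L5` applies: skew in `x,y` (`anti` polarised), alternating in `z,u,v`
  (`F3` polarised gives skewness in `z,u`; `dl_skew` in `u,v`), and the cyclic sum over `x,y,z` is `-2 rJ·δ(u,v)` mod `W''` (`jac`)
  which is `0` by `om_W2` (`J ∈ A²`).  (`L5` is stated with `g y z a b c`, `h4 : g y z a b c + g z a y b c + g a y z b c = 0`.)
  Hence `δ(μ,x)·δ(y,z) ∈ W''` for `μ = xy` a product, and by linearity for `μ ∈ A²` (`Submodule.span_induction`).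
-/

open scoped TensorProduct

namespace Pool.Agent.MP_754a42_al

universe u

variable {F : Type u} [Field F] [CharZero F] {A : Type u} [AddCommGroup A] [Module F A]
  {L : Type u} [LieRing L] [LieAlgebra F L] {M : Type u} [AddCommGroup M] [Module F M]
  {mul : A →ₗ[F] A →ₗ[F] A} {r : A →ₗ[F] L} {m : L →ₗ[F] L →ₗ[F] M} {ad : L →ₗ[F] M →ₗ[F] M}

theorem Base.F3_mul_skew (B : Base mul r m ad) (a b : A) : mul a b = - mul b a := by
  have h := B.anti (a + b)
  simp only [map_add, LinearMap.add_apply, B.anti, zero_add, add_zero] at h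
  rw [eq_neg_iff_add_eq_zero, add_comm]
  exact h

theorem Base.F3_br (_ : Base mul r m ad) (a b : A) :
    ⁅r a, r b⁆ = dl mul r a b + r (mul a b) := by
  rw [dl_apply, sub_add_cancel]

theorem Base.dl_self (B : Base mul r m ad) (a : A) : dl mul r a a = 0 := by
  rw [dl_apply, lie_self, B.anti, map_zero, sub_zero]

theorem Base.dl_skew (B : Base mul r m ad) (a b : A) : dl mul r a b = - dl mul r b a := by
  rw [dl_apply, dl_apply, ← lie_skew (r a) (r b), B.F3_mul_skew a b, map_neg]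
  abel

theorem Base.jac (B : Base mul r m ad) (a b c : A) :
    dl mul r (mul a b) c + dl mul r (mul b c) a + dl mul r (mul c a) b
      = - (2 : F) • r (mul (mul a b) c + mul (mul b c) a + mul (mul c a) b) := by
  have hj := lie_jacobi (r a) (r b) (r c)
  rw [B.F3_br b c, B.F3_br c a, B.F3_br a b, lie_add, lie_add, lie_add, B.V1 a b c, B.V1 b c a,
    B.V1 c a b, B.F3_br a (mul b c), B.F3_br b (mul c a), B.F3_br c (mul a b),
    B.dl_skew a (mul b c), B.dl_skew b (mul c a), B.dl_skew c (mul a b),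
    B.F3_mul_skew a (mul b c), B.F3_mul_skew b (mul c a), B.F3_mul_skew c (mul a b),
    map_neg, map_neg, map_neg] at hj
  rw [map_add, map_add]
  linear_combination (norm := module) (-2 : F) • hj

theorem Base.om1 (B : Base mul r m ad) (a b c : A) :
    m (r a) (dl mul r b c) = - m (r b) (dl mul r a c) := by
  have h := B.mal (a + b) c
  simp only [map_add, LinearMap.add_apply, B.mal, zero_add, add_zero] at h
  rw [eq_neg_iff_add_eq_zero, ← h]
  abel

theorem Base.om2 (B : Base mul r m ad) (a b c : A) :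
    m (r a) (dl mul r b c) = - m (r a) (dl mul r c b) := by
  rw [B.dl_skew b c, map_neg]

theorem Base.om_W2 (B : Base mul r m ad) (μ x z : A) (hμ : μ ∈ A2 mul) :
    m (r μ) (dl mul r x z) ∈ W2 mul r m := by
  rw [B.om1 μ x z, B.om2 x μ z, neg_neg]
  exact Submodule.subset_span ⟨x, z, μ, hμ, rfl⟩

theorem Base.F3_mem (a b : A) : mul a b ∈ A2 mul := Submodule.subset_span ⟨a, b, rfl⟩

theorem Base.F3_om_W2' (B : Base mul r m ad) (μ x z : A) (hμ : μ ∈ A2 mul) :
    m (r x) (dl mul r μ z) ∈ W2 mul r m := by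
  rw [B.om2 x μ z]
  exact Submodule.neg_mem _ (Submodule.subset_span ⟨x, z, μ, hμ, rfl⟩)

theorem Base.F3 (B : Base mul r m ad) (a x z : A) :
    m (dl mul r a x) (dl mul r x z) ∈ W2 mul r m := by
  have h := B.ad_m (r a) (r x) (dl mul r x z)
  rw [B.mal x z, map_zero, B.F3_br a x, map_add, LinearMap.add_apply, B.V1 a x z] at h
  have e : m (dl mul r a x) (dl mul r x z) = - m (r (mul a x)) (dl mul r x z) -
      m (r x) ((3/2 : F) • dl mul r (mul x z) a - (1/2 : F) • dl mul r (mul z a) x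
        - (1/2 : F) • dl mul r (mul a x) z) := by
    linear_combination (norm := module) (-1 : F) • h
  rw [e, map_sub, map_sub, map_smul, map_smul, map_smul]
  refine Submodule.sub_mem _ (Submodule.neg_mem _ (B.om_W2 _ _ _ (Base.F3_mem a x))) ?_
  refine Submodule.sub_mem _ (Submodule.sub_mem _ ?_ ?_) ?_
  · exact Submodule.smul_mem _ _ (B.F3_om_W2' _ _ _ (Base.F3_mem x z))
  · exact Submodule.smul_mem _ _ (B.F3_om_W2' _ _ _ (Base.F3_mem z a))
  · exact Submodule.smul_mem _ _ (B.F3_om_W2' _ _ _ (Base.F3_mem a x))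

theorem Base.F3_pol (B : Base mul r m ad) (a x y z : A) :
    m (dl mul r a x) (dl mul r y z) + m (dl mul r a y) (dl mul r x z) ∈ W2 mul r m := by
  have h := B.F3 a (x + y) z
  simp only [map_add, LinearMap.add_apply] at h
  have h1 := B.F3 a x z
  have h2 := B.F3 a y z
  have e : m (dl mul r a x) (dl mul r y z) + m (dl mul r a y) (dl mul r x z) =
      (m (dl mul r a x) (dl mul r x z) + m (dl mul r a y) (dl mul r x z) +
        (m (dl mul r a x) (dl mul r y z) + m (dl mul r a y) (dl mul r y z))) -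
      m (dl mul r a x) (dl mul r x z) - m (dl mul r a y) (dl mul r y z) := by abel
  rw [e]
  exact Submodule.sub_mem _ (Submodule.sub_mem _ h h1) h2

theorem Base.F3_prod (B : Base mul r m ad) (p q x y z : A) :
    m (dl mul r (mul p q) x) (dl mul r y z) ∈ W2 mul r m := by
  rw [← Submodule.Quotient.mk_eq_zero]
  refine L5 (F := F) (fun p q x y z : A =>
    (Submodule.Quotient.mk (m (dl mul r (mul p q) x) (dl mul r y z)) : M ⧸ W2 mul r m))
    ?_ ?_ ?_ ?_ p q x y z
  · intro p q x y z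
    rw [← Submodule.Quotient.mk_neg, B.F3_mul_skew p q]
    simp only [map_neg, LinearMap.neg_apply]
  · intro p q x y z
    rw [← Submodule.Quotient.mk_neg, Submodule.Quotient.eq, sub_neg_eq_add]
    exact B.F3_pol (mul p q) x y z
  · intro p q x y z
    rw [← Submodule.Quotient.mk_neg, B.dl_skew y z, map_neg]
  · intro p q x y z
    rw [← Submodule.Quotient.mk_add, ← Submodule.Quotient.mk_add, Submodule.Quotient.mk_eq_zero]
    have e : m (dl mul r (mul p q) x) (dl mul r y z) + m (dl mul r (mul q x) p) (dl mul r y z) +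
        m (dl mul r (mul x p) q) (dl mul r y z) =
        m (dl mul r (mul p q) x + dl mul r (mul q x) p + dl mul r (mul x p) q) (dl mul r y z) := by
      simp only [map_add, LinearMap.add_apply]
    rw [e, B.jac p q x, map_smul, LinearMap.smul_apply]
    refine Submodule.smul_mem _ _ (B.om_W2 _ _ _ ?_)
    exact Submodule.add_mem _ (Submodule.add_mem _ (Base.F3_mem _ _) (Base.F3_mem _ _))
      (Base.F3_mem _ _)

theorem Base.F4 (B : Base mul r m ad) (μ x y z : A) (hμ : μ ∈ A2 mul) :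
    m (dl mul r μ x) (dl mul r y z) ∈ W2 mul r m := by
  induction hμ using Submodule.span_induction with
  | mem w hw =>
    obtain ⟨p, q, rfl⟩ := hw
    exact B.F3_prod p q x y z
  | zero => simp only [map_zero, LinearMap.zero_apply]; exact Submodule.zero_mem _
  | add a b _ _ ha hb =>
    simp only [map_add, LinearMap.add_apply]
    exact Submodule.add_mem _ ha hb
  | smul c a _ ha =>
    simp only [map_smul, LinearMap.smul_apply]
    exact Submodule.smul_mem _ _ ha

end Pool.Agent.MP_754a42_al
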