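import Pool.Agent.Lib.MP_754a42_al.F3

/-!
# MP_754a42_al, row F5: an alternating cocycle on `M` vanishes on `W''`.

Write `δ = dl mul r`, `x·y = m x y`.  `coc` for `(u,v,w;y)`: `T u v (w·y) + T v w (u·y) + T w u (v·y) = 0`.
1. `T (ra) (rb) (rc·δ(y,z)) = 0` for all `a,b,c,y,z ∈ A`: `ψ(a,b;c,y,z)` is skew in `a,b`, alternating in `c,y,z` (`om1`, `om2`), and
   `coc` with `u = ra, v = rb, w = rc`, `y := δ(y,z)` is exactly `h4` of `L5` (`T(ra,rb;rc·δ) + T(rb,rc;ra·δ) + T(rc,ra;rb·δ) = 0`).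
   In particular `T (ra) (rb) w = 0` for `w ∈ W''`.
2. `T d (ra) (rw·δ(y,μ)) = 0` for `d = δ(s,t)`, `μ ∈ A²`: `coc (d, ra, rw; δ(y,μ))`:
   `T d (ra) (rw·δ(y,μ)) + T (ra) (rw) (d·δ(y,μ)) + T (rw) d (ra·δ(y,μ)) = 0`.  `d·δ(y,μ) ∈ W''` (`F4` and `comm`, `dl_skew`:
   `δ(s,t)·δ(y,μ) = -δ(μ,y)·δ(s,t)`), so the middle term vanishes by 1.  So `f(a,w,y) := T d (ra) (rw·δ(y,μ))` is symmetric in `a,w`;
   it is skew in `w,y` (`om1`): `SK` gives `f = 0`.
3. `T d d' (rw·δ(y,μ)) = 0`: `coc (d,d',rw;δ(y,μ))`, the last two terms are `T d' (rw) (d·δ(y,μ))`, `T (rw) d (d'·δ(y,μ))` with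
   `d·δ(y,μ), d'·δ(y,μ) ∈ W''`, zero by 2 (every element of `W''` is a combination of `rw·δ(y,μ)`).
4. By linearity (`spanL` in both arguments, `W2 = span`), `T v u w = 0` for all `v,u ∈ L`, `w ∈ W''`.
-/

namespace Pool.Agent.MP_754a42_al

universe u

variable {F : Type u} [Field F] [CharZero F] {A : Type u} [AddCommGroup A] [Module F A]
  {L : Type u} [LieRing L] [LieAlgebra F L] {M : Type u} [AddCommGroup M] [Module F M]
  {mul : A →ₗ[F] A →ₗ[F] A} {r : A →ₗ[F] L} {m : L →ₗ[F] L →ₗ[F] M} {ad : L →ₗ[F] M →ₗ[F] M}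
  {Z : Type u} [AddCommGroup Z] [Module F Z]

theorem Base.F5 (B : Base mul r m ad) (T : L →ₗ[F] L →ₗ[F] M →ₗ[F] Z) (alt : ∀ v x, T v v x = 0)
    (coc : ∀ u v w y, T u v (m w y) + T v w (m u y) + T w u (m v y) = 0)
    (v u : L) (w : M) (hw : w ∈ W2 mul r m) : T v u w = 0 := by
  have skew : ∀ u v x, T u v x = - T v u x := by
    intro u v x
    have h := alt (u + v) x
    simp only [map_add, LinearMap.add_apply, alt, zero_add, add_zero] at h
    rw [eq_neg_iff_add_eq_zero, add_comm]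
    exact h
  -- extension to `W''`
  have ext : ∀ p q : L, (∀ a b : A, ∀ μ ∈ A2 mul, T p q (m (r a) (dl mul r b μ)) = 0) →
      ∀ w ∈ W2 mul r m, T p q w = 0 := by
    intro p q h w hw
    have hle : W2 mul r m ≤ LinearMap.ker (T p q) := by
      refine Submodule.span_le.2 ?_
      rintro _ ⟨a, b, μ, hμ, rfl⟩
      exact LinearMap.mem_ker.2 (h a b μ hμ)
    exact LinearMap.mem_ker.1 (hle hw)
  have hdd : ∀ s t y μ, μ ∈ A2 mul → m (dl mul r s t) (dl mul r y μ) ∈ W2 mul r m := by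
    intro s t y μ hμ
    rw [B.comm, B.dl_skew y μ, map_neg, LinearMap.neg_apply]
    exact Submodule.neg_mem _ (B.F4 μ y s t hμ)
  -- step 1
  have s1 : ∀ a b c y z, T (r a) (r b) (m (r c) (dl mul r y z)) = 0 := by
    intro a b c y z
    refine L5 (F := F) (fun a b c y z => T (r a) (r b) (m (r c) (dl mul r y z))) ?_ ?_ ?_ ?_ a b c y z
    · intro y z a b c
      exact skew _ _ _
    · intro y z a b c
      show T (r y) (r z) (m (r a) (dl mul r b c)) = - T (r y) (r z) (m (r b) (dl mul r a c))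
      rw [B.om1 a b c, map_neg]
    · intro y z a b c
      show T (r y) (r z) (m (r a) (dl mul r b c)) = - T (r y) (r z) (m (r a) (dl mul r c b))
      rw [B.om2 a b c, map_neg]
    · intro y z a b c
      exact coc (r y) (r z) (r a) (dl mul r b c)
  have s1' : ∀ a b, ∀ w ∈ W2 mul r m, T (r a) (r b) w = 0 := fun a b =>
    ext _ _ fun a' b' μ _ => s1 a b a' b' μ
  -- step 2
  have s2 : ∀ s t a w y μ, μ ∈ A2 mul → T (dl mul r s t) (r a) (m (r w) (dl mul r y μ)) = 0 := by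
    intro s t a w y μ hμ
    refine SK (F := F) (fun a w y => T (dl mul r s t) (r a) (m (r w) (dl mul r y μ))) ?_ ?_ a w y
    · intro a w y
      show T (dl mul r s t) (r a) (m (r w) (dl mul r y μ)) = T (dl mul r s t) (r w) (m (r a) (dl mul r y μ))
      have h := coc (dl mul r s t) (r a) (r w) (dl mul r y μ)
      rw [s1' a w _ (hdd s t y μ hμ), add_zero, skew (r w) (dl mul r s t), add_neg_eq_zero] at h
      exact h
    · intro a w y
      show T (dl mul r s t) (r a) (m (r w) (dl mul r y μ)) = - T (dl mul r s t) (r a) (m (r y) (dl mul r w μ))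
      rw [B.om1 w y μ, map_neg]
  have s2' : ∀ s t a, ∀ w ∈ W2 mul r m, T (dl mul r s t) (r a) w = 0 := fun s t a =>
    ext _ _ fun a' b' μ hμ => s2 s t a a' b' μ hμ
  -- step 3
  have s3 : ∀ s t s' t', ∀ w ∈ W2 mul r m, T (dl mul r s t) (dl mul r s' t') w = 0 := fun s t s' t' =>
    ext _ _ fun w y μ hμ => by
      have h := coc (dl mul r s t) (dl mul r s' t') (r w) (dl mul r y μ)
      rw [s2' s' t' w _ (hdd s t y μ hμ), add_zero, skew (r w) (dl mul r s t),
        s2' s t w _ (hdd s' t' y μ hμ), neg_zero, add_zero] at h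
      exact h
  have s4 : ∀ a u, T (r a) u w = 0 := by
    intro a u
    refine LinearMap.mem_ker.1 (B.spanL (LinearMap.ker ((T (r a)).flip w)) ?_ ?_ u)
    · intro b
      exact LinearMap.mem_ker.2 (s1' a b w hw)
    · intro b c
      refine LinearMap.mem_ker.2 ?_
      rw [LinearMap.flip_apply, skew, s2' b c a w hw, neg_zero]
  have s5 : ∀ s t u, T (dl mul r s t) u w = 0 := by
    intro s t u
    refine LinearMap.mem_ker.1 (B.spanL (LinearMap.ker ((T (dl mul r s t)).flip w)) ?_ ?_ u)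
    · intro b
      exact LinearMap.mem_ker.2 (s2' s t b w hw)
    · intro b c
      exact LinearMap.mem_ker.2 (s3 s t b c w hw)
  have s6 : v ∈ LinearMap.ker ((T.flip u).flip w) := by
    refine B.spanL _ ?_ ?_ v
    · intro a
      exact LinearMap.mem_ker.2 (s4 a u)
    · intro s t
      exact LinearMap.mem_ker.2 (s5 s t u)
  exact LinearMap.mem_ker.1 s6

end Pool.Agent.MP_754a42_al
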