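import Pool.Agent.Lib.MP_754a42_al.Ct

/-!
# MP_754a42_al, row N1b (U2): functionals on `Λ²C` from alternating bilinear maps.

Let `s : Lm 0 → F` be the linear map with `s one = 1` (`Lm 0 = ⋀[F]^0 C = 1`; e.g. `ExteriorAlgebra.algebraMapInv` restricted to
`Lm 0`; `ExteriorAlgebra.algebraMap_leftInverse`).  `b := Module.finBasis F C`,
`ψ(G) := 1/2 • ∑ i, ∑ j, s (ct 0 (b.coord j) (ct 1 (b.coord i) G)) • B (b i) (b j)`.
`ct 1 φ (pr x y) = ct 1 φ (wd 1 x (wd 0 y one)) = φ x • wd 0 y one - wd 0 x (φ y • one)` (`pr x y` is by definition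
`wd 1 x (wd 0 y one)`), and `ct 0 χ` of it is `(φ x χ y - φ y χ x) • one`; so
`ψ(pr x y) = 1/2 (B x y - B y x) = B x y` (`sum_coord` twice; `B y x = - B x y` from `h (x+y)`).
(Alternatively use `exteriorPower.alternatingMapLinearEquiv`.)
-/

open scoped TensorProduct

namespace Pool.Agent.MP_754a42_al

universe u

variable {F : Type u} [Field F] {C : Type u} [AddCommGroup C] [Module F C] [FiniteDimensional F C]
  {Z : Type u} [AddCommGroup Z] [Module F Z]

theorem N1b_sum {ι : Type*} [Fintype ι] (b : Module.Basis ι F C) (B : C →ₗ[F] C →ₗ[F] Z) (x y : C) :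
    ∑ i, ∑ j, (b.coord i x * b.coord j y) • B (b i) (b j) = B x y := by
  have h1 : ∀ i, ∑ j, (b.coord i x * b.coord j y) • B (b i) (b j) = b.coord i x • B (b i) y := by
    intro i
    rw [← sum_coord b (B (b i)) y, Finset.smul_sum]
    exact Finset.sum_congr rfl fun j _ => by rw [mul_smul]
  rw [Finset.sum_congr rfl fun i _ => h1 i]
  exact sum_coord b (B.flip y) x

theorem U2 [CharZero F] (B : C →ₗ[F] C →ₗ[F] Z) (h : ∀ x, B x x = 0) :
    ∃ ψ : Lm F C 2 →ₗ[F] Z, ∀ x y, ψ (pr x y) = B x y := by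
  have hskew : ∀ x y, B y x = - B x y := by
    intro x y
    have h1 := h (x + y)
    simp only [map_add, LinearMap.add_apply, h, zero_add, add_zero] at h1
    exact eq_neg_of_add_eq_zero_left h1
  let s : Lm F C 0 →ₗ[F] F :=
    (ExteriorAlgebra.algebraMapInv (R := F) (M := C)).toLinearMap.comp (Submodule.subtype _)
  have hs : s one = 1 := by
    show ExteriorAlgebra.algebraMapInv (R := F) (M := C) (1 : ExteriorAlgebra F C) = 1
    exact map_one _
  let b := Module.finBasis F C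
  let ψ : Lm F C 2 →ₗ[F] Z := (1 / 2 : F) • ∑ i, ∑ j,
    (LinearMap.toSpanSingleton F Z (B (b i) (b j))).comp
      (s.comp ((ct 0 (b.coord j)).comp (ct 1 (b.coord i))))
  have hval : ∀ (φ χ : Module.Dual F C) (x y : C),
      s (ct 0 χ (ct 1 φ (pr x y))) = φ x * χ y - φ y * χ x := by
    intro φ χ x y
    have e1 : (pr x y : Lm F C 2) = wd 1 x (wd 0 y one) := rfl
    rw [e1, ct_wd, ct_wd_zero, map_sub, map_smul, map_smul, map_smul, ct_wd_zero, ct_wd_zero,
      map_sub, map_smul, map_smul, map_smul, map_smul, hs]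
    simp only [smul_eq_mul, mul_one]
  refine ⟨ψ, fun x y => ?_⟩
  have e2 : ψ (pr x y) = (1 / 2 : F) • ∑ i, ∑ j,
      (s (ct 0 (b.coord j) (ct 1 (b.coord i) (pr x y)))) • B (b i) (b j) := by
    simp only [ψ, LinearMap.smul_apply, LinearMap.sum_apply, LinearMap.comp_apply,
      LinearMap.toSpanSingleton_apply]
  rw [e2]
  simp only [hval, sub_smul, Finset.sum_sub_distrib]
  have e3 : ∑ i, ∑ j, (b.coord i y * b.coord j x) • B (b i) (b j) = B y x := N1b_sum b B y x
  rw [N1b_sum b B x y, e3, hskew x y, sub_neg_eq_add, ← two_smul F (B x y), smul_smul]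
  norm_num

end Pool.Agent.MP_754a42_al
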