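import Pool.Agent.Lib.MP_754a42_al.N1a
import Pool.Agent.Lib.MP_754a42_al.N1b

/-!
# MP_754a42_al, row N1c (U3, U4): functionals on `Λ³C`, `Λ⁴C` from alternating maps.

* `U3`: `U2` with values in `C →ₗ[F] Z`, `B y z := (x ↦ T x y z)` (`B y y = 0` by `h2`): `Ψ : Lm 2 → (C → Z)`, `Ψ (pr y z) x = T x y z`.
  Then `UP 1` for `φ x f := Ψ f x` (`f : Lm 2`): `φ x (wd 1 x g) = Ψ (wd 1 x g) x = 0` for `g : Lm 1`: by `ext_wd` (m = 0) it is enough
  for `g = wd 0 y r`, `r : Lm 0`, and `r = c • one` (see the proof of `span_pr` in `Ext.lean`), and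
  `wd 1 x (wd 0 y one) = pr x y` (rfl): `Ψ (pr x y) x = T x x y = 0` (`h1`).
* `U4`: `U3` with values in `C →ₗ[F] Z`, `T' y z u := (x ↦ T x y z u)` gives `Ψ : Lm 3 → (C → Z)`, `Ψ (wd 2 y (pr z u)) x = T x y z u`.
  Then `UP 2` for `φ x f := Ψ f x`: `Ψ (wd 2 x g) x = 0` for `g : Lm 2`: `ext_pr`: `Ψ (wd 2 x (pr z u)) x = T x x z u = 0`.
-/

open scoped TensorProduct

namespace Pool.Agent.MP_754a42_al

universe u

variable {F : Type u} [Field F] {C : Type u} [AddCommGroup C] [Module F C] [FiniteDimensional F C]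
  {Z : Type u} [AddCommGroup Z] [Module F Z]

omit [FiniteDimensional F C] in
private theorem N1c_lm0 (f : Lm F C 0) : ∃ c : F, f = c • (one : Lm F C 0) := by
  obtain ⟨f, hf⟩ := f
  have hf' : f ∈ (1 : Submodule F (ExteriorAlgebra F C)) := by
    have : (⋀[F]^0 C) = 1 := pow_zero _
    rw [← this]; exact hf
  obtain ⟨c, rfl⟩ := Submodule.mem_one.1 hf'
  exact ⟨c, by ext; simp [one, Algebra.algebraMap_eq_smul_one]⟩

theorem U3 [CharZero F] (T : C →ₗ[F] C →ₗ[F] C →ₗ[F] Z) (h1 : ∀ x y, T x x y = 0) (h2 : ∀ x y, T x y y = 0) :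
    ∃ ψ : Lm F C 3 →ₗ[F] Z, ∀ x y z, ψ (wd 2 x (pr y z)) = T x y z := by
  let B : C →ₗ[F] C →ₗ[F] (C →ₗ[F] Z) :=
    LinearMap.mk₂ F (fun y z => (T.flip y).flip z)
      (fun x y f => by ext; simp) (fun c x f => by ext; simp)
      (fun x f g => by ext; simp) (fun c x f => by ext; simp)
  have hB : ∀ x y z, B y z x = T x y z := fun x y z => rfl
  obtain ⟨Ψ, hΨ⟩ := U2 B (fun y => by ext x; rw [hB]; exact h2 x y)
  obtain ⟨ψ, hψ⟩ := UP 1 Ψ.flip (fun x g => by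
    have := ext_wd 0 ((LinearMap.applyₗ (R := F) (M₂ := Z) x).comp (Ψ.comp (wd 1 x))) 0 (fun y f => by
      obtain ⟨c, rfl⟩ := N1c_lm0 f
      have e : Ψ (wd 1 x (wd 0 y (one : Lm F C 0))) x = 0 := by
        have e1 : wd 1 x (wd 0 y (one : Lm F C 0)) = pr x y := rfl
        rw [e1, hΨ, hB]
        exact h1 x y
      simp [e]) g
    simpa using this)
  refine ⟨ψ, fun x y z => ?_⟩
  rw [hψ, LinearMap.flip_apply, hΨ, hB]

theorem U4 [CharZero F] (T : C →ₗ[F] C →ₗ[F] C →ₗ[F] C →ₗ[F] Z) (h1 : ∀ x y z, T x x y z = 0)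
    (h2 : ∀ x y z, T x y y z = 0) (h3 : ∀ x y z, T x y z z = 0) :
    ∃ ψ : Lm F C 4 →ₗ[F] Z, ∀ x y z u, ψ (wd 3 x (wd 2 y (pr z u))) = T x y z u := by
  let T' : C →ₗ[F] C →ₗ[F] C →ₗ[F] (C →ₗ[F] Z) :=
    LinearMap.mk₂ F (fun y z => ((T.flip y).flip z).flip)
      (fun x y f => by ext; simp) (fun c x f => by ext; simp)
      (fun x f g => by ext; simp) (fun c x f => by ext; simp)
  have hT : ∀ x y z u, T' y z u x = T x y z u := fun x y z u => rfl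
  obtain ⟨Ψ, hΨ⟩ := U3 T' (fun y u => by ext x; rw [hT]; exact h2 x y u)
    (fun y z => by ext x; rw [hT]; exact h3 x y z)
  obtain ⟨ψ, hψ⟩ := UP 2 Ψ.flip (fun x g => by
    have := ext_pr ((LinearMap.applyₗ (R := F) (M₂ := Z) x).comp (Ψ.comp (wd 2 x))) 0 (fun z u => by
      simp only [LinearMap.comp_apply, LinearMap.applyₗ_apply_apply, hΨ, hT, LinearMap.zero_apply]
      exact h1 x z u) g
    simpa using this)
  refine ⟨ψ, fun x y z u => ?_⟩
  rw [hψ, LinearMap.flip_apply, hΨ, hT]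

end Pool.Agent.MP_754a42_al
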