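import Pool.Agent.Lib.MP_754a42_al.F5
import Pool.Agent.Lib.MP_754a42_al.N1c

/-!
# MP_754a42_al, row F6: on `L·D` an alternating cocycle factors through `prN`.

Write `δ = dl mul r`, `x·y = m x y`; `P.` = the projection data.  Let `σ : C → A` be a linear section of `κ`
(`LinearMap.exists_rightInverse_of_surjective`); `a - σ (κ a) ∈ A²` (`P.ker`).
1. `T3 x y z := (v ↦ u ↦ T v u (r(σx) · δ(σy,σz)))`, trilinear `C → C → C → (L →ₗ L →ₗ Z)`; `T3 x x y = 0` (`mal`), `T3 x y y = 0` (`dl_self`).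
   `U3`: `Ψ3 : Lm 3 → (L → L → Z)`.  For `a,b,c ∈ A`: `T v u (ra·δ(b,c)) = Ψ3 (wd 2 (κa) (pr (κb) (κc))) v u`, because replacing `a` by
   `σκa` changes the argument by an element of `W''` (`om_W2`), similarly `b`, `c` (`om1`, `om2`), where `T` vanishes (`F5`).
2. `T4 x y z t := (v ↦ u ↦ T v u (δ(σx,σy)·δ(σz,σt)))`: `T4 x x y z = 0`, `T4 x y z z = 0` (`dl_self`), `T4 x y y z = 0` (`F3`, `F5`).
   `U4`: `Ψ4 : Lm 4 → (L → L → Z)`, and `T v u (δ(a,b)·δ(c,d)) = Ψ4 (wd 3 (κa) (wd 2 (κb) (pr (κc) (κd)))) v u` (`F4`, `F5`, `comm`, `dl_skew`).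
3. `θ v u (e,o) := 1/4 Ψ4 e v u + 1/2 Ψ3 o v u`.  First claim: by `spanL` in `w`: for `w = r a'`:
   `prN (r a' · δ(a,b)) = (mulP 2 0 _, wd 2 (κa') (2 pr) + wd 2 0 _) = (0, 2 wd 2 (κa') (pr (κa) (κb)))`; for `w = δ(a',b')`:
   `prN = (mulP 2 (2 pr) (2 pr), 0) = (4 wd 3 .. (wd 2 ..), 0)` (`mulP_pr`).
4. The elements `prN (m w (δ(a,b)))` span `Lm 4 × Lm 3` (`span_mulP`, `span_pr`, `span_wd`, `κ` surjective), so `θ v v = 0`; and
   `qE F C 0 (q w) (pr (κa) (κb)) = 1/2 prN (m w (δ(a,b)))`, so the cocycle identity for `θ` on `e' = pr (κa) (κb)` is `coc` with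
   `y = δ(a,b)`; `span_pr` for general `e'`.
-/

namespace Pool.Agent.MP_754a42_al

universe u

variable {F : Type u} [Field F] [CharZero F] {A : Type u} [AddCommGroup A] [Module F A]
  {L : Type u} [LieRing L] [LieAlgebra F L] {M : Type u} [AddCommGroup M] [Module F M]
  {mul : A →ₗ[F] A →ₗ[F] A} {r : A →ₗ[F] L} {m : L →ₗ[F] L →ₗ[F] M} {ad : L →ₗ[F] M →ₗ[F] M}
  {Z : Type u} [AddCommGroup Z] [Module F Z]
  {C : Type u} [AddCommGroup C] [Module F C] [FiniteDimensional F C] {κ : A →ₗ[F] C}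
  {q : L →ₗ[F] (C × Lm F C 2)} {prN : M →ₗ[F] (Lm F C 4 × Lm F C 3)}

omit [CharZero F] [FiniteDimensional F C] in
theorem F6_prN_r (P : ProjN mul r m κ q prN) (a' a b : A) :
    prN (m (r a') (dl mul r a b)) = (0, (2 : F) • wd 2 (κ a') (pr (κ a) (κ b))) := by
  rw [P.pr_m, P.q_r, P.q_dl]
  simp

omit [CharZero F] [FiniteDimensional F C] in
theorem F6_prN_dl (P : ProjN mul r m κ q prN) (a' b' a b : A) :
    prN (m (dl mul r a' b') (dl mul r a b))
      = ((4 : F) • wd 3 (κ a') (wd 2 (κ b') (pr (κ a) (κ b))), 0) := by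
  rw [P.pr_m, P.q_dl, P.q_dl]
  refine Prod.ext ?_ ?_
  · show mulP 2 ((2 : F) • pr (κ a') (κ b')) ((2 : F) • pr (κ a) (κ b)) = _
    have h := mulP_pr (F := F) 2 (κ a') (κ b') (pr (κ a) (κ b))
    rw [LinearMap.map_smul, LinearMap.map_smul, LinearMap.smul_apply, h, smul_smul]
    norm_num
  · simp

omit [CharZero F] [FiniteDimensional F C] in
theorem F6_prN_qE (P : ProjN mul r m κ q prN) (w : L) (a b : A) :
    prN (m w (dl mul r a b)) = (2 : F) • qE F C 0 (q w) (pr (κ a) (κ b)) := by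
  rw [P.pr_m, P.q_dl]
  refine Prod.ext ?_ ?_
  · show mulP 2 (q w).2 ((2 : F) • pr (κ a) (κ b)) = (2 : F) • mulP 2 (q w).2 (pr (κ a) (κ b))
    rw [map_smul]
  · show wd 2 (q w).1 ((2 : F) • pr (κ a) (κ b)) + wd 2 0 (q w).2
      = (2 : F) • wd 2 (q w).1 (pr (κ a) (κ b))
    rw [map_smul, map_zero, LinearMap.zero_apply, add_zero]

omit [CharZero F] [FiniteDimensional F C] in
/-- a linear map on `Lm 4` vanishing on all 4-fold wedges is zero -/
theorem F6_ext4 {Z' : Type u} [AddCommGroup Z'] [Module F Z'] (κs : Function.Surjective κ)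
    (f : Lm F C 4 →ₗ[F] Z')
    (h : ∀ a b c d, f (wd 3 (κ a) (wd 2 (κ b) (pr (κ c) (κ d)))) = 0) (e : Lm F C 4) : f e = 0 := by
  have h2 : ∀ x y (g : Lm F C 2), f (wd 3 x (wd 2 y g)) = 0 := by
    intro x y g
    refine ext_pr ((f ∘ₗ wd 3 x) ∘ₗ wd 2 y) 0 (fun z t => ?_) g
    obtain ⟨a, rfl⟩ := κs x
    obtain ⟨b, rfl⟩ := κs y
    obtain ⟨c, rfl⟩ := κs z
    obtain ⟨d, rfl⟩ := κs t
    exact h a b c d
  have h3 : ∀ x (g : Lm F C 3), f (wd 3 x g) = 0 := by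
    intro x g
    exact ext_wd 2 (f ∘ₗ wd 3 x) 0 (fun y g => h2 x y g) g
  exact ext_wd 3 f 0 (fun x g => h3 x g) e

omit [CharZero F] [FiniteDimensional F C] in
/-- a linear map on `Lm 3` vanishing on all 3-fold wedges is zero -/
theorem F6_ext3 {Z' : Type u} [AddCommGroup Z'] [Module F Z'] (κs : Function.Surjective κ)
    (f : Lm F C 3 →ₗ[F] Z')
    (h : ∀ a c d, f (wd 2 (κ a) (pr (κ c) (κ d))) = 0) (e : Lm F C 3) : f e = 0 := by
  have h2 : ∀ x (g : Lm F C 2), f (wd 2 x g) = 0 := by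
    intro x g
    refine ext_pr (f ∘ₗ wd 2 x) 0 (fun z t => ?_) g
    obtain ⟨a, rfl⟩ := κs x
    obtain ⟨c, rfl⟩ := κs z
    obtain ⟨d, rfl⟩ := κs t
    exact h a c d
  exact ext_wd 2 f 0 (fun x g => h2 x g) e

theorem Base.F6 (B : Base mul r m ad) (P : ProjN mul r m κ q prN)
    (T : L →ₗ[F] L →ₗ[F] M →ₗ[F] Z) (alt : ∀ v x, T v v x = 0)
    (coc : ∀ u v w y, T u v (m w y) + T v w (m u y) + T w u (m v y) = 0) :
    ∃ t : L →ₗ[F] L →ₗ[F] (Lm F C 4 × Lm F C 3) →ₗ[F] Z,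
      (∀ v u w a b, T v u (m w (dl mul r a b)) = t v u (prN (m w (dl mul r a b)))) ∧
      (∀ v n, t v v n = 0) ∧
      (∀ u v w (e : Lm F C 2), t u v (qE F C 0 (q w) e) + t v w (qE F C 0 (q u) e)
        + t w u (qE F C 0 (q v) e) = 0) := by
  classical
  obtain ⟨σ, hσ⟩ := LinearMap.exists_rightInverse_of_surjective κ (LinearMap.range_eq_top.2 P.surj)
  have hσ' : ∀ x, κ (σ x) = x := fun x => by
    have := LinearMap.congr_fun hσ x
    simpa using this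
  have hdiff : ∀ a, a - σ (κ a) ∈ A2 mul := fun a => by
    rw [← P.ker, map_sub, hσ', sub_self]
  -- `TM w v u = T v u w`
  let TM : M →ₗ[F] (L →ₗ[F] L →ₗ[F] Z) := ((LinearMap.lflip : (L →ₗ[F] M →ₗ[F] Z) ≃ₗ[F] (M →ₗ[F] L →ₗ[F] Z)).toLinearMap ∘ₗ T).flip
  have hTM : ∀ w v u, TM w v u = T v u w := fun w v u => rfl
  let D4 : L →ₗ[F] (C →ₗ[F] C →ₗ[F] (L →ₗ[F] L →ₗ[F] Z)) :=
    { toFun := fun d => ((dl mul r).compl₁₂ σ σ).compr₂ (TM ∘ₗ m d)
      map_add' := fun x y => by ext; simp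
      map_smul' := fun c x => by ext; simp }
  have hD4 : ∀ d z t v u, D4 d z t v u = T v u (m d (dl mul r (σ z) (σ t))) :=
    fun d z t v u => rfl
  let T3 : C →ₗ[F] C →ₗ[F] C →ₗ[F] (L →ₗ[F] L →ₗ[F] Z) := D4 ∘ₗ r ∘ₗ σ
  let T4 : C →ₗ[F] C →ₗ[F] C →ₗ[F] C →ₗ[F] (L →ₗ[F] L →ₗ[F] Z) :=
    ((dl mul r).compl₁₂ σ σ).compr₂ D4
  have hT3 : ∀ x z t v u, T3 x z t v u = T v u (m (r (σ x)) (dl mul r (σ z) (σ t))) :=
    fun x z t v u => rfl
  have hT4 : ∀ x y z t v u, T4 x y z t v u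
      = T v u (m (dl mul r (σ x) (σ y)) (dl mul r (σ z) (σ t))) :=
    fun x y z t v u => rfl
  obtain ⟨Ψ3, hΨ3⟩ := U3 T3 (fun x y => by
      refine LinearMap.ext fun v => LinearMap.ext fun u => ?_
      rw [hT3, B.mal]; simp) (fun x y => by
      refine LinearMap.ext fun v => LinearMap.ext fun u => ?_
      rw [hT3, B.dl_self]; simp)
  obtain ⟨Ψ4, hΨ4⟩ := U4 T4 (fun x y z => by
      refine LinearMap.ext fun v => LinearMap.ext fun u => ?_
      rw [hT4, B.dl_self]; simp) (fun x y z => by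
      refine LinearMap.ext fun v => LinearMap.ext fun u => ?_
      rw [hT4, B.F5 T alt coc v u _ (B.F3 _ _ _)]; simp) (fun x y z => by
      refine LinearMap.ext fun v => LinearMap.ext fun u => ?_
      rw [hT4, B.dl_self]; simp)
  have van : ∀ v u w, w ∈ W2 mul r m → T v u w = 0 := fun v u w hw => B.F5 T alt coc v u w hw
  -- replacing an argument by its representative
  have hA : ∀ v u a b c, T v u (m (r a) (dl mul r b c))
      = Ψ3 (wd 2 (κ a) (pr (κ b) (κ c))) v u := by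
    intro v u a b c
    rw [hΨ3, hT3]
    have e1 : T v u (m (r a) (dl mul r b c)) = T v u (m (r (σ (κ a))) (dl mul r b c)) := by
      have := van v u _ (B.om_W2 _ b c (hdiff a))
      rw [map_sub, map_sub, LinearMap.sub_apply, map_sub, sub_eq_zero] at this
      exact this
    have e2 : T v u (m (r (σ (κ a))) (dl mul r b c))
        = T v u (m (r (σ (κ a))) (dl mul r (σ (κ b)) c)) := by
      have h0 : m (r (σ (κ a))) (dl mul r (b - σ (κ b)) c) ∈ W2 mul r m := by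
        rw [B.om1]
        exact Submodule.neg_mem _ (B.om_W2 _ _ c (hdiff b))
      have := van v u _ h0
      rw [map_sub (dl mul r), LinearMap.sub_apply, map_sub, map_sub, sub_eq_zero] at this
      exact this
    have e3 : T v u (m (r (σ (κ a))) (dl mul r (σ (κ b)) c))
        = T v u (m (r (σ (κ a))) (dl mul r (σ (κ b)) (σ (κ c)))) := by
      have h0 : m (r (σ (κ a))) (dl mul r (σ (κ b)) (c - σ (κ c))) ∈ W2 mul r m :=
        Submodule.subset_span ⟨_, _, _, hdiff c, rfl⟩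
      have := van v u _ h0
      rw [map_sub (dl mul r _), map_sub, map_sub, sub_eq_zero] at this
      exact this
    rw [e1, e2, e3]
  have hB : ∀ v u a b c d, T v u (m (dl mul r a b) (dl mul r c d))
      = Ψ4 (wd 3 (κ a) (wd 2 (κ b) (pr (κ c) (κ d)))) v u := by
    intro v u a b c d
    rw [hΨ4, hT4]
    have g1 : ∀ a b c d, T v u (m (dl mul r a b) (dl mul r c d))
        = T v u (m (dl mul r (σ (κ a)) b) (dl mul r c d)) := by
      intro a b c d
      have := van v u _ (B.F4 _ b c d (hdiff a))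
      rw [map_sub (dl mul r), LinearMap.sub_apply, map_sub, LinearMap.sub_apply, map_sub,
        sub_eq_zero] at this
      exact this
    have g2 : ∀ a b c d, T v u (m (dl mul r a b) (dl mul r c d))
        = T v u (m (dl mul r a (σ (κ b))) (dl mul r c d)) := by
      intro a b c d
      rw [B.dl_skew a b, B.dl_skew a (σ (κ b)), map_neg, map_neg, LinearMap.neg_apply,
        LinearMap.neg_apply, map_neg, map_neg, g1]
    have g3 : ∀ a b c d, T v u (m (dl mul r a b) (dl mul r c d))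
        = T v u (m (dl mul r a b) (dl mul r (σ (κ c)) d)) := by
      intro a b c d
      rw [B.comm, g1, B.comm]
    have g4 : ∀ a b c d, T v u (m (dl mul r a b) (dl mul r c d))
        = T v u (m (dl mul r a b) (dl mul r c (σ (κ d)))) := by
      intro a b c d
      rw [B.comm, g2, B.comm]
    rw [g1, g2, g3, g4]
  let Θ : (Lm F C 4 × Lm F C 3) →ₗ[F] (L →ₗ[F] L →ₗ[F] Z) :=
    (4⁻¹ : F) • (Ψ4 ∘ₗ LinearMap.fst F (Lm F C 4) (Lm F C 3))
      + (2⁻¹ : F) • (Ψ3 ∘ₗ LinearMap.snd F (Lm F C 4) (Lm F C 3))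
  let t : L →ₗ[F] L →ₗ[F] (Lm F C 4 × Lm F C 3) →ₗ[F] Z := (LinearMap.lflip : ((Lm F C 4 × Lm F C 3) →ₗ[F] L →ₗ[F] Z)
      ≃ₗ[F] (L →ₗ[F] (Lm F C 4 × Lm F C 3) →ₗ[F] Z)).toLinearMap ∘ₗ Θ.flip
  have ht : ∀ v u n, t v u n = Θ n v u := fun v u n => rfl
  have hΘ : ∀ e o v u, Θ (e, o) v u = (4⁻¹ : F) • Ψ4 e v u + (2⁻¹ : F) • Ψ3 o v u :=
    fun e o v u => rfl
  have first : ∀ v u w a b, T v u (m w (dl mul r a b)) = t v u (prN (m w (dl mul r a b))) := by
    intro v u w a b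
    have := B.spanL (LinearMap.eqLocus ((T v u) ∘ₗ (m.flip (dl mul r a b)))
      ((t v u) ∘ₗ prN ∘ₗ (m.flip (dl mul r a b)))) ?_ ?_ w
    · exact this
    · intro a'
      show T v u (m (r a') (dl mul r a b)) = t v u (prN (m (r a') (dl mul r a b)))
      rw [F6_prN_r P, ht, hΘ, hA, map_zero, map_smul]
      simp
    · intro a' b'
      show T v u (m (dl mul r a' b') (dl mul r a b))
        = t v u (prN (m (dl mul r a' b') (dl mul r a b)))
      rw [F6_prN_dl P, ht, hΘ, hB, map_zero, map_smul]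
      simp
  refine ⟨t, first, ?_, ?_⟩
  · intro v n
    obtain ⟨e, o⟩ := n
    have h4 : Ψ4 e v v = 0 := by
      refine F6_ext4 P.surj (((LinearMap.applyₗ v) ∘ₗ (LinearMap.applyₗ v)) ∘ₗ Ψ4) ?_ e
      intro a b c d
      show Ψ4 _ v v = 0
      rw [← hB, alt]
    have h3 : Ψ3 o v v = 0 := by
      refine F6_ext3 P.surj (((LinearMap.applyₗ v) ∘ₗ (LinearMap.applyₗ v)) ∘ₗ Ψ3) ?_ o
      intro a c d
      show Ψ3 _ v v = 0
      rw [← hA, alt]
    rw [ht, hΘ, h4, h3, smul_zero, smul_zero, add_zero]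
  · intro u v w e
    have key : ∀ u v w a b, t u v (qE F C 0 (q w) (pr (κ a) (κ b)))
        = (2⁻¹ : F) • T u v (m w (dl mul r a b)) := by
      intro u v w a b
      rw [first, F6_prN_qE P, LinearMap.map_smul, smul_smul, inv_mul_cancel₀ (by norm_num), one_smul]
    let f1 : Lm F C 2 →ₗ[F] Z := (t u v) ∘ₗ (qE F C 0 (q w))
    let f2 : Lm F C 2 →ₗ[F] Z := (t v w) ∘ₗ (qE F C 0 (q u))
    let f3 : Lm F C 2 →ₗ[F] Z := (t w u) ∘ₗ (qE F C 0 (q v))
    refine ext_pr (f1 + f2 + f3) 0 (fun x y => ?_) e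
    obtain ⟨a, rfl⟩ := P.surj x
    obtain ⟨b, rfl⟩ := P.surj y
    show t u v (qE F C 0 (q w) (pr (κ a) (κ b))) + t v w (qE F C 0 (q u) (pr (κ a) (κ b)))
        + t w u (qE F C 0 (q v) (pr (κ a) (κ b))) = 0
    rw [key, key, key, ← smul_add, ← smul_add, coc, smul_zero]

end Pool.Agent.MP_754a42_al
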