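import Pool.Agent.Lib.MP_754a42_al.X12

/-!
# MP_754a42_al, row L1: lifting `X2` along a surjection, and products.

* `X2_lift`.  `π : L → V` surjective, `K := ker π`, `σ : V → L` a linear section (`LinearMap.exists_rightInverse_of_surjective`).
  Every `u : L` is `u = σ (π u) + κ u`, `κ u := u - σ (π u) ∈ K`, so `π (κ u) = 0`.
  Given `T` (alternating, cocycle for `q ∘ π`).
  (a) `T k k' x = 0` for `k, k' ∈ K`: by `span` take `x = q w y`, `w = π u`; the cocycle identity for `(k, k', u; y)`: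
      `T k k' (q (π u) y) + T k' u (q (π k) y) + T u k (q (π k') y) = T k k' (q w y) + 0 + 0`.
  (b) for `k ∈ K`: `t_k(v; x) := T k (σ v) x`, `v : V`.  Cocycle for `(k, σ v, σ w; y)`:
      `T k (σ v) (q w y) + T (σ v) (σ w) (q (π k) y) + T (σ w) k (q v y) = 0`, i.e. `t_k(v; q w y) = t_k(w; q v y)`.
      Apply `X1` with values in `Z' = (↥K →ₗ Z)`, all `k` at once: `l1 : X' → (K → Z)` with `T k (σ v) x = l1 (q' v x) k`.
  (c) `T2(v,w;x) := T (σ v) (σ w) x` satisfies the hypotheses of `X2 q q'`: `l2 : V → X' → Z`,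
      `T (σ v) (σ w) x = l2 v (q' w x) - l2 w (q' v x)`.
  (d) `l u x' := l1 x' (κ u) + l2 (π u) x'`.  Check: `T u w x = T (σπu) (σπw) x + T (κu) (σπw) x + T (σπu) (κw) x + T (κu) (κw) x
      = [l2 (πu) (q'(πw) x) - l2 (πw) (q' (πu) x)] + l1 (q' (πw) x) (κu) - l1 (q' (πu) x) (κw) + 0`.
* `X2_prod`.  `T1 u v x₁ := T u v (x₁,0)`, `T2 u v x₂ := T u v (0,x₂)` are alternating cocycles (by `hit1`, `hit2`: for `y₁ : Y₁`
  take `y` with `p w y = (q₁ w y₁, 0)` for all `w`).  `l u (x₁',x₂') := l1 u x₁' + l2 u x₂'`.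
-/

namespace Pool.Agent.MP_754a42_al

universe u

variable {F : Type u} [Field F] {L V Y X X' : Type u}
  [AddCommGroup L] [Module F L] [AddCommGroup V] [Module F V] [AddCommGroup Y] [Module F Y]
  [AddCommGroup X] [Module F X] [AddCommGroup X'] [Module F X']

theorem X2_lift (π : L →ₗ[F] V) (hπ : Function.Surjective π) (q : V →ₗ[F] Y →ₗ[F] X)
    (q' : V →ₗ[F] X →ₗ[F] X') (span : ∀ P : Submodule F X, (∀ v y, q v y ∈ P) → ∀ x, x ∈ P)
    (h1 : X1 q q') (h2 : X2 q q') : X2 (q.comp π) (q'.comp π) := by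
  intro Z _ _ T hT hc
  obtain ⟨σ, hσ⟩ := π.exists_rightInverse_of_surjective (LinearMap.range_eq_top.2 hπ)
  have hs : ∀ v, π (σ v) = v := fun v => by
    have := LinearMap.congr_fun hσ v
    simpa using this
  have skew : ∀ a b x, T b a x = - T a b x := by
    intro a b x
    have h := hT (a + b) x
    simp only [map_add, LinearMap.add_apply, hT] at h
    rw [zero_add, add_zero] at h
    exact eq_neg_of_add_eq_zero_left (by rw [add_comm] at h; rw [add_comm]; exact h)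
  let κ : L →ₗ[F] LinearMap.ker π :=
    LinearMap.codRestrict (LinearMap.ker π) (LinearMap.id - σ.comp π) (by
      intro u
      simp [LinearMap.mem_ker, hs])
  have hκ : ∀ u, ((κ u : LinearMap.ker π) : L) = u - σ (π u) := fun u => rfl
  have hdec : ∀ u, u = σ (π u) + (κ u : LinearMap.ker π) := fun u => by
    rw [hκ]; abel
  have hKK : ∀ k k' : LinearMap.ker π, ∀ x, T k k' x = 0 := by
    intro k k' x
    have hk : π k = 0 := k.2
    have hk' : π k' = 0 := k'.2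
    have := span (LinearMap.ker (T k k')) (fun v y => by
      rw [LinearMap.mem_ker]
      have h := hc k k' (σ v) y
      simp only [LinearMap.comp_apply, hk, hk', hs, map_zero, LinearMap.zero_apply, add_zero] at h
      exact h) x
    exact LinearMap.mem_ker.1 this
  have hb : ∀ (k : LinearMap.ker π) v w y, T k (σ v) (q w y) = T k (σ w) (q v y) := by
    intro k v w y
    have hk : π k = 0 := k.2
    have h := hc k (σ v) (σ w) y
    simp only [LinearMap.comp_apply, hk, hs, map_zero, LinearMap.zero_apply, add_zero] at h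
    rw [skew (k : L) (σ w)] at h
    exact eq_of_sub_eq_zero (by rw [sub_eq_add_neg]; exact h)
  let t : V →ₗ[F] X →ₗ[F] (LinearMap.ker π →ₗ[F] Z) :=
    LinearMap.mk₂ F (fun v x => ({ toFun := fun k => T k (σ v) x
                                   map_add' := fun a b => by simp
                                   map_smul' := fun c a => by simp } : LinearMap.ker π →ₗ[F] Z))
      (fun a b c => by ext k; simp) (fun c a b => by ext k; simp)
      (fun a b c => by ext k; simp) (fun c a b => by ext k; simp)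
  have ht : ∀ v x k, t v x k = T k (σ v) x := fun v x k => rfl
  obtain ⟨l1, hl1⟩ := h1 (LinearMap.ker π →ₗ[F] Z) t (fun v w y => by
    ext k
    rw [ht, ht]
    exact hb k v w y)
  let T2 : V →ₗ[F] V →ₗ[F] X →ₗ[F] Z := (LinearMap.lcomp F (X →ₗ[F] Z) σ).comp (T.comp σ)
  have hT2 : ∀ v w x, T2 v w x = T (σ v) (σ w) x := fun v w x => rfl
  obtain ⟨l2, hl2⟩ := h2 Z T2 (fun v x => hT _ _) (fun u v w y => by
    rw [hT2, hT2, hT2]
    have h := hc (σ u) (σ v) (σ w) y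
    simp only [LinearMap.comp_apply, hs] at h
    exact h)
  refine ⟨l1.flip.comp κ + l2.comp π, fun u v x => ?_⟩
  have e1 : ∀ (k : LinearMap.ker π) w, T k (σ (π w)) x = l1 (q' (π w) x) k := fun k w => by
    rw [← hl1, ht]
  have e2 : T (σ (π u)) (σ (π v)) x = l2 (π u) (q' (π v) x) - l2 (π v) (q' (π u) x) := by
    rw [← hT2, hl2]
  have e3 : T u v x = T (σ (π u)) (σ (π v)) x + T (κ u) (σ (π v)) x - T (κ v) (σ (π u)) x := by
    conv_lhs => rw [hdec u, hdec v]
    simp only [map_add, LinearMap.add_apply]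
    rw [hKK, skew ((κ v : LinearMap.ker π) : L) (σ (π u))]
    abel
  rw [e3, e1, e1, e2]
  simp only [LinearMap.add_apply, LinearMap.comp_apply, LinearMap.flip_apply]
  abel

variable {Y₁ X₁ X₁' Y₂ X₂ X₂' : Type u}
  [AddCommGroup Y₁] [Module F Y₁] [AddCommGroup X₁] [Module F X₁] [AddCommGroup X₁'] [Module F X₁']
  [AddCommGroup Y₂] [Module F Y₂] [AddCommGroup X₂] [Module F X₂] [AddCommGroup X₂'] [Module F X₂']

theorem X2_prod (q₁ : L →ₗ[F] Y₁ →ₗ[F] X₁) (q₁' : L →ₗ[F] X₁ →ₗ[F] X₁')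
    (q₂ : L →ₗ[F] Y₂ →ₗ[F] X₂) (q₂' : L →ₗ[F] X₂ →ₗ[F] X₂')
    (h₁ : X2 q₁ q₁') (h₂ : X2 q₂ q₂')
    (p : L →ₗ[F] Y →ₗ[F] (X₁ × X₂)) (p' : L →ₗ[F] (X₁ × X₂) →ₗ[F] (X₁' × X₂'))
    (hit1 : ∀ y₁, ∃ y, ∀ w, p w y = (q₁ w y₁, 0)) (hit2 : ∀ y₂, ∃ y, ∀ w, p w y = (0, q₂ w y₂))
    (hp' : ∀ v x, p' v x = (q₁' v x.1, q₂' v x.2)) : X2 p p' := by
  intro Z _ _ T hT hc
  let T1 : L →ₗ[F] L →ₗ[F] X₁ →ₗ[F] Z :=
    T.compr₂ (LinearMap.lcomp F Z (LinearMap.inl F X₁ X₂))
  let T2 : L →ₗ[F] L →ₗ[F] X₂ →ₗ[F] Z :=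
    T.compr₂ (LinearMap.lcomp F Z (LinearMap.inr F X₁ X₂))
  have hT1 : ∀ u v x, T1 u v x = T u v (x, 0) := fun u v x => rfl
  have hT2 : ∀ u v x, T2 u v x = T u v (0, x) := fun u v x => rfl
  obtain ⟨l1, hl1⟩ := h₁ Z T1 (fun v x => hT _ _) (fun u v w y₁ => by
    obtain ⟨y, hy⟩ := hit1 y₁
    have h := hc u v w y
    rw [hy, hy, hy] at h
    rw [hT1, hT1, hT1]
    exact h)
  obtain ⟨l2, hl2⟩ := h₂ Z T2 (fun v x => hT _ _) (fun u v w y₁ => by
    obtain ⟨y, hy⟩ := hit2 y₁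
    have h := hc u v w y
    rw [hy, hy, hy] at h
    rw [hT2, hT2, hT2]
    exact h)
  refine ⟨l1.compl₂ (LinearMap.fst F X₁' X₂') + l2.compl₂ (LinearMap.snd F X₁' X₂'),
    fun u v x => ?_⟩
  have e : T u v x = T1 u v x.1 + T2 u v x.2 := by
    rw [hT1, hT2, ← map_add]
    congr 1
    ext <;> simp
  rw [e, hl1, hl2, hp', hp']
  simp only [LinearMap.add_apply, LinearMap.compl₂_apply, LinearMap.fst_apply,
    LinearMap.snd_apply]
  abel

end Pool.Agent.MP_754a42_al
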