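import Pool.Agent.Lib.MP_754a42_al.N2
import Pool.Agent.Lib.MP_754a42_al.Ct

/-!
# MP_754a42_al, row N5b: `(be) ⟹ (al)` in degrees `≥ 4`.

`alpha` : for `f = wd a (wd b (wd c g))` (`span_wd` three times), `x` fixed, `ψ(y,z;a,b,c) := T(xy,xz; x a b c g)` satisfies the
hypotheses of `L5`: skew in `y,z` (alt), alternating in `a,b,c` (`wd_skew`), and `be` with `p = xy`, `q = xz`, `r = xa` and
`b c g : Lm (m+2)`: `T(xy,xz;x a b c g) + T(xz,xa;x y b c g) + T(xa,xy; x z b c g) = 0`.
-/

namespace Pool.Agent.MP_754a42_al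

universe u

variable {F : Type u} [Field F] [CharZero F] {C : Type u} [AddCommGroup C] [Module F C]
  {Z : Type u} [AddCommGroup Z] [Module F Z]

theorem alpha (m : ℕ) (T : Lm F C 2 →ₗ[F] Lm F C 2 →ₗ[F] Lm F C (m+4) →ₗ[F] Z)
    (alt : ∀ p f, T p p f = 0)
    (be : ∀ p q r (g : Lm F C (m+2)), T p q (mulP (m+2) r g) + T q r (mulP (m+2) p g)
      + T r p (mulP (m+2) q g) = 0)
    (x y z : C) (f : Lm F C (m+3)) : T (pr x y) (pr x z) (wd (m+3) x f) = 0 := by
  have hsk : ∀ p q (f : Lm F C (m+4)), T p q f = - T q p f := by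
    intro p q f
    have h := alt (p+q) f
    simp only [map_add, LinearMap.add_apply, alt, zero_add, add_zero] at h
    rw [eq_neg_iff_add_eq_zero, add_comm]; exact h
  have key : ∀ (g : Lm F C m) (y z a b c : C),
      T (pr x y) (pr x z) (wd (m+3) x (wd (m+2) a (wd (m+1) b (wd m c g)))) = 0 := by
    intro g
    refine L5 (F := F) (fun y z a b c =>
      T (pr x y) (pr x z) (wd (m+3) x (wd (m+2) a (wd (m+1) b (wd m c g))))) ?_ ?_ ?_ ?_
    · intro y z a b c
      exact hsk _ _ _
    · intro y z a b c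
      rw [wd_skew (m+1) a b, map_neg, map_neg]
    · intro y z a b c
      rw [wd_skew m b c, map_neg, map_neg, map_neg]
    · intro y z a b c
      have h := be (pr x y) (pr x z) (pr x a) (wd (m+1) b (wd m c g))
      rw [mulP_pr, mulP_pr, mulP_pr] at h
      exact h
  have h3 : ∀ a b (f : Lm F C (m+1)),
      T (pr x y) (pr x z) (wd (m+3) x (wd (m+2) a (wd (m+1) b f))) = 0 := by
    intro a b f
    exact ext_wd m (((T (pr x y) (pr x z)).comp (wd (m+3) x)).comp ((wd (m+2) a).comp (wd (m+1) b))) 0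
      (fun c g => by
        rw [LinearMap.comp_apply, LinearMap.comp_apply, LinearMap.comp_apply, LinearMap.zero_apply]
        exact key g y z a b c) f
  have h2 : ∀ a (f : Lm F C (m+2)),
      T (pr x y) (pr x z) (wd (m+3) x (wd (m+2) a f)) = 0 := by
    intro a f
    exact ext_wd (m+1) (((T (pr x y) (pr x z)).comp (wd (m+3) x)).comp (wd (m+2) a)) 0
      (fun c g => by
        rw [LinearMap.comp_apply, LinearMap.comp_apply, LinearMap.zero_apply]
        exact h3 a c g) f
  exact ext_wd (m+2) ((T (pr x y) (pr x z)).comp (wd (m+3) x)) 0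
    (fun c g => by
      rw [LinearMap.comp_apply, LinearMap.zero_apply]
      exact h2 c g) f

end Pool.Agent.MP_754a42_al
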