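import Mathlib

/-!
# MP_754a42_al: the two exactness properties (dual form).
-/

namespace Pool.Agent.MP_754a42_al

universe u

variable {F : Type u} [Field F] {V Y X X' : Type u}
  [AddCommGroup V] [Module F V] [AddCommGroup Y] [Module F Y] [AddCommGroup X] [Module F X]
  [AddCommGroup X'] [Module F X']

/-- `Λ²V ⊗ Y → V ⊗ X → X'` is exact, in dual form -/
def X1 (q : V →ₗ[F] Y →ₗ[F] X) (q' : V →ₗ[F] X →ₗ[F] X') : Prop :=
  ∀ (Z : Type u) [AddCommGroup Z] [Module F Z] (t : V →ₗ[F] X →ₗ[F] Z),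
    (∀ v w y, t v (q w y) = t w (q v y)) → ∃ l : X' →ₗ[F] Z, ∀ v x, t v x = l (q' v x)

/-- `Λ³V ⊗ Y → Λ²V ⊗ X → V ⊗ X'` is exact, in dual form -/
def X2 (q : V →ₗ[F] Y →ₗ[F] X) (q' : V →ₗ[F] X →ₗ[F] X') : Prop :=
  ∀ (Z : Type u) [AddCommGroup Z] [Module F Z] (T : V →ₗ[F] V →ₗ[F] X →ₗ[F] Z),
    (∀ v x, T v v x = 0) →
    (∀ u v w y, T u v (q w y) + T v w (q u y) + T w u (q v y) = 0) →
    ∃ l : V →ₗ[F] X' →ₗ[F] Z, ∀ u v x, T u v x = l u (q' v x) - l v (q' u x)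

end Pool.Agent.MP_754a42_al
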