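import Pool.Agent.Lib.MP_754a42_al.N3
import Pool.Agent.Lib.MP_754a42_al.X12

/-!
# MP_754a42_al, row N7: the graded module `N` over `V_C = C × Λ²C` and `X1N`.

`E' = Lm (n+2)`, `N = Lm (n+4) × Lm (n+3)`, `N⁺ = Lm (n+6) × Lm (n+5)`;
`qE (c,p) e' = (p e', c e')`,  `qN (c,p) (e,o) = (p e, c e + p o)`.

Proof of `X1N` (write `e'`, `f` for elements of `Lm (n+2)`; products = wedge).  Components of `t`:
`CE(c;e) = t (c,0) (e,0)`, `CO(c;o) = t (c,0) (0,o)`, `PE(p;e) = t (0,p) (e,0)`, `PO(p;o) = t (0,p) (0,o)`.  The hypothesis gives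
  (R1) `v=(c,0), w=(c',0)`: `CO(c; c' e') = CO(c'; c e')`;
  (R2) `v=(c,0), w=(0,p)`: `CE(c; p e') = PO(p; c e')`;
  (R3) `v=(0,p), w=(0,q)`: `PE(p; q e') = PE(q; p e')`.
* `CO = 0`: by `ext_wd` twice it is enough on `o = a b g` (`wd (n+2) a (wd (n+1) b g)`, `g : Lm (n+1)`): `f(c,a,b) := CO(c; a b g)` is
  symmetric in `c,a` (R1) and skew in `a,b` (`wd_skew`): `SK`.
* `PE(p;e) = lE(p e)`: `F1 (n+1)` (`e : Lm (n+4)`).
* `PO(xy; x f) = 0` for `f : Lm (n+2)`: `f = a b g` (`g : Lm n`): `PO(xy; x f) = CE(x; x y f)` (R2, `mulP_pr`), and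
  `x y a b g = (y a)(x b g)` (move `x` over `y` and `a`: two signs), so it is `CE(x; (ya)(xbg)) = PO(ya; x x b g) = 0` (R2, `wd_self`).
  `G1 (n+2)`: `PO(p;o) = lO(p o)`, `lO : Lm (n+5) → Z`.
* `CE(c; e) = lO(c e)`: `e = p e'` (`ext_mulP`): `CE(c; p e') = PO(p; c e') = lO(p c e') = lO(c p e')` (`mulP_wd`).
* `l (e, o) := lE e + lO o`.
-/

namespace Pool.Agent.MP_754a42_al

universe u

section defs
variable (F : Type u) [Field F] (C : Type u) [AddCommGroup C] [Module F C]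

/-- `(c,p) e' = (p e', c e')` -/
noncomputable def qE (n : ℕ) : (C × Lm F C 2) →ₗ[F] Lm F C (n+2) →ₗ[F] (Lm F C (n+4) × Lm F C (n+3)) :=
  LinearMap.mk₂ F (fun v e => (mulP (n+2) v.2 e, wd (n+2) v.1 e))
    (fun x y f => by simp) (fun c x f => by simp) (fun x f g => by simp) (fun c x f => by simp)

/-- `(c,p) (e,o) = (p e, c e + p o)` -/
noncomputable def qN (n : ℕ) : (C × Lm F C 2) →ₗ[F] (Lm F C (n+4) × Lm F C (n+3)) →ₗ[F]
    (Lm F C (n+6) × Lm F C (n+5)) :=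
  LinearMap.mk₂ F (fun v x => (mulP (n+4) v.2 x.1, wd (n+4) v.1 x.1 + mulP (n+3) v.2 x.2))
    (fun x y f => by simp; abel) (fun c x f => by simp) (fun x f g => by simp; abel)
    (fun c x f => by simp)

variable {F C}
@[simp] theorem qE_apply (n : ℕ) (v : C × Lm F C 2) (e : Lm F C (n+2)) :
    qE F C n v e = (mulP (n+2) v.2 e, wd (n+2) v.1 e) := rfl

@[simp] theorem qN_apply (n : ℕ) (v : C × Lm F C 2) (x : Lm F C (n+4) × Lm F C (n+3)) :
    qN F C n v x = (mulP (n+4) v.2 x.1, wd (n+4) v.1 x.1 + mulP (n+3) v.2 x.2) := rfl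

end defs

variable (F : Type u) [Field F] [CharZero F] (C : Type u) [AddCommGroup C] [Module F C] [FiniteDimensional F C]

theorem X1N (n : ℕ) : X1 (qE F C n) (qN F C n) := by
  intro Z _ _ t h
  set CE : C →ₗ[F] Lm F C (n+4) →ₗ[F] Z :=
    t.compl₁₂ (LinearMap.inl F C (Lm F C 2)) (LinearMap.inl F (Lm F C (n+4)) (Lm F C (n+3))) with hCE
  set CO : C →ₗ[F] Lm F C (n+3) →ₗ[F] Z :=
    t.compl₁₂ (LinearMap.inl F C (Lm F C 2)) (LinearMap.inr F (Lm F C (n+4)) (Lm F C (n+3))) with hCO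
  set PE : Lm F C 2 →ₗ[F] Lm F C (n+4) →ₗ[F] Z :=
    t.compl₁₂ (LinearMap.inr F C (Lm F C 2)) (LinearMap.inl F (Lm F C (n+4)) (Lm F C (n+3))) with hPE
  set PO : Lm F C 2 →ₗ[F] Lm F C (n+3) →ₗ[F] Z :=
    t.compl₁₂ (LinearMap.inr F C (Lm F C 2)) (LinearMap.inr F (Lm F C (n+4)) (Lm F C (n+3))) with hPO
  have aCE : ∀ c e, CE c e = t (c, 0) (e, 0) := fun c e => rfl
  have aCO : ∀ c o, CO c o = t (c, 0) (0, o) := fun c e => rfl
  have aPE : ∀ p e, PE p e = t (0, p) (e, 0) := fun c e => rfl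
  have aPO : ∀ p o, PO p o = t (0, p) (0, o) := fun c e => rfl
  have R1 : ∀ (c c' : C) (e : Lm F C (n+2)), CO c (wd (n+2) c' e) = CO c' (wd (n+2) c e) := by
    intro c c' e
    have := h (c, 0) (c', 0) e
    simpa [aCO] using this
  have R2 : ∀ (c : C) (p : Lm F C 2) (e : Lm F C (n+2)), CE c (mulP (n+2) p e) = PO p (wd (n+2) c e) := by
    intro c p e
    have := h (c, 0) (0, p) e
    simpa [aCE, aPO] using this
  have R3 : ∀ (p q : Lm F C 2) (e : Lm F C (n+2)), PE p (mulP (n+2) q e) = PE q (mulP (n+2) p e) := by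
    intro p q e
    have := h (0, p) (0, q) e
    simpa [aPE] using this
  have hCO0 : ∀ c o, CO c o = 0 := by
    intro c o
    have key : ∀ (g : Lm F C (n+1)) (c a b : C), CO c (wd (n+2) a (wd (n+1) b g)) = 0 := by
      intro g c a b
      refine SK (F := F) (fun c a b => CO c (wd (n+2) a (wd (n+1) b g))) (fun c a b => ?_) (fun c a b => ?_) c a b
      · exact R1 c a _
      · rw [wd_skew (n+1) a b g, map_neg]
    refine ext_wd (n+2) (CO c) 0 (fun a f => ?_) o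
    refine ext_wd (n+1) ((CO c).comp (wd (n+2) a)) 0 (fun b g => ?_) f
    simpa using key g c a b
  obtain ⟨lE, hlE⟩ := F1 (n+1) PE R3
  have hPO0 : ∀ x y (f : Lm F C (n+2)), PO (pr x y) (wd (n+2) x f) = 0 := by
    intro x y f
    refine ext_wd (n+1) ((PO (pr x y)).comp (wd (n+2) x)) 0 (fun a f => ?_) f
    refine ext_wd n (((PO (pr x y)).comp (wd (n+2) x)).comp (wd (n+1) a)) 0 (fun b g => ?_) f
    simp only [LinearMap.comp_apply, LinearMap.zero_apply]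
    rw [← R2, mulP_pr, wd_skew (n+2) x y, wd_skew (n+1) x a]
    simp only [map_neg, neg_neg]
    have e1 : wd (n+2+1) y (wd (n+2) a (wd (n+1) x (wd n b g))) =
      mulP (n+2) (pr y a) (wd (n+1) x (wd n b g)) := (mulP_pr (n+2) y a _).symm
    have e2 : CE x (wd (n+2+1) y (wd (n+2) a (wd (n+1) x (wd n b g)))) = 0 := by
      rw [e1, R2, wd_self, map_zero]
    exact e2
  obtain ⟨lO, hlO⟩ := G1 (n+2) PO hPO0
  have hCEl : ∀ c e, CE c e = lO (wd (n+4) c e) := by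
    intro c e
    refine ext_mulP (n+2) (CE c) (lO.comp (wd (n+4) c)) (fun p f => ?_) e
    rw [R2, hlO, LinearMap.comp_apply]
    exact congrArg lO (mulP_wd (n+2) p c f)
  refine ⟨lE.comp (LinearMap.fst F _ _) + lO.comp (LinearMap.snd F _ _), ?_⟩
  rintro ⟨c, p⟩ ⟨e, o⟩
  have hsplit : t (c, p) (e, o) = CE c e + CO c o + (PE p e + PO p o) := by
    have e1 : ((e, o) : Lm F C (n+4) × Lm F C (n+3)) = (e, 0) + (0, o) := by simp
    have e2 : ((c, p) : C × Lm F C 2) = (c, 0) + (0, p) := by simp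
    rw [e1, e2, map_add t, LinearMap.add_apply, map_add, map_add]
    rfl
  rw [hsplit, hCO0, add_zero, hCEl, hlE, hlO]
  simp only [qN_apply, LinearMap.add_apply, LinearMap.comp_apply, LinearMap.fst_apply, LinearMap.snd_apply, map_add]
  abel

end Pool.Agent.MP_754a42_al
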