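import Pool.Agent.Lib.MP_754a42_al.N6
import Pool.Agent.Lib.MP_754a42_al.N7

/-!
# MP_754a42_al, row N8b: `X2N_4` (THIS ROW, contains step 5); the other steps are given for context.

Setting (all rows below): `T : V_C → V_C → N → Z` (`V_C = C × Lm 2`, `N = Lm (n+4) × Lm (n+3)`), `T v v x = 0`,
`T u v (qE w e') + T v w (qE u e') + T w u (qE v e') = 0` (`e' : Lm (n+2)`).  Components, `c, c' ∈ C`, `p, p' ∈ Lm 2`, `e ∈ Lm (n+4)`,
`o ∈ Lm (n+3)`.  They are given here as separate hypotheses on five trilinear maps so that the steps are independent: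
`CCe(c,c';e)`, `CCo(c,c';o)`, `CPe(c,p;e)`, `CPo(c,p;o)`, `PPe(p,p';e)`, `PPo(p,p';o)`.

* `X2N_1` (`CCo = 0`): `o = a b g`... : `o = wd a (wd b (wd c'' g))`, `g : Lm n`; `ψ(c,c';a,b,d) := CCo(c,c'; a b d g)` satisfies `L5`:
  skew in `c,c'`, alternating in `a,b,d`, and `h4` is the hypothesis with `e' = b d g`.
* `X2N_2`: hypothesis (ccp) `CPo(c;p;c'e') - CPo(c';p;ce') = CCe(c,c';p e')`.  Take `p = xy`, `e' = x g` (`g : Lm (n+1)`): `p e' = 0`, so
  `CPo(c;xy;c' x g) = CPo(c';xy;c x g)`.  For `g = a g'`: `f(c,b,a) := CPo(c;xy; x b a g')` (`= - CPo(c;xy;b x a g')`) is symmetric in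
  `c,b` and skew in `b,a`: `SK` gives `CPo(c;xy;x f) = 0` for all `f : Lm (n+2)` (`span_wd` twice).
  `G1 (n+2)` with values in `C → Z`: `CPo(c;p;o) = lCO(c; p o)`.  Then `CCe(c,c';e) = lCO(c;c'e) - lCO(c';ce)`: for `e = p e'`
  (`ext_mulP`) it is (ccp) and `p c' e' = c' p e'` (`mulP_wd`).
* `X2N_3` is `F2 (n+1)` with `alpha n`.
* `X2N_4`: hypothesis (cpp) `CPe(c;p;p'e') - CPe(c;p';pe') + PPo(p,p';ce') = 0`.  `al`: `PPo(xy,xz;x f) = 0`, `f : Lm (n+2)`: `f = a g`,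
  (cpp) with `c = a`, `p = xy`, `p' = xz`, `e' = x g`: `p e' = p' e' = 0`, so `PPo(xy,xz; a x g) = 0`, and `a x g = - x a g`.
  `be`: `PPo(p,p';p''g) + cyc = 0` for `g : Lm (n+1)`: `g = c g'` (`g' : Lm n`), `p'' c g' = c p'' g'`, (cpp) with `e' = p'' g'`:
  `PPo(p,p';c p''g') = CPe(c;p';p p''g') - CPe(c;p;p'p''g')`; the cyclic sum vanishes by `mulP_comm`.  `F2 n`:
  `PPo(p,p';o) = lPO(p;p'o) - lPO(p';po)`.
* `X2N_5`: `CPe'(c;p;e) := CPe(c;p;e) + lPO(p;ce)` satisfies `CPe'(c;p;p'e') = CPe'(c;p';pe')` by (cpp), so by `F1 (n+1)` with values in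
  `C → Z`: `CPe(c;p;e) = lCE(c;pe) - lPO(p;ce)`.
* `X2N`: `l (c,p) (e,o) := lCE c e + lCO c o + lPE p e + lPO p o`, `e : Lm (n+6)`, `o : Lm (n+5)`:
  `T (c,p) (c',p') (e,o) = CCe + CCo + CPe(c,p';e) - CPe(c',p;e) + CPo(c,p';o) - CPo(c',p;o) + PPe + PPo`.
-/

namespace Pool.Agent.MP_754a42_al

universe u

variable {F : Type u} [Field F] [CharZero F] {C : Type u} [AddCommGroup C] [Module F C] [FiniteDimensional F C]
  {Z : Type u} [AddCommGroup Z] [Module F Z]

theorem X2N_4 (n : ℕ) (CPe : C →ₗ[F] Lm F C 2 →ₗ[F] Lm F C (n+4) →ₗ[F] Z)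
    (PPo : Lm F C 2 →ₗ[F] Lm F C 2 →ₗ[F] Lm F C (n+3) →ₗ[F] Z) (alt : ∀ p o, PPo p p o = 0)
    (h : ∀ c p p' (e : Lm F C (n+2)), CPe c p (mulP (n+2) p' e) - CPe c p' (mulP (n+2) p e)
      + PPo p p' (wd (n+2) c e) = 0) :
    ∃ lPO : Lm F C 2 →ₗ[F] Lm F C (n+5) →ₗ[F] Z, ∃ lCE : C →ₗ[F] Lm F C (n+6) →ₗ[F] Z,
      (∀ p p' o, PPo p p' o = lPO p (mulP (n+3) p' o) - lPO p' (mulP (n+3) p o)) ∧
      (∀ c p e, CPe c p e = lCE c (mulP (n+4) p e) - lPO p (wd (n+4) c e)) := by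
  have al : ∀ x y z (f : Lm F C (n+2)), PPo (pr x y) (pr x z) (wd (n+2) x f) = 0 := by
    intro x y z f
    have key := ext_wd (n+1) ((PPo (pr x y) (pr x z)).comp (wd (n+2) x)) 0 (fun a g => by
      have h1 := h a (pr x y) (pr x z) (wd (n+1) x g)
      have e1 : mulP (n+2) (pr x z) (wd (n+1) x g) = 0 := by
        rw [mulP_wd, mulP_pr, wd_self]
      have e2 : mulP (n+2) (pr x y) (wd (n+1) x g) = 0 := by
        rw [mulP_wd, mulP_pr, wd_self]
      rw [e1, e2, map_zero, map_zero, sub_zero, zero_add] at h1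
      rw [LinearMap.comp_apply, wd_skew (n+1) x a g, map_neg, h1, neg_zero, LinearMap.zero_apply]) f
    simpa using key
  have be : ∀ p q r (g : Lm F C (n+1)), PPo p q (mulP (n+1) r g) + PPo q r (mulP (n+1) p g)
      + PPo r p (mulP (n+1) q g) = 0 := by
    intro p q r g
    have key := ext_wd n ((PPo p q).comp (mulP (n+1) r) + (PPo q r).comp (mulP (n+1) p)
      + (PPo r p).comp (mulP (n+1) q)) 0 (fun c g' => by
      have h1 := h c p q (mulP n r g')
      have h2 := h c q r (mulP n p g')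
      have h3 := h c r p (mulP n q g')
      simp only [LinearMap.add_apply, LinearMap.comp_apply, LinearMap.zero_apply, mulP_wd]
      rw [mulP_comm n q r g'] at h1
      rw [mulP_comm n q p g'] at h2
      rw [mulP_comm n r p g'] at h2
      have e : PPo p q (wd (n+2) c (mulP n r g')) + PPo q r (wd (n+2) c (mulP n p g'))
          + PPo r p (wd (n+2) c (mulP n q g')) =
          (CPe c p (mulP (n+2) r (mulP n q g')) - CPe c q (mulP (n+2) p (mulP n r g'))
            + PPo p q (wd (n+2) c (mulP n r g')))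
          + (CPe c q (mulP (n+2) p (mulP n r g')) - CPe c r (mulP (n+2) p (mulP n q g'))
            + PPo q r (wd (n+2) c (mulP n p g')))
          + (CPe c r (mulP (n+2) p (mulP n q g')) - CPe c p (mulP (n+2) r (mulP n q g'))
            + PPo r p (wd (n+2) c (mulP n q g'))) := by abel
      rw [e, h1, h2, h3]; simp) g
    simpa using key
  obtain ⟨lPO, hPO⟩ := F2 n PPo alt al be
  let t : Lm F C 2 →ₗ[F] Lm F C (n+4) →ₗ[F] (C →ₗ[F] Z) :=
    LinearMap.mk₂ F (fun p e => (CPe.flip p).flip e + (lPO p).comp ((wd (n+4)).flip e))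
      (fun x y f => by ext c; simp; abel) (fun a x f => by ext c; simp)
      (fun x f g => by ext c; simp; abel) (fun a x f => by ext c; simp)
  have ht : ∀ c p e, t p e c = CPe c p e + lPO p (wd (n+4) c e) := fun c p e => rfl
  obtain ⟨l, hl⟩ := F1 (n+1) t (fun p q g => by
    ext c
    have h1 := h c p q g
    rw [hPO, mulP_wd, mulP_wd] at h1
    show t p (mulP (n+2) q g) c = t q (mulP (n+2) p g) c
    rw [ht, ht]
    rw [← sub_eq_zero, ← h1]
    abel)
  refine ⟨lPO, l.flip, hPO, fun c p e => ?_⟩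
  have h1 : t p e c = l (mulP (n+4) p e) c := by
    have := hl p e
    exact congrArg (fun z : C →ₗ[F] Z => z c) this
  rw [ht] at h1
  rw [LinearMap.flip_apply]
  rw [eq_sub_iff_add_eq]
  exact h1

end Pool.Agent.MP_754a42_al
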