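import Pool.Agent.Lib.MP_754a42_al.N8a
import Pool.Agent.Lib.MP_754a42_al.N8b
import Pool.Agent.Lib.MP_754a42_al.N5b

/-!
# MP_754a42_al, row N8: `X2N` (THIS ROW: steps 3 and the assembly).

Setting (all rows below): `T : V_C → V_C → N → Z` (`V_C = C × Lm 2`, `N = Lm (n+4) × Lm (n+3)`), `T v v x = 0`,
`T u v (qE w e') + T v w (qE u e') + T w u (qE v e') = 0` (`e' : Lm (n+2)`).  Components, `c, c' ∈ C`, `p, p' ∈ Lm 2`, `e ∈ Lm (n+4)`,
`o ∈ Lm (n+3)`.  They are given here as separate hypotheses on five trilinear maps so that the steps are independent: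
`CCe(c,c';e)`, `CCo(c,c';o)`, `CPe(c,p;e)`, `CPo(c,p;o)`, `PPe(p,p';e)`, `PPo(p,p';o)`.

* `X2N_1` (`CCo = 0`): `o = a b g`... : `o = wd a (wd b (wd c'' g))`, `g : Lm n`; `ψ(c,c';a,b,d) := CCo(c,c'; a b d g)` satisfies `L5`:
  skew in `c,c'`, alternating in `a,b,d`, and `h4` is the hypothesis with `e' = b d g`.
* `X2N_2`: hypothesis (ccp) `CPo(c;p;c'e') - CPo(c';p;ce') = CCe(c,c';p e')`.  Take `p = xy`, `e' = x g` (`g : Lm (n+1)`): `p e' = 0`, so
  `CPo(c;xy;c' x g) = CPo(c';xy;c x g)`.  For `g = a g'`: `f(c,b,a) := CPo(c;xy; x b a g')` (`= - CPo(c;xy;b x a g')`) is symmetric in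
  `c,b` and skew in `b,a`: `SK` gives `CPo(c;xy;x f) = 0` for all `f : Lm (n+2)` (`span_wd` twice).
  `G1 (n+2)` with values in `C → Z`: `CPo(c;p;o) = lCO(c; p o)`.  Then `CCe(c,c';e) = lCO(c;c'e) - lCO(c';ce)`: for `e = p e'`
  (`ext_mulP`) it is (ccp) and `p c' e' = c' p e'` (`mulP_wd`).
* `X2N_3` is `F2 (n+1)` with `alpha n`.
* `X2N_4`: hypothesis (cpp) `CPe(c;p;p'e') - CPe(c;p';pe') + PPo(p,p';ce') = 0`.  `al`: `PPo(xy,xz;x f) = 0`, `f : Lm (n+2)`: `f = a g`,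
  (cpp) with `c = a`, `p = xy`, `p' = xz`, `e' = x g`: `p e' = p' e' = 0`, so `PPo(xy,xz; a x g) = 0`, and `a x g = - x a g`.
  `be`: `PPo(p,p';p''g) + cyc = 0` for `g : Lm (n+1)`: `g = c g'` (`g' : Lm n`), `p'' c g' = c p'' g'`, (cpp) with `e' = p'' g'`:
  `PPo(p,p';c p''g') = CPe(c;p';p p''g') - CPe(c;p;p'p''g')`; the cyclic sum vanishes by `mulP_comm`.  `F2 n`:
  `PPo(p,p';o) = lPO(p;p'o) - lPO(p';po)`.
* `X2N_5`: `CPe'(c;p;e) := CPe(c;p;e) + lPO(p;ce)` satisfies `CPe'(c;p;p'e') = CPe'(c;p';pe')` by (cpp), so by `F1 (n+1)` with values in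
  `C → Z`: `CPe(c;p;e) = lCE(c;pe) - lPO(p;ce)`.
* `X2N`: `l (c,p) (e,o) := lCE c e + lCO c o + lPE p e + lPO p o`, `e : Lm (n+6)`, `o : Lm (n+5)`:
  `T (c,p) (c',p') (e,o) = CCe + CCo + CPe(c,p';e) - CPe(c',p;e) + CPo(c,p';o) - CPo(c',p;o) + PPe + PPo`.
-/

namespace Pool.Agent.MP_754a42_al

universe u

variable {F : Type u} [Field F] [CharZero F] {C : Type u} [AddCommGroup C] [Module F C] [FiniteDimensional F C]
  {Z : Type u} [AddCommGroup Z] [Module F Z]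

/-- the component of a trilinear map along three linear maps -/
noncomputable def cmp3 {V N A B D : Type u} [AddCommGroup V] [Module F V] [AddCommGroup N] [Module F N]
    [AddCommGroup A] [Module F A] [AddCommGroup B] [Module F B] [AddCommGroup D] [Module F D]
    (T : V →ₗ[F] V →ₗ[F] N →ₗ[F] Z) (i : A →ₗ[F] V) (j : B →ₗ[F] V) (k : D →ₗ[F] N) :
    A →ₗ[F] B →ₗ[F] D →ₗ[F] Z :=
  (T.compl₁₂ i j).compr₂ (LinearMap.lcomp F Z k)

omit [CharZero F] in
theorem cmp3_apply {V N A B D : Type u} [AddCommGroup V] [Module F V] [AddCommGroup N] [Module F N]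
    [AddCommGroup A] [Module F A] [AddCommGroup B] [Module F B] [AddCommGroup D] [Module F D]
    (T : V →ₗ[F] V →ₗ[F] N →ₗ[F] Z) (i : A →ₗ[F] V) (j : B →ₗ[F] V) (k : D →ₗ[F] N) (a : A) (b : B)
    (d : D) : cmp3 T i j k a b d = T (i a) (j b) (k d) := rfl

variable (F C)

theorem X2N (n : ℕ) : X2 (qE F C n) (qN F C n) := by
  intro Z _ _ T alt h
  have skew : ∀ u v x, T u v x = - T v u x := by
    intro u v x
    have h1 := alt (u + v) x
    simp only [map_add, LinearMap.add_apply, alt, zero_add, add_zero] at h1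
    rw [eq_neg_iff_add_eq_zero, add_comm]; exact h1
  let iC : C →ₗ[F] C × Lm F C 2 := LinearMap.inl F C (Lm F C 2)
  let iP : Lm F C 2 →ₗ[F] C × Lm F C 2 := LinearMap.inr F C (Lm F C 2)
  let iE : Lm F C (n+4) →ₗ[F] Lm F C (n+4) × Lm F C (n+3) := LinearMap.inl F _ _
  let iO : Lm F C (n+3) →ₗ[F] Lm F C (n+4) × Lm F C (n+3) := LinearMap.inr F _ _
  have hspl : ∀ (e : Lm F C (n+4)) (o : Lm F C (n+3)), (e, o) = iE e + iO o := by
    intro e o; simp [iE, iO]
  have hsplV : ∀ (c : C) (p : Lm F C 2), (c, p) = iC c + iP p := by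
    intro c p; simp [iC, iP]
  have qCE : ∀ c e, qE F C n (iC c) e = iO (wd (n+2) c e) := by
    intro c e; simp [iC, iO]
  have qPE : ∀ p e, qE F C n (iP p) e = iE (mulP (n+2) p e) := by
    intro p e; simp [iP, iE]
  -- the five components
  set CCe := cmp3 T iC iC iE with hCCe
  set CCo := cmp3 T iC iC iO with hCCo
  set CPe := cmp3 T iC iP iE with hCPe
  set CPo := cmp3 T iC iP iO with hCPo
  set PPe := cmp3 T iP iP iE with hPPe
  set PPo := cmp3 T iP iP iO with hPPo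
  have z1 : ∀ (c c' : C) (o : Lm F C (n+3)), CCo c c' o = 0 := by
    refine X2N_1 n CCo (fun c o => alt _ _) (fun a b c e => ?_)
    have h1 := h (iC a) (iC b) (iC c) e
    rw [qCE, qCE, qCE] at h1
    exact h1
  obtain ⟨lCO, h2a, h2b⟩ := X2N_2 n CPo CCe (fun c c' p e => by
    have h1 := h (iC c) (iC c') (iP p) e
    rw [qCE, qCE, qPE] at h1
    rw [skew (iP p) (iC c)] at h1
    have e1 : CPo c p (wd (n+2) c' e) = T (iC c) (iP p) (iO (wd (n+2) c' e)) := rfl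
    have e2 : CPo c' p (wd (n+2) c e) = T (iC c') (iP p) (iO (wd (n+2) c e)) := rfl
    have e3 : CCe c c' (mulP (n+2) p e) = T (iC c) (iC c') (iE (mulP (n+2) p e)) := rfl
    rw [e1, e2, e3]
    rw [eq_comm, ← sub_eq_zero, ← h1]
    abel)
  obtain ⟨lPE, h3⟩ := F2 (n+1) PPe (fun p f => alt _ _)
    (alpha n PPe (fun p f => alt _ _) (fun p q r g => by
      have h1 := h (iP p) (iP q) (iP r) g
      rw [qPE, qPE, qPE] at h1
      exact h1))
    (fun p q r g => by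
      have h1 := h (iP p) (iP q) (iP r) g
      rw [qPE, qPE, qPE] at h1
      exact h1)
  obtain ⟨lPO, lCE, h4a, h4b⟩ := X2N_4 n CPe PPo (fun p o => alt _ _) (fun c p p' e => by
    have h1 := h (iC c) (iP p) (iP p') e
    rw [qPE, qPE, qCE] at h1
    rw [skew (iP p') (iC c)] at h1
    have e1 : CPe c p (mulP (n+2) p' e) = T (iC c) (iP p) (iE (mulP (n+2) p' e)) := rfl
    have e2 : CPe c p' (mulP (n+2) p e) = T (iC c) (iP p') (iE (mulP (n+2) p e)) := rfl
    have e3 : PPo p p' (wd (n+2) c e) = T (iP p) (iP p') (iO (wd (n+2) c e)) := rfl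
    rw [e1, e2, e3, ← h1]
    abel)
  -- the map `l`
  let prC : C × Lm F C 2 →ₗ[F] C := LinearMap.fst F _ _
  let prP : C × Lm F C 2 →ₗ[F] Lm F C 2 := LinearMap.snd F _ _
  let rE : Lm F C (n+6) × Lm F C (n+5) →ₗ[F] Lm F C (n+6) := LinearMap.fst F _ _
  let rO : Lm F C (n+6) × Lm F C (n+5) →ₗ[F] Lm F C (n+5) := LinearMap.snd F _ _
  refine ⟨lCE.compl₁₂ prC rE + lCO.compl₁₂ prC rO + lPE.compl₁₂ prP rE + lPO.compl₁₂ prP rO, ?_⟩
  rintro ⟨c, p⟩ ⟨c', p'⟩ ⟨e, o⟩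
  have eT : T (c, p) (c', p') (e, o)
      = CCe c c' e + CCo c c' o + CPe c p' e - CPe c' p e + CPo c p' o - CPo c' p o
        + PPe p p' e + PPo p p' o := by
    rw [hspl e o, hsplV c p, hsplV c' p']
    simp only [map_add, LinearMap.add_apply]
    rw [skew (iP p) (iC c'), skew (iP p) (iC c')]
    have e1 : CCe c c' e = T (iC c) (iC c') (iE e) := rfl
    have e2 : CCo c c' o = T (iC c) (iC c') (iO o) := rfl
    have e3 : CPe c p' e = T (iC c) (iP p') (iE e) := rfl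
    have e4 : CPe c' p e = T (iC c') (iP p) (iE e) := rfl
    have e5 : CPo c p' o = T (iC c) (iP p') (iO o) := rfl
    have e6 : CPo c' p o = T (iC c') (iP p) (iO o) := rfl
    have e7 : PPe p p' e = T (iP p) (iP p') (iE e) := rfl
    have e8 : PPo p p' o = T (iP p) (iP p') (iO o) := rfl
    rw [e1, e2, e3, e4, e5, e6, e7, e8]
    abel
  have el : ∀ (c : C) (p : Lm F C 2) (x : Lm F C (n+6)) (y : Lm F C (n+5)),
      (lCE.compl₁₂ prC rE + lCO.compl₁₂ prC rO + lPE.compl₁₂ prP rE + lPO.compl₁₂ prP rO)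
        (c, p) (x, y) = lCE c x + lCO c y + lPE p x + lPO p y := fun c p x y => rfl
  rw [eT, qN_apply, qN_apply, el, el, z1, h2b, h3, h4b, h4b, h2a, h2a, h4a]
  simp only [map_add]
  abel

end Pool.Agent.MP_754a42_al
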