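import Pool.Agent.Lib.MP_754a42_al.F6
import Pool.Agent.Lib.MP_754a42_al.N8
import Pool.Agent.Lib.MP_754a42_al.L1

/-!
# MP_754a42_al, row F6b: the exterior part of the coboundary.

`q : L → C × Lm 2` is surjective: its range contains `(κ a, 0)` (`P.q_r`) and `(0, 2 pr (κa) (κb))` (`P.q_dl`), `κ` surjective, `span_pr`.
`X2_lift q` applied to `qE F C 0`, `qN F C 0` with `X1N F C 0`, `X2N F C 0`; the span hypothesis: `Lm 4 × Lm 3` is spanned by
`qE (0,p) e = (p e, 0)` and `qE (c,0) e = (0, c e)` (`span_mulP`, `span_wd`).  Apply the resulting `X2` to the map `t` of `F6`.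
-/

namespace Pool.Agent.MP_754a42_al

universe u

variable {F : Type u} [Field F] [CharZero F] {A : Type u} [AddCommGroup A] [Module F A]
  {L : Type u} [LieRing L] [LieAlgebra F L] {M : Type u} [AddCommGroup M] [Module F M]
  {mul : A →ₗ[F] A →ₗ[F] A} {r : A →ₗ[F] L} {m : L →ₗ[F] L →ₗ[F] M} {ad : L →ₗ[F] M →ₗ[F] M}
  {Z : Type u} [AddCommGroup Z] [Module F Z]
  {C : Type u} [AddCommGroup C] [Module F C] [FiniteDimensional F C] {κ : A →ₗ[F] C}
  {q : L →ₗ[F] (C × Lm F C 2)} {prN : M →ₗ[F] (Lm F C 4 × Lm F C 3)}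

omit [CharZero F] [FiniteDimensional F C] in
theorem qE_span (n : ℕ) (P : Submodule F (Lm F C (n+4) × Lm F C (n+3)))
    (h : ∀ v e, qE F C n v e ∈ P) (x : Lm F C (n+4) × Lm F C (n+3)) : x ∈ P := by
  have h1 : ∀ e : Lm F C (n+4), LinearMap.inl F (Lm F C (n+4)) (Lm F C (n+3)) e ∈ P := by
    intro e
    refine Submodule.mem_comap.1 (span_mulP (n+2)
      (P.comap (LinearMap.inl F (Lm F C (n+4)) (Lm F C (n+3)))) (fun p f => ?_) e)
    rw [Submodule.mem_comap, LinearMap.inl_apply]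
    have h2 := h (0, p) f
    rw [qE_apply] at h2
    simpa only [map_zero, LinearMap.zero_apply] using h2
  have h2 : ∀ o : Lm F C (n+3), LinearMap.inr F (Lm F C (n+4)) (Lm F C (n+3)) o ∈ P := by
    intro o
    refine Submodule.mem_comap.1 (span_wd (n+2)
      (P.comap (LinearMap.inr F (Lm F C (n+4)) (Lm F C (n+3)))) (fun c f => ?_) o)
    rw [Submodule.mem_comap, LinearMap.inr_apply]
    have h2 := h (c, 0) f
    rw [qE_apply] at h2
    simpa only [map_zero, LinearMap.zero_apply] using h2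
  have h3 := P.add_mem (h1 x.1) (h2 x.2)
  rw [LinearMap.inl_apply, LinearMap.inr_apply, Prod.mk_add_mk, add_zero, zero_add] at h3
  exact h3

theorem ProjN.q_surj (P : ProjN mul r m κ q prN) : Function.Surjective q := by
  have h1 : ∀ c : C, LinearMap.inl F C (Lm F C 2) c ∈ LinearMap.range q := by
    intro c
    obtain ⟨a, rfl⟩ := P.surj c
    exact ⟨r a, by rw [P.q_r, LinearMap.inl_apply]⟩
  have h2 : ∀ p : Lm F C 2, LinearMap.inr F C (Lm F C 2) p ∈ LinearMap.range q := by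
    intro p
    refine Submodule.mem_comap.1 (span_pr ((LinearMap.range q).comap (LinearMap.inr F C (Lm F C 2)))
      (fun x y => ?_) p)
    rw [Submodule.mem_comap]
    obtain ⟨a, rfl⟩ := P.surj x
    obtain ⟨b, rfl⟩ := P.surj y
    refine ⟨(2 : F)⁻¹ • dl mul r a b, ?_⟩
    rw [map_smul, P.q_dl, LinearMap.inr_apply, Prod.smul_mk, smul_zero, smul_smul,
      inv_mul_cancel₀ two_ne_zero, one_smul]
  intro x
  obtain ⟨v, hv⟩ := (LinearMap.range q).add_mem (h1 x.1) (h2 x.2)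
  refine ⟨v, ?_⟩
  rw [hv, LinearMap.inl_apply, LinearMap.inr_apply, Prod.mk_add_mk, add_zero, zero_add]

/-- `X2` for the exterior part over `L`, in all degrees -/
theorem X2_qN (n : ℕ) (hq : Function.Surjective q) :
    X2 ((qE F C n).comp q) ((qN F C n).comp q) :=
  X2_lift q hq (qE F C n) (qN F C n) (fun P h x => qE_span n P h x) (X1N F C n) (X2N F C n)

theorem Base.F6b (B : Base mul r m ad) (P : ProjN mul r m κ q prN)
    (T : L →ₗ[F] L →ₗ[F] M →ₗ[F] Z) (alt : ∀ v x, T v v x = 0)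
    (coc : ∀ u v w y, T u v (m w y) + T v w (m u y) + T w u (m v y) = 0) :
    ∃ l : L →ₗ[F] (Lm F C 6 × Lm F C 5) →ₗ[F] Z,
      ∀ u v w a b, T u v (m w (dl mul r a b)) = l u (qN F C 0 (q v) (prN (m w (dl mul r a b))))
        - l v (qN F C 0 (q u) (prN (m w (dl mul r a b)))) := by
  obtain ⟨t, h1, h2, h3⟩ := B.F6 P T alt coc
  obtain ⟨l, hl⟩ := X2_qN 0 P.q_surj Z t h2 (fun u v w y => h3 u v w y)
  refine ⟨l, fun u v w a b => ?_⟩
  rw [h1, hl]
  rfl

end Pool.Agent.MP_754a42_al
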