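import Pool.Agent.Lib.MP_754a42_al.Base

/-!
# MP_754a42_al, row F7a: commutation of the leading terms on the exterior side.

`qN_comm`: with `v = (v1,v2)`, `u = (u1,u2)`, `x = (e,o)`: `qN v (qN u x) = (v2 u2 e, v1 u2 e + v2 u1 e + v2 u2 o)`; use `mulP_comm`, `mulP_wd`.
`qN_prN`: `prN (m w y) = (w2 y2, w1 y2 + y1 w2)` (`P.pr_m`), so the second component of `qN v (prN (m w y))` is
`v1 w2 y2 + v2 w1 y2 + v2 y1 w2`, symmetric in `v,w` (`mulP_wd`, `mulP_comm`; `mulP 2 p p' = mulP 2 p' p` for `p,p' : Lm 2` is needed: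
`y1 ∧ (w2 v2)`, prove it with `ext_pr` like `mulP_comm`, lemma `mulP_swap`).
-/

namespace Pool.Agent.MP_754a42_al

universe u

section
variable {F : Type u} [Field F] {C : Type u} [AddCommGroup C] [Module F C]

theorem mulP_swap (p p' : Lm F C 2) : mulP 2 p p' = mulP 2 p' p := by
  have h1 : ∀ (a b : C), mulP 2 p (pr a b) = mulP 2 (pr a b) p := by
    intro a b
    have h2 := ext_pr ((LinearMap.flip (mulP 2)) (pr a b : Lm F C 2)) (mulP 2 (pr a b))
      (fun x y => by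
        rw [LinearMap.flip_apply, mulP_pr, mulP_pr]
        refine Subtype.ext ?_
        simp only [wd_val, pr_val]
        have hs : ∀ u v : C, ExteriorAlgebra.ι F u * ExteriorAlgebra.ι F v
            = - (ExteriorAlgebra.ι F v * ExteriorAlgebra.ι F u) := by
          intro u v
          have := ExteriorAlgebra.ι_add_mul_swap (R := F) u v
          rw [eq_neg_iff_add_eq_zero]
          exact this
        generalize ha : ExteriorAlgebra.ι F a = a' at *
        have hxa := hs x a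
        have hxb := hs x b
        have hya := hs y a
        have hyb := hs y b
        rw [ha] at hxa hya
        calc ExteriorAlgebra.ι F x * (ExteriorAlgebra.ι F y * (a' * ExteriorAlgebra.ι F b))
            = ExteriorAlgebra.ι F x * ((ExteriorAlgebra.ι F y * a') * ExteriorAlgebra.ι F b) := by
              rw [mul_assoc]
          _ = - ((ExteriorAlgebra.ι F x * a') * (ExteriorAlgebra.ι F y * ExteriorAlgebra.ι F b)) := by
              rw [hya]; simp only [neg_mul, mul_neg, mul_assoc]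
          _ = - ((a' * ExteriorAlgebra.ι F x) * (ExteriorAlgebra.ι F b * ExteriorAlgebra.ι F y)) := by
              rw [hxa, hyb]; simp only [neg_mul, mul_neg, mul_assoc, neg_neg]
          _ = - (a' * ((ExteriorAlgebra.ι F x * ExteriorAlgebra.ι F b) * ExteriorAlgebra.ι F y)) := by
              simp only [mul_assoc]
          _ = a' * (ExteriorAlgebra.ι F b * (ExteriorAlgebra.ι F x * ExteriorAlgebra.ι F y)) := by
              rw [hxb]; simp only [neg_mul, mul_neg, mul_assoc, neg_neg]) p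
    rw [LinearMap.flip_apply] at h2
    exact h2
  have h3 := ext_pr (mulP 2 p) ((LinearMap.flip (mulP 2)) p) (fun a b => by
    rw [LinearMap.flip_apply]; exact h1 a b) p'
  rw [LinearMap.flip_apply] at h3
  exact h3

theorem qN_comm (n : ℕ) (v u : C × Lm F C 2) (x : Lm F C (n+4) × Lm F C (n+3)) :
    qN F C (n+2) v (qN F C n u x) = qN F C (n+2) u (qN F C n v x) := by
  have e1 : mulP (n+4+2) v.2 (mulP (n+4) u.2 x.1) = mulP (n+4+2) u.2 (mulP (n+4) v.2 x.1) :=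
    mulP_comm (n+4) v.2 u.2 x.1
  have e2 : mulP (n+3+2) v.2 (mulP (n+3) u.2 x.2) = mulP (n+3+2) u.2 (mulP (n+3) v.2 x.2) :=
    mulP_comm (n+3) v.2 u.2 x.2
  have e3 : mulP (n+4+1) v.2 (wd (n+4) u.1 x.1) = wd (n+4+2) u.1 (mulP (n+4) v.2 x.1) :=
    mulP_wd (n+4) v.2 u.1 x.1
  have e4 : mulP (n+4+1) u.2 (wd (n+4) v.1 x.1) = wd (n+4+2) v.1 (mulP (n+4) u.2 x.1) :=
    mulP_wd (n+4) u.2 v.1 x.1
  rw [qN_apply, qN_apply, qN_apply, qN_apply]
  refine Prod.ext ?_ ?_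
  · exact e1
  · show wd (n+4+2) v.1 (mulP (n+4) u.2 x.1)
        + mulP (n+4+1) v.2 (wd (n+4) u.1 x.1 + mulP (n+3) u.2 x.2)
      = wd (n+4+2) u.1 (mulP (n+4) v.2 x.1)
        + mulP (n+4+1) u.2 (wd (n+4) v.1 x.1 + mulP (n+3) v.2 x.2)
    rw [map_add, map_add, e3, e4]
    have e5 : mulP (n+4+1) v.2 (mulP (n+3) u.2 x.2) = mulP (n+4+1) u.2 (mulP (n+3) v.2 x.2) := e2
    rw [e5]
    abel

end

variable {F : Type u} [Field F] {A : Type u} [AddCommGroup A] [Module F A]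
  {L : Type u} [LieRing L] [LieAlgebra F L] {M : Type u} [AddCommGroup M] [Module F M]
  {mul : A →ₗ[F] A →ₗ[F] A} {r : A →ₗ[F] L} {m : L →ₗ[F] L →ₗ[F] M}
  {C : Type u} [AddCommGroup C] [Module F C] {κ : A →ₗ[F] C}
  {q : L →ₗ[F] (C × Lm F C 2)} {prN : M →ₗ[F] (Lm F C 4 × Lm F C 3)}

theorem ProjN.qN_prN (P : ProjN mul r m κ q prN) (v w y : L) :
    qN F C 0 (q v) (prN (m w y)) = qN F C 0 (q w) (prN (m v y)) := by
  rw [P.pr_m, P.pr_m, qN_apply, qN_apply]
  generalize q v = a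
  generalize q w = b
  generalize q y = c
  have e1 : mulP (2+2) a.2 (mulP 2 b.2 c.2) = mulP (2+2) b.2 (mulP 2 a.2 c.2) :=
    mulP_comm 2 a.2 b.2 c.2
  have e2 : mulP (2+1) a.2 (wd 2 b.1 c.2) = wd (2+2) b.1 (mulP 2 a.2 c.2) :=
    mulP_wd 2 a.2 b.1 c.2
  have e3 : mulP (2+1) b.2 (wd 2 a.1 c.2) = wd (2+2) a.1 (mulP 2 b.2 c.2) :=
    mulP_wd 2 b.2 a.1 c.2
  have e4 : mulP (2+1) a.2 (wd 2 c.1 b.2) = mulP (2+1) b.2 (wd 2 c.1 a.2) := by
    rw [mulP_wd 2 a.2 c.1 b.2, mulP_wd 2 b.2 c.1 a.2, mulP_swap]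
  refine Prod.ext ?_ ?_
  · exact e1
  · show wd (2+2) a.1 (mulP 2 b.2 c.2) + mulP (2+1) a.2 (wd 2 b.1 c.2 + wd 2 c.1 b.2)
      = wd (2+2) b.1 (mulP 2 a.2 c.2) + mulP (2+1) b.2 (wd 2 a.1 c.2 + wd 2 c.1 a.2)
    rw [map_add, map_add, e2, e3, e4]
    abel

end Pool.Agent.MP_754a42_al
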