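import Pool.Agent.Lib.MP_754a42_al.S0
import Pool.Agent.Lib.MP_754a42_al.Ct

/-!
# MP_754a42_al, row S1: exactness for symmetric powers (Euler argument), `X1S`, `X2S`, `spanS`.

`∂_i f` for `f : Sy (k+1)` is homogeneous of degree `k` (`MvPolynomial.pderiv`, `IsHomogeneous.pderiv`), a linear map
`Sy (k+1) → Sy k`.  `∂_i (lin x * f) = x_i f + lin x * ∂_i f` (`x_i = b.coord i x`); Euler: `∑ i, X_i * ∂_i f = (k+1) f`
for `f` homogeneous of degree `k+1` (Mathlib: `MvPolynomial.IsHomogeneous.sum_X_mul_pderiv` or similar; else by `induction` on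
monomials); `X_i = lin (b i)`.  `∑ i, x_i • T (b i) = T x` for linear `T`.
* `X1S`: `t v (w f) = t w (v f)` (`f : Sy k`), `t : g → Sy (k+1) → Z`.  `l(h) := 1/(k+2) ∑ i, t (b i) (∂_i h)`, `h : Sy (k+2)`:
  `(k+2) l(v f) = ∑ i, t (b i) (v_i f + v ∂_i f) = t v f + ∑ i, t v (b_i ∂_i f) = t v f + (k+1) t v f` for `f : Sy (k+1)`.
* `X2S`: `l v h := 1/(k+3) ∑ i, T v (b i) (∂_i h)`, `h : Sy (k+2)`, `x : Sy (k+1)`:
  `(k+3) (l v (u x) - l u (v x)) = T v u x - T u v x + ∑ i, [T v (b i) (u ∂_i x) + T (b i) u (v ∂_i x)]`, and by the cocycle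
  identity (`(u,v,b_i; ∂_i x)`) the bracket is `- T u v (b_i ∂_i x) = T v u (b_i ∂_i x)`; total `(2 + (k+1)) T v u x`.
  (Signs: `X2` asks `T u v x = l u (q' v x) - l v (q' u x)`.)
* `spanS`: `homogeneousSubmodule` of degree `k+1` is spanned by `X_i f`; from Euler: `h = 1/(k+1) ∑ X_i ∂_i h`.
-/

namespace Pool.Agent.MP_754a42_al

universe u

variable {F : Type u} [Field F] {g : Type u} [AddCommGroup g] [Module F g]
  {ι : Type} [Fintype ι]

/-- partial derivative on homogeneous polynomials -/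
private noncomputable def dS (k : ℕ) (i : ι) : Sy F ι (k+1) →ₗ[F] Sy F ι k where
  toFun f := ⟨MvPolynomial.pderiv i f.1, by
    have h := f.2
    rw [MvPolynomial.mem_homogeneousSubmodule] at h ⊢
    simpa using h.pderiv (i := i)⟩
  map_add' f h := by ext1; simp
  map_smul' c f := by ext1; simp

omit [Fintype ι] in
private theorem dS_val (k : ℕ) (i : ι) (f : Sy F ι (k+1)) :
    ((dS k i f : Sy F ι k) : MvPolynomial ι F) = MvPolynomial.pderiv i f.1 := rfl

private theorem s1_lin_basis (b : Module.Basis ι F g) (i : ι) : lin b (b i) = MvPolynomial.X i := by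
  classical
  rw [lin_apply, Finset.sum_eq_single i]
  · simp
  · intro j _ hj
    simp [Finsupp.single_eq_of_ne hj]
  · intro h
    exact absurd (Finset.mem_univ i) h

private theorem s1_pderiv_lin (b : Module.Basis ι F g) (i : ι) (x : g) :
    MvPolynomial.pderiv i (lin b x) = MvPolynomial.C (b.coord i x) := by
  classical
  rw [lin_apply, map_sum, Finset.sum_eq_single i]
  · rw [Derivation.map_smul, MvPolynomial.pderiv_X_self, MvPolynomial.smul_eq_C_mul, mul_one]
  · intro j _ hj
    rw [Derivation.map_smul, MvPolynomial.pderiv_X_of_ne hj, smul_zero]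
  · intro h
    exact absurd (Finset.mem_univ i) h

private theorem s1_dS_mS (b : Module.Basis ι F g) (k : ℕ) (i : ι) (x : g) (f : Sy F ι (k+1)) :
    dS (k+1) i (mS b (k+1) x f) = b.coord i x • f + mS b k x (dS k i f) := by
  ext1
  rw [dS_val, mS_val, MvPolynomial.pderiv_mul, s1_pderiv_lin]
  simp [dS_val, MvPolynomial.smul_eq_C_mul]

private theorem s1_euler (b : Module.Basis ι F g) (k : ℕ) (f : Sy F ι (k+1)) :
    ∑ i, mS b k (b i) (dS k i f) = ((k : F) + 1) • f := by
  ext1
  have h := f.2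
  rw [MvPolynomial.mem_homogeneousSubmodule] at h
  have h2 := h.sum_X_mul_pderiv
  rw [Submodule.coe_sum, Submodule.coe_smul]
  simp only [mS_val, dS_val, s1_lin_basis]
  rw [h2, MvPolynomial.smul_eq_C_mul, nsmul_eq_mul]
  simp

variable [CharZero F]

theorem X1S (b : Module.Basis ι F g) (k : ℕ) : X1 (mS b k) (mS b (k+1)) := by
  intro Z _ _ t h
  have hk : ((k : F) + 2) ≠ 0 := by
    have : ((k + 2 : ℕ) : F) ≠ 0 := Nat.cast_ne_zero.mpr (by omega)
    simpa using this
  refine ⟨((k : F) + 2)⁻¹ • ∑ i, (t (b i)).comp (dS (k+1) i), fun v x => ?_⟩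
  have key : ∑ i, t (b i) (dS (k+1) i (mS b (k+1) v x)) = ((k : F) + 2) • t v x := by
    have e1 : ∀ i, t (b i) (dS (k+1) i (mS b (k+1) v x)) =
        b.coord i v • t (b i) x + t v (mS b k (b i) (dS k i x)) := by
      intro i
      rw [s1_dS_mS, map_add, map_smul, h (b i) v]
    rw [Finset.sum_congr rfl (fun i _ => e1 i), Finset.sum_add_distrib]
    have e2 : ∑ i, b.coord i v • t (b i) x = t v x := sum_coord b (t.flip x) v
    rw [e2, ← map_sum, s1_euler, map_smul]
    module
  rw [LinearMap.smul_apply, LinearMap.sum_apply]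
  simp only [LinearMap.comp_apply]
  rw [key, smul_smul, inv_mul_cancel₀ hk, one_smul]

theorem X2S (b : Module.Basis ι F g) (k : ℕ) : X2 (mS b k) (mS b (k+1)) := by
  intro Z _ _ T hT h
  have hk : ((k : F) + 3) ≠ 0 := by
    have : ((k + 3 : ℕ) : F) ≠ 0 := Nat.cast_ne_zero.mpr (by omega)
    simpa using this
  have hskew : ∀ u v x, T u v x = - T v u x := by
    intro u v x
    have := hT (u + v) x
    simp only [map_add, LinearMap.add_apply, hT, zero_add, add_zero] at this
    rw [eq_neg_iff_add_eq_zero, add_comm]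
    exact this
  refine ⟨((k : F) + 3)⁻¹ • ∑ i, (LinearMap.lcomp F Z (dS (k+1) i)).comp (T.flip (b i)), fun u v x => ?_⟩
  have hl : ∀ (a : g) (y : Sy F ι (k+2)),
      (((k : F) + 3)⁻¹ • ∑ i, (LinearMap.lcomp F Z (dS (k+1) i)).comp (T.flip (b i))) a y =
        ((k : F) + 3)⁻¹ • ∑ i, T a (b i) (dS (k+1) i y) := by
    intro a y
    simp only [LinearMap.smul_apply, LinearMap.sum_apply, LinearMap.comp_apply, LinearMap.lcomp_apply,
      LinearMap.flip_apply]
  rw [hl, hl, ← smul_sub, ← Finset.sum_sub_distrib]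
  have key : ∑ i, (T u (b i) (dS (k+1) i (mS b (k+1) v x)) - T v (b i) (dS (k+1) i (mS b (k+1) u x))) =
      ((k : F) + 3) • T u v x := by
    have e1 : ∀ i, T u (b i) (dS (k+1) i (mS b (k+1) v x)) - T v (b i) (dS (k+1) i (mS b (k+1) u x)) =
        b.coord i v • T u (b i) x - b.coord i u • T v (b i) x + T u v (mS b k (b i) (dS k i x)) := by
      intro i
      rw [s1_dS_mS, s1_dS_mS, map_add, map_add, map_smul, map_smul]
      have hc := h u v (b i) (dS k i x)
      rw [hskew (b i) u] at hc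
      have hc' : T u (b i) (mS b k v (dS k i x)) =
          T u v (mS b k (b i) (dS k i x)) + T v (b i) (mS b k u (dS k i x)) := by
        rw [eq_comm, ← sub_eq_zero, ← hc]
        abel
      rw [hc']
      abel
    rw [Finset.sum_congr rfl (fun i _ => e1 i), Finset.sum_add_distrib, Finset.sum_sub_distrib]
    have e2 : ∑ i, b.coord i v • T u (b i) x = T u v x := sum_coord b ((T u).flip x) v
    have e3 : ∑ i, b.coord i u • T v (b i) x = T v u x := sum_coord b ((T v).flip x) u
    rw [e2, e3, ← map_sum, s1_euler, map_smul, hskew v u]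
    module
  rw [key, smul_smul, inv_mul_cancel₀ hk, one_smul]

theorem spanS (b : Module.Basis ι F g) (k : ℕ) (P : Submodule F (Sy F ι (k+1)))
    (h : ∀ x f, mS b k x f ∈ P) (f : Sy F ι (k+1)) : f ∈ P := by
  have hk : ((k : F) + 1) ≠ 0 := by
    have : ((k + 1 : ℕ) : F) ≠ 0 := Nat.cast_ne_zero.mpr (by omega)
    simpa using this
  have h1 : ((k : F) + 1) • f ∈ P := by
    rw [← s1_euler b k f]
    exact Submodule.sum_mem _ fun i _ => h _ _
  have h2 := P.smul_mem ((k : F) + 1)⁻¹ h1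
  rwa [smul_smul, inv_mul_cancel₀ hk, one_smul] at h2

end Pool.Agent.MP_754a42_al
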