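import Pool.Agent.Lib.MP_754a42_al.S0
import Pool.Agent.Lib.MP_754a42_al.Ct

/-!
# MP_754a42_al, row S2: `Sy 2` (quadratic forms).

* `S2`: `ψ(h) := 1/2 ∑ i j, coeff 0 (∂_j ∂_i h) • B (b i) (b j)` (`MvPolynomial.pderiv`, `MvPolynomial.coeff 0` or `constantCoeff`);
  for `h = lin x * lin y`: `∂_j ∂_i h = x_i y_j + x_j y_i` (`x_i = b.coord i x`, `lin x = ∑ x_i X_i`), so
  `ψ(h) = 1/2 (B x y + B y x) = B x y`.
* `span_sq`: `h` homogeneous of degree 2: Euler `2 h = ∑ i, X_i ∂_i h`, `∂_i h` homogeneous of degree 1, so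
  `∂_i h = ∑ j, c_ij X_j` and `h = 1/2 ∑ c_ij X_i X_j`, `X_i X_j = lin (b i) lin (b j)`.  (Or: monomials of degree 2.)
-/

namespace Pool.Agent.MP_754a42_al

universe u

variable {F : Type u} [Field F] [CharZero F] {g : Type u} [AddCommGroup g] [Module F g]
  {ι : Type} [Fintype ι]

omit [CharZero F] in
private theorem s2_lin_basis (b : Module.Basis ι F g) (i : ι) : lin b (b i) = MvPolynomial.X i := by
  classical
  rw [lin_apply, Finset.sum_eq_single i]
  · simp
  · intro j _ hj
    simp [Finsupp.single_eq_of_ne hj]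
  · intro h
    exact absurd (Finset.mem_univ i) h

omit [CharZero F] in
private theorem s2_pderiv_lin (b : Module.Basis ι F g) (i : ι) (x : g) :
    MvPolynomial.pderiv i (lin b x) = MvPolynomial.C (b.coord i x) := by
  classical
  rw [lin_apply, map_sum, Finset.sum_eq_single i]
  · rw [Derivation.map_smul, MvPolynomial.pderiv_X_self, MvPolynomial.smul_eq_C_mul, mul_one]
  · intro j _ hj
    rw [Derivation.map_smul, MvPolynomial.pderiv_X_of_ne hj, smul_zero]
  · intro h
    exact absurd (Finset.mem_univ i) h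

private theorem s2_euler (k : ℕ) (p : MvPolynomial ι F)
    (hp : p ∈ MvPolynomial.homogeneousSubmodule ι F (k+1)) :
    p = ((k : F) + 1)⁻¹ • ∑ i, MvPolynomial.X i * MvPolynomial.pderiv i p := by
  have hk : ((k : F) + 1) ≠ 0 := by
    have : ((k + 1 : ℕ) : F) ≠ 0 := Nat.cast_ne_zero.mpr (by omega)
    simpa using this
  rw [MvPolynomial.mem_homogeneousSubmodule] at hp
  have h2 := hp.sum_X_mul_pderiv
  rw [h2, nsmul_eq_mul, Nat.cast_add, Nat.cast_one]
  have : (((k : MvPolynomial ι F) + 1) * p) = ((k : F) + 1) • p := by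
    rw [MvPolynomial.smul_eq_C_mul]; simp
  rw [this, smul_smul, inv_mul_cancel₀ hk, one_smul]

/-- degree one polynomials are linear forms -/
private theorem s2_one (b : Module.Basis ι F g) (p : MvPolynomial ι F)
    (hp : p ∈ MvPolynomial.homogeneousSubmodule ι F 1) : ∃ y, p = lin b y := by
  have h := s2_euler 0 p hp
  have hd : ∀ i, ∃ c : F, MvPolynomial.pderiv i p = MvPolynomial.C c := by
    intro i
    rw [MvPolynomial.mem_homogeneousSubmodule] at hp
    have h0 : (MvPolynomial.pderiv i p).IsHomogeneous 0 := by simpa using hp.pderiv (i := i)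
    exact ⟨_, (MvPolynomial.totalDegree_eq_zero_iff_eq_C.1 (Nat.le_zero.1 h0.totalDegree_le))⟩
  choose c hc using hd
  refine ⟨∑ i, c i • b i, ?_⟩
  rw [h, map_sum]
  simp only [Nat.cast_zero, zero_add, inv_one, one_smul, map_smul, s2_lin_basis, hc]
  exact Finset.sum_congr rfl fun i _ => by rw [MvPolynomial.smul_eq_C_mul, mul_comm]

theorem span_sq (b : Module.Basis ι F g) (P : Submodule F (Sy F ι 2)) (h : ∀ x y, sq b x y ∈ P)
    (f : Sy F ι 2) : f ∈ P := by
  have hd : ∀ i, ∃ y, MvPolynomial.pderiv i f.1 = lin b y := by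
    intro i
    refine s2_one b _ ?_
    have hf := f.2
    rw [MvPolynomial.mem_homogeneousSubmodule] at hf ⊢
    simpa using hf.pderiv (i := i)
  choose y hy using hd
  have e : f = (((1 : ℕ) : F) + 1)⁻¹ • ∑ i, sq b (b i) (y i) := by
    ext1
    rw [Submodule.coe_smul, Submodule.coe_sum]
    simp only [sq_val, s2_lin_basis, ← hy]
    exact s2_euler 1 f.1 f.2
  rw [e]
  exact P.smul_mem _ (Submodule.sum_mem _ fun i _ => h _ _)

theorem S2 (b : Module.Basis ι F g) {Z : Type u} [AddCommGroup Z] [Module F Z]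
    (B : g →ₗ[F] g →ₗ[F] Z) (hB : ∀ x y, B x y = B y x) :
    ∃ ψ : Sy F ι 2 →ₗ[F] Z, ∀ x y, ψ (sq b x y) = B x y := by
  have h2 : (2 : F) ≠ 0 := two_ne_zero
  let D : ι → ι → Sy F ι 2 →ₗ[F] F := fun i j =>
    (MvPolynomial.lcoeff F 0).comp ((MvPolynomial.pderiv j).toLinearMap.comp
      ((MvPolynomial.pderiv i).toLinearMap.comp (Submodule.subtype _)))
  have hD : ∀ i j x y, D i j (sq b x y) =
      b.coord i x * b.coord j y + b.coord j x * b.coord i y := by
    intro i j x y
    classical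
    show MvPolynomial.coeff 0 (MvPolynomial.pderiv j (MvPolynomial.pderiv i (lin b x * lin b y))) = _
    rw [MvPolynomial.pderiv_mul, s2_pderiv_lin, s2_pderiv_lin, map_add, MvPolynomial.pderiv_mul,
      MvPolynomial.pderiv_mul, s2_pderiv_lin, s2_pderiv_lin, MvPolynomial.pderiv_C,
      MvPolynomial.pderiv_C, zero_mul, mul_zero, zero_add, add_zero, ← MvPolynomial.C_mul,
      ← MvPolynomial.C_mul, ← MvPolynomial.C_add, MvPolynomial.coeff_C, if_pos rfl]
  refine ⟨(2 : F)⁻¹ • ∑ i, ∑ j, (D i j).smulRight (B (b i) (b j)), fun x y => ?_⟩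
  rw [LinearMap.smul_apply, LinearMap.sum_apply]
  simp only [LinearMap.sum_apply, LinearMap.smulRight_apply, hD, add_smul, Finset.sum_add_distrib]
  have e1 : ∀ x y : g, ∑ i, ∑ j, (b.coord i x * b.coord j y) • B (b i) (b j) = B x y := by
    intro x y
    have h0 : ∑ i, b.coord i x • B (b i) y = B x y := sum_coord b (B.flip y) x
    rw [← h0]
    refine Finset.sum_congr rfl fun i _ => ?_
    rw [← sum_coord b (B (b i)) y, Finset.smul_sum]
    exact Finset.sum_congr rfl fun j _ => by rw [mul_smul]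
  have e2 : ∑ i, ∑ j, (b.coord j x * b.coord i y) • B (b i) (b j) = B x y := by
    rw [hB, ← e1 y x]
    exact Finset.sum_congr rfl fun i _ => Finset.sum_congr rfl fun j _ => by rw [mul_comm]
  rw [e1, e2, ← two_smul F, smul_smul, inv_mul_cancel₀ h2, one_smul]

end Pool.Agent.MP_754a42_al
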