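import Pool.Agent.Lib.MP_754a42_al.F3
import Pool.Agent.Lib.MP_754a42_al.L1
import Pool.Agent.Lib.MP_754a42_al.S1
import Pool.Agent.Lib.MP_754a42_al.S2

/-!
# MP_754a42_al, row F7b: the polynomial part of the coboundary.

* `lin_surj`: every `y : Sy 1` is `lin b x`: a homogeneous polynomial of degree 1 is `∑ c_i X_i` (Euler, or coefficients), `x = ∑ c_i b_i`.
* `F7b`: `T` alternating, cocycle over `m`, vanishing on all `m w (dl a b)`.  Let `σ : g → L` be a linear section of `γ`;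
  `x - σ(γx) ∈ ker γ = span of the dl a b` (`P.ker`), so `T u v (m x y) = T u v (m (σγx) (σγy))` (`comm`).
  `S2` with values in `L →ₗ L →ₗ Z`, `B x y := (u ↦ v ↦ T u v (m (σx) (σy)))`: `ψ : Sy 2 → (L → L → Z)` with
  `T u v (m x y) = ψ (sq b (γx) (γy)) u v = ψ (prS (m x y)) u v`; by `spanM`: `T u v w = ψ (prS w) u v` for all `w : M`.
  `T'' u v f := ψ f u v` (`f : Sy 2`) is alternating (`span_sq`, `γ` surjective) and satisfies the cocycle identity for
  `(mS b 1).comp γ` (`y : Sy 1` is `lin b (γ y')`, `mS b 1 (γ w) ⟨lin b (γ y'),_⟩ = sq b (γw) (γy')` (rfl) `= prS (m w y')`).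
  `X2_lift γ` with `mS b 1`, `mS b 2` (`X1S b 1`, `X2S b 1`, `spanS b 1`) gives `l : L → Sy 3 → Z` with
  `T'' u v f = l u (mS b 2 (γ v) f) - l v (mS b 2 (γ u) f)`.
-/

namespace Pool.Agent.MP_754a42_al

universe u

variable {F : Type u} [Field F] [CharZero F] {A : Type u} [AddCommGroup A] [Module F A]
  {L : Type u} [LieRing L] [LieAlgebra F L] {M : Type u} [AddCommGroup M] [Module F M]
  {mul : A →ₗ[F] A →ₗ[F] A} {r : A →ₗ[F] L} {m : L →ₗ[F] L →ₗ[F] M} {ad : L →ₗ[F] M →ₗ[F] M}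
  {Z : Type u} [AddCommGroup Z] [Module F Z]
  {g : Type u} [AddCommGroup g] [Module F g] {γ : L →ₗ[F] g} {ι : Type} [Fintype ι]
  {b : Module.Basis ι F g} {prS : M →ₗ[F] Sy F ι 2}

theorem lin_surj (b : Module.Basis ι F g) (y : Sy F ι 1) : ∃ x, y = ⟨lin b x, lin_mem b x⟩ := by
  classical
  refine ⟨∑ i, (MvPolynomial.coeff (Finsupp.single i 1) y.1) • b i, Subtype.ext ?_⟩
  change y.1 = lin b _
  rw [map_sum]
  have hlin : ∀ i, lin b (b i) = (MvPolynomial.X i : MvPolynomial ι F) := by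
    intro i
    rw [lin_apply, Finset.sum_eq_single i]
    · simp
    · intro j _ hj
      rw [Module.Basis.coord_apply, Module.Basis.repr_self, Finsupp.single_apply, if_neg hj.symm,
        zero_smul]
    · simp
  simp only [map_smul, hlin]
  have hy : (y.1).IsHomogeneous 1 := y.2
  ext s
  rw [MvPolynomial.coeff_sum]
  simp only [MvPolynomial.coeff_smul, MvPolynomial.coeff_X, smul_eq_mul, mul_ite, mul_one,
    mul_zero]
  by_cases hs : MvPolynomial.coeff s y.1 = 0
  · rw [hs]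
    symm
    refine Finset.sum_eq_zero fun i _ => ?_
    split_ifs with h
    · rw [h, hs]
    · rfl
  · have hd : s.degree = 1 := by
      by_contra hd
      exact hs (hy.coeff_eq_zero hd)
    obtain ⟨i, hi⟩ : ∃ i, s = Finsupp.single i 1 := by
      have hne : s ≠ 0 := by
        rintro rfl
        simp at hd
      obtain ⟨i, hi⟩ := Finsupp.ne_iff.1 hne
      refine ⟨i, ?_⟩
      have hle : Finsupp.single i 1 ≤ s := by
        rw [Finsupp.single_le_iff]
        exact Nat.one_le_iff_ne_zero.2 hi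
      have h2 : s = (s - Finsupp.single i 1) + Finsupp.single i 1 := (tsub_add_cancel_of_le hle).symm
      have h3 : (s - Finsupp.single i 1).degree = 0 := by
        have h4 := congrArg Finsupp.degree h2
        rw [map_add, Finsupp.degree_single, hd] at h4
        omega
      rw [Finsupp.degree_eq_zero_iff] at h3
      rw [h2, h3, zero_add]
    subst hi
    rw [Finset.sum_eq_single i]
    · simp
    · intro j _ hj
      rw [if_neg]
      intro h
      exact hj ((Finsupp.single_left_inj one_ne_zero).1 h)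
    · simp

theorem Base.F7b (B : Base mul r m ad) (P : ProjS mul r m γ b prS)
    (T : L →ₗ[F] L →ₗ[F] M →ₗ[F] Z) (alt : ∀ v x, T v v x = 0)
    (coc : ∀ u v w y, T u v (m w y) + T v w (m u y) + T w u (m v y) = 0)
    (van : ∀ u v w a c, T u v (m w (dl mul r a c)) = 0) :
    ∃ l : L →ₗ[F] Sy F ι 3 →ₗ[F] Z,
      ∀ u v w, T u v w = l u (mS b 2 (γ v) (prS w)) - l v (mS b 2 (γ u) (prS w)) := by
  obtain ⟨σ, hσ⟩ := γ.exists_rightInverse_of_surjective (LinearMap.range_eq_top.2 P.surj)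
  have hσ' : ∀ x, γ (σ x) = x := fun x => congrArg (fun f => f x) hσ
  -- `T u v (m x k) = 0` for `k` in the kernel
  have hk : ∀ k, γ k = 0 → ∀ u v x, T u v (m x k) = 0 := by
    intro k hk
    have h1 := (P.ker k).1 hk
    refine Submodule.span_induction (p := fun k _ => ∀ u v x, T u v (m x k) = 0) ?_ ?_ ?_ ?_ h1
    · rintro _ ⟨a, c, rfl⟩ u v x
      exact van u v x a c
    · intro u v x
      simp
    · intro k1 k2 _ _ e1 e2 u v x
      rw [map_add, map_add, e1, e2, add_zero]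
    · intro c k1 _ e1 u v x
      rw [map_smul, map_smul, e1, smul_zero]
  have hred : ∀ u v x y, T u v (m x y) = T u v (m (σ (γ x)) (σ (γ y))) := by
    intro u v x y
    have e1 : T u v (m y (x - σ (γ x))) = 0 := hk _ (by rw [map_sub, hσ', sub_self]) u v y
    have e2 : T u v (m (σ (γ x)) (y - σ (γ y))) = 0 := hk _ (by rw [map_sub, hσ', sub_self]) u v _
    rw [map_sub, map_sub, sub_eq_zero] at e1 e2
    rw [B.comm x y, e1, B.comm y, e2]
  -- `T` as a map on `M`
  let T' : M →ₗ[F] L →ₗ[F] L →ₗ[F] Z := (LinearMap.lflip.toLinearMap ∘ₗ T).flip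
  have hT' : ∀ w u v, T' w u v = T u v w := fun w u v => rfl
  let B' : g →ₗ[F] g →ₗ[F] (L →ₗ[F] L →ₗ[F] Z) := (m.compl₁₂ σ σ).compr₂ T'
  have hB' : ∀ x y, B' x y = T' (m (σ x) (σ y)) := fun x y => rfl
  obtain ⟨ψ, hψ⟩ := S2 b B' (fun x y => by rw [hB', hB', B.comm])
  have hψ' : ∀ x y u v, ψ (sq b x y) u v = T u v (m (σ x) (σ y)) := by
    intro x y u v
    rw [hψ, hB', hT']
  have hw : ∀ w, T' w = ψ (prS w) := by
    intro w
    have := B.spanM (LinearMap.eqLocus T' (ψ.comp prS)) (fun x y => by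
      rw [LinearMap.mem_eqLocus, LinearMap.comp_apply, P.pr_m]
      ext u v
      rw [hT', hψ', hred]) w
    exact this
  let T2 : L →ₗ[F] L →ₗ[F] Sy F ι 2 →ₗ[F] Z := LinearMap.lflip.toLinearMap ∘ₗ ψ.flip
  have hT2 : ∀ u v f, T2 u v f = ψ f u v := fun u v f => rfl
  have halt : ∀ v f, T2 v v f = 0 := by
    intro v f
    rw [hT2]
    have := span_sq b (LinearMap.ker ((LinearMap.applyₗ v).comp ((LinearMap.applyₗ v).comp ψ)))
      (fun x y => by
        rw [LinearMap.mem_ker]
        change ψ (sq b x y) v v = 0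
        rw [hψ', alt]) f
    exact this
  have hcoc : ∀ u v w y, T2 u v (((mS b 1).comp γ) w y) + T2 v w (((mS b 1).comp γ) u y)
      + T2 w u (((mS b 1).comp γ) v y) = 0 := by
    intro u v w y
    obtain ⟨x0, rfl⟩ := lin_surj b y
    obtain ⟨y', rfl⟩ := P.surj x0
    have key : ∀ u v w, T2 u v (((mS b 1).comp γ) w ⟨lin b (γ y'), lin_mem b (γ y')⟩)
        = T u v (m w y') := by
      intro u v w
      change ψ (sq b (γ w) (γ y')) u v = _
      rw [hψ', ← hred]
    rw [key, key, key]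
    exact coc u v w y'
  obtain ⟨l, hl⟩ := X2_lift γ P.surj (mS b 1) (mS b 2) (spanS b 1) (X1S b 1) (X2S b 1) Z T2
    halt hcoc
  refine ⟨l, fun u v w => ?_⟩
  have e1 : T u v w = T2 u v (prS w) := by
    rw [hT2, ← hw, hT']
  rw [e1, hl]
  rfl

end Pool.Agent.MP_754a42_al
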