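import Pool.Agent.Lib.MP_754a42_al.F6b
import Pool.Agent.Lib.MP_754a42_al.F7a
import Pool.Agent.Lib.MP_754a42_al.F7b

/-!
# MP_754a42_al, row F7: `X2` in degree 2.

`p2 v w := (mS b 2 (γ v) (prS w), qN F C 0 (q v) (prN w))`.  Given `T` alternating cocycle over `m`.
`lN` from `F6b`.  `T' u v w := T u v w - [lN u (qN (q v) (prN w)) - lN v (qN (q u) (prN w))]` is alternating; cocycle over `m`:
the subtracted part is a cocycle because `qN (q v) (prN (m w y)) = qN (q w) (prN (m v y))` (`qN_prN`): the six terms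
`lN u (v w y) - lN v (u w y) + lN v (w u y) - lN w (v u y) + lN w (u v y) - lN u (w v y)` cancel.  `T'` vanishes on `m w (dl a c)`
(`F6b`).  `F7b` gives `lS`.  `l u (s,n) := lS u s + lN u n`.
-/

namespace Pool.Agent.MP_754a42_al

universe u

variable {F : Type u} [Field F] [CharZero F] {A : Type u} [AddCommGroup A] [Module F A]
  {L : Type u} [LieRing L] [LieAlgebra F L] {M : Type u} [AddCommGroup M] [Module F M]
  {mul : A →ₗ[F] A →ₗ[F] A} {r : A →ₗ[F] L} {m : L →ₗ[F] L →ₗ[F] M} {ad : L →ₗ[F] M →ₗ[F] M}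
  {C : Type u} [AddCommGroup C] [Module F C] [FiniteDimensional F C] {κ : A →ₗ[F] C}
  {q : L →ₗ[F] (C × Lm F C 2)} {prN : M →ₗ[F] (Lm F C 4 × Lm F C 3)}
  {g : Type u} [AddCommGroup g] [Module F g] {γ : L →ₗ[F] g} {ι : Type} [Fintype ι]
  {b : Module.Basis ι F g} {prS : M →ₗ[F] Sy F ι 2}

theorem Base.F7 (B : Base mul r m ad) (PN : ProjN mul r m κ q prN) (PS : ProjS mul r m γ b prS)
    (p2 : L →ₗ[F] M →ₗ[F] (Sy F ι 3 × (Lm F C 6 × Lm F C 5)))
    (hp2 : ∀ v w, p2 v w = (mS b 2 (γ v) (prS w), qN F C 0 (q v) (prN w))) : X2 m p2 := by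
  intro Z _ _ T alt coc
  obtain ⟨lN, hN⟩ := B.F6b PN T alt coc
  let S1 : L →ₗ[F] L →ₗ[F] M →ₗ[F] Z :=
    LinearMap.mk₂ F (fun u v => (lN u).comp ((qN F C 0 (q v)).comp prN))
      (fun x y f => by
        refine LinearMap.ext fun w => ?_
        simp only [map_add, LinearMap.add_apply, LinearMap.comp_apply])
      (fun c x f => by
        refine LinearMap.ext fun w => ?_
        simp only [map_smul, LinearMap.smul_apply, LinearMap.comp_apply])
      (fun x f g => by
        refine LinearMap.ext fun w => ?_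
        simp only [map_add, LinearMap.add_apply, LinearMap.comp_apply])
      (fun c x f => by
        refine LinearMap.ext fun w => ?_
        simp only [map_smul, LinearMap.smul_apply, LinearMap.comp_apply])
  have hS1 : ∀ u v w, S1 u v w = lN u (qN F C 0 (q v) (prN w)) := fun u v w => rfl
  have hT' : ∀ u v w, (T - (S1 - S1.flip)) u v w
      = T u v w - (lN u (qN F C 0 (q v) (prN w)) - lN v (qN F C 0 (q u) (prN w))) := by
    intro u v w
    rw [← hS1, ← hS1]
    simp only [LinearMap.sub_apply, LinearMap.flip_apply]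
  obtain ⟨lS, hS⟩ := B.F7b PS (T - (S1 - S1.flip))
    (fun v x => by rw [hT', alt, sub_self, sub_zero])
    (fun u v w y => by
      rw [hT', hT', hT']
      have h := coc u v w y
      have e1 : qN F C 0 (q v) (prN (m w y)) = qN F C 0 (q w) (prN (m v y)) := PN.qN_prN v w y
      have e2 : qN F C 0 (q u) (prN (m w y)) = qN F C 0 (q w) (prN (m u y)) := PN.qN_prN u w y
      have e3 : qN F C 0 (q v) (prN (m u y)) = qN F C 0 (q u) (prN (m v y)) := PN.qN_prN v u y
      rw [e1, e2, e3]
      rw [show T u v (m w y) - ((lN u) (qN F C 0 (q w) (prN (m v y)))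
            - (lN v) (qN F C 0 (q w) (prN (m u y))))
          + (T v w (m u y) - ((lN v) (qN F C 0 (q w) (prN (m u y)))
            - (lN w) (qN F C 0 (q u) (prN (m v y)))))
          + (T w u (m v y) - ((lN w) (qN F C 0 (q u) (prN (m v y)))
            - (lN u) (qN F C 0 (q w) (prN (m v y)))))
          = T u v (m w y) + T v w (m u y) + T w u (m v y) by abel]
      exact h)
    (fun u v w a c => by rw [hT', hN, sub_self])
  refine ⟨lS.compl₂ (LinearMap.fst F _ _) + lN.compl₂ (LinearMap.snd F _ _), fun u v w => ?_⟩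
  have h := hS u v w
  rw [hT'] at h
  rw [hp2, hp2]
  simp only [LinearMap.add_apply, LinearMap.compl₂_apply, LinearMap.fst_apply, LinearMap.snd_apply]
  rw [sub_eq_iff_eq_add] at h
  rw [h]
  abel

end Pool.Agent.MP_754a42_al
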