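import Pool.Agent.Lib.MP_754a42_al.X12

/-!
# MP_754a42_al: definitions for the recursion.
`G k` graded pieces, `p k v x : G (k+1)` the leading term, `Π₀ k, G k` the total space.
-/

namespace Pool.Agent.MP_754a42_al

universe u

variable {F : Type u} [Field F] {L : Type u} [LieRing L] [LieAlgebra F L]
  (G : ℕ → Type u) [∀ k, AddCommGroup (G k)] [∀ k, Module F (G k)]

/-- elements of degree `≤ n` -/
def Fil (F : Type u) [Field F] (G : ℕ → Type u) [∀ k, AddCommGroup (G k)] [∀ k, Module F (G k)]
    (n : ℕ) : Submodule F (Π₀ k, G k) where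
  carrier := {x | ∀ k, n < k → x k = 0}
  add_mem' := by
    intro a b ha hb k hk
    simp [ha k hk, hb k hk]
  zero_mem' := by intro k _; simp
  smul_mem' := by
    intro c a ha k hk
    simp [ha k hk]

variable {G}

/-- `R : L → End(Π₀ k, G k)` is good up to degree `n`: leading term `p`, equal to `p` above `n`, Lie relation below `n` -/
structure Good (p : ∀ k, L →ₗ[F] G k →ₗ[F] G (k+1)) (n : ℕ)
    (R : L →ₗ[F] Module.End F (Π₀ k, G k)) : Prop where
  lead : ∀ v k (x : G k), R v (DFinsupp.single k x) - DFinsupp.single (k+1) (p k v x) ∈ Fil F G k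
  top : ∀ v k (x : G k), n < k → R v (DFinsupp.single k x) = DFinsupp.single (k+1) (p k v x)
  rel : ∀ v u k (x : G k), k < n → R v (R u (DFinsupp.single k x)) - R u (R v (DFinsupp.single k x))
    = R ⁅v, u⁆ (DFinsupp.single k x)

end Pool.Agent.MP_754a42_al
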