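import Pool.Agent.Lib.MP_754a42_al.Base
import Pool.Agent.Lib.MP_754a42_al.R0

/-!
# MP_754a42_al: the concrete graded module `GG` (definitions).
`GG 0 = F, GG 1 = L, GG 2 = M, GG (k+3) = S^{k+3} g × (Λ^{2k+6} C × Λ^{2k+5} C)`.
-/

namespace Pool.Agent.MP_754a42_al

universe u

section
variable (F : Type u) [Field F] (L : Type u) [LieRing L] [LieAlgebra F L]
  (M : Type u) [AddCommGroup M] [Module F M] (ι : Type) (C : Type u) [AddCommGroup C] [Module F C]

/-- the graded pieces -/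
def GG : ℕ → Type u
  | 0 => F
  | 1 => L
  | 2 => M
  | (k+3) => Sy F ι (k+3) × (Lm F C (2*k+6) × Lm F C (2*k+5))

noncomputable instance instGGAdd : ∀ k, AddCommGroup (GG F L M ι C k)
  | 0 => inferInstanceAs (AddCommGroup F)
  | 1 => inferInstanceAs (AddCommGroup L)
  | 2 => inferInstanceAs (AddCommGroup M)
  | (k+3) => inferInstanceAs (AddCommGroup (Sy F ι (k+3) × (Lm F C (2*k+6) × Lm F C (2*k+5))))

noncomputable instance instGGMod : ∀ k, Module F (GG F L M ι C k)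
  | 0 => inferInstanceAs (Module F F)
  | 1 => inferInstanceAs (Module F L)
  | 2 => inferInstanceAs (Module F M)
  | (k+3) => inferInstanceAs (Module F (Sy F ι (k+3) × (Lm F C (2*k+6) × Lm F C (2*k+5))))

end

variable {F : Type u} [Field F] {L : Type u} [LieRing L] [LieAlgebra F L]
  {M : Type u} [AddCommGroup M] [Module F M] {ι : Type} [Fintype ι] {C : Type u} [AddCommGroup C] [Module F C]
  {g : Type u} [AddCommGroup g] [Module F g]

/-- `p2 v w = (v̄ · prS w, v̄ · prN w)` -/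
noncomputable def p2 (γ : L →ₗ[F] g) (b : Module.Basis ι F g) (prS : M →ₗ[F] Sy F ι 2)
    (q : L →ₗ[F] (C × Lm F C 2)) (prN : M →ₗ[F] (Lm F C 4 × Lm F C 3)) :
    L →ₗ[F] M →ₗ[F] (Sy F ι 3 × (Lm F C 6 × Lm F C 5)) :=
  LinearMap.mk₂ F (fun v w => (mS b 2 (γ v) (prS w), qN F C 0 (q v) (prN w)))
    (fun x y z => by rw [map_add, map_add, map_add, map_add]; rfl)
    (fun c x y => by rw [map_smul, map_smul, map_smul, map_smul]; rfl)
    (fun x y z => by rw [map_add, map_add, map_add, map_add]; rfl)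
    (fun c x y => by rw [map_smul, map_smul, map_smul, map_smul]; rfl)

theorem p2_apply (γ : L →ₗ[F] g) (b : Module.Basis ι F g) (prS : M →ₗ[F] Sy F ι 2)
    (q : L →ₗ[F] (C × Lm F C 2)) (prN : M →ₗ[F] (Lm F C 4 × Lm F C 3)) (v : L) (w : M) :
    p2 γ b prS q prN v w = (mS b 2 (γ v) (prS w), qN F C 0 (q v) (prN w)) := rfl

/-- `p3 v (s,n) = (v̄ s, v̄ n)` -/
noncomputable def p3 (k : ℕ) (γ : L →ₗ[F] g) (b : Module.Basis ι F g)
    (q : L →ₗ[F] (C × Lm F C 2)) :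
    L →ₗ[F] (Sy F ι (k+3) × (Lm F C (2*k+6) × Lm F C (2*k+5))) →ₗ[F]
      (Sy F ι (k+4) × (Lm F C (2*k+8) × Lm F C (2*k+7))) :=
  LinearMap.mk₂ F (fun v x => (mS b (k+3) (γ v) x.1, qN F C (2*k+2) (q v) x.2))
    (fun x y z => by rw [map_add, map_add, map_add, map_add]; rfl)
    (fun c x y => by rw [map_smul, map_smul, map_smul, map_smul]; rfl)
    (fun x y z => by rw [Prod.fst_add, Prod.snd_add, map_add, map_add]; rfl)
    (fun c x y => by rw [Prod.smul_fst, Prod.smul_snd, map_smul, map_smul]; rfl)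

theorem p3_apply (k : ℕ) (γ : L →ₗ[F] g) (b : Module.Basis ι F g)
    (q : L →ₗ[F] (C × Lm F C 2)) (v : L) (x : Sy F ι (k+3) × (Lm F C (2*k+6) × Lm F C (2*k+5))) :
    p3 k γ b q v x = (mS b (k+3) (γ v) x.1, qN F C (2*k+2) (q v) x.2) := rfl

/-- the leading terms -/
noncomputable def pp (m : L →ₗ[F] L →ₗ[F] M) (γ : L →ₗ[F] g) (b : Module.Basis ι F g)
    (prS : M →ₗ[F] Sy F ι 2) (q : L →ₗ[F] (C × Lm F C 2)) (prN : M →ₗ[F] (Lm F C 4 × Lm F C 3)) :
    ∀ k, L →ₗ[F] GG F L M ι C k →ₗ[F] GG F L M ι C (k+1)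
  | 0 => (LinearMap.lsmul F L).flip
  | 1 => m
  | 2 => p2 γ b prS q prN
  | (k+3) => p3 k γ b q

end Pool.Agent.MP_754a42_al
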