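import Pool.Agent.Lib.MP_754a42_al.H0
import Pool.Agent.Lib.MP_754a42_al.F7a

/-!
# MP_754a42_al, row H1: the leading terms commute.

`match k`.  `k = 0`: `pp 1 v (pp 0 u c) = m v (c • u) = c • m v u` and `B.comm`.  `k = 1`: `p2 v (m u x) = p2 u (m v x)`: first component
`mS b 2 (γ v) (sq b (γ u) (γ x))` (`PS.pr_m`; value = product of three linear forms), second: `PN.qN_prN` (row F7a).
`k = 2`: `p3 0 v (p2 u w)`: `mS_comm` and `qN_comm` (`n = 0`).  `k+3`: `mS_comm`, `qN_comm` (`n = 2*k+2`).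
All types match definitionally (`show`, `Prod.ext`).
-/

namespace Pool.Agent.MP_754a42_al

universe u

variable {F : Type u} [Field F] [CharZero F] {A : Type u} [AddCommGroup A] [Module F A]
  {L : Type u} [LieRing L] [LieAlgebra F L] {M : Type u} [AddCommGroup M] [Module F M]
  {mul : A →ₗ[F] A →ₗ[F] A} {r : A →ₗ[F] L} {m : L →ₗ[F] L →ₗ[F] M} {ad : L →ₗ[F] M →ₗ[F] M}
  {C : Type u} [AddCommGroup C] [Module F C] {κ : A →ₗ[F] C}
  {q : L →ₗ[F] (C × Lm F C 2)} {prN : M →ₗ[F] (Lm F C 4 × Lm F C 3)}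
  {g : Type u} [AddCommGroup g] [Module F g] {γ : L →ₗ[F] g} {ι : Type} [Fintype ι]
  {b : Module.Basis ι F g} {prS : M →ₗ[F] Sy F ι 2}

theorem pp_comm (B : Base mul r m ad) (PN : ProjN mul r m κ q prN) (PS : ProjS mul r m γ b prS) :
    ∀ k v u (x : GG F L M ι C k),
      pp m γ b prS q prN (k+1) v (pp m γ b prS q prN k u x)
        = pp m γ b prS q prN (k+1) u (pp m γ b prS q prN k v x) := by
  intro k v u x
  match k, x with
  | 0, x =>
    have key : ∀ y : F, m v (y • u) = m u (y • v) := by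
      intro y
      rw [map_smul, map_smul, B.comm]
    exact key x
  | 1, x =>
    change p2 γ b prS q prN v (m u (x : L)) = p2 γ b prS q prN u (m v (x : L))
    rw [p2_apply, p2_apply]
    refine Prod.ext ?_ (PN.qN_prN v u (x : L))
    change mS b 2 (γ v) (prS (m u (x : L))) = mS b 2 (γ u) (prS (m v (x : L)))
    rw [PS.pr_m, PS.pr_m]
    ext1
    simp only [mS_val, sq_val]
    ring
  | 2, x =>
    change p3 0 γ b q v (p2 γ b prS q prN u (x : M)) = p3 0 γ b q u (p2 γ b prS q prN v (x : M))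
    rw [p3_apply, p3_apply, p2_apply, p2_apply]
    exact Prod.ext (mS_comm b 2 (γ v) (γ u) (prS x)) (qN_comm 0 (q v) (q u) (prN x))
  | (k+3), x =>
    change p3 (k+1) γ b q v (p3 k γ b q u x) = p3 (k+1) γ b q u (p3 k γ b q v x)
    rw [p3_apply, p3_apply, p3_apply, p3_apply]
    exact Prod.ext (mS_comm b (k+3) (γ v) (γ u) x.1) (qN_comm (2*k+2) (q v) (q u) x.2)

end Pool.Agent.MP_754a42_al
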