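import Pool.Agent.Lib.MP_754a42_al.H0
import Pool.Agent.Lib.MP_754a42_al.F7

/-!
# MP_754a42_al, row H2: `X2` for the graded module in all degrees.

* `k = 0`: `X2 (pp 1) (pp 2) = X2 m p2` is `B.F7 PN PS (p2 ..) (p2_apply ..)`.
* `k = 1`: `X2 (p2) (p3 0)`: `X2_prod` with `q₁ = (mS b 2).comp γ`, `q₁' = (mS b 3).comp γ`, `Y₁ = Sy 2`;
  `q₂ = (qE F C 2).comp q`, `q₂' = (qN F C 2).comp q`, `Y₂ = Lm 4`, `X₂ = Lm 6 × Lm 5`.
  `h₁`: `X2_lift γ` with `X1S b 2`, `X2S b 2`, `spanS b 2`.  `h₂`: `X2_qN 2` (`PN.q_surj`).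
  `hit1`: the map `w ↦ (prS w, prN w)`, `M → Sy 2 × (Lm 4 × Lm 3)`, is surjective: its range contains
  `(0, prN (m v (dl a c)))` (`prS (m v (dl a c)) = sq (γ v) 0 = 0` by `PS.ker`), and these `prN (m v (dl a c))` span `Lm 4 × Lm 3`
  (`= 2 • qE F C 0 (q v) (pr (κ a) (κ c))`; `qE_span`, `span_pr`, `PN.q_surj`, `κ` surjective); and modulo these, `prS (m v u) = sq (γ v) (γ u)`
  spans `Sy 2` (`span_sq`).  So for `y₁ : Sy 2` there is `w : M` with `prS w = y₁`, `prN w = 0`, then `p2 v w = (mS b 2 (γ v) y₁, 0)`;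
  `hit2`: for `e : Lm 4` take `w` with `prS w = 0`, `prN w = (e, 0)`: `p2 v w = (0, qN F C 0 (q v) (e,0)) = (0, qE F C 2 (q v) e)`.
* `k + 2`: `X2 (p3 k) (p3 (k+1))`: `X2_prod` with `q₁ = (mS b (k+3)).comp γ`, `q₁' = (mS b (k+4)).comp γ`,
  `q₂ = (qE F C (2*k+4)).comp q`, `q₂' = (qN F C (2*k+4)).comp q`, `Y₂ = Lm (2*k+6)`; `hit1`: `y = (y₁, 0)`;
  `hit2`: `y = (0, (e, 0))`: `qN F C (2*k+2) v (e,0) = (v₂ e, v₁ e) = qE F C (2*k+4) v e` (rfl after `simp`).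
(`2*(k+1)+6` and `2*k+8` are definitionally equal.)
-/

namespace Pool.Agent.MP_754a42_al

universe u

variable {F : Type u} [Field F] [CharZero F] {A : Type u} [AddCommGroup A] [Module F A]
  {L : Type u} [LieRing L] [LieAlgebra F L] {M : Type u} [AddCommGroup M] [Module F M]
  {mul : A →ₗ[F] A →ₗ[F] A} {r : A →ₗ[F] L} {m : L →ₗ[F] L →ₗ[F] M} {ad : L →ₗ[F] M →ₗ[F] M}
  {C : Type u} [AddCommGroup C] [Module F C] {κ : A →ₗ[F] C}
  {q : L →ₗ[F] (C × Lm F C 2)} {prN : M →ₗ[F] (Lm F C 4 × Lm F C 3)}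
  {g : Type u} [AddCommGroup g] [Module F g] {γ : L →ₗ[F] g} {ι : Type} [Fintype ι]
  {b : Module.Basis ι F g} {prS : M →ₗ[F] Sy F ι 2}

private theorem hitN [FiniteDimensional F C] (PN : ProjN mul r m κ q prN) (PS : ProjS mul r m γ b prS)
    (n : Lm F C 4 × Lm F C 3) : ∃ w, prS w = 0 ∧ prN w = n := by
  have h : n ∈ (LinearMap.ker prS).map prN := by
    refine qE_span 0 _ (fun v e => ?_) n
    obtain ⟨v', rfl⟩ := PN.q_surj v
    refine span_pr (((LinearMap.ker prS).map prN).comap (qE F C 0 (q v'))) (fun x y => ?_) e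
    obtain ⟨a, rfl⟩ := PN.surj x
    obtain ⟨c, rfl⟩ := PN.surj y
    rw [Submodule.mem_comap]
    refine ⟨(1/2 : F) • m v' (dl mul r a c), ?_, ?_⟩
    · refine Submodule.smul_mem _ _ ?_
      have h0 : γ (dl mul r a c) = 0 := (PS.ker _).2 (Submodule.subset_span ⟨a, c, rfl⟩)
      rw [LinearMap.mem_ker, PS.pr_m, h0, map_zero]
    · rw [map_smul, PN.pr_m, PN.q_dl]
      have h2 : (1/2 : F) * 2 = 1 := by norm_num
      simp only [map_smul, map_zero, LinearMap.zero_apply, add_zero, Prod.smul_mk, smul_smul, h2,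
        one_smul, qE_apply]
  obtain ⟨w, hw, hn⟩ := h
  exact ⟨w, hw, hn⟩

private theorem hitS [FiniteDimensional F C] (PN : ProjN mul r m κ q prN) (PS : ProjS mul r m γ b prS)
    (y : Sy F ι 2) : ∃ w, prS w = y ∧ prN w = 0 := by
  have h : y ∈ (LinearMap.ker prN).map prS := by
    refine span_sq b _ (fun x y => ?_) y
    obtain ⟨v, rfl⟩ := PS.surj x
    obtain ⟨u, rfl⟩ := PS.surj y
    obtain ⟨w1, h1, h2⟩ := hitN PN PS (prN (m v u))
    refine ⟨m v u - w1, ?_, ?_⟩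
    · change m v u - w1 ∈ LinearMap.ker prN
      rw [LinearMap.mem_ker, map_sub, h2, sub_self]
    · rw [map_sub, h1, sub_zero, PS.pr_m]
  obtain ⟨w, hw, hn⟩ := h
  exact ⟨w, hn, hw⟩

private theorem X2_p2 [FiniteDimensional F C] (PN : ProjN mul r m κ q prN)
    (PS : ProjS mul r m γ b prS) : X2 (p2 γ b prS q prN) (p3 0 γ b q) := by
  refine X2_prod ((mS b 2).comp γ) ((mS b 3).comp γ) ((qE F C 2).comp q) ((qN F C 2).comp q)
    (X2_lift γ PS.surj (mS b 2) (mS b 3) (spanS b 2) (X1S b 2) (X2S b 2))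
    (X2_qN 2 PN.q_surj) (p2 γ b prS q prN) (p3 0 γ b q) (fun y => ?_) (fun e => ?_)
    (fun v x => rfl)
  · obtain ⟨w, h1, h2⟩ := hitS PN PS y
    refine ⟨w, fun v => ?_⟩
    rw [p2_apply, h1, h2, map_zero]
    rfl
  · obtain ⟨w, h1, h2⟩ := hitN PN PS (e, 0)
    refine ⟨w, fun v => ?_⟩
    rw [p2_apply, h1, h2, map_zero, qN_apply]
    simp only [map_zero, add_zero]
    rfl

private theorem X2_p3 [FiniteDimensional F C] (PN : ProjN mul r m κ q prN)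
    (PS : ProjS mul r m γ b prS) (k : ℕ) : X2 (p3 k γ b q) (p3 (k+1) γ b q) := by
  refine X2_prod ((mS b (k+3)).comp γ) ((mS b (k+4)).comp γ) ((qE F C (2*k+4)).comp q)
    ((qN F C (2*k+4)).comp q)
    (X2_lift γ PS.surj (mS b (k+3)) (mS b (k+4)) (spanS b (k+3)) (X1S b (k+3)) (X2S b (k+3)))
    (X2_qN (2*k+4) PN.q_surj) (p3 k γ b q) (p3 (k+1) γ b q) (fun y => ?_) (fun e => ?_)
    (fun v x => rfl)
  · refine ⟨(y, 0), fun v => ?_⟩
    rw [p3_apply, map_zero]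
    rfl
  · refine ⟨(0, (e, 0)), fun v => ?_⟩
    rw [p3_apply, map_zero, qN_apply]
    simp only [map_zero, add_zero]
    rfl

theorem pp_X2 [FiniteDimensional F C] (B : Base mul r m ad) (PN : ProjN mul r m κ q prN)
    (PS : ProjS mul r m γ b prS) :
    ∀ k, X2 (pp m γ b prS q prN (k+1)) (pp m γ b prS q prN (k+2))
  | 0 => B.F7 PN PS (p2 γ b prS q prN) (p2_apply γ b prS q prN)
  | 1 => X2_p2 PN PS
  | (k+2) => X2_p3 PN PS k

end Pool.Agent.MP_754a42_al
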