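import Pool.Agent.Lib.MP_754a42_al.H0

/-!
# MP_754a42_al, row H3: start of the recursion.

* `exists_l`: `T = TT m : L⊗(L⊗L) → L⊗M` and `1/4 • th3 F L`; by `B.star`, `ker T ≤ ker (1/4 • th3)`, so there is a linear
  `f : L⊗M → L` with `f ∘ T = 1/4 • th3` (vector spaces; e.g. `LinearMap.exists_extend` of the map induced on `range T`, or
  `(LinearMap.ker T).liftQ` composed with a left inverse, `LinearMap.exists_leftInverse_of_injective`).  `l v w := f (v ⊗ₜ w)`; `TT_apply`, `th3_apply`.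
* `start`: write `s k x = DFinsupp.single k x`.  `R v (s 0 c) = s 1 (c • v)`, `R v (s 1 x) = s 2 (m v x) + 1/2 • s 1 ⁅v,x⁆`,
  `R v (s 2 w) = s 3 (p2 v w) + 1/2 • s 2 (ad v w) + s 1 (l v w)`, `R v (s (k+3) x) = s (k+4) (pp (k+3) v x)`:
  `R v := DFinsupp.lsum ℕ (fun k => f_k v)`, with `f : ∀ k, L →ₗ[F] GG k →ₗ[F] Π₀ k, GG k` by `match`.
  `lead`: the lower terms have degree `≤ k`.  `top`: clear.
  `rel` for `k = 0`: `R v (R u (s 0 c)) = c • (s 2 (m v u) + 1/2 • s 1 ⁅v,u⁆)`; the difference is `c • s 1 ⁅v,u⁆` (`B.comm`, `⁅u,v⁆ = -⁅v,u⁆`).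
  `rel` for `k = 1`: `R v (R u (s 1 x)) = s 3 (p2 v (m u x)) + 1/2 • s 2 (ad v (m u x)) + s 1 (l v (m u x)) +
      1/2 • (s 2 (m v ⁅u,x⁆) + 1/2 • s 1 ⁅v,⁅u,x⁆⁆)`.  Difference with `u ↔ v`:
      degree 3: `comm` (hypothesis `hc`);  degree 2: `1/2 (ad v (m u x) - ad u (m v x)) + 1/2 (m v ⁅u,x⁆ - m u ⁅v,x⁆) = m ⁅v,u⁆ x` (`B.ad_m`);
      degree 1: `1/4 ⁅⁅v,u⁆,x⁆ + 1/4 (⁅v,⁅u,x⁆⁆ - ⁅u,⁅v,x⁆⁆) = 1/2 ⁅⁅v,u⁆,x⁆` (`leibniz_lie`).  Total `= R ⁅v,u⁆ (s 1 x)`.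
-/

namespace Pool.Agent.MP_754a42_al

universe u

variable {F : Type u} [Field F] [CharZero F] {A : Type u} [AddCommGroup A] [Module F A]
  {L : Type u} [LieRing L] [LieAlgebra F L] {M : Type u} [AddCommGroup M] [Module F M]
  {mul : A →ₗ[F] A →ₗ[F] A} {r : A →ₗ[F] L} {m : L →ₗ[F] L →ₗ[F] M} {ad : L →ₗ[F] M →ₗ[F] M}
  {C : Type u} [AddCommGroup C] [Module F C] {κ : A →ₗ[F] C}
  {q : L →ₗ[F] (C × Lm F C 2)} {prN : M →ₗ[F] (Lm F C 4 × Lm F C 3)}
  {g : Type u} [AddCommGroup g] [Module F g] {γ : L →ₗ[F] g} {ι : Type} [Fintype ι]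
  {b : Module.Basis ι F g} {prS : M →ₗ[F] Sy F ι 2}

/-- factorisation of a linear map through another one with smaller kernel -/
private theorem exists_factor {K X Y Z : Type*} [Field K] [AddCommGroup X] [Module K X]
    [AddCommGroup Y] [Module K Y] [AddCommGroup Z] [Module K Z]
    (T : X →ₗ[K] Y) (t : X →ₗ[K] Z) (h : ∀ ξ, T ξ = 0 → t ξ = 0) :
    ∃ f : Y →ₗ[K] Z, ∀ ξ, f (T ξ) = t ξ := by
  have hk : LinearMap.ker T ≤ LinearMap.ker t := fun ξ hξ => by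
    rw [LinearMap.mem_ker] at hξ ⊢
    exact h ξ hξ
  obtain ⟨g, hg⟩ := LinearMap.exists_leftInverse_of_injective
    ((LinearMap.ker T).liftQ T le_rfl) (Submodule.ker_liftQ_eq_bot _ _ _ le_rfl)
  refine ⟨((LinearMap.ker T).liftQ t hk).comp g, fun ξ => ?_⟩
  have h1 : g (T ξ) = (LinearMap.ker T).mkQ ξ := by
    have h2 := LinearMap.congr_fun hg ((LinearMap.ker T).mkQ ξ)
    simpa using h2
  rw [LinearMap.comp_apply, h1]
  simp

theorem Base.exists_l (B : Base mul r m ad) :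
    ∃ l : L →ₗ[F] M →ₗ[F] L, ∀ v u x, l v (m u x) - l u (m v x) = (1/4 : F) • ⁅⁅v, u⁆, x⁆ := by
  obtain ⟨f, hf⟩ := exists_factor (TT m) ((1/4 : F) • th3 F L) (fun ξ hξ => by
    rw [LinearMap.smul_apply, B.star ξ hξ, smul_zero])
  refine ⟨TensorProduct.curry f, fun v u x => ?_⟩
  rw [TensorProduct.curry_apply, TensorProduct.curry_apply, ← map_sub, ← TT_apply m v u x, hf,
    LinearMap.smul_apply, th3_apply]

/-- the relations in degrees 0 and 1, abstractly -/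
private theorem rel_abs (B : Base mul r m ad) {E G3 : Type*} [AddCommGroup E] [Module F E]
    [AddCommGroup G3] [Module F G3] (R : L →ₗ[F] Module.End F E)
    (s0 : F →ₗ[F] E) (s1 : L →ₗ[F] E) (s2 : M →ₗ[F] E) (s3 : G3 →ₗ[F] E)
    (P : L →ₗ[F] M →ₗ[F] G3) (l : L →ₗ[F] M →ₗ[F] L)
    (hl : ∀ v u x, l v (m u x) - l u (m v x) = (1/4 : F) • ⁅⁅v, u⁆, x⁆)
    (hP : ∀ v u x, P v (m u x) = P u (m v x))
    (h0 : ∀ v c, R v (s0 c) = s1 (c • v))
    (h1 : ∀ v x, R v (s1 x) = s2 (m v x) + (1/2 : F) • s1 ⁅v, x⁆)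
    (h2 : ∀ v w, R v (s2 w) = s3 (P v w) + ((1/2 : F) • s2 (ad v w) + s1 (l v w))) :
    (∀ v u c, R v (R u (s0 c)) - R u (R v (s0 c)) = R ⁅v, u⁆ (s0 c)) ∧
    (∀ v u x, R v (R u (s1 x)) - R u (R v (s1 x)) = R ⁅v, u⁆ (s1 x)) := by
  constructor
  · intro v u c
    have e1 : m u v = m v u := B.comm u v
    have e2 : (⁅u, v⁆ : L) = - ⁅v, u⁆ := (lie_skew u v).symm
    simp only [h0, h1, map_smul, e1, e2, map_neg]
    module
  · intro v u x
    have hm1 : ad v (m u x) = m ⁅v, u⁆ x + m u ⁅v, x⁆ := B.ad_m v u x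
    have hm2 : ad u (m v x) = - m ⁅v, u⁆ x + m v ⁅u, x⁆ := by
      rw [B.ad_m u v x, ← lie_skew v u, map_neg, LinearMap.neg_apply, neg_neg]
    have hl1 : l v (m u x) = l u (m v x) + (1/4 : F) • ⁅⁅v, u⁆, x⁆ := by
      rw [← hl v u x]; abel
    have hj : (⁅v, ⁅u, x⁆⁆ : L) = ⁅⁅v, u⁆, x⁆ + ⁅u, ⁅v, x⁆⁆ := leibniz_lie v u x
    simp only [h1, h2, map_add, map_smul, hm1, hm2, hP v u x, hl1, hj, map_neg]
    module

private theorem single_mem_Fil {G : ℕ → Type u} [∀ k, AddCommGroup (G k)] [∀ k, Module F (G k)]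
    {j n : ℕ} (h : j ≤ n) (x : G j) : (DFinsupp.single j x : Π₀ k, G k) ∈ Fil F G n := by
  intro k hk
  exact DFinsupp.single_eq_of_ne (by omega)

/-- the embedding of the `k`-th piece -/
private noncomputable def sg (F : Type u) [Field F] (L : Type u) [LieRing L] [LieAlgebra F L]
    (M : Type u) [AddCommGroup M] [Module F M] (ι : Type) (C : Type u) [AddCommGroup C] [Module F C]
    (k : ℕ) : GG F L M ι C k →ₗ[F] Π₀ k, GG F L M ι C k :=
  DFinsupp.lsingle k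

/-- the bracket as a bilinear map -/
private noncomputable def brl (F : Type u) [Field F] (L : Type u) [LieRing L] [LieAlgebra F L] :
    L →ₗ[F] L →ₗ[F] L :=
  LinearMap.mk₂ F (fun v x => (⁅v, x⁆ : L)) (fun x y z => add_lie x y z)
    (fun c x y => smul_lie c x y) (fun x y z => lie_add x y z) (fun c x y => lie_smul c x y)

/-- the lower order terms -/
private noncomputable def low (ad : L →ₗ[F] M →ₗ[F] M) (l : L →ₗ[F] M →ₗ[F] L) :
    ∀ k, L →ₗ[F] GG F L M ι C k →ₗ[F] Π₀ k, GG F L M ι C k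
  | 0 => 0
  | 1 => (1/2 : F) • (brl F L).compr₂ (sg F L M ι C 1)
  | 2 => (1/2 : F) • ad.compr₂ (sg F L M ι C 2) + l.compr₂ (sg F L M ι C 1)
  | (_+3) => 0

/-- the operators -/
private noncomputable def RR (m : L →ₗ[F] L →ₗ[F] M) (γ : L →ₗ[F] g) (b : Module.Basis ι F g)
    (prS : M →ₗ[F] Sy F ι 2) (q : L →ₗ[F] (C × Lm F C 2)) (prN : M →ₗ[F] (Lm F C 4 × Lm F C 3))
    (ad : L →ₗ[F] M →ₗ[F] M) (l : L →ₗ[F] M →ₗ[F] L) :
    L →ₗ[F] Module.End F (Π₀ k, GG F L M ι C k) :=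
  (DFinsupp.lsum ℕ (fun k => ((pp m γ b prS q prN k).compr₂ (sg F L M ι C (k+1))
    + low ad l k).flip)).flip

private theorem RR_single (m : L →ₗ[F] L →ₗ[F] M) (γ : L →ₗ[F] g) (b : Module.Basis ι F g)
    (prS : M →ₗ[F] Sy F ι 2) (q : L →ₗ[F] (C × Lm F C 2)) (prN : M →ₗ[F] (Lm F C 4 × Lm F C 3))
    (ad : L →ₗ[F] M →ₗ[F] M) (l : L →ₗ[F] M →ₗ[F] L) (v : L) (k : ℕ) (x : GG F L M ι C k) :
    RR m γ b prS q prN ad l v (DFinsupp.single k x)
      = DFinsupp.single (k+1) (pp m γ b prS q prN k v x) + low ad l k v x := by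
  rw [RR, LinearMap.flip_apply, DFinsupp.lsum_single]
  rfl

theorem Base.start (B : Base mul r m ad)
    (hc : ∀ v u x, p2 γ b prS q prN v (m u x) = p2 γ b prS q prN u (m v x)) :
    ∃ R : L →ₗ[F] Module.End F (Π₀ k, GG F L M ι C k), Good (pp m γ b prS q prN) 2 R ∧
      (∀ v, R v (DFinsupp.single 0 (1 : F)) = DFinsupp.single 1 v) ∧
      (∀ v (x : L), R v (DFinsupp.single 1 x) = DFinsupp.single 2 (m v x)
        + (1/2 : F) • (DFinsupp.single 1 (⁅v, x⁆ : L) : Π₀ k, GG F L M ι C k)) := by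
  obtain ⟨l, hl⟩ := B.exists_l
  have h0 : ∀ v (c : F), RR m γ b prS q prN ad l v (sg F L M ι C 0 c) = sg F L M ι C 1 (c • v) := by
    intro v c
    refine (RR_single m γ b prS q prN ad l v 0 c).trans ?_
    refine (add_zero _).trans ?_
    rfl
  have h1 : ∀ v (x : L), RR m γ b prS q prN ad l v (sg F L M ι C 1 x)
      = sg F L M ι C 2 (m v x) + (1/2 : F) • sg F L M ι C 1 (⁅v, x⁆ : L) := by
    intro v x
    exact RR_single m γ b prS q prN ad l v 1 x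
  have h2 : ∀ v (w : M), RR m γ b prS q prN ad l v (sg F L M ι C 2 w)
      = sg F L M ι C 3 (p2 γ b prS q prN v w)
        + ((1/2 : F) • sg F L M ι C 2 (ad v w) + sg F L M ι C 1 (l v w)) := by
    intro v w
    exact RR_single m γ b prS q prN ad l v 2 w
  obtain ⟨r0, r1⟩ := rel_abs B (RR m γ b prS q prN ad l) (sg F L M ι C 0) (sg F L M ι C 1)
    (sg F L M ι C 2) (sg F L M ι C 3) (p2 γ b prS q prN) l hl hc h0 h1 h2
  refine ⟨RR m γ b prS q prN ad l, ⟨?_, ?_, ?_⟩, ?_, ?_⟩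
  · intro v k x
    rw [RR_single, add_sub_cancel_left]
    match k, x with
    | 0, x => exact Submodule.zero_mem _
    | 1, x => exact Submodule.smul_mem _ _ (single_mem_Fil le_rfl _)
    | 2, x => exact Submodule.add_mem _ (Submodule.smul_mem _ _ (single_mem_Fil le_rfl _))
                (single_mem_Fil (by norm_num) _)
    | (k+3), x => exact Submodule.zero_mem _
  · intro v k x hk
    rw [RR_single]
    match k, x, hk with
    | (k+3), x, _ => exact add_zero _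
  · intro v u k x hk
    match k, x, hk with
    | 0, x, _ => exact r0 v u x
    | 1, x, _ => exact r1 v u x
  · intro v
    have := h0 v (1 : F)
    rw [one_smul] at this
    exact this
  · intro v x
    exact h1 v x

end Pool.Agent.MP_754a42_al
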