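import Pool.Agent.Lib.MP_754a42_al.Base
import Pool.Agent.Lib.MP_754a42_al.A3

/-!
# MP_754a42_al, row H4: the Malcev representation inside a representation of `L`.

`E_Q := {x : E | ∃ φ : M →ₗ E, ∀ a b, S a (S b x) + S b (S a x) = φ (m a b)}` is a subspace (add the `φ`s).
* stable under `S v`: take `φ' := S v ∘ φ - φ ∘ ad v`: with `S a S b = S b S a + S ⁅a,b⁆`:
  `{S a, S b} S v x = S v {S a,S b} x - [S v,{S a, S b}] x = S v (φ (m a b)) - ({S⁅v,a⁆, S b} + {S a, S⁅v,b⁆}) x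
     = S v (φ (m a b)) - φ (m ⁅v,a⁆ b) - φ (m a ⁅v,b⁆) = S v (φ (m a b)) - φ (ad v (m a b))`.
* `e ∈ E_Q` with `φ0`.
* `V := ↥E_Q`, `ρ a := (S (r a)).restrict` (linear in `a`).  `dd mul ρ a b x = S (dl mul r a b) x` (as `[S (ra), S (rb)] = S ⁅ra,rb⁆`).
* `r1`: `ρ a * dd a b + dd a b * ρ a` at `x` is `S (ra) (S δ x) + S δ (S (ra) x) = φ (m (ra) δ) = 0` (`B.mal`).
* `r2`: `[S (rz), S δ(a,b)] = S ⁅rz, δ(a,b)⁆` and `B.V1`.  Conclude by `isRep_of_rel` (row A3).
* faithful: `ρ a = 0` gives `S (ra) e = 0`, `ra = 0` (`hinj`).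
-/

namespace Pool.Agent.MP_754a42_al

universe u

variable {F : Type u} [Field F] [CharZero F] {A : Type u} [AddCommGroup A] [Module F A]
  {L : Type u} [LieRing L] [LieAlgebra F L] {M : Type u} [AddCommGroup M] [Module F M]
  {mul : A →ₗ[F] A →ₗ[F] A} {r : A →ₗ[F] L} {m : L →ₗ[F] L →ₗ[F] M} {ad : L →ₗ[F] M →ₗ[F] M}

/-- The subspace `E_Q`. -/
private noncomputable def EQ4 {E : Type u} [AddCommGroup E] [Module F E] (m : L →ₗ[F] L →ₗ[F] M)
    (S : L →ₗ[F] Module.End F E) : Submodule F E where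
  carrier := {x | ∃ φ : M →ₗ[F] E, ∀ a b, S a (S b x) + S b (S a x) = φ (m a b)}
  zero_mem' := ⟨0, by simp⟩
  add_mem' := by
    rintro x y ⟨φ, hφ⟩ ⟨ψ, hψ⟩
    refine ⟨φ + ψ, fun a b => ?_⟩
    rw [LinearMap.add_apply, ← hφ, ← hψ]
    simp only [map_add]
    abel
  smul_mem' := by
    rintro c x ⟨φ, hφ⟩
    refine ⟨c • φ, fun a b => ?_⟩
    rw [LinearMap.smul_apply, ← hφ]
    simp only [map_smul, smul_add]

omit [CharZero F] in
private theorem EQ4_stable (B : Base mul r m ad) {E : Type u} [AddCommGroup E] [Module F E]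
    (S : L →ₗ[F] Module.End F E) (hS : ∀ v u y, S v (S u y) - S u (S v y) = S ⁅v, u⁆ y)
    (v : L) (x : E) (hx : x ∈ EQ4 m S) : S v x ∈ EQ4 m S := by
  obtain ⟨φ, hφ⟩ := hx
  refine ⟨(S v).comp φ - φ.comp (ad v), fun a b => ?_⟩
  rw [LinearMap.sub_apply, LinearMap.comp_apply, LinearMap.comp_apply, B.ad_m, map_add, ← hφ, ← hφ,
    ← hφ, ← hS v a, ← hS v a, ← hS v b, ← hS v b]
  simp only [map_add, map_sub]
  abel

theorem Base.final (B : Base mul r m ad) (hA : IsMalcev mul) {E : Type u} [AddCommGroup E] [Module F E]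
    (S : L →ₗ[F] Module.End F E) (hS : ∀ v u y, S v (S u y) - S u (S v y) = S ⁅v, u⁆ y)
    (e : E) (φ0 : M →ₗ[F] E) (h0 : ∀ a b, S a (S b e) + S b (S a e) = φ0 (m a b))
    (hinj : ∀ v, S v e = 0 → v = 0) :
    ∃ (V : Type u) (_ : AddCommGroup V) (_ : Module F V) (ρ : A →ₗ[F] Module.End F V),
      IsRep mul ρ ∧ ∀ a, ρ a = 0 → r a = 0 := by
  have hst := EQ4_stable B S hS
  let ρ : A →ₗ[F] Module.End F (EQ4 m S) :=
    { toFun := fun a => (S (r a)).restrict (hst (r a))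
      map_add' := fun a b => by
        ext x
        simp [LinearMap.restrict_apply]
      map_smul' := fun c a => by
        ext x
        simp [LinearMap.restrict_apply] }
  have hρ : ∀ a (x : EQ4 m S), ((ρ a x : EQ4 m S) : E) = S (r a) x := fun a x => rfl
  have hdd : ∀ a b (x : EQ4 m S), ((dd mul ρ a b x : EQ4 m S) : E) = S (dl mul r a b) x := by
    intro a b x
    rw [dl_apply, map_sub, LinearMap.sub_apply, ← hS]
    rfl
  refine ⟨EQ4 m S, inferInstance, inferInstance, ρ, isRep_of_rel hA ?_ ?_, ?_⟩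
  · intro a b
    ext x
    obtain ⟨φ, hφ⟩ := x.2
    rw [LinearMap.add_apply, Module.End.mul_apply, Module.End.mul_apply, Submodule.coe_add, hρ, hdd,
      hdd, hρ, hφ, B.mal, map_zero]
    rfl
  · intro z a b
    ext x
    have h1 : (((ρ z * dd mul ρ a b - dd mul ρ a b * ρ z) x : EQ4 m S) : E) =
        S (r z) (S (dl mul r a b) x) - S (dl mul r a b) (S (r z) x) := by
      rw [LinearMap.sub_apply, Module.End.mul_apply, Module.End.mul_apply, Submodule.coe_sub, hρ, hdd,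
        hdd, hρ]
    rw [h1, hS, B.V1]
    simp only [map_sub, map_smul, LinearMap.sub_apply, LinearMap.smul_apply, Submodule.coe_sub,
      Submodule.coe_smul, hdd]
  · intro a ha
    apply hinj
    have he : e ∈ EQ4 m S := ⟨φ0, h0⟩
    have h1 := hρ a ⟨e, he⟩
    rw [ha] at h1
    exact h1.symm

end Pool.Agent.MP_754a42_al
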