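import Pool.Agent.Lib.MP_754a42_al.R1

/-!
# MP_754a42_al, row R2: the limit of the recursion.

By `rec_step` (for `m = n+1`) and choice there is a sequence `R_n` (`n ≥ 0`) with `Good p (n+2) (R_n)`, `R_0 = R`, and
`R_{n+1} v (s k x) = R_n v (s k x)` for `k ≤ n+2` (recursion on the subtype `{R // Good p (n+2) R}`).  Hence
`R_n v (s k x) = R_{n'} v (s k x)` whenever `k ≤ n+2`, `n ≤ n'`.
Define `S v := DFinsupp.lsum ℕ (fun k => (R_k v).comp (DFinsupp.lsingle k))` (linear in `v`), so `S v (s k x) = R_k v (s k x)`,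
and therefore `S v (s k x) = R_n v (s k x)` for all `n ≥ k` and also for all `n` with `k ≤ n+2`.
By linearity `S v y = R_n v y` for `y ∈ Fil F G n` (even `Fil (n+2)`).
`R_n u (s k x) ∈ Fil (k+1)` (`lead`), so for `n ≥ k+1`:
`S v (S u (s k x)) = R_n v (R_n u (s k x))`, and `rel` of `R_n` (`k < n+2`) gives the claim on singles, hence everywhere
(`DFinsupp.lhom_ext'` / `LinearMap.ext` + `DFinsupp.induction`).
-/

namespace Pool.Agent.MP_754a42_al

universe u

variable {F : Type u} [Field F] {L : Type u} [LieRing L] [LieAlgebra F L]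
  {G : ℕ → Type u} [∀ k, AddCommGroup (G k)] [∀ k, Module F (G k)]

theorem rec_limit (p : ∀ k, L →ₗ[F] G k →ₗ[F] G (k+1))
    (comm : ∀ k v u (x : G k), p (k+1) v (p k u x) = p (k+1) u (p k v x))
    (hX : ∀ m, X2 (p (m+1)) (p (m+2))) (R : L →ₗ[F] Module.End F (Π₀ k, G k)) (hR : Good p 2 R) :
    ∃ S : L →ₗ[F] Module.End F (Π₀ k, G k),
      (∀ v u y, S v (S u y) - S u (S v y) = S ⁅v, u⁆ y) ∧
      ∀ v k (x : G k), k ≤ 2 → S v (DFinsupp.single k x) = R v (DFinsupp.single k x) := by
  classical
  have step : ∀ n (A : {A : L →ₗ[F] Module.End F (Π₀ k, G k) // Good p (n+2) A}),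
      ∃ B : {B : L →ₗ[F] Module.End F (Π₀ k, G k) // Good p (n+1+2) B},
        ∀ v k (x : G k), k ≤ n+2 → B.1 v (DFinsupp.single k x) = A.1 v (DFinsupp.single k x) := by
    intro n A
    obtain ⟨B, hB, hB2⟩ := rec_step p comm (n+1) (hX n) A.1 A.2
    exact ⟨⟨B, hB⟩, hB2⟩
  choose nxt hnxt using step
  let seq : (n : ℕ) → {A : L →ₗ[F] Module.End F (Π₀ k, G k) // Good p (n+2) A} :=
    fun n => Nat.rec ⟨R, hR⟩ (fun n A => nxt n A) n
  have hseq : ∀ n v k (x : G k), k ≤ n+2 →
      (seq (n+1)).1 v (DFinsupp.single k x) = (seq n).1 v (DFinsupp.single k x) :=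
    fun n v k x hk => hnxt n (seq n) v k x hk
  have agree : ∀ n j v k (x : G k), k ≤ n+2 →
      (seq (n+j)).1 v (DFinsupp.single k x) = (seq n).1 v (DFinsupp.single k x) := by
    intro n j
    induction j with
    | zero => intro v k x _; rfl
    | succ j ih =>
      intro v k x hk
      rw [← ih v k x hk]
      exact hseq (n+j) v k x (by omega)
  let S : L →ₗ[F] Module.End F (Π₀ k, G k) :=
    { toFun := fun v => DFinsupp.lsum ℕ (fun k => ((seq k).1 v).comp (DFinsupp.lsingle k))
      map_add' := by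
        intro a b
        refine DFinsupp.lhom_ext fun k x => ?_
        rw [LinearMap.add_apply, DFinsupp.lsum_single, DFinsupp.lsum_single, DFinsupp.lsum_single,
          map_add]
        rfl
      map_smul' := by
        intro c a
        refine DFinsupp.lhom_ext fun k x => ?_
        rw [RingHom.id_apply, LinearMap.smul_apply, DFinsupp.lsum_single, DFinsupp.lsum_single,
          map_smul]
        rfl }
  have hS0 : ∀ v k (x : G k), S v (DFinsupp.single k x) = (seq k).1 v (DFinsupp.single k x) := by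
    intro v k x
    show DFinsupp.lsum ℕ (fun k => ((seq k).1 v).comp (DFinsupp.lsingle k)) (DFinsupp.single k x) = _
    rw [DFinsupp.lsum_single]
    rfl
  have hS : ∀ n v k (x : G k), k ≤ n+2 →
      S v (DFinsupp.single k x) = (seq n).1 v (DFinsupp.single k x) := by
    intro n v k x hk
    rw [hS0]
    rcases le_total k n with h | h
    · obtain ⟨j, rfl⟩ := Nat.exists_eq_add_of_le h
      exact (agree k j v k x (by omega)).symm
    · obtain ⟨j, rfl⟩ := Nat.exists_eq_add_of_le h
      exact agree n j v _ x hk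
  have hFil : ∀ n v (y : Π₀ k, G k), y ∈ Fil F G n → S v y = (seq n).1 v y := by
    intro n v y hy
    have hsum : y = ∑ i ∈ y.support, DFinsupp.single i (y i) := by
      conv_lhs => rw [← DFinsupp.sum_single (f := y)]
      rfl
    rw [hsum, map_sum, map_sum]
    refine Finset.sum_congr rfl fun i hi => ?_
    have hi' : i ≤ n := by
      by_contra hcon
      exact (DFinsupp.mem_support_iff.1 hi) (hy i (by omega))
    exact hS n v i (y i) (by omega)
  have hin : ∀ n v k (x : G k), (seq n).1 v (DFinsupp.single k x) ∈ Fil F G (k+1) := by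
    intro n v k x
    have h1 := (seq n).2.lead v k x
    have h2 : (DFinsupp.single (k+1) (p k v x) : Π₀ k, G k) ∈ Fil F G (k+1) := by
      intro i hi
      exact DFinsupp.single_eq_of_ne (by omega)
    have h3 : (seq n).1 v (DFinsupp.single k x) - DFinsupp.single (k+1) (p k v x) ∈ Fil F G (k+1) :=
      fun i hi => h1 i (by omega)
    have := (Fil F G (k+1)).add_mem h3 h2
    simpa using this
  refine ⟨S, ?_, fun v k x hk => hS 0 v k x (by omega)⟩
  intro v u y
  have key : (S v).comp (S u) - (S u).comp (S v) = S ⁅v, u⁆ := by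
    refine DFinsupp.lhom_ext fun k x => ?_
    rw [LinearMap.sub_apply, LinearMap.comp_apply, LinearMap.comp_apply,
      hS (k+1) u k x (by omega), hS (k+1) v k x (by omega), hS (k+1) ⁅v, u⁆ k x (by omega),
      hFil (k+1) v _ (hin (k+1) u k x), hFil (k+1) u _ (hin (k+1) v k x)]
    exact (seq (k+1)).2.rel v u k x (by omega)
  have := LinearMap.congr_fun key y
  simpa using this

end Pool.Agent.MP_754a42_al
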