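import Pool.Agent.Lib.MP_754a42_al.Stmt

/-!
# MP_754a42_al, row V1: the smallest closed pair is closed.

Every item of `Closed` is inherited by intersections.  `star`: let `map (rad).mkQ (radQ).mkQ (Alt ξ) = 0`.  For every closed pair
`(N,Q)`: `rad ≤ N`, `radQ ≤ Q` (`sInf_le`), and `N.mkQ = (factor) ∘ rad.mkQ` (`Submodule.factor`, `Submodule.mapQ`), so
`map N.mkQ Q.mkQ (Alt ξ) = 0` (`TensorProduct.map_comp`), hence `θ ξ ∈ N`.  (`Submodule.mem_sInf`.)
-/

open scoped TensorProduct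

namespace Pool.Agent.MP_754a42_al

universe u

variable {F A : Type u} [Field F] [AddCommGroup A] [Module F A] (mul : A →ₗ[F] A →ₗ[F] A)

theorem closed_rad : Closed mul (rad mul) (radQ mul) := by
  have hN : ∀ {N Q}, Closed mul N Q → rad mul ≤ N := fun {N Q} h => sInf_le ⟨Q, h⟩
  have hQ : ∀ {N Q}, Closed mul N Q → radQ mul ≤ Q := fun {N Q} h => sInf_le ⟨N, h⟩
  refine ⟨?_, ?_, ?_, ?_, ?_, ?_, ?_⟩
  · intro x y
    refine Submodule.mem_sInf.2 ?_
    rintro Q ⟨N, h⟩
    exact h.symm x y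
  · intro a b
    refine Submodule.mem_sInf.2 ?_
    rintro Q ⟨N, h⟩
    exact h.mal a b
  · intro v q hq
    refine Submodule.mem_sInf.2 ?_
    rintro Q ⟨N, h⟩
    exact h.ad v q (hQ h hq)
  · intro n hn x
    refine Submodule.mem_sInf.2 ?_
    rintro Q ⟨N, h⟩
    exact h.left n (hN h hn) x
  · intro x
    refine Submodule.mem_sInf.2 ?_
    rintro N ⟨Q, h⟩
    exact h.self x
  · intro x n hn
    refine Submodule.mem_sInf.2 ?_
    rintro N ⟨Q, h⟩
    exact h.ideal x n (hN h hn)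
  · intro ξ hξ
    refine Submodule.mem_sInf.2 ?_
    rintro N ⟨Q, h⟩
    refine h.star ξ ?_
    change TensorProduct.map N.mkQ Q.mkQ (Alt F A ξ) = 0
    have hξ' : TensorProduct.map (rad mul).mkQ (radQ mul).mkQ (Alt F A ξ) = 0 := hξ
    have e1 : N.mkQ = (Submodule.factor (hN h)).comp (rad mul).mkQ :=
      (Submodule.factor_comp_mk (hN h)).symm
    have e2 : Q.mkQ = (Submodule.factor (hQ h)).comp (radQ mul).mkQ :=
      (Submodule.factor_comp_mk (hQ h)).symm
    rw [e1, e2, TensorProduct.map_comp, LinearMap.comp_apply, hξ', map_zero]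

end Pool.Agent.MP_754a42_al
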