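import Pool.Agent.Lib.MP_754a42_al.Stmt

/-!
# MP_754a42_al, row V2: the Lie algebra `L̂/N`.

`L := LH F A ⧸ N`.  Bracket: `Submodule.liftQ` twice from `br` (well defined: `ideal` gives `br x n ∈ N`; polarising `self`,
`br x y + br y x ∈ N`, so also `br n x ∈ N`).  `⁅x,x⁆ = 0` from `self`.  Jacobi (`leibniz_lie`): `star` with
`ξ = v⊗(u⊗x) + u⊗(x⊗v) + x⊗(v⊗u)`: `Alt ξ = v⊗(u⊗x - x⊗u) + u⊗(x⊗v - v⊗x) + x⊗(v⊗u - u⊗v)`, killed by `map N.mkQ Q.mkQ` because of
`symm`; so `[[v,u],x] + [[u,x],v] + [[x,v],u] ∈ N`.  Build `LieRing` and `LieAlgebra` structures on `LH F A ⧸ N` (as local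
instances/terms) whose underlying `AddCommGroup` and `Module` are the quotient ones.
(The statement packs them existentially; `Type u` carrier with its own additive structure.)
-/

open scoped TensorProduct

namespace Pool.Agent.MP_754a42_al

universe u

variable {F A : Type u} [Field F] [AddCommGroup A] [Module F A] {mul : A →ₗ[F] A →ₗ[F] A}

theorem V2_skew {N : Submodule F (LH F A)} {Q : Submodule F (LH F A ⊗[F] LH F A)}
    (h : Closed mul N Q) (x y : LH F A) : br mul x y + br mul y x ∈ N := by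
  have h1 := h.self (x + y)
  have h2 := h.self x
  have h3 := h.self y
  have h4 : br mul x y + br mul y x = br mul (x + y) (x + y) - br mul x x - br mul y y := by
    simp only [map_add, LinearMap.add_apply]
    abel
  rw [h4]
  exact N.sub_mem (N.sub_mem h1 h2) h3

theorem V2_left {N : Submodule F (LH F A)} {Q : Submodule F (LH F A ⊗[F] LH F A)}
    (h : Closed mul N Q) (x : LH F A) {n : LH F A} (hn : n ∈ N) : br mul n x ∈ N := by
  have h1 := V2_skew h n x
  have h2 := h.ideal x n hn
  have h3 : br mul n x = (br mul n x + br mul x n) - br mul x n := by abel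
  rw [h3]
  exact N.sub_mem h1 h2

theorem V2_jac {N : Submodule F (LH F A)} {Q : Submodule F (LH F A ⊗[F] LH F A)}
    (h : Closed mul N Q) (v u x : LH F A) :
    br mul (br mul v u) x + br mul (br mul u x) v + br mul (br mul x v) u ∈ N := by
  have key := h.star (v ⊗ₜ (u ⊗ₜ x) + u ⊗ₜ (x ⊗ₜ v) + x ⊗ₜ (v ⊗ₜ u)) (by
    change TensorProduct.map N.mkQ Q.mkQ (Alt F A _) = 0
    have e : ∀ a b : LH F A, Q.mkQ (a ⊗ₜ[F] b) = Q.mkQ (b ⊗ₜ[F] a) := fun a b => by
      rw [Submodule.mkQ_apply, Submodule.mkQ_apply, Submodule.Quotient.eq]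
      exact h.symm a b
    simp only [map_add, Alt_tmul, map_sub, TensorProduct.map_tmul]
    rw [e v x, e u v, e x u]
    abel)
  simpa only [map_add, th_tmul] using key

/-- the adjoint map on the quotient -/
noncomputable def V2_phi {N : Submodule F (LH F A)} {Q : Submodule F (LH F A ⊗[F] LH F A)}
    (h : Closed mul N Q) : LH F A →ₗ[F] (LH F A ⧸ N) →ₗ[F] (LH F A ⧸ N) where
  toFun x := N.mapQ N (br mul x) (fun n hn => h.ideal x n hn)
  map_add' x y := by
    apply Submodule.linearMap_qext
    apply LinearMap.ext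
    intro z
    change N.mkQ (br mul (x + y) z) = N.mkQ (br mul x z) + N.mkQ (br mul y z)
    rw [map_add, LinearMap.add_apply, map_add]
  map_smul' c x := by
    apply Submodule.linearMap_qext
    apply LinearMap.ext
    intro z
    change N.mkQ (br mul (c • x) z) = c • N.mkQ (br mul x z)
    rw [map_smul, LinearMap.smul_apply, map_smul]

/-- the bracket of the quotient -/
noncomputable def V2_B {N : Submodule F (LH F A)} {Q : Submodule F (LH F A ⊗[F] LH F A)}
    (h : Closed mul N Q) : (LH F A ⧸ N) →ₗ[F] (LH F A ⧸ N) →ₗ[F] (LH F A ⧸ N) :=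
  N.liftQ (V2_phi h) (fun n hn => by
    rw [LinearMap.mem_ker]
    apply Submodule.linearMap_qext
    apply LinearMap.ext
    intro z
    change N.mkQ (br mul n z) = 0
    rw [Submodule.mkQ_apply, Submodule.Quotient.mk_eq_zero]
    exact V2_left h z hn)

theorem V2_B_mk {N : Submodule F (LH F A)} {Q : Submodule F (LH F A ⊗[F] LH F A)}
    (h : Closed mul N Q) (x y : LH F A) : V2_B h (N.mkQ x) (N.mkQ y) = N.mkQ (br mul x y) := rfl

theorem Closed.exists_lie {N : Submodule F (LH F A)} {Q : Submodule F (LH F A ⊗[F] LH F A)}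
    (h : Closed mul N Q) : ∃ (L : Type u) (_ : LieRing L) (_ : LieAlgebra F L) (π : LH F A →ₗ[F] L),
      Function.Surjective π ∧ LinearMap.ker π = N ∧ ∀ x y, π (br mul x y) = ⁅π x, π y⁆ := by
  have surj : Function.Surjective N.mkQ := N.mkQ_surjective
  have skew : ∀ a b : LH F A ⧸ N, V2_B h a b = - V2_B h b a := by
    intro a b
    obtain ⟨x, rfl⟩ := surj a
    obtain ⟨y, rfl⟩ := surj b
    rw [V2_B_mk, V2_B_mk, eq_neg_iff_add_eq_zero, ← map_add, Submodule.mkQ_apply,
      Submodule.Quotient.mk_eq_zero]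
    exact V2_skew h x y
  have selfz : ∀ a : LH F A ⧸ N, V2_B h a a = 0 := by
    intro a
    obtain ⟨x, rfl⟩ := surj a
    rw [V2_B_mk, Submodule.mkQ_apply, Submodule.Quotient.mk_eq_zero]
    exact h.self x
  have jac : ∀ a b c : LH F A ⧸ N,
      V2_B h (V2_B h a b) c + V2_B h (V2_B h b c) a + V2_B h (V2_B h c a) b = 0 := by
    intro a b c
    obtain ⟨x, rfl⟩ := surj a
    obtain ⟨y, rfl⟩ := surj b
    obtain ⟨z, rfl⟩ := surj c
    simp only [V2_B_mk]
    rw [← map_add, ← map_add, Submodule.mkQ_apply, Submodule.Quotient.mk_eq_zero]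
    exact V2_jac h x y z
  have leib : ∀ a b c : LH F A ⧸ N,
      V2_B h a (V2_B h b c) = V2_B h (V2_B h a b) c + V2_B h b (V2_B h a c) := by
    intro a b c
    have h1 := jac a b c
    have h2 : V2_B h (V2_B h b c) a = - V2_B h a (V2_B h b c) := skew _ _
    have h3 : V2_B h (V2_B h c a) b = V2_B h b (V2_B h a c) := by
      rw [skew (V2_B h c a) b, skew c a, map_neg, neg_neg]
    rw [h2, h3] at h1
    have h4 : V2_B h (V2_B h a b) c + V2_B h b (V2_B h a c) - V2_B h a (V2_B h b c) = 0 := by
      rw [← h1]; abel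
    exact (sub_eq_zero.mp h4).symm
  let lr : LieRing (LH F A ⧸ N) :=
    { (inferInstance : AddCommGroup (LH F A ⧸ N)) with
      bracket := fun x y => V2_B h x y
      add_lie := fun x y z => by
        change V2_B h (x + y) z = V2_B h x z + V2_B h y z
        rw [map_add, LinearMap.add_apply]
      lie_add := fun x y z => by
        change V2_B h x (y + z) = V2_B h x y + V2_B h x z
        rw [map_add]
      lie_self := fun x => selfz x
      leibniz_lie := fun x y z => leib x y z }
  let la : @LieAlgebra F (LH F A ⧸ N) _ lr :=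
    { (inferInstance : Module F (LH F A ⧸ N)) with
      lie_smul := fun t x y => by
        change V2_B h x (t • y) = t • V2_B h x y
        rw [map_smul] }
  refine ⟨LH F A ⧸ N, lr, la, N.mkQ, surj, N.ker_mkQ, ?_⟩
  intro x y
  rfl

end Pool.Agent.MP_754a42_al
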