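import Pool.Agent.Lib.MP_754a42_al.V3

/-!
# MP_754a42_al, row V3b: a closed pair gives base data (THIS ROW: `Closed.base`; `dl_eq`, `exists_m`, `exists_ad` are in row V3).

`M := (LH ⊗ LH) ⧸ Q`, `r a := π (a,0)`.
* `m`: the bilinear map `L → L → M` with `m (π x) (π y) = Q.mkQ (x ⊗ₜ y)`: well defined since `n ⊗ x ∈ Q` (`left`) and
  `x ⊗ n ∈ Q` (`left` and `symm`), `ker π = N`.  (Choose a linear section `s` of `π`, `m u v := Q.mkQ (s u ⊗ₜ s v)`; then check the formula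
  on `π x`, `π y` using `x - s (π x) ∈ N`.)
* `ad`: `ad (π v) (Q.mkQ t) = Q.mkQ (adT v t)`: well defined in `t` by `ad`; in `v`: for `n ∈ N`,
  `adT n (x ⊗ y) = br n x ⊗ y + x ⊗ br n y ∈ Q` as `br n x ∈ N` (`br n x + br x n ∈ N` by `self`).  (Again use the section `s`:
  `ad u := Q.mapQ Q (adT (s u)) _`.)
* `dl mul r a b = ⁅π(a,0), π(b,0)⁆ - π(ab,0) = π(-ab, a⊗b) - π(ab,0) = π (dh (a ⊗ b))`   (lemma `dl_eq`).
* `anti` is a hypothesis.  `mal`: `mal` of `Closed`.  `comm`: `symm`.  `spanM`, `spanL`: `π` surjective; `LH` is spanned by `(a,0)` and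
  `(0, a⊗b) = dh(a⊗b) + (2ab,0)`.  `ad_m`: clear.
* `V1`.  First `π (0, ab⊗c + bc⊗a + ca⊗b) = 0`: the Jacobi identity for `r a, r b, r c` in `L`: `⁅⁅ra,rb⁆,rc⁆ = π (br (br (a,0) (b,0)) (c,0))`,
  `br (a,0) (b,0) = (-ab, a⊗b)`, `br (-ab, a⊗b) (c,0) = ((ab)c + D_{a,b}c, -ab⊗c)`; the cyclic sum of `(ab)c + a(bc) - b(ac) + (ab)c` is `0`
  (using `mul b a = - mul a b`).
  Also `π (0, a⊗b) = - π (0, b⊗a)`: `⁅ra,ra⁆ = π (0, a⊗a)` (`self`).  Then
  `⁅rz, δ(a,b)⁆ = π (br (z,0) (-2ab, a⊗b)) = π (2 z(ab) - D_{a,b} z, -2 z⊗ab)`, and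
  `3/2 δ(ab,z) - 1/2 δ(bz,a) - 1/2 δ(za,b) = π (-3 (ab)z + (bz)a + (za)b, 3/2 ab⊗z - 1/2 bz⊗a - 1/2 za⊗b)`.
  First components agree: `2z(ab) - a(bz) + b(az) - (ab)z = -3(ab)z + (bz)a + (za)b` (`skew`).  Second components:
  `3/2 ab⊗z - 1/2 bz⊗a - 1/2 za⊗b = 2 ab⊗z - 1/2 (ab⊗z + bz⊗a + za⊗b) ≡ 2 ab⊗z ≡ -2 z⊗ab`.
* `star`: let `TT m ξ = 0`, `ξ ∈ L⊗(L⊗L)`.  `ξ = map π (map π π) ξ̂` (`TensorProduct.map_surjective`).  The linear maps
  `TT m ∘ map π (map π π)` and `map π Q.mkQ ∘ Alt` agree (on pure tensors).  So `map π Q.mkQ (Alt ξ̂) = 0`; since `ker π = N`,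
  `N.mkQ = g ∘ π` for a linear `g`, so `map N.mkQ Q.mkQ (Alt ξ̂) = 0`, `θ ξ̂ ∈ N`, and `π (θ ξ̂) = th3 ξ` (pure tensors): `th3 ξ = 0`.
-/

open scoped TensorProduct

namespace Pool.Agent.MP_754a42_al

universe u

variable {F A : Type u} [Field F] [CharZero F] [AddCommGroup A] [Module F A] {mul : A →ₗ[F] A →ₗ[F] A}
  {N : Submodule F (LH F A)} {Q : Submodule F (LH F A ⊗[F] LH F A)}
  {L : Type u} [LieRing L] [LieAlgebra F L] {π : LH F A →ₗ[F] L}

omit [CharZero F] in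
private theorem pi_zero (hk : LinearMap.ker π = N) {x : LH F A} (hx : x ∈ N) : π x = 0 := by
  rw [← LinearMap.mem_ker, hk]; exact hx

omit [CharZero F] in
private theorem skew_of_anti (anti : ∀ a, mul a a = 0) (a b : A) : mul b a = - mul a b := by
  have h := anti (a + b)
  simp only [map_add, LinearMap.add_apply, anti, zero_add, add_zero] at h
  exact eq_neg_of_add_eq_zero_left h

omit [CharZero F] in
private theorem pi_self (anti : ∀ a, mul a a = 0) (hb : ∀ x y, π (br mul x y) = ⁅π x, π y⁆) (a : A) :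
    π ((0, a ⊗ₜ[F] a) : LH F A) = 0 := by
  have h := hb (a, 0) (a, 0)
  rw [lie_self, br_apply] at h
  simpa [anti] using h

omit [CharZero F] in
private theorem pi_swap (anti : ∀ a, mul a a = 0) (hb : ∀ x y, π (br mul x y) = ⁅π x, π y⁆) (a b : A) :
    π ((0, a ⊗ₜ[F] b) : LH F A) + π ((0, b ⊗ₜ[F] a) : LH F A) = 0 := by
  have h := pi_self anti hb (a + b)
  have ha := pi_self anti hb a
  have hb' := pi_self anti hb b
  have e : ((0, (a + b) ⊗ₜ[F] (a + b)) : LH F A) =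
      (0, a ⊗ₜ[F] a) + (0, a ⊗ₜ[F] b) + (0, b ⊗ₜ[F] a) + (0, b ⊗ₜ[F] b) := by
    ext1
    · simp
    · simp only [TensorProduct.add_tmul, TensorProduct.tmul_add, Prod.snd_add]
      abel
  rw [e, map_add, map_add, map_add, ha, hb'] at h
  simpa using h

omit [CharZero F] in
private theorem pi_brbr (hb : ∀ x y, π (br mul x y) = ⁅π x, π y⁆) (a b c : A) :
    ⁅⁅π ((a, 0) : LH F A), π ((b, 0) : LH F A)⁆, π ((c, 0) : LH F A)⁆ =
      π ((mul (mul a b) c + (mul a (mul b c) - mul b (mul a c) + mul (mul a b) c),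
        - (mul a b ⊗ₜ[F] c)) : LH F A) := by
  rw [← hb, ← hb]
  congr 1
  ext1
  · simp [br_apply]
  · simp [br_apply, TensorProduct.neg_tmul]

omit [CharZero F] in
private theorem pi_jac (anti : ∀ a, mul a a = 0) (hb : ∀ x y, π (br mul x y) = ⁅π x, π y⁆) (a b c : A) :
    π ((0, mul a b ⊗ₜ[F] c + mul b c ⊗ₜ[F] a + mul c a ⊗ₜ[F] b) : LH F A) = 0 := by
  have sk := skew_of_anti anti
  have h1 := pi_brbr hb a b c
  have h2 := pi_brbr hb b c a
  have h3 := pi_brbr hb c a b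
  have hj := lie_jacobi (π ((a, 0) : LH F A)) (π ((b, 0) : LH F A)) (π ((c, 0) : LH F A))
  have hj2 : ⁅⁅π ((a, 0) : LH F A), π ((b, 0) : LH F A)⁆, π ((c, 0) : LH F A)⁆ +
      ⁅⁅π ((b, 0) : LH F A), π ((c, 0) : LH F A)⁆, π ((a, 0) : LH F A)⁆ +
      ⁅⁅π ((c, 0) : LH F A), π ((a, 0) : LH F A)⁆, π ((b, 0) : LH F A)⁆ = 0 := by
    rw [← lie_skew ⁅π ((a, 0) : LH F A), π ((b, 0) : LH F A)⁆ (π ((c, 0) : LH F A)),
      ← lie_skew ⁅π ((b, 0) : LH F A), π ((c, 0) : LH F A)⁆ (π ((a, 0) : LH F A)),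
      ← lie_skew ⁅π ((c, 0) : LH F A), π ((a, 0) : LH F A)⁆ (π ((b, 0) : LH F A)),
      ← neg_add, ← neg_add, neg_eq_zero, ← hj]
    abel
  rw [h1, h2, h3, ← map_add, ← map_add] at hj2
  rw [← neg_eq_zero, ← map_neg, ← hj2]
  congr 1
  ext1
  · simp only [Prod.fst_add, Prod.fst_neg, neg_zero]
    rw [sk c (mul a b), sk a (mul b c), sk b (mul c a), sk c a, sk a b, sk b c]
    simp only [map_neg]
    abel
  · simp only [Prod.snd_add, Prod.snd_neg]
    abel

theorem Closed.base (h : Closed mul N Q) (anti : ∀ a, mul a a = 0) (hs : Function.Surjective π)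
    (hk : LinearMap.ker π = N) (hb : ∀ x y, π (br mul x y) = ⁅π x, π y⁆)
    (m : L →ₗ[F] L →ₗ[F] ((LH F A ⊗[F] LH F A) ⧸ Q)) (hm : ∀ x y, m (π x) (π y) = Q.mkQ (x ⊗ₜ y))
    (ad : L →ₗ[F] ((LH F A ⊗[F] LH F A) ⧸ Q) →ₗ[F] ((LH F A ⊗[F] LH F A) ⧸ Q))
    (had : ∀ v t, ad (π v) (Q.mkQ t) = Q.mkQ (adT mul v t)) : Base mul (rr π) m ad := by
  have sk := skew_of_anti anti
  have hdl := dl_eq (π := π) anti hb
  have hr : ∀ a, rr π a = π ((a, 0) : LH F A) := fun a => rfl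
  refine ⟨anti, ?_, ?_, ?_, ?_, ?_, ?_, ?_⟩
  · intro z a b
    rw [hdl, hdl, hdl, hdl, hr, ← hb]
    have s1 := pi_swap anti hb z (mul a b)
    have s2 := pi_jac anti hb a b z
    have e : br mul ((z, 0) : LH F A) (dh mul (a ⊗ₜ b)) - ((3/2 : F) • dh mul (mul a b ⊗ₜ z)
        - (1/2 : F) • dh mul (mul b z ⊗ₜ a) - (1/2 : F) • dh mul (mul z a ⊗ₜ b)) =
        (-2 : F) • (((0, z ⊗ₜ[F] mul a b) : LH F A) + ((0, mul a b ⊗ₜ[F] z) : LH F A)) +
        (1/2 : F) • ((0, mul a b ⊗ₜ[F] z + mul b z ⊗ₜ[F] a + mul z a ⊗ₜ[F] b) : LH F A) := by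
      ext1
      · simp only [br_apply, dh_tmul, Prod.fst_sub, Prod.fst_add, Prod.smul_fst, map_zero,
          LinearMap.zero_apply, Dr_tmul, map_smul]
        rw [sk (mul a b) z, sk (mul b z) a, sk z a, map_neg, sk (mul z a) b]
        module
      · simp only [br_apply, dh_tmul, Prod.snd_sub, Prod.snd_add, Prod.smul_snd, map_zero,
          LinearMap.zero_apply, TensorProduct.tmul_smul]
        module
    have e' := congrArg π e
    rw [map_add, map_smul, map_smul, map_add, s1, s2, smul_zero, smul_zero, add_zero, map_sub, map_sub,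
      map_sub, map_smul, map_smul, map_smul] at e'
    exact sub_eq_zero.1 e'
  · intro P hP1 hP2 v
    obtain ⟨⟨a, s⟩, rfl⟩ := hs v
    have h1 : ∀ s : A ⊗[F] A, π (dh mul s) ∈ P := by
      intro s
      induction s using TensorProduct.induction_on with
      | zero => simp
      | tmul a b => rw [← hdl]; exact hP2 a b
      | add x y hx hy => rw [map_add, map_add]; exact P.add_mem hx hy
    have e : ((a, s) : LH F A) = (a, 0) + (dh mul s + (2 : F) • ((TensorProduct.lift mul s, 0) : LH F A)) := by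
      ext1
      · simp [dh]
      · simp [dh]
    rw [e, map_add, map_add, map_smul]
    exact P.add_mem (hP1 a) (P.add_mem (h1 s) (P.smul_mem _ (hP1 _)))
  · intro x y
    obtain ⟨x, rfl⟩ := hs x
    obtain ⟨y, rfl⟩ := hs y
    rw [hm, hm, Submodule.mkQ_apply, Submodule.mkQ_apply, Submodule.Quotient.eq]
    exact h.symm x y
  · intro P hP q
    obtain ⟨t, rfl⟩ := Q.mkQ_surjective q
    induction t using TensorProduct.induction_on with
    | zero => simp
    | tmul x y => rw [← hm]; exact hP _ _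
    | add x y hx hy => rw [map_add]; exact P.add_mem hx hy
  · intro v x y
    obtain ⟨v, rfl⟩ := hs v
    obtain ⟨x, rfl⟩ := hs x
    obtain ⟨y, rfl⟩ := hs y
    rw [hm, had, adT_tmul, map_add, ← hm, ← hm, hb, hb]
  · intro a b
    rw [hdl, hr, hm, Submodule.mkQ_apply, Submodule.Quotient.mk_eq_zero]
    exact h.mal a b
  · intro ξ hξ
    obtain ⟨t, rfl⟩ := TensorProduct.map_surjective hs (TensorProduct.map_surjective hs hs) ξ
    have e1 : (TT m) ∘ₗ (TensorProduct.map π (TensorProduct.map π π)) =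
        (TensorProduct.map π Q.mkQ) ∘ₗ (Alt F A) := by
      apply TensorProduct.ext
      apply LinearMap.ext
      intro v
      apply LinearMap.ext
      intro w
      induction w using TensorProduct.induction_on with
      | zero => simp
      | tmul u x => simp [TT_apply, hm]
      | add x y hx hy => rw [map_add, map_add, hx, hy]
    have e2 : (th3 F L) ∘ₗ (TensorProduct.map π (TensorProduct.map π π)) = π ∘ₗ (th mul) := by
      apply TensorProduct.ext
      apply LinearMap.ext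
      intro v
      apply LinearMap.ext
      intro w
      induction w using TensorProduct.induction_on with
      | zero => simp
      | tmul u x =>
        show th3 F L (TensorProduct.map π (TensorProduct.map π π) (v ⊗ₜ (u ⊗ₜ x))) = π (th mul (v ⊗ₜ (u ⊗ₜ x)))
        rw [TensorProduct.map_tmul, TensorProduct.map_tmul, th3_apply, th_tmul, hb, hb]
      | add x y hx hy => rw [map_add, map_add, hx, hy]
    have e3 : TensorProduct.map π Q.mkQ (Alt F A t) = 0 := by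
      rw [← LinearMap.comp_apply, ← e1]; exact hξ
    have hkl : LinearMap.ker π ≤ LinearMap.ker N.mkQ := by rw [hk, Submodule.ker_mkQ]
    obtain ⟨g, hg⟩ : ∃ g : L →ₗ[F] (LH F A ⧸ N), g ∘ₗ π = N.mkQ := by
      obtain ⟨σ, hσ⟩ := π.exists_rightInverse_of_surjective (LinearMap.range_eq_top.2 hs)
      refine ⟨N.mkQ ∘ₗ σ, ?_⟩
      apply LinearMap.ext
      intro x
      have : x - σ (π x) ∈ LinearMap.ker π := by
        rw [LinearMap.mem_ker, map_sub, ← LinearMap.comp_apply π σ, hσ]; simp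
      have h2 := hkl this
      rw [LinearMap.mem_ker, map_sub, sub_eq_zero] at h2
      rw [h2]; rfl
    have e4 : TensorProduct.map N.mkQ Q.mkQ (Alt F A t) = 0 := by
      rw [← hg, ← LinearMap.id_comp Q.mkQ, TensorProduct.map_comp, LinearMap.comp_apply, e3, map_zero]
    have e5 := h.star t e4
    rw [← LinearMap.comp_apply (th3 F L), e2, LinearMap.comp_apply]
    exact pi_zero hk e5

end Pool.Agent.MP_754a42_al
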