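import Pool.Agent.Lib.MP_754a42_al.V4

/-!
# MP_754a42_al, row V4b: the projection to the exterior side (THIS ROW: `exists_projN`; `closed_C` is row V4).

`C := A ⧸ A2 mul`, `κ = mkQ` (here abstract: `κ : A → C` surjective with kernel `A2 mul`).
`qh : LH → C × Lm 2`, `qh (a,s) = (κ a, 2 • s̄)`, where `s̄ = TensorProduct.lift (pr ∘ κ ∘ κ) s`, i.e. `(a ⊗ b)‾ = pr (κ a) (κ b)`.
`ph : LH ⊗ LH → Lm 4 × Lm 3`, `ph (x ⊗ y) = (mulP 2 (qh x).2 (qh y).2, wd 2 (qh x).1 (qh y).2 + wd 2 (qh y).1 (qh x).2)`.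

`closed_C`: `(ker qh, ker ph)` is closed.
* `qh (br v x) = (0, 2 • pr (κ v.1) (κ x.1))`: the first component of `br v x` is in `A²`; `(D_s t)‾ = 0` because `D_s a ∈ A²`
  (induct on `s`, `t`).
* `symm`: `mulP 2 p p' = mulP 2 p' p` (`p, p' : Lm 2`; prove by `ext_pr`, `mulP_wd`, or take `mulP_swap` from row F7a: you may import
  `Pool.Agent.Lib.MP_754a42_al.F7a`), and symmetry of the second component.
* `mal`: `qh (a,0) = (κa, 0)`, `qh (dh (a⊗b)) = (κ(-2ab), 2 pr κa κb) = (0, 2 pr (κa) (κb))`; `ph = (0, wd κa (2 pr κa κb)) = 0` (`wd_self`).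
* `ad`: `ph (adT v t) = (2 wd 3 (κ v.1) (ph t).2, 0)`: on `t = x ⊗ y`, with `v1 = κ v.1` etc.: first component
  `(2 v1∧x1)∧y2 + x2∧(2 v1∧y1) = 2 v1∧(x1∧y2 + y1∧x2)` (`mulP_pr`, `mulP_swap`, `wd_skew`..); second: `y1∧(2 v1∧x1) + x1∧(2 v1∧y1) = 0`.
  So `ker ph` is stable.
* `left`: `qh n = 0`.  `self`: `(0, 2 pr κx κx) = 0`.  `ideal`: `κ n.1 = 0`.
* `star`: always `th ξ ∈ ker qh`: `qh (br (br v u) x) = (0, 2 pr (κ (br v u).1) (κ x.1)) = 0` (pure tensors, then linearity).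

`exists_projN`: `rad mul ≤ ker qh`, `radQ mul ≤ ker ph` (`sInf_le ⟨_, closed_C⟩`).  With `π` surjective, `ker π = rad mul`: `q` is the factorisation
of `qh` through `π` (`q (π x) = qh x`), `prN := (radQ mul).liftQ ph _`.  Then `q_r`, `q_dl` (by `dl_eq`), `pr_m`
(by surjectivity of `π`, `hm`).
-/

open scoped TensorProduct

namespace Pool.Agent.MP_754a42_al

universe u

variable {F A : Type u} [Field F] [CharZero F] [AddCommGroup A] [Module F A] {mul : A →ₗ[F] A →ₗ[F] A}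
  {C : Type u} [AddCommGroup C] [Module F C]

theorem exists_projN {L : Type u} [LieRing L] [LieAlgebra F L] {π : LH F A →ₗ[F] L}
    (anti : ∀ a, mul a a = 0) (κ : A →ₗ[F] C) (hsur : Function.Surjective κ)
    (hκ : ∀ a, κ a = 0 ↔ a ∈ A2 mul) (hs : Function.Surjective π) (hk : LinearMap.ker π = rad mul)
    (hb : ∀ x y, π (br mul x y) = ⁅π x, π y⁆)
    (m : L →ₗ[F] L →ₗ[F] ((LH F A ⊗[F] LH F A) ⧸ radQ mul))
    (hm : ∀ x y, m (π x) (π y) = (radQ mul).mkQ (x ⊗ₜ y)) :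
    ∃ q : L →ₗ[F] (C × Lm F C 2),
      ∃ prN : ((LH F A ⊗[F] LH F A) ⧸ radQ mul) →ₗ[F] (Lm F C 4 × Lm F C 3),
        ProjN mul (rr π) m κ q prN := by
  have hC := closed_C anti κ hκ
  have h1 : rad mul ≤ LinearMap.ker (qh κ) := sInf_le ⟨_, hC⟩
  have h2 : radQ mul ≤ LinearMap.ker (ph κ) := sInf_le ⟨_, hC⟩
  obtain ⟨σ, hσ⟩ := π.exists_rightInverse_of_surjective (LinearMap.range_eq_top.2 hs)
  have hπσ : ∀ u, π (σ u) = u := fun u => by
    have := LinearMap.congr_fun hσ u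
    simpa using this
  have hq : ∀ x, (qh κ) (σ (π x)) = qh κ x := by
    intro x
    have hmem : σ (π x) - x ∈ LinearMap.ker (qh κ) := by
      apply h1
      rw [← hk, LinearMap.mem_ker, map_sub, hπσ, sub_self]
    rw [LinearMap.mem_ker, map_sub] at hmem
    exact sub_eq_zero.1 hmem
  refine ⟨(qh κ).comp σ, (radQ mul).liftQ (ph κ) h2, ?_⟩
  refine ⟨hsur, hκ, ?_, ?_, ?_⟩
  · intro a
    have e : rr π a = π (a, 0) := rfl
    rw [e, LinearMap.comp_apply, hq]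
    simp [qh]
  · intro a b
    have h0 : κ (mul a b) = 0 := (hκ _).2 (Submodule.subset_span ⟨a, b, rfl⟩)
    rw [dl_eq anti hb, LinearMap.comp_apply, hq, dh_tmul]
    simp [qh, h0]
  · intro v u
    obtain ⟨x, rfl⟩ := hs v
    obtain ⟨y, rfl⟩ := hs u
    rw [hm, LinearMap.comp_apply, LinearMap.comp_apply, hq, hq, Submodule.mkQ_apply,
      Submodule.liftQ_apply]
    simp only [ph, TensorProduct.lift.tmul, LinearMap.mk₂_apply]

end Pool.Agent.MP_754a42_al
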