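import Pool.Agent.Lib.MP_754a42_al.V3
import Pool.Agent.Lib.MP_754a42_al.V1
import Pool.Agent.Lib.MP_754a42_al.S2

/-!
# MP_754a42_al, row V5: the projection to the polynomial side.

`D := span of the dl a b`.
* `Base.D_ideal`: `⁅v, d⁆ ∈ D` for `d ∈ D`: for `v = r z`: `V1`.  For `v = dl a b = ⁅ra,rb⁆ - r(ab)`:
  `⁅⁅ra,rb⁆,d⁆ = ⁅ra,⁅rb,d⁆⁆ - ⁅rb,⁅ra,d⁆⁆`.  `spanL` for general `v`.
* `exists_projS`: `γ : L → g` surjective with kernel `D`, `b` a basis of `g`.  `psh : LH ⊗ LH → Sy 2`, `psh (x ⊗ y) = sq b (γ π x) (γ π y)`.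
  Claim: `(rad mul, radQ mul ⊓ ker psh)` is closed.  `symm`: `sq` is symmetric.  `mal`: `γ π (dh (a⊗b)) = γ (dl a b) = 0` (`dl_eq`).
  `ad`: for `v`, `d_v : g → g` with `d_v (γ x) = γ ⁅π v, x⁆` (well defined by `D_ideal`); by `S2` (`B x y := sq (d_v x) y + sq x (d_v y)`,
  symmetric) there is `Φ : Sy 2 → Sy 2` with `Φ (sq x y) = sq (d_v x) y + sq x (d_v y)`; then `psh (adT v t) = Φ (psh t)` (pure tensors).
  `left`: `π n = 0`.  `self`, `ideal`: from `closed_rad`.  `star`: `map rad.mkQ (radQ ⊓ ker psh).mkQ (Alt ξ) = 0` implies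
  `map rad.mkQ radQ.mkQ (Alt ξ) = 0` (factor), so `θ ξ ∈ rad` by `closed_rad`.
  Hence `radQ ≤ radQ ⊓ ker psh` (`sInf_le`), so `psh` factors: `prS := (radQ mul).liftQ psh _`.  `pr_m`: `π` surjective.
-/

open scoped TensorProduct

namespace Pool.Agent.MP_754a42_al

universe u

variable {F A : Type u} [Field F] [CharZero F] [AddCommGroup A] [Module F A] {mul : A →ₗ[F] A →ₗ[F] A}

theorem Base.D_ideal {L : Type u} [LieRing L] [LieAlgebra F L] {M : Type u} [AddCommGroup M] [Module F M]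
    {r : A →ₗ[F] L} {m : L →ₗ[F] L →ₗ[F] M} {ad : L →ₗ[F] M →ₗ[F] M} (B : Base mul r m ad)
    (v d : L) (hd : d ∈ Submodule.span F {w | ∃ a b, dl mul r a b = w}) :
    ⁅v, d⁆ ∈ Submodule.span F {w | ∃ a b, dl mul r a b = w} := by
  have memD : ∀ a b, dl mul r a b ∈ Submodule.span F {w | ∃ a b, dl mul r a b = w} :=
    fun a b => Submodule.subset_span ⟨a, b, rfl⟩
  have h1 : ∀ z, ∀ d ∈ Submodule.span F {w | ∃ a b, dl mul r a b = w},
      ⁅r z, d⁆ ∈ Submodule.span F {w | ∃ a b, dl mul r a b = w} := by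
    intro z d hd
    induction hd using Submodule.span_induction with
    | mem x hx =>
      obtain ⟨a, b, rfl⟩ := hx
      rw [B.V1 z a b]
      exact Submodule.sub_mem _ (Submodule.sub_mem _ (Submodule.smul_mem _ _ (memD _ _))
        (Submodule.smul_mem _ _ (memD _ _))) (Submodule.smul_mem _ _ (memD _ _))
    | zero => rw [lie_zero]; exact Submodule.zero_mem _
    | add x y _ _ hx hy => rw [lie_add]; exact Submodule.add_mem _ hx hy
    | smul c x _ hx => rw [lie_smul]; exact Submodule.smul_mem _ _ hx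
  have h2 : ∀ a b, ∀ d ∈ Submodule.span F {w | ∃ a b, dl mul r a b = w},
      ⁅dl mul r a b, d⁆ ∈ Submodule.span F {w | ∃ a b, dl mul r a b = w} := by
    intro a b d hd
    rw [dl_apply, sub_lie, lie_lie]
    exact Submodule.sub_mem _ (Submodule.sub_mem _ (h1 _ _ (h1 _ _ hd)) (h1 _ _ (h1 _ _ hd)))
      (h1 _ _ hd)
  let P : Submodule F L :=
    { carrier := {v | ∀ d ∈ Submodule.span F {w | ∃ a b, dl mul r a b = w},
        ⁅v, d⁆ ∈ Submodule.span F {w | ∃ a b, dl mul r a b = w}}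
      add_mem' := fun {x y} hx hy d hd => by
        rw [add_lie]; exact Submodule.add_mem _ (hx d hd) (hy d hd)
      zero_mem' := fun d hd => by rw [zero_lie]; exact Submodule.zero_mem _
      smul_mem' := fun c x hx d hd => by
        rw [smul_lie]; exact Submodule.smul_mem _ _ (hx d hd) }
  exact B.spanL P (fun a d hd => h1 a d hd) (fun a b d hd => h2 a b d hd) v d hd

omit [CharZero F] in
private theorem V5_sq_symm {g : Type u} [AddCommGroup g] [Module F g] {ι : Type} [Fintype ι]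
    (b : Module.Basis ι F g) (x y : g) : sq b x y = sq b y x := by
  ext1
  rw [sq_val, sq_val, mul_comm]

/-- a derivation-like map on `g` extends to `Sy 2` -/
private theorem V5_ext {g : Type u} [AddCommGroup g] [Module F g] {ι : Type} [Fintype ι]
    (b : Module.Basis ι F g) (d : g →ₗ[F] g) :
    ∃ Φ : Sy F ι 2 →ₗ[F] Sy F ι 2, ∀ x y, Φ (sq b x y) = sq b (d x) y + sq b x (d y) := by
  obtain ⟨Φ, hΦ⟩ := S2 b ((sq b).compl₁₂ d LinearMap.id + (sq b).compl₁₂ LinearMap.id d)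
    (fun x y => by
      simp only [LinearMap.add_apply, LinearMap.compl₁₂_apply, LinearMap.id_apply]
      rw [V5_sq_symm b (d x) y, V5_sq_symm b x (d y), add_comm])
  exact ⟨Φ, fun x y => by
    rw [hΦ x y]
    simp only [LinearMap.add_apply, LinearMap.compl₁₂_apply, LinearMap.id_apply]⟩

theorem exists_projS {L : Type u} [LieRing L] [LieAlgebra F L] {π : LH F A →ₗ[F] L}
    (anti : ∀ a, mul a a = 0) (hs : Function.Surjective π) (hk : LinearMap.ker π = rad mul)
    (hb : ∀ x y, π (br mul x y) = ⁅π x, π y⁆)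
    (m : L →ₗ[F] L →ₗ[F] ((LH F A ⊗[F] LH F A) ⧸ radQ mul))
    (hm : ∀ x y, m (π x) (π y) = (radQ mul).mkQ (x ⊗ₜ y))
    (ad : L →ₗ[F] ((LH F A ⊗[F] LH F A) ⧸ radQ mul) →ₗ[F] ((LH F A ⊗[F] LH F A) ⧸ radQ mul))
    (B : Base mul (rr π) m ad)
    {g : Type u} [AddCommGroup g] [Module F g] {γ : L →ₗ[F] g} {ι : Type} [Fintype ι]
    (b : Module.Basis ι F g) (hγ : Function.Surjective γ)
    (hker : ∀ v, γ v = 0 ↔ v ∈ Submodule.span F {w | ∃ a b, dl mul (rr π) a b = w}) :
    ∃ prS : ((LH F A ⊗[F] LH F A) ⧸ radQ mul) →ₗ[F] Sy F ι 2,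
      ProjS mul (rr π) m γ b prS := by
  let psh : (LH F A ⊗[F] LH F A) →ₗ[F] Sy F ι 2 :=
    TensorProduct.lift ((sq b).compl₁₂ (γ ∘ₗ π) (γ ∘ₗ π))
  have hpsh : ∀ x y, psh (x ⊗ₜ y) = sq b (γ (π x)) (γ (π y)) := fun x y => by
    simp only [psh, TensorProduct.lift.tmul, LinearMap.compl₁₂_apply, LinearMap.comp_apply]
  have hrad : Closed mul (rad mul) (radQ mul) := closed_rad mul
  -- a linear section of `γ`
  obtain ⟨s, hs'⟩ := LinearMap.exists_rightInverse_of_surjective γ (LinearMap.range_eq_top.2 hγ)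
  have hs2 : ∀ x, γ (s x) = x := fun x => by
    have := LinearMap.congr_fun hs' x
    simpa only [LinearMap.comp_apply, LinearMap.id_apply] using this
  have hcl : Closed mul (rad mul) (radQ mul ⊓ LinearMap.ker psh) := by
    refine ⟨?_, ?_, ?_, ?_, hrad.self, hrad.ideal, ?_⟩
    · intro x y
      refine Submodule.mem_inf.2 ⟨hrad.symm x y, LinearMap.mem_ker.2 ?_⟩
      rw [map_sub, hpsh, hpsh, V5_sq_symm, sub_self]
    · intro a c
      refine Submodule.mem_inf.2 ⟨hrad.mal a c, LinearMap.mem_ker.2 ?_⟩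
      rw [hpsh, ← dl_eq anti hb a c,
        (hker (dl mul (rr π) a c)).2 (Submodule.subset_span ⟨a, c, rfl⟩), map_zero]
    · intro v q hq
      obtain ⟨hq1, hq2⟩ := Submodule.mem_inf.1 hq
      refine Submodule.mem_inf.2 ⟨hrad.ad v q hq1, LinearMap.mem_ker.2 ?_⟩
      -- the derivation induced by `ad (π v)`
      let adv : L →ₗ[F] L := LieAlgebra.ad F L (π v)
      let d : g →ₗ[F] g := γ ∘ₗ adv ∘ₗ s
      have hd : ∀ x, d (γ x) = γ ⁅π v, x⁆ := by
        intro x
        show γ ⁅π v, s (γ x)⁆ = γ ⁅π v, x⁆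
        have h1 : s (γ x) - x ∈ Submodule.span F {w | ∃ a b, dl mul (rr π) a b = w} := by
          rw [← hker, map_sub, hs2, sub_self]
        have h2 := (hker _).2 (B.D_ideal (π v) _ h1)
        rwa [lie_sub, map_sub, sub_eq_zero] at h2
      obtain ⟨Φ, hΦ⟩ := V5_ext b d
      have key : psh ∘ₗ adT mul v = Φ ∘ₗ psh := by
        refine TensorProduct.ext' (fun x y => ?_)
        rw [LinearMap.comp_apply, LinearMap.comp_apply, adT_tmul, map_add, hpsh, hpsh, hpsh, hΦ,
          hb, hb, hd, hd]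
      have := LinearMap.congr_fun key q
      rw [LinearMap.comp_apply, LinearMap.comp_apply, LinearMap.mem_ker.1 hq2, map_zero] at this
      exact this
    · intro n hn x
      refine Submodule.mem_inf.2 ⟨hrad.left n hn x, LinearMap.mem_ker.2 ?_⟩
      have hn' : π n = 0 := by
        rw [← hk] at hn
        exact LinearMap.mem_ker.1 hn
      rw [hpsh, hn', map_zero, map_zero, LinearMap.zero_apply]
    · intro ξ hξ
      refine hrad.star ξ ?_
      change TensorProduct.map (rad mul).mkQ (radQ mul).mkQ (Alt F A ξ) = 0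
      have hξ' : TensorProduct.map (rad mul).mkQ (radQ mul ⊓ LinearMap.ker psh).mkQ (Alt F A ξ) = 0 := hξ
      have hle : radQ mul ⊓ LinearMap.ker psh ≤ radQ mul := inf_le_left
      have h1 : TensorProduct.map (rad mul).mkQ (radQ mul).mkQ
          = (TensorProduct.map LinearMap.id (Submodule.factor hle)) ∘ₗ
            (TensorProduct.map (rad mul).mkQ (radQ mul ⊓ LinearMap.ker psh).mkQ) := by
        rw [← TensorProduct.map_comp, LinearMap.id_comp, Submodule.factor_comp_mk]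
      rw [h1, LinearMap.comp_apply, hξ', map_zero]
  have hmem : (radQ mul ⊓ LinearMap.ker psh) ∈ {Q | ∃ N, Closed mul N Q} := ⟨rad mul, hcl⟩
  have hle0 : radQ mul ≤ radQ mul ⊓ LinearMap.ker psh := sInf_le hmem
  have hle : radQ mul ≤ LinearMap.ker psh := hle0.trans inf_le_right
  refine ⟨(radQ mul).liftQ psh hle, hγ, hker, ?_⟩
  intro v u
  obtain ⟨x, rfl⟩ := hs v
  obtain ⟨y, rfl⟩ := hs u
  rw [hm, Submodule.mkQ_apply, Submodule.liftQ_apply, hpsh]

end Pool.Agent.MP_754a42_al
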