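import Pool.Agent.Lib.MP_754a42_al.A1

/-!
# MP_754a42_al, row V6: a representation gives a closed pair (necessity).

`phi : LH → End V`, `phi (a, c⊗d) = ρ_a + (ρ_c ρ_d - ρ_d ρ_c + ρ_{cd})`.
* `phi_br`: `phi (br x y) = phi x * phi y - phi y * phi x`.  By bilinearity four cases (induction on tensors):
  - `x = (a,0), y = (b,0)`: `br = (-ab, a⊗b)`: `-ρ_{ab} + ρ_aρ_b - ρ_bρ_a + ρ_{ab}` ✓.
  - `x = (0,s), y = (c,0)`: `ρ_{D_s c} = [D^ρ_s, ρ_c]`: for `s = a⊗b` this is `IsRep.der`.  `x = (a,0), y = (0,t)`: minus that.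
  - `x = (0,s), y = (0,c⊗d)`: `D^ρ(D_s c ⊗ d + c ⊗ D_s d) = [ρ_{D_s c},ρ_d] + ρ_{(D_s c) d} + [ρ_c,ρ_{D_s d}] + ρ_{c (D_s d)}` and
    `D_s(cd) = (D_s c) d + c (D_s d)` (`IsMalcev.der`), so it is `[D^ρ_s, [ρ_c,ρ_d] + ρ_{cd}]`.
* `psi : LH ⊗ LH → End V`, `psi (x ⊗ y) = phi x * phi y + phi y * phi x`.
* `closed_rep`: `(ker phi, ker psi)` is closed: `symm` clear; `mal`: `phi (dh (a⊗b)) = -2ρ_{ab} + ρ_aρ_b - ρ_bρ_a + ρ_{ab} = d(a,b)` and `IsRep.rel1`;
  `ad`: `psi (adT v t) = phi v * psi t - psi t * phi v`; `left`, `self`, `ideal`: clear from `phi_br`;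
  `star`: the map `W : LH ⊗ (LH ⊗ LH) → End V`, `W (v⊗t) = phi v * psi t + psi t * phi v` factors through `map (ker phi).mkQ (ker psi).mkQ`
  (both factors: `phi` through `(ker phi).mkQ`, `psi` through `(ker psi).mkQ`), and
  `W (Alt (v⊗(u⊗x))) = {v,{u,x}} - {u,{v,x}} = [[v,u],x]` (in an associative ring; `{,}` anticommutator), `= phi (th (v⊗(u⊗x)))`.
  So `map .. (Alt ξ) = 0` gives `phi (th ξ) = 0`.
* `faithful_imp`: `(a,0) ∈ rad mul ≤ ker phi` gives `ρ a = 0`.
`V` may live in any universe.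
-/

open scoped TensorProduct

namespace Pool.Agent.MP_754a42_al

universe u w

variable {F A : Type u} [Field F] [CharZero F] [AddCommGroup A] [Module F A] {mul : A →ₗ[F] A →ₗ[F] A}
  {V : Type w} [AddCommGroup V] [Module F V] {ρ : A →ₗ[F] Module.End F V}

/-- `phi (a, c⊗d) = ρ_a + (ρ_c ρ_d - ρ_d ρ_c + ρ_{cd})` -/
noncomputable def phi (mul : A →ₗ[F] A →ₗ[F] A) (ρ : A →ₗ[F] Module.End F V) :
    LH F A →ₗ[F] Module.End F V :=
  LinearMap.coprod ρ (TensorProduct.lift (LinearMap.mk₂ F
    (fun c d => ρ c * ρ d - ρ d * ρ c + ρ (mul c d))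
    (fun x y z => by simp [add_mul, mul_add]; abel) (fun c x y => by simp [smul_sub])
    (fun x y z => by simp [add_mul, mul_add]; abel) (fun c x y => by simp [smul_sub])))

omit [CharZero F] in
private theorem phi_inl (a : A) : phi mul ρ (a, 0) = ρ a := by
  simp [phi]

omit [CharZero F] in
private theorem phi_inr_tmul (c d : A) :
    phi mul ρ (0, c ⊗ₜ d) = ρ c * ρ d - ρ d * ρ c + ρ (mul c d) := by
  simp [phi]

omit [CharZero F] in
private theorem phi_split (x : LH F A) : phi mul ρ x = ρ x.1 + phi mul ρ (0, x.2) := by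
  simp [phi]

omit [CharZero F] in
private theorem phi_inr_add (s t : A ⊗[F] A) :
    phi mul ρ (0, s + t) = phi mul ρ (0, s) + phi mul ρ (0, t) := by
  simp [phi]

omit [CharZero F] in
private theorem phi_inr_zero : phi mul ρ (0, 0) = 0 := by
  simp [phi]

/-- `ρ (D_s c) = [R s, ρ c]`. -/
private theorem rho_Dr (h : IsRep mul ρ) (s : A ⊗[F] A) (c : A) :
    ρ (Dr mul s c) = phi mul ρ (0, s) * ρ c - ρ c * phi mul ρ (0, s) := by
  induction s using TensorProduct.induction_on with
  | zero => simp [phi_inr_zero]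
  | add s t hs ht =>
      rw [phi_inr_add, map_add, LinearMap.add_apply, map_add, hs, ht, add_mul, mul_add]
      abel
  | tmul a b =>
      rw [phi_inr_tmul, Dr_tmul]
      apply LinearMap.ext
      intro v
      have h1 := h.der a b c v
      simp only [LinearMap.sub_apply, LinearMap.add_apply, Module.End.mul_apply] at h1 ⊢
      rw [eq_comm, sub_eq_iff_eq_add, h1]

/-- `D_s` is a derivation of `mul`. -/
private theorem Dr_der (hA : IsMalcev mul) (s : A ⊗[F] A) (c d : A) :
    Dr mul s (mul c d) = mul (Dr mul s c) d + mul c (Dr mul s d) := by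
  induction s using TensorProduct.induction_on with
  | zero => simp
  | add s t hs ht =>
      simp only [map_add, LinearMap.add_apply, hs, ht]
      abel
  | tmul a b =>
      simp only [Dr_tmul]
      exact hA.der a b c d

private theorem phi_DrT (hA : IsMalcev mul) (h : IsRep mul ρ) (s t : A ⊗[F] A) :
    phi mul ρ (0, DrT mul s t) =
      phi mul ρ (0, s) * phi mul ρ (0, t) - phi mul ρ (0, t) * phi mul ρ (0, s) := by
  induction t using TensorProduct.induction_on with
  | zero => simp [phi_inr_zero]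
  | add t u ht hu =>
      rw [map_add, phi_inr_add, phi_inr_add, ht, hu, add_mul, mul_add]
      abel
  | tmul c d =>
      rw [DrT_tmul, phi_inr_add, phi_inr_tmul, phi_inr_tmul, phi_inr_tmul, rho_Dr h, rho_Dr h]
      have h2 := congrArg ρ (Dr_der hA s c d)
      rw [rho_Dr h, map_add] at h2
      have h3 : ρ (mul (Dr mul s c) d) = phi mul ρ (0, s) * ρ (mul c d)
          - ρ (mul c d) * phi mul ρ (0, s) - ρ (mul c (Dr mul s d)) := by
        rw [h2]; abel
      rw [h3]
      simp only [mul_sub, sub_mul, mul_add, add_mul, mul_assoc]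
      abel

theorem phi_br (hA : IsMalcev mul) (h : IsRep mul ρ) (x y : LH F A) :
    phi mul ρ (br mul x y) = phi mul ρ x * phi mul ρ y - phi mul ρ y * phi mul ρ x := by
  rw [phi_split (br mul x y), phi_split x, phi_split y]
  simp only [br_apply]
  rw [phi_inr_add, phi_inr_tmul, phi_DrT hA h, map_sub, map_add, map_neg, rho_Dr h, rho_Dr h]
  simp only [mul_add, add_mul]
  abel

/-- `psi (x ⊗ y) = phi x * phi y + phi y * phi x` -/
noncomputable def psi (mul : A →ₗ[F] A →ₗ[F] A) (ρ : A →ₗ[F] Module.End F V) :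
    LH F A ⊗[F] LH F A →ₗ[F] Module.End F V :=
  TensorProduct.lift (LinearMap.mk₂ F
    (fun x y => phi mul ρ x * phi mul ρ y + phi mul ρ y * phi mul ρ x)
    (fun x y z => by simp [add_mul, mul_add]; abel) (fun c x y => by simp [smul_add])
    (fun x y z => by simp [add_mul, mul_add]; abel) (fun c x y => by simp [smul_add]))

omit [CharZero F] in
private theorem psi_tmul (x y : LH F A) :
    psi mul ρ (x ⊗ₜ y) = phi mul ρ x * phi mul ρ y + phi mul ρ y * phi mul ρ x := by
  simp [psi]

omit [CharZero F] in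
private theorem phi_dh (a b : A) :
    phi mul ρ (dh mul (a ⊗ₜ b)) = ρ a * ρ b - ρ b * ρ a - ρ (mul a b) := by
  rw [dh_tmul, phi_split]
  simp only
  rw [phi_inr_tmul, map_smul, neg_smul, two_smul]
  abel

private theorem psi_adT (hA : IsMalcev mul) (h : IsRep mul ρ) (v : LH F A)
    (q : LH F A ⊗[F] LH F A) :
    psi mul ρ (adT mul v q) = phi mul ρ v * psi mul ρ q - psi mul ρ q * phi mul ρ v := by
  induction q using TensorProduct.induction_on with
  | zero => simp
  | add s t hs ht =>
      rw [map_add, map_add, map_add, hs, ht, mul_add, add_mul]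
      abel
  | tmul x y =>
      rw [adT_tmul, map_add, psi_tmul, psi_tmul, psi_tmul, phi_br hA h, phi_br hA h]
      simp only [mul_sub, sub_mul, mul_add, add_mul, mul_assoc]
      abel

/-- the anticommutator form on the quotients -/
private noncomputable def Wq (mul : A →ₗ[F] A →ₗ[F] A) (ρ : A →ₗ[F] Module.End F V) :
    (LH F A ⧸ LinearMap.ker (phi mul ρ)) ⊗[F]
      ((LH F A ⊗[F] LH F A) ⧸ LinearMap.ker (psi mul ρ)) →ₗ[F] Module.End F V :=
  TensorProduct.lift (LinearMap.mk₂ F
    (fun v t => (LinearMap.ker (phi mul ρ)).liftQ (phi mul ρ) le_rfl v *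
        (LinearMap.ker (psi mul ρ)).liftQ (psi mul ρ) le_rfl t
      + (LinearMap.ker (psi mul ρ)).liftQ (psi mul ρ) le_rfl t *
        (LinearMap.ker (phi mul ρ)).liftQ (phi mul ρ) le_rfl v)
    (fun x y z => by rw [map_add, add_mul, mul_add]; abel)
    (fun c x y => by rw [map_smul, smul_mul_assoc, mul_smul_comm, smul_add])
    (fun x y z => by rw [map_add, add_mul, mul_add]; abel)
    (fun c x y => by rw [map_smul, smul_mul_assoc, mul_smul_comm, smul_add]))

omit [CharZero F] in
private theorem Wq_mk (v : LH F A) (t : LH F A ⊗[F] LH F A) :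
    Wq mul ρ ((LinearMap.ker (phi mul ρ)).mkQ v ⊗ₜ (LinearMap.ker (psi mul ρ)).mkQ t)
      = phi mul ρ v * psi mul ρ t + psi mul ρ t * phi mul ρ v := by
  simp only [Wq, TensorProduct.lift.tmul, LinearMap.mk₂_apply, Submodule.mkQ_apply,
    Submodule.liftQ_apply]

private theorem Wq_Alt (hA : IsMalcev mul) (h : IsRep mul ρ)
    (ξ : LH F A ⊗[F] (LH F A ⊗[F] LH F A)) :
    Wq mul ρ (TensorProduct.map (LinearMap.ker (phi mul ρ)).mkQ (LinearMap.ker (psi mul ρ)).mkQ
      (Alt F A ξ)) = phi mul ρ (th mul ξ) := by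
  induction ξ using TensorProduct.induction_on with
  | zero => simp only [map_zero]
  | add s t hs ht => rw [map_add, map_add, map_add, hs, ht, map_add, map_add]
  | tmul v w =>
      induction w using TensorProduct.induction_on with
      | zero => simp only [TensorProduct.tmul_zero, map_zero]
      | add s t hs ht =>
          rw [TensorProduct.tmul_add, map_add, map_add, map_add, hs, ht, map_add, map_add]
      | tmul u x =>
          rw [Alt_tmul, map_sub, TensorProduct.map_tmul, TensorProduct.map_tmul, map_sub,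
            Wq_mk, Wq_mk, psi_tmul, psi_tmul, th_tmul, phi_br hA h, phi_br hA h]
          simp only [mul_sub, sub_mul, mul_add, add_mul, mul_assoc]
          abel

theorem closed_rep (hA : IsMalcev mul) (h : IsRep mul ρ) :
    Closed mul (LinearMap.ker (phi mul ρ)) (LinearMap.ker (psi mul ρ)) where
  symm x y := by
    rw [LinearMap.mem_ker, map_sub, psi_tmul, psi_tmul]
    abel
  mal a b := by
    rw [LinearMap.mem_ker, psi_tmul, phi_dh, phi_inl]
    apply LinearMap.ext
    intro w
    have h1 := h.rel1 a b w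
    simpa only [LinearMap.add_apply, LinearMap.sub_apply, Module.End.mul_apply,
      LinearMap.zero_apply] using h1
  ad v q hq := by
    rw [LinearMap.mem_ker] at hq ⊢
    rw [psi_adT hA h, hq, mul_zero, zero_mul, sub_zero]
  left n hn x := by
    rw [LinearMap.mem_ker] at hn ⊢
    rw [psi_tmul, hn, mul_zero, zero_mul, add_zero]
  self x := by
    rw [LinearMap.mem_ker, phi_br hA h, sub_self]
  ideal x n hn := by
    rw [LinearMap.mem_ker] at hn ⊢
    rw [phi_br hA h, hn, mul_zero, zero_mul, sub_zero]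
  star ξ hξ := by
    rw [LinearMap.mem_ker, ← Wq_Alt hA h, hξ, map_zero]

theorem faithful_imp (hA : IsMalcev mul) (h : IsRep mul ρ) (hi : Function.Injective ρ) (a : A)
    (ha : ((a, 0) : LH F A) ∈ rad mul) : a = 0 := by
  have h1 : ((a, 0) : LH F A) ∈ LinearMap.ker (phi mul ρ) :=
    (Submodule.mem_sInf.1 ha) _ ⟨_, closed_rep hA h⟩
  rw [LinearMap.mem_ker, phi_inl] at h1
  exact hi (by rw [h1, map_zero])

end Pool.Agent.MP_754a42_al
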