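import Pool.Agent.Lib.MP_754a42_al.H1
import Pool.Agent.Lib.MP_754a42_al.H2
import Pool.Agent.Lib.MP_754a42_al.H3
import Pool.Agent.Lib.MP_754a42_al.H4
import Pool.Agent.Lib.MP_754a42_al.R2
import Pool.Agent.Lib.MP_754a42_al.V1
import Pool.Agent.Lib.MP_754a42_al.V2
import Pool.Agent.Lib.MP_754a42_al.V3b
import Pool.Agent.Lib.MP_754a42_al.V4b
import Pool.Agent.Lib.MP_754a42_al.V5
import Pool.Agent.Lib.MP_754a42_al.V6

/-!
# MP_754a42_al: the common kernel of all representations of a Malcev algebra.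

`KA mul = {a | (a,0) ∈ rad mul}` is killed by every representation, and some representation has exactly this
kernel.  It is contained in the centre.
-/

open scoped TensorProduct

namespace Pool.Agent.MP_754a42_al

universe u w

variable {F A : Type u} [Field F] [CharZero F] [AddCommGroup A] [Module F A]
  {mul : A →ₗ[F] A →ₗ[F] A}

/-- The subspace of all `a` such that `(a,0)` is in the first component of the smallest closed pair. -/
noncomputable def KA (mul : A →ₗ[F] A →ₗ[F] A) : Submodule F A :=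
  (rad mul).comap (LinearMap.inl F A (A ⊗[F] A))

omit [CharZero F] in
theorem mem_KA {a : A} : a ∈ KA mul ↔ ((a, 0) : LH F A) ∈ rad mul := Iff.rfl

/-- Every representation kills `KA mul`. -/
theorem rep_kills (hA : IsMalcev mul) {V : Type w} [AddCommGroup V] [Module F V]
    {ρ : A →ₗ[F] Module.End F V} (h : IsRep mul ρ) {a : A} (ha : a ∈ KA mul) : ρ a = 0 := by
  have h1 : ((a, 0) : LH F A) ∈ LinearMap.ker (phi mul ρ) :=
    (Submodule.mem_sInf.1 (mem_KA.1 ha)) _ ⟨_, closed_rep hA h⟩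
  have h2 : phi mul ρ (a, 0) = ρ a := by simp [phi]
  rw [LinearMap.mem_ker, h2] at h1
  exact h1

omit [CharZero F] in
/-- The adjoint representation. -/
theorem isRep_adjoint (hA : IsMalcev mul) : IsRep mul (V := A) mul := by
  have key : ∀ p q : A × A, nullExt mul (V := A) mul p q = (mul p.1 q.1, mul p.1 q.2 + mul p.2 q.1) := by
    intro p q
    rw [nullExt_apply, hA.skew q.1 p.2, sub_neg_eq_add]
  constructor
  · intro x
    rw [key, hA.self, hA.skew x.2 x.1, add_neg_cancel]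
    rfl
  · intro x y z
    have e1 := hA.malcev (x.1 + x.2) y.1 z.1
    have e2 := hA.malcev x.1 y.1 z.1
    have e3 := hA.malcev x.2 y.1 z.1
    have e4 := hA.malcev x.1 y.2 z.1
    have e5 := hA.malcev x.1 y.1 z.2
    simp only [key]
    refine Prod.ext ?_ ?_
    · simpa using e2
    · simp only [map_add, LinearMap.add_apply, Prod.snd_add] at e1 ⊢
      have e6 := congrArg₂ (· - ·) e1 (congrArg₂ (· + ·) e2 e3)
      have e7 := congrArg₂ (· + ·) e6 (congrArg₂ (· + ·) e4 e5)
      refine Eq.trans ?_ (e7.trans ?_)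
      · abel
      · abel

/-- `KA mul` is contained in the centre. -/
theorem KA_central (hA : IsMalcev mul) {a : A} (ha : a ∈ KA mul) (b : A) : mul a b = 0 := by
  rw [rep_kills hA (isRep_adjoint hA) ha, LinearMap.zero_apply]

/-- Some representation has kernel `KA mul`. -/
theorem exists_kernel [FiniteDimensional F A] (hA : IsMalcev mul) :
    ∃ (V : Type u) (_ : AddCommGroup V) (_ : Module F V) (ρ : A →ₗ[F] Module.End F V),
      IsRep mul ρ ∧ LinearMap.ker ρ = KA mul := by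
  obtain ⟨L, iL, jL, π, hs, hk, hb⟩ := (closed_rad mul).exists_lie
  obtain ⟨m, hm⟩ := (closed_rad mul).exists_m hs hk
  obtain ⟨ad, had⟩ := (closed_rad mul).exists_ad hs hk
  have B : Base mul (rr π) m ad := (closed_rad mul).base hA.self hs hk hb m hm ad had
  -- the exterior side
  let C := A ⧸ A2 mul
  let κ : A →ₗ[F] C := (A2 mul).mkQ
  have hκ : ∀ a, κ a = 0 ↔ a ∈ A2 mul := fun a => Submodule.Quotient.mk_eq_zero _
  obtain ⟨q, prN, PN⟩ := exists_projN hA.self κ (Submodule.mkQ_surjective _) hκ hs hk hb m hm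
  -- the polynomial side
  let D : Submodule F L := Submodule.span F {w | ∃ a b, dl mul (rr π) a b = w}
  let g := L ⧸ D
  let γ : L →ₗ[F] g := D.mkQ
  have hγ : ∀ v, γ v = 0 ↔ v ∈ D := fun v => Submodule.Quotient.mk_eq_zero _
  have : FiniteDimensional F L := Module.Finite.of_surjective π hs
  obtain ⟨prS, PS⟩ := exists_projS hA.self hs hk hb m hm ad B (Module.finBasis F g)
    (Submodule.mkQ_surjective _) hγ
  -- the recursion
  have hc := pp_comm B PN PS
  obtain ⟨R, hR, hR0, hR1⟩ := B.start (fun v u x => hc 1 v u x)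
  obtain ⟨S, hS, hS2⟩ := rec_limit _ hc (pp_X2 B PN PS) R hR
  have hSe : ∀ v, S v (DFinsupp.single 0 (1 : F)) = DFinsupp.single 1 v := fun v => by
    rw [hS2 v 0 (1 : F) (by norm_num)]; exact hR0 v
  have hS1 : ∀ v (x : L), S v (DFinsupp.single 1 x) = DFinsupp.single 2 (m v x)
        + (1/2 : F) • (DFinsupp.single 1 (⁅v, x⁆ : L) : Π₀ k, GG F L _ _ C k) := fun v x => by
    rw [hS2 v 1 x (by norm_num)]; exact hR1 v x
  have h0 : ∀ a b : L, S a (S b (DFinsupp.single 0 (1 : F))) + S b (S a (DFinsupp.single 0 (1 : F)))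
      = ((2 : F) • (DFinsupp.lsingle 2 : GG F L ((LH F A ⊗[F] LH F A) ⧸ radQ mul) (Fin (Module.finrank F g)) C 2 →ₗ[F] Π₀ k, GG F L ((LH F A ⊗[F] LH F A) ⧸ radQ mul) (Fin (Module.finrank F g)) C k)) (m a b) := by
    intro a b
    have e2 : ((2 : F) • (DFinsupp.lsingle 2 : GG F L ((LH F A ⊗[F] LH F A) ⧸ radQ mul) (Fin (Module.finrank F g)) C 2 →ₗ[F] Π₀ k, GG F L ((LH F A ⊗[F] LH F A) ⧸ radQ mul) (Fin (Module.finrank F g)) C k)) (m a b)
      = (2 : F) • (DFinsupp.single 2 (m a b) : Π₀ k, GG F L ((LH F A ⊗[F] LH F A) ⧸ radQ mul) (Fin (Module.finrank F g)) C k) := rfl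
    refine Eq.trans ?_ e2.symm
    rw [hSe, hSe, hS1, hS1, B.comm b a, ← lie_skew a b]
    have e : (DFinsupp.single 1 (-⁅b, a⁆ : L) : Π₀ k, GG F L ((LH F A ⊗[F] LH F A) ⧸ radQ mul) (Fin (Module.finrank F g)) C k)
      = - DFinsupp.single 1 (⁅b, a⁆ : L) := DFinsupp.single_neg _ _
    rw [e, two_smul]
    generalize (DFinsupp.single 2 (m a b) : Π₀ k, GG F L ((LH F A ⊗[F] LH F A) ⧸ radQ mul) (Fin (Module.finrank F g)) C k) = X
    generalize (DFinsupp.single 1 (⁅b, a⁆ : L) : Π₀ k, GG F L ((LH F A ⊗[F] LH F A) ⧸ radQ mul) (Fin (Module.finrank F g)) C k) = Y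
    rw [smul_neg]
    abel
  obtain ⟨V, iV, jV, ρ, hρ, hρ0⟩ := B.final hA S hS (DFinsupp.single 0 (1 : F))
    ((2 : F) • (DFinsupp.lsingle 2 : GG F L ((LH F A ⊗[F] LH F A) ⧸ radQ mul) (Fin (Module.finrank F g)) C 2 →ₗ[F] _)) h0 (fun v hv => by
      rw [hSe] at hv
      have := DFinsupp.single_injective (i := 1) (hv.trans (DFinsupp.single_zero 1).symm)
      exact this)
  refine ⟨V, iV, jV, ρ, hρ, le_antisymm ?_ fun a ha => rep_kills hA hρ ha⟩
  intro a ha
  have h1 := hρ0 a ha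
  have h2 : π (a, 0) = 0 := h1
  rw [mem_KA, ← hk]
  exact h2

end Pool.Agent.MP_754a42_al
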