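import Pool.Agent.Lib.MP_754a42_al.H1
import Pool.Agent.Lib.MP_754a42_al.H2
import Pool.Agent.Lib.MP_754a42_al.H3
import Pool.Agent.Lib.MP_754a42_al.H4
import Pool.Agent.Lib.MP_754a42_al.R2
import Pool.Agent.Lib.MP_754a42_al.V1
import Pool.Agent.Lib.MP_754a42_al.V2
import Pool.Agent.Lib.MP_754a42_al.V3b
import Pool.Agent.Lib.MP_754a42_al.V4b
import Pool.Agent.Lib.MP_754a42_al.V5
import Pool.Agent.Lib.MP_754a42_al.V6

/-!
# MP_754a42_al: assembly of the sufficiency part.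
-/

open scoped TensorProduct

namespace Pool.Agent.MP_754a42_al

universe u

variable {F A : Type u} [Field F] [CharZero F] [AddCommGroup A] [Module F A]
  {mul : A →ₗ[F] A →ₗ[F] A}

theorem exists_faithful [FiniteDimensional F A] (hA : IsMalcev mul)
    (hr : ∀ a : A, ((a, 0) : LH F A) ∈ rad mul → a = 0) :
    ∃ (V : Type u) (_ : AddCommGroup V) (_ : Module F V) (ρ : A →ₗ[F] Module.End F V),
      IsRep mul ρ ∧ Function.Injective ρ := by
  obtain ⟨L, iL, jL, π, hs, hk, hb⟩ := (closed_rad mul).exists_lie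
  obtain ⟨m, hm⟩ := (closed_rad mul).exists_m hs hk
  obtain ⟨ad, had⟩ := (closed_rad mul).exists_ad hs hk
  have B : Base mul (rr π) m ad := (closed_rad mul).base hA.self hs hk hb m hm ad had
  -- the exterior side
  let C := A ⧸ A2 mul
  let κ : A →ₗ[F] C := (A2 mul).mkQ
  have hκ : ∀ a, κ a = 0 ↔ a ∈ A2 mul := fun a => Submodule.Quotient.mk_eq_zero _
  obtain ⟨q, prN, PN⟩ := exists_projN hA.self κ (Submodule.mkQ_surjective _) hκ hs hk hb m hm
  -- the polynomial side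
  let D : Submodule F L := Submodule.span F {w | ∃ a b, dl mul (rr π) a b = w}
  let g := L ⧸ D
  let γ : L →ₗ[F] g := D.mkQ
  have hγ : ∀ v, γ v = 0 ↔ v ∈ D := fun v => Submodule.Quotient.mk_eq_zero _
  have : FiniteDimensional F L := Module.Finite.of_surjective π hs
  obtain ⟨prS, PS⟩ := exists_projS hA.self hs hk hb m hm ad B (Module.finBasis F g)
    (Submodule.mkQ_surjective _) hγ
  -- the recursion
  have hc := pp_comm B PN PS
  obtain ⟨R, hR, hR0, hR1⟩ := B.start (fun v u x => hc 1 v u x)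
  obtain ⟨S, hS, hS2⟩ := rec_limit _ hc (pp_X2 B PN PS) R hR
  have hSe : ∀ v, S v (DFinsupp.single 0 (1 : F)) = DFinsupp.single 1 v := fun v => by
    rw [hS2 v 0 (1 : F) (by norm_num)]; exact hR0 v
  have hS1 : ∀ v (x : L), S v (DFinsupp.single 1 x) = DFinsupp.single 2 (m v x)
        + (1/2 : F) • (DFinsupp.single 1 (⁅v, x⁆ : L) : Π₀ k, GG F L _ _ C k) := fun v x => by
    rw [hS2 v 1 x (by norm_num)]; exact hR1 v x
  have h0 : ∀ a b : L, S a (S b (DFinsupp.single 0 (1 : F))) + S b (S a (DFinsupp.single 0 (1 : F)))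
      = ((2 : F) • (DFinsupp.lsingle 2 : GG F L ((LH F A ⊗[F] LH F A) ⧸ radQ mul) (Fin (Module.finrank F g)) C 2 →ₗ[F] Π₀ k, GG F L ((LH F A ⊗[F] LH F A) ⧸ radQ mul) (Fin (Module.finrank F g)) C k)) (m a b) := by
    intro a b
    have e2 : ((2 : F) • (DFinsupp.lsingle 2 : GG F L ((LH F A ⊗[F] LH F A) ⧸ radQ mul) (Fin (Module.finrank F g)) C 2 →ₗ[F] Π₀ k, GG F L ((LH F A ⊗[F] LH F A) ⧸ radQ mul) (Fin (Module.finrank F g)) C k)) (m a b)
      = (2 : F) • (DFinsupp.single 2 (m a b) : Π₀ k, GG F L ((LH F A ⊗[F] LH F A) ⧸ radQ mul) (Fin (Module.finrank F g)) C k) := rfl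
    refine Eq.trans ?_ e2.symm
    rw [hSe, hSe, hS1, hS1, B.comm b a, ← lie_skew a b]
    have e : (DFinsupp.single 1 (-⁅b, a⁆ : L) : Π₀ k, GG F L ((LH F A ⊗[F] LH F A) ⧸ radQ mul) (Fin (Module.finrank F g)) C k)
      = - DFinsupp.single 1 (⁅b, a⁆ : L) := DFinsupp.single_neg _ _
    rw [e, two_smul]
    generalize (DFinsupp.single 2 (m a b) : Π₀ k, GG F L ((LH F A ⊗[F] LH F A) ⧸ radQ mul) (Fin (Module.finrank F g)) C k) = X
    generalize (DFinsupp.single 1 (⁅b, a⁆ : L) : Π₀ k, GG F L ((LH F A ⊗[F] LH F A) ⧸ radQ mul) (Fin (Module.finrank F g)) C k) = Y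
    rw [smul_neg]
    abel
  obtain ⟨V, iV, jV, ρ, hρ, hρ0⟩ := B.final hA S hS (DFinsupp.single 0 (1 : F))
    ((2 : F) • (DFinsupp.lsingle 2 : GG F L ((LH F A ⊗[F] LH F A) ⧸ radQ mul) (Fin (Module.finrank F g)) C 2 →ₗ[F] _)) h0 (fun v hv => by
      rw [hSe] at hv
      have := DFinsupp.single_injective (i := 1) (hv.trans (DFinsupp.single_zero 1).symm)
      exact this)
  refine ⟨V, iV, jV, ρ, hρ, ?_⟩
  rw [injective_iff_map_eq_zero]
  intro a ha
  have h1 := hρ0 a ha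
  have h2 : π (a, 0) = 0 := h1
  apply hr
  rw [← hk]
  exact h2

end Pool.Agent.MP_754a42_al
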