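import Pool.Agent.Lib.MP_754a42_al.Ct

/-!
# MP_754a42_al, row N1a (UP0, UP): universal property of the exterior powers in letter form.

Let `b := Module.finBasis F C`, `e_i = b i`, `e_i^* = b.coord i`.
* `UP0`: `ψ(G) = ∑ i, φ (e_i) (ct 0 (e_i^*) G)`; use `ct_wd_zero` and `sum_coord`.
* `UP`: `ψ(G) = 1/(m+2) • ∑ i, φ (e_i) (ct (m+1) (e_i^*) G)`.  By `ct_wd`,
  `(m+2) ψ(x ∧ f) = ∑ i, φ(e_i; e_i^*(x) f) - ∑ i φ(e_i; x ∧ ct m e_i^* f)`.  The first sum is `φ(x;f)` (`sum_coord`).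
  Polarising `h` (`h (x+e)`): `φ(e; x∧g) = - φ(x; e∧g)`, so the second term is `+ ∑ i φ(x; e_i ∧ ct m e_i^* f) = (m+1) φ(x;f)`
  by `euler`.
-/

open scoped TensorProduct

namespace Pool.Agent.MP_754a42_al

universe u

variable {F : Type u} [Field F] {C : Type u} [AddCommGroup C] [Module F C] [FiniteDimensional F C]
  {Z : Type u} [AddCommGroup Z] [Module F Z]

theorem UP0 (φ : C →ₗ[F] Lm F C 0 →ₗ[F] Z) :
    ∃ ψ : Lm F C 1 →ₗ[F] Z, ∀ x f, ψ (wd 0 x f) = φ x f := by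
  let b := Module.finBasis F C
  refine ⟨∑ i, (φ (b i)).comp (ct 0 (b.coord i)), fun x f => ?_⟩
  simp only [LinearMap.sum_apply, LinearMap.comp_apply, ct_wd_zero, map_smul]
  exact sum_coord b (φ.flip f) x

theorem UP [CharZero F] (m : ℕ) (φ : C →ₗ[F] Lm F C (m+1) →ₗ[F] Z)
    (h : ∀ x (f : Lm F C m), φ x (wd m x f) = 0) :
    ∃ ψ : Lm F C (m+2) →ₗ[F] Z, ∀ x f, ψ (wd (m+1) x f) = φ x f := by
  let b := Module.finBasis F C
  have hskew : ∀ (e x : C) (g : Lm F C m), φ e (wd m x g) = - φ x (wd m e g) := by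
    intro e x g
    have h1 := h (e + x) g
    simp only [map_add, LinearMap.add_apply, h, zero_add, add_zero] at h1
    rw [eq_neg_iff_add_eq_zero, add_comm]
    rw [← h1]
  have hm : (m : F) + 2 ≠ 0 := by
    have : ((m + 2 : ℕ) : F) ≠ 0 := Nat.cast_ne_zero.mpr (by omega)
    push_cast at this
    exact this
  refine ⟨((m : F) + 2)⁻¹ • ∑ i, (φ (b i)).comp (ct (m+1) (b.coord i)), fun x f => ?_⟩
  rw [LinearMap.smul_apply, inv_smul_eq_iff₀ hm]
  simp only [LinearMap.sum_apply, LinearMap.comp_apply, ct_wd, map_sub, map_smul,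
    Finset.sum_sub_distrib]
  have h1 : ∑ i, (b.coord i) x • φ (b i) f = φ x f := sum_coord b (φ.flip f) x
  have h2 : ∑ i, φ (b i) (wd m x (ct m (b.coord i) f)) = - (((m : F) + 1) • φ x f) := by
    rw [← map_smul (φ x), ← euler b m f, map_sum, ← Finset.sum_neg_distrib]
    exact Finset.sum_congr rfl fun i _ => hskew (b i) x _
  rw [h1, h2]
  module

end Pool.Agent.MP_754a42_al
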