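import Pool.Agent.Lib.MP_754a42_al.N1a
import Pool.Agent.Lib.MP_754a42_al.N2

/-!
# MP_754a42_al, row N3: `G1`, `F1`.

* `G1`.  Write `m` for the degree; apply `UP m` with values in `Z' = C →ₗ Z` to `Φ(y;f)(x) = ϑ (pr x y) f`
  (`Φ y (wd m y g) x = ϑ (pr x y) (wd y g) = - ϑ (pr y x) (wd y g) = 0`): get `Ψ : Lm (m+2) → Hom(C,Z)`,
  `Ψ (wd y f) x = ϑ (pr x y) f`.  Then `UP (m+1)` for `φ x G := Ψ G x`: hypothesis `Ψ (wd x f) x = ϑ (pr x x) f = 0`
  for `f : Lm (m+1)` (all `G' : Lm (m+1)`).  Get `l : Lm (m+3) → Z`, `l (wd x (wd y f)) = Ψ (wd y f) x = ϑ (pr x y) f`.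
  Conclude with `mulP_pr` and `ext_pr`.
* `F1`.  By `G1` it is enough: `ϑ (pr x y) (wd x f) = 0` for `f : Lm (m+2)`; by `ext_wd`/`span_wd` twice take
  `f = wd a (wd b g)`, `g : Lm m`.  Put `φ y a b := ϑ (pr x y) (wd x (wd a (wd b g)))`.
  `φ y a b = ϑ (pr x y) (mulP (pr x a) (wd b g)) = ϑ (pr x a) (mulP (pr x y) (wd b g)) = φ a y b` by `h`, and
  `φ y a b = - φ y b a` by `wd_skew`.  `SK` gives `φ = 0`.
-/

namespace Pool.Agent.MP_754a42_al

universe u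

variable {F : Type u} [Field F] [CharZero F] {C : Type u} [AddCommGroup C] [Module F C] [FiniteDimensional F C]
  {Z : Type u} [AddCommGroup Z] [Module F Z]

/-- `N3_Phi t y f x = t (pr x y) f` -/
private noncomputable def N3_Phi (m : ℕ) (t : Lm F C 2 →ₗ[F] Lm F C (m+1) →ₗ[F] Z) :
    C →ₗ[F] Lm F C (m+1) →ₗ[F] (C →ₗ[F] Z) :=
  LinearMap.mk₂ F (fun y f => (t.flip f).comp ((pr : C →ₗ[F] C →ₗ[F] Lm F C 2).flip y))
    (fun y y' f => by ext x; simp) (fun c y f => by ext x; simp)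
    (fun y f f' => by ext x; simp) (fun c y f => by ext x; simp)

private theorem N3_Phi_apply (m : ℕ) (t : Lm F C 2 →ₗ[F] Lm F C (m+1) →ₗ[F] Z) (y : C)
    (f : Lm F C (m+1)) (x : C) : N3_Phi m t y f x = t (pr x y) f := rfl

theorem G1 (m : ℕ) (t : Lm F C 2 →ₗ[F] Lm F C (m+1) →ₗ[F] Z)
    (h : ∀ x y (f : Lm F C m), t (pr x y) (wd m x f) = 0) :
    ∃ l : Lm F C (m+3) →ₗ[F] Z, ∀ p f, t p f = l (mulP (m+1) p f) := by
  obtain ⟨Ψ, hΨ⟩ := UP m (N3_Phi m t) (fun y g => by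
    ext x
    rw [N3_Phi_apply, pr_skew, map_neg, LinearMap.neg_apply, h]
    simp)
  obtain ⟨l, hl⟩ := UP (m+1) Ψ.flip (fun x f => by
    rw [LinearMap.flip_apply, hΨ, N3_Phi_apply, pr_self]
    simp)
  refine ⟨l, fun p f => ?_⟩
  have := ext_pr (t.flip f) (l.comp ((mulP (m+1)).flip f)) (fun x y => by
    simp only [LinearMap.flip_apply, LinearMap.comp_apply]
    rw [mulP_pr, hl, LinearMap.flip_apply, hΨ, N3_Phi_apply]) p
  simpa using this

theorem F1 (m : ℕ) (t : Lm F C 2 →ₗ[F] Lm F C (m+3) →ₗ[F] Z)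
    (h : ∀ p q (g : Lm F C (m+1)), t p (mulP (m+1) q g) = t q (mulP (m+1) p g)) :
    ∃ l : Lm F C (m+5) →ₗ[F] Z, ∀ p f, t p f = l (mulP (m+3) p f) := by
  refine G1 (m+2) t (fun x y f => ?_)
  have key : ∀ (g : Lm F C m) (y a b : C),
      t (pr x y) (wd (m+2) x (wd (m+1) a (wd m b g))) = 0 := fun g => by
    refine SK (F := F) (fun y a b => t (pr x y) (wd (m+2) x (wd (m+1) a (wd m b g)))) ?_ ?_
    · intro y a b
      rw [← mulP_pr, ← mulP_pr]
      exact h _ _ _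
    · intro y a b
      rw [wd_skew m a b g]
      simp
  have h1 : ∀ (a : C) (f' : Lm F C (m+1)), t (pr x y) (wd (m+2) x (wd (m+1) a f')) = 0 := by
    intro a f'
    have := ext_wd m ((t (pr x y)).comp ((wd (m+2) x).comp (wd (m+1) a))) 0
      (fun b g => by simpa using key g y a b) f'
    simpa using this
  have := ext_wd (m+1) ((t (pr x y)).comp (wd (m+2) x)) 0 (fun a f' => by simpa using h1 a f') f
  simpa using this

end Pool.Agent.MP_754a42_al
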