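import Pool.Agent.Lib.MP_754a42_al.Ct

/-!
# MP_754a42_al, row N4: `K2`.

`v(x;G) := 2/(m+3) • ∑ j, s(x, e_j; ct (m+1) (e_j^*) G)` (`b = Module.finBasis F C`, `e_j = b j`, `e_j^* = b.coord j`).
Check: by `ct_wd`, `ct e_j^* (x ∧ F) = e_j^*(x) F - x ∧ ct e_j^* F`, so
`(m+3)/2 v(x; x∧F) = s(x,x;F) - ∑ j, s(x,e_j; x ∧ ct e_j^* F)` (`sum_coord`).
Polarise `h` (replace `x` by `x + t e`, take the part linear in `e`; e.g. use `h (x+e)`, `h (x-e)`, `h x`, `h e`):
`2 s(x,e; x∧g) + s(x,x; e∧g) = 0`.  So the second sum is `-1/2 ∑ j s(x,x; e_j ∧ ct e_j^* F) = -(m+1)/2 s(x,x;F)` (`euler`), and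
`(m+3)/2 v(x;x∧F) = (1 + (m+1)/2) s(x,x;F) = (m+3)/2 s(x,x;F)`.
-/

namespace Pool.Agent.MP_754a42_al

universe u

variable {F : Type u} [Field F] [CharZero F] {C : Type u} [AddCommGroup C] [Module F C] [FiniteDimensional F C]
  {Z : Type u} [AddCommGroup Z] [Module F Z]

theorem N4_pol (m : ℕ) (s : C →ₗ[F] C →ₗ[F] Lm F C (m+1) →ₗ[F] Z) (hs : ∀ x y f, s x y f = s y x f)
    (h : ∀ x (g : Lm F C m), s x x (wd m x g) = 0) (x e : C) (g : Lm F C m) :
    s x e (wd m x g) = -((1 / 2 : F) • s x x (wd m e g)) := by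
  have h1 := h (x + e) g
  have h2 := h (x - e) g
  simp only [map_add, map_sub, LinearMap.add_apply, LinearMap.sub_apply, h x g, h e g,
    hs e x] at h1 h2
  have h3 : (4 : F) • s x e (wd m x g) + (2 : F) • s x x (wd m e g) = 0 := by
    have h4 := congrArg₂ (fun a b : Z => a - b) h1 h2
    simp only [sub_zero] at h4
    rw [← h4]
    module
  have h5 : s x e (wd m x g) = (1 / 4 : F) • ((4 : F) • s x e (wd m x g) + (2 : F) • s x x (wd m e g))
      - (1 / 2 : F) • s x x (wd m e g) := by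
    module
  rw [h5, h3]
  simp

theorem K2 (m : ℕ) (s : C →ₗ[F] C →ₗ[F] Lm F C (m+1) →ₗ[F] Z) (hs : ∀ x y f, s x y f = s y x f)
    (h : ∀ x (g : Lm F C m), s x x (wd m x g) = 0) :
    ∃ v : C →ₗ[F] Lm F C (m+2) →ₗ[F] Z, ∀ x f, s x x f = v x (wd (m+1) x f) := by
  classical
  set b := Module.finBasis F C with hb
  refine ⟨(2 / ((m : F) + 3)) • ∑ j, (LinearMap.lcomp F Z (ct (m+1) (b.coord j))).comp (s (b j)),
    fun x f => ?_⟩
  have hm : ((m : F) + 3) ≠ 0 := by
    have : ((m + 3 : ℕ) : F) ≠ 0 := Nat.cast_ne_zero.2 (by omega)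
    push_cast at this
    exact this
  simp only [LinearMap.smul_apply, LinearMap.sum_apply, LinearMap.comp_apply, LinearMap.lcomp_apply,
    ct_wd, map_sub, map_smul, Finset.sum_sub_distrib]
  have h1 : ∑ j, (b.coord j) x • s (b j) x f = s x x f := by
    have := sum_coord b ((s.flip x).flip f) x
    simpa using this
  have h2 : ∑ j, s (b j) x (wd m x (ct m (b.coord j) f)) = -(((m : F) + 1) / 2) • s x x f := by
    have h3 : ∀ j, s (b j) x (wd m x (ct m (b.coord j) f)) =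
        -((1 / 2 : F) • s x x (wd m (b j) (ct m (b.coord j) f))) := by
      intro j
      rw [hs (b j) x]
      exact N4_pol m s hs h x (b j) _
    rw [Finset.sum_congr rfl fun j _ => h3 j, Finset.sum_neg_distrib, ← Finset.smul_sum, ← map_sum,
      euler b m f, map_smul]
    module
  rw [h1, h2, smul_sub, smul_smul, ← sub_smul]
  have h4 : 2 / ((m : F) + 3) - 2 / ((m : F) + 3) * -(((m : F) + 1) / 2) = 1 := by
    field_simp
    ring
  rw [h4, one_smul]

end Pool.Agent.MP_754a42_al
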