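import Pool.Agent.Lib.MP_754a42_al.N2
import Pool.Agent.Lib.MP_754a42_al.Ct

/-!
# MP_754a42_al, row N5a: part a) of `F2`.

Write `T` for `Θ`, juxtaposition for wedge products, `U(b,c;a|f) := T (pr b c) (pr x a) (wd x f)`, `f : Lm (m+2)`, `x` fixed.
`T p q = - T q p` (from `alt`).

`al_pol` (polarised `al`): `T(xy, xz; w f) + T(wy, xz; x f) + T(xy, wz; x f) = 0`: the map
`x ↦ T(xy,xz;xf)` is cubic; polarise: `al` at `x+w`, `x-w`, `x`, `w` : (value at `x+w`) - (value at `x-w`) - 2 (value at `w`)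
`= 2 * (part quadratic in x and linear in w)`.

`F2a`: claim `U(b,c;a| b g) = 0` for `g : Lm (m+1)`.
(1) `be` with `p = xy, q = xa, r = bc`, `g : Lm (m+1)`:
  `T(xy,xa; b c g) + T(xa, bc; x y g) + T(bc, xy; x a g) = 0`, i.e. `T(xy,xa;bcg) = U(b,c;a|yg) - U(b,c;y|ag)`
  (`mulP (pr b c) g = wd b (wd c g)` is `mulP_pr`).
(2) `al_pol` with `z = a`, `w = b`, `f = c g` (`= wd c g : Lm (m+2)`):
  `T(xy,xa; b c g) = - T(by, xa; x c g) - T(xy, ba; x c g) = - U(b,y;a|cg) + U(b,a;y|cg)`.
(3) So `e(c,y,a) := U(b,c;a|y g) + U(b,y;a|c g)` satisfies `e(c,y,a) = U(b,c;y|ag) + U(b,a;y|cg) = e(c,a,y)`, and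
  `e(c,y,a) = e(y,c,a)` by definition.  So `e` is totally symmetric in `c, y, a` (for every `g : Lm (m+1)`).
(4) It is enough (`span_wd`) to take `g = h g'` (`= wd h g'`, `g' : Lm m`).  Write `e(c,y,a|h)`.  Then
  `e(c,y,a|h) + e(y,h,a|c) + e(h,c,a|y) = 0` (the six terms cancel in pairs by `wd_skew`).
  Linear algebra: `e(c,y,a|h)` symmetric in the first three, with this relation, vanishes: with `c=y=a=h=x'` the relation gives
  `3 e(x',x',x'|x')=0`; polarised; or directly: let `E_h := e(c,y,a|h)`, ... the four numbers `E_c, E_y, E_a, E_h` (index = the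
  letter in the last slot) satisfy `E_h + E_c + E_y = 0` (a in the spare slot), and by symmetry `E_h+E_c+E_a = 0`,
  `E_h+E_y+E_a = 0`, `E_c+E_y+E_a = 0`; sum of all: `3(E_c+E_y+E_a+E_h)=0`, so each is `0`.
(5) `e = 0` with `c := b`: `U(b,b;a|y g) + U(b,y;a|b g) = 0`, and `pr b b = 0`: `U(b,y;a|b g) = 0`.  QED

-/

namespace Pool.Agent.MP_754a42_al

universe u

variable {F : Type u} [Field F] [CharZero F] {C : Type u} [AddCommGroup C] [Module F C]
  {Z : Type u} [AddCommGroup Z] [Module F Z]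

theorem al_pol (m : ℕ) (T : Lm F C 2 →ₗ[F] Lm F C 2 →ₗ[F] Lm F C (m+1) →ₗ[F] Z)
    (al : ∀ x y z (f : Lm F C m), T (pr x y) (pr x z) (wd m x f) = 0)
    (x w y z : C) (f : Lm F C m) :
    T (pr x y) (pr x z) (wd m w f) + T (pr w y) (pr x z) (wd m x f) + T (pr x y) (pr w z) (wd m x f) = 0 := by
  have h1 := al (x + w) y z f
  have h2 := al (x - w) y z f
  have h3 := al x y z f
  have h4 := al w y z f
  simp only [map_add, map_sub, LinearMap.add_apply, LinearMap.sub_apply] at h1 h2
  have h5 : (2 : F) • (T (pr x y) (pr x z) (wd m w f) + T (pr w y) (pr x z) (wd m x f)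
      + T (pr x y) (pr w z) (wd m x f)) = 0 := by
    linear_combination (norm := module) h1 - h2 - (2 : F) • h4
  exact (smul_eq_zero.1 h5).resolve_left two_ne_zero

/-- `N5a`: a function of four letters, symmetric in the first three, with a cyclic relation -/
theorem N5a_E {X : Type*} (F : Type*) [Field F] [CharZero F] {Z : Type*} [AddCommGroup Z] [Module F Z]
    (E : X → X → X → X → Z)
    (s1 : ∀ c y a h, E c y a h = E y c a h) (s2 : ∀ c y a h, E c y a h = E c a y h)
    (r : ∀ c y h a, E c y a h + E y h a c + E h c a y = 0) (c y a h : X) : E c y a h = 0 := by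
  -- the four values
  have e1 := r c y h a
  have e2 := r c a h y
  have e3 := r a y h c
  have e4 := r c y a h
  -- normalise
  have n1 : E c a y h = E c y a h := (s2 c y a h).symm
  have n2 : E a h y c = E y h a c := by
    rw [s1 a h y c, s2 h a y c, s1 h y a c]
  have n3 : E h c y a = E c y h a := by
    rw [s1 h c y a, s2 c h y a]
  have n4 : E a y c h = E c y a h := by
    rw [s1 a y c h, s2 y a c h, s1 y c a h]
  have n5 : E y h c a = E c y h a := by
    rw [s2 y h c a, s1 y c h a]
  have n6 : E h a c y = E h c a y := s2 h a c y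
  have n7 : E y a h c = E y h a c := s2 y a h c
  have n8 : E a c h y = E h c a y := by
    rw [s2 a c h y, s1 a h c y, s2 h a c y]
  rw [n1, n2, n3] at e2
  rw [n4, n5, n6] at e3
  rw [n7, n8] at e4
  have h5 : (3 : F) • E c y a h = 0 := by
    linear_combination (norm := module) e1 + e2 + e3 - (2 : F) • e4
  exact (smul_eq_zero.1 h5).resolve_left three_ne_zero

theorem F2a (m : ℕ) (T : Lm F C 2 →ₗ[F] Lm F C 2 →ₗ[F] Lm F C (m+3) →ₗ[F] Z)
    (alt : ∀ p f, T p p f = 0)
    (al : ∀ x y z (f : Lm F C (m+2)), T (pr x y) (pr x z) (wd (m+2) x f) = 0)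
    (be : ∀ p q r (g : Lm F C (m+1)), T p q (mulP (m+1) r g) + T q r (mulP (m+1) p g)
      + T r p (mulP (m+1) q g) = 0)
    (x b c a : C) (g : Lm F C (m+1)) :
    T (pr b c) (pr x a) (wd (m+2) x (wd (m+1) b g)) = 0 := by
  have alt' : ∀ p q f, T p q f = - T q p f := by
    intro p q f
    have h := alt (p + q) f
    simp only [map_add, LinearMap.add_apply, alt, zero_add, add_zero] at h
    rw [eq_neg_iff_add_eq_zero, add_comm]
    exact h
  obtain ⟨U, hU⟩ : ∃ U : C → C → C → Lm F C (m+2) → Z,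
      ∀ b c a f, U b c a f = T (pr b c) (pr x a) (wd (m+2) x f) :=
    ⟨fun b c a f => T (pr b c) (pr x a) (wd (m+2) x f), fun _ _ _ _ => rfl⟩
  have h1 : ∀ (b c a y : C) (g : Lm F C (m+1)),
      T (pr x y) (pr x a) (wd (m+2) b (wd (m+1) c g))
        = U b c a (wd (m+1) y g) - U b c y (wd (m+1) a g) := by
    intro b c a y g
    have h := be (pr x y) (pr x a) (pr b c) g
    rw [mulP_pr, mulP_pr, mulP_pr, alt' (pr x a) (pr b c)] at h
    rw [hU, hU]
    have h' : T (pr x y) (pr x a) (wd (m+2) b (wd (m+1) c g))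
        = (T (pr x y) (pr x a) (wd (m+2) b (wd (m+1) c g))
          + -T (pr b c) (pr x a) (wd (m+2) x (wd (m+1) y g))
          + T (pr b c) (pr x y) (wd (m+2) x (wd (m+1) a g)))
          + (T (pr b c) (pr x a) (wd (m+2) x (wd (m+1) y g))
            - T (pr b c) (pr x y) (wd (m+2) x (wd (m+1) a g))) := by abel
    rw [h'] 
    have h'' : (T (pr x y) (pr x a) (wd (m+2) b (wd (m+1) c g))
          + -T (pr b c) (pr x a) (wd (m+2) x (wd (m+1) y g))
          + T (pr b c) (pr x y) (wd (m+2) x (wd (m+1) a g))) = 0 := h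
    rw [h'', zero_add]
  have h2 : ∀ (b c a y : C) (g : Lm F C (m+1)),
      T (pr x y) (pr x a) (wd (m+2) b (wd (m+1) c g))
        = - U b y a (wd (m+1) c g) + U b a y (wd (m+1) c g) := by
    intro b c a y g
    have h := al_pol (m+2) T al x b y a (wd (m+1) c g)
    rw [alt' (pr x y) (pr b a)] at h
    rw [hU, hU]
    have h' : T (pr x y) (pr x a) (wd (m+2) b (wd (m+1) c g))
        = (T (pr x y) (pr x a) (wd (m+2) b (wd (m+1) c g))
          + T (pr b y) (pr x a) (wd (m+2) x (wd (m+1) c g))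
          + -T (pr b a) (pr x y) (wd (m+2) x (wd (m+1) c g)))
          + (-T (pr b y) (pr x a) (wd (m+2) x (wd (m+1) c g))
            + T (pr b a) (pr x y) (wd (m+2) x (wd (m+1) c g))) := by abel
    rw [h', h, zero_add]
  -- the symmetric function
  have h3 : ∀ (b c a y : C) (g : Lm F C (m+1)),
      U b c a (wd (m+1) y g) + U b y a (wd (m+1) c g)
        = U b c y (wd (m+1) a g) + U b a y (wd (m+1) c g) := by
    intro b c a y g
    have h := (h1 b c a y g).symm.trans (h2 b c a y g)
    rw [sub_eq_iff_eq_add] at h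
    rw [h]
    abel
  have U_add : ∀ b c a f f', U b c a (f + f') = U b c a f + U b c a f' := by
    intro b c a f f'
    rw [hU, hU, hU, map_add, map_add]
  have U_neg : ∀ b c a f, U b c a (-f) = - U b c a f := by
    intro b c a f
    rw [hU, hU, map_neg, map_neg]
  have h4 : ∀ (b : C) (g' : Lm F C m) (c y a h : C),
      U b c a (wd (m+1) y (wd m h g')) + U b y a (wd (m+1) c (wd m h g')) = 0 := by
    intro b g'
    refine N5a_E F (fun c y a h => U b c a (wd (m+1) y (wd m h g')) + U b y a (wd (m+1) c (wd m h g')))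
      ?_ ?_ ?_
    · intro c y a h
      exact add_comm _ _
    · intro c y a h
      exact h3 b c a y (wd m h g')
    · intro c y h a
      show U b c a (wd (m+1) y (wd m h g')) + U b y a (wd (m+1) c (wd m h g'))
        + (U b y a (wd (m+1) h (wd m c g')) + U b h a (wd (m+1) y (wd m c g')))
        + (U b h a (wd (m+1) c (wd m y g')) + U b c a (wd (m+1) h (wd m y g'))) = 0
      rw [wd_skew m h c g', wd_skew m y c g', wd_skew m h y g', U_neg, U_neg, U_neg]
      abel
  have h5 : ∀ (b c a y : C) (g : Lm F C (m+1)),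
      U b c a (wd (m+1) y g) + U b y a (wd (m+1) c g) = 0 := by
    intro b c a y g
    have h := ext_wd m
      ((((T (pr b c)) (pr x a)).comp (wd (m+2) x)).comp (wd (m+1) y)
        + (((T (pr b y)) (pr x a)).comp (wd (m+2) x)).comp (wd (m+1) c))
      (0 : Lm F C (m+1) →ₗ[F] Z) (by
        intro h g'
        have h6 := h4 b g' c y a h
        rw [hU, hU] at h6
        exact h6) g
    rw [hU, hU]
    exact h
  have h6 := h5 b b a c g
  rw [hU b b, pr_self, map_zero, LinearMap.zero_apply, LinearMap.zero_apply, zero_add, hU] at h6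
  exact h6

end Pool.Agent.MP_754a42_al
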