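import Pool.Agent.Lib.MP_754a42_al.N1b
import Pool.Agent.Lib.MP_754a42_al.N4

/-!
# MP_754a42_al, row N6c: step c) of `F2`.

Here `u x y a G = u(x,y;a|G)`, `G : Lm (m+4)`.
`K2 (m+3)` with values in `C →ₗ Z` (variable `a`), `s x y G := (a ↦ u x y a G)`: by `p2` there is `v x H : C →ₗ Z`,
`H : Lm (m+5)`, trilinear, write `v(a;x|H) := v x H a`, with `u(x,x;a|G) = v(a;x|x∧G)`  (`x∧G = wd (m+4) x G`).
By `p1`, `v(x;x|x∧G) = 0` for all `x`, `G : Lm (m+4)`.  `K2 (m+4)` applied to the symmetric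
`s'(x,y;H) := 1/2 [v(x;y|H)+v(y;x|H)]` gives `w : C → Lm (m+6) → Z` with `v(x;x|H) = w(x; x∧H)` (`x∧H = wd (m+5) x H`).
`B(x,a;H) := v(a;x|H) - w(a; x∧H)`, as a bilinear map `C → C → (Lm (m+5) →ₗ Z)`, satisfies `B(x,x) = 0`; `U2` with values in
`Lm (m+5) →ₗ Z` gives `l : Lm 2 → Lm (m+5) → Z`, `l (pr x a) H = v(a;x|H) - w(a;x∧H)`.
So `l (pr x y) (x∧G) = v(y;x|x∧G) - w(y; x∧x∧G) = u(x,x;y|G)` (`wd_self`).
-/

namespace Pool.Agent.MP_754a42_al

universe u

variable {F : Type u} [Field F] [CharZero F] {C : Type u} [AddCommGroup C] [Module F C] [FiniteDimensional F C]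
  {Z : Type u} [AddCommGroup Z] [Module F Z]


theorem F2c (m : ℕ) (u : C →ₗ[F] C →ₗ[F] C →ₗ[F] Lm F C (m+4) →ₗ[F] Z)
    (sym : ∀ x y a G, u x y a G = u y x a G) (p1 : ∀ x G, u x x x G = 0)
    (p2 : ∀ x a (G : Lm F C (m+3)), u x x a (wd (m+3) x G) = 0) :
    ∃ l : Lm F C 2 →ₗ[F] Lm F C (m+5) →ₗ[F] Z,
      ∀ x y G, l (pr x y) (wd (m+4) x G) = u x x y G := by
  -- first use of `K2`
  let s : C →ₗ[F] C →ₗ[F] Lm F C (m+4) →ₗ[F] (C →ₗ[F] Z) :=
    LinearMap.mk₂ F (fun x y => (u x y).flip)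
      (fun x x' y => by ext G a; simp) (fun c x y => by ext G a; simp)
      (fun x y y' => by ext G a; simp) (fun c x y => by ext G a; simp)
  have hs : ∀ x y G a, s x y G a = u x y a G := fun x y G a => rfl
  obtain ⟨v, hv⟩ := K2 (m+3) s
    (fun x y f => by ext a; rw [hs, hs]; exact sym x y a f)
    (fun x g => by ext a; rw [hs]; exact p2 x a g)
  let V : C →ₗ[F] C →ₗ[F] Lm F C (m+5) →ₗ[F] Z :=
    LinearMap.mk₂ F (fun x a => (v x).flip a)
      (fun x x' y => by ext G; simp) (fun c x y => by ext G; simp)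
      (fun x y y' => by ext G; simp) (fun c x y => by ext G; simp)
  have hV : ∀ x a H, V x a H = v x H a := fun x a H => rfl
  have hVu : ∀ x a (G : Lm F C (m+4)), V x a (wd (m+4) x G) = u x x a G := by
    intro x a G
    have h1 := hv x G
    have h2 : s x x G a = v x (wd (m+3+1) x G) a := by rw [h1]
    rw [hs] at h2
    rw [h2]; rfl
  -- second use of `K2`
  obtain ⟨w, hw⟩ := K2 (m+4) ((1/2 : F) • (V + V.flip))
    (fun x y f => by
      simp only [LinearMap.smul_apply, LinearMap.add_apply, LinearMap.flip_apply]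
      rw [add_comm])
    (fun x g => by
      simp only [LinearMap.smul_apply, LinearMap.add_apply, LinearMap.flip_apply]
      rw [hVu, p1]; simp)
  have hw' : ∀ x (H : Lm F C (m+5)), V x x H = w x (wd (m+5) x H) := by
    intro x H
    have h1 := hw x H
    simp only [LinearMap.smul_apply, LinearMap.add_apply, LinearMap.flip_apply] at h1
    rw [← two_smul F (V x x H), smul_smul] at h1
    have h2 : (1/2 : F) * 2 = 1 := by norm_num
    rw [h2, one_smul] at h1
    exact h1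
  let W : C →ₗ[F] C →ₗ[F] Lm F C (m+5) →ₗ[F] Z :=
    LinearMap.mk₂ F (fun x a => (w a).comp (wd (m+5) x))
      (fun x x' y => by ext G; simp) (fun c x y => by ext G; simp)
      (fun x y y' => by ext G; simp) (fun c x y => by ext G; simp)
  have hW : ∀ x a H, W x a H = w a (wd (m+5) x H) := fun x a H => rfl
  obtain ⟨l, hl⟩ := U2 (V - W) (fun x => by
    refine LinearMap.ext fun H => ?_
    rw [LinearMap.sub_apply, LinearMap.sub_apply, LinearMap.sub_apply, hw', hW, sub_self]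
    rfl)
  refine ⟨l, fun x y G => ?_⟩
  rw [hl, LinearMap.sub_apply, LinearMap.sub_apply, LinearMap.sub_apply, hVu, hW, wd_self, map_zero,
    sub_zero]

end Pool.Agent.MP_754a42_al
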