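import Pool.Agent.Lib.MP_754a42_al.N6b
import Pool.Agent.Lib.MP_754a42_al.N6c

/-!
# MP_754a42_al, row N6: `F2` (steps d, e), from `F2b`, `F2c`, `al_pol`.

Notation: `T` as in row N5a, juxtaposition = wedge.  Let `u` be the map of `F2b`, `l` the map of `F2c`.
d) Claim `T(xy,xa;f) = l(xy; xaf) - l(xa; xyf)` (`f : Lm (m+3)`; `xaf = mulP (pr x a) f = wd x (wd a f)`, `mulP_pr`).
   `l(xy;x(af)) = u(x,x;y|af)`, `l(xa;x(yf)) = u(x,x;a|yf)` (`F2c`).  For `f = b f'` (`f' : Lm (m+2)`, `ext_wd`), by `F2b`: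
   `u(x,x;y|abf') - u(x,x;a|ybf') = -T(ab,xy;xf') + T(yb,xa;xf')` and by `al_pol`
   `T(xy,xa;bf') = -T(by,xa;xf') - T(xy,ba;xf')`; these agree (`pr_skew`, `T p q = - T q p`).
e) `D(P,Q;f) := T P Q f - (l P (Q f) - l Q (P f))` is alternating in `P,Q` and vanishes at `(xy, xa)`.  So
   `φ(b,c;d,a) := D(bc, da; f)` is skew under `b↔c` (r1), `d↔a` (r2), `(bc)↔(da)` (r3) and (polarising `D(xc,xa)=0`) `b↔d` (r4):
   `φ(b,c;d,a) =r4= -φ(d,c;b,a) =r1= φ(c,d;b,a) =r4= -φ(b,d;c,a) =r2= φ(b,d;a,c) =r4= -φ(a,d;b,c) =r1= φ(d,a;b,c)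
   =r3= -φ(b,c;d,a)`.  Hence `2 φ = 0`, `D = 0` (`ext_pr` twice).
-/

namespace Pool.Agent.MP_754a42_al

universe u

variable {F : Type u} [Field F] [CharZero F] {C : Type u} [AddCommGroup C] [Module F C] [FiniteDimensional F C]
  {Z : Type u} [AddCommGroup Z] [Module F Z]

theorem F2 (m : ℕ) (T : Lm F C 2 →ₗ[F] Lm F C 2 →ₗ[F] Lm F C (m+3) →ₗ[F] Z)
    (alt : ∀ p f, T p p f = 0)
    (al : ∀ x y z (f : Lm F C (m+2)), T (pr x y) (pr x z) (wd (m+2) x f) = 0)
    (be : ∀ p q r (g : Lm F C (m+1)), T p q (mulP (m+1) r g) + T q r (mulP (m+1) p g)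
      + T r p (mulP (m+1) q g) = 0) :
    ∃ l : Lm F C 2 →ₗ[F] Lm F C (m+5) →ₗ[F] Z,
      ∀ p q f, T p q f = l p (mulP (m+3) q f) - l q (mulP (m+3) p f) := by
  obtain ⟨u, _hs, hu, p1, p2⟩ := F2b m T alt al be
  obtain ⟨l, hl⟩ := F2c m u _hs p1 p2
  have Tsk : ∀ p q f, T p q f = - T q p f := by
    intro p q f
    have h := alt (p + q) f
    simp only [map_add, LinearMap.add_apply, alt, zero_add, add_zero] at h
    rw [eq_neg_iff_add_eq_zero, add_comm]; exact h
  -- step d)
  have hd : ∀ x y a (f : Lm F C (m+3)), T (pr x y) (pr x a) f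
      = l (pr x y) (mulP (m+3) (pr x a) f) - l (pr x a) (mulP (m+3) (pr x y) f) := by
    intro x y a f
    have key := ext_wd (m+2) (T (pr x y) (pr x a))
      ((l (pr x y)).comp (mulP (m+3) (pr x a)) - (l (pr x a)).comp (mulP (m+3) (pr x y))) (fun b g => by
        simp only [LinearMap.sub_apply, LinearMap.comp_apply]
        rw [mulP_pr, mulP_pr, hl, hl, hu, hu]
        have h1 := al_pol (m+2) T al x b y a g
        rw [eq_neg_of_add_eq_zero_left (by rw [← add_assoc]; exact h1 :
          T (pr x y) (pr x a) (wd (m+2) b g) + (T (pr b y) (pr x a) (wd (m+2) x g)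
            + T (pr x y) (pr b a) (wd (m+2) x g)) = 0)]
        rw [pr_skew b y, Tsk (pr x y) (pr b a), pr_skew b a]
        simp only [map_neg, LinearMap.neg_apply, neg_neg]
        abel) f
    simpa only [LinearMap.sub_apply, LinearMap.comp_apply] using key
  refine ⟨l, fun p q f => ?_⟩
  -- step e)
  set φ : C → C → C → C → Z := fun b c d a => T (pr b c) (pr d a) f
      - (l (pr b c) (mulP (m+3) (pr d a) f) - l (pr d a) (mulP (m+3) (pr b c) f)) with hφ
  have r1 : ∀ b c d a, φ b c d a = - φ c b d a := by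
    intro b c d a
    simp only [hφ]
    rw [pr_skew b c]
    simp only [map_neg, LinearMap.neg_apply]
    abel
  have r2 : ∀ b c d a, φ b c d a = - φ b c a d := by
    intro b c d a
    simp only [hφ]
    rw [pr_skew d a]
    simp only [map_neg, LinearMap.neg_apply]
    abel
  have r3 : ∀ b c d a, φ b c d a = - φ d a b c := by
    intro b c d a
    simp only [hφ]
    rw [Tsk (pr b c) (pr d a)]
    abel
  have r0 : ∀ x c a, φ x c x a = 0 := by
    intro x c a
    simp only [hφ]
    rw [hd x c a f, sub_self]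
  have r4 : ∀ b c d a, φ b c d a = - φ d c b a := by
    intro b c d a
    have h1 := r0 (b + d) c a
    have h2 := r0 b c a
    have h3 := r0 d c a
    rw [eq_neg_iff_add_eq_zero]
    have e : φ (b + d) c (b + d) a = φ b c b a + φ d c d a + (φ b c d a + φ d c b a) := by
      simp only [hφ, map_add, LinearMap.add_apply]
      abel
    rw [e, h2, h3, zero_add, zero_add] at h1
    exact h1
  have hφ0 : ∀ b c d a, φ b c d a = 0 := by
    intro b c d a
    have e : φ b c d a = - φ b c d a := by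
      conv_lhs => rw [r4, r1 d c b a, r4 c d b a, r2 b d c a, r4 b d a c, r1 a d b c, r3 d a b c]
      simp only [neg_neg]
    have h2 : (2 : F) • φ b c d a = 0 := by
      rw [two_smul]
      nth_rewrite 1 [e]
      exact neg_add_cancel _
    exact (smul_eq_zero.1 h2).resolve_left two_ne_zero
  have hA : ∀ x y, T (pr x y) q f = l (pr x y) (mulP (m+3) q f) - l q (mulP (m+3) (pr x y) f) := by
    intro x y
    have := ext_pr ((T (pr x y)).flip f)
      (((l (pr x y)).comp ((mulP (m+3)).flip f)) - (l.flip (mulP (m+3) (pr x y) f))) (fun a b => by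
        simp only [LinearMap.sub_apply, LinearMap.comp_apply, LinearMap.flip_apply]
        exact sub_eq_zero.1 (hφ0 x y a b)) q
    simpa only [LinearMap.sub_apply, LinearMap.comp_apply, LinearMap.flip_apply] using this
  have := ext_pr ((T.flip q).flip f)
      ((l.flip (mulP (m+3) q f)) - ((l q).comp ((mulP (m+3)).flip f))) (fun a b => by
        simp only [LinearMap.sub_apply, LinearMap.comp_apply, LinearMap.flip_apply]
        exact hA a b) p
  simpa only [LinearMap.sub_apply, LinearMap.comp_apply, LinearMap.flip_apply] using this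

end Pool.Agent.MP_754a42_al
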