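import Pool.Agent.Lib.MP_754a42_al.N3
import Pool.Agent.Lib.MP_754a42_al.N5a

/-!
# MP_754a42_al, row N6b: step b) of `F2` (the map `u`). THIS ROW = theorem F2b below; the other steps are given for context.

Notation as in row N5.  `M = m+3` is the degree of `f`.
b) For `x, y, a ∈ C` consider the map `(p, q, f) ↦ R(p,q,f) := -1/2 [T(pq, xa; y f) + T(pq, ya; x f)]`, `f : Lm (m+2)`; it is a
   bilinear map `Lm 2 × Lm (m+2) → Z` (`P = pq ∈ Lm 2`), and `R(pr p q, wd p g) = 0`: it is the polarisation in `x` of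
   `-T(pq, xa; x p g) = 0` (`F2a` at `x+y`, `x`, `y`).  By `G1 (m+1)` (with values in `Z' = C →ₗ C →ₗ C →ₗ Z`, all `x,y,a` at
   once; `R` is built as a linear map in `P`, `f` with values in `Z'`) there is `u(x,y;a|·)` linear on `Lm (m+4)` with
   `u(x,y;a| mulP P f) = R`.  In particular `u(x,x;a| p∧q∧f) = - T(pq, xa; x f)`.   `u(x,y;a|·) = u(y,x;a|·)`.
   (P1) `u(x,x;x|·) = 0` (`pr x x = 0`; `ext_mulP`, `ext_pr`).
   (P2) `u(x,x;a| x ∧ G) = 0` for `G : Lm (m+3)`: `G = q∧f` (`span_wd`), `u(x,x;a|x∧q∧f) = -T(xq,xa;xf) = 0` (`al`).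
c) `K2 (m+3)` with values in `C →ₗ Z` (variable `a`), `s(x,y;G) := u(x,y;·|G)`, `G : Lm (m+4)`: by (P2) there is `v(a;x|H)`,
   `H : Lm (m+5)`, trilinear, with `u(x,x;a|G) = v(a;x|x∧G)`.
   By (P1) `v(x;x|x∧G) = 0` for all `x`, `G : Lm (m+4)`.  `K2 (m+4)` applied to
   `s'(x,y;H) := 1/2 [v(x;y|H)+v(y;x|H)]` gives `w(x;K)`, `K : Lm (m+6)`, `v(x;x|H) = w(x;x∧H)`.
   `B(x,a;H) := v(a;x|H) - w(a;x∧H)` satisfies `B(x,x;H) = 0`; `U2` with values in `Lm (m+5) →ₗ Z`: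
   `l : Lm 2 → Lm (m+5) → Z`, `l(xa;H) = v(a;x|H) - w(a;x∧H)`.
d) Claim `T(xy,xa;f) = l(xy; xaf) - l(xa; xyf)` (`f : Lm (m+3)`; `xaf = mulP (pr x a) f = wd x (wd a f)`).
   `l(xy;xaf) = v(y;x|x∧(af)) - w(y;x∧x∧..) = u(x,x;y|af)`, similarly `l(xa;xyf) = u(x,x;a|yf)`.  For `f = b f'`
   (`f' : Lm (m+2)`): `u(x,x;y|abf') - u(x,x;a|ybf') = -T(ab,xy;xf') + T(yb,xa;xf')` and by `al_pol`
   `T(xy,xa;bf') = -T(by,xa;xf') - T(xy,ba;xf')`; these agree (`pr_skew`, alternation of `T`).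
e) `D(P,Q;f) := T P Q f - (l P (Q f) - l Q (P f))` is alternating in `P,Q` and vanishes at `(xy, xa)`.  So
   `φ(b,c;d,a) := D(bc, da; f)` is skew under `b↔c`, `d↔a`, `(bc)↔(da)` and (polarising `D(xc,xa)=0`) under `b↔d`; so
   `φ(b,c;d,a) = -φ(d,c;b,a)`; all transpositions give `-1`, and `(b c)(d a)`-swap is an even permutation:
   `φ = -φ`.  E.g. `φ(b,c;d,a) = -φ(d,a;b,c)` (swap) and `φ(b,c;d,a) = -φ(d,c;b,a) = φ(c,d;b,a) = -φ(b,d;c,a) =
   φ(b,d;a,c) = -φ(a,d;b,c) = φ(d,a;b,c)`.  Hence `D = 0` (`ext_pr` twice).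
-/

namespace Pool.Agent.MP_754a42_al

universe u

variable {F : Type u} [Field F] [CharZero F] {C : Type u} [AddCommGroup C] [Module F C] [FiniteDimensional F C]
  {Z : Type u} [AddCommGroup Z] [Module F Z]

/-- the map `a ↦ -1/2 [T(P, xa; y f) + T(P, ya; x f)]` -/
private noncomputable def N6b_A (m : ℕ) (T : Lm F C 2 →ₗ[F] Lm F C 2 →ₗ[F] Lm F C (m+3) →ₗ[F] Z)
    (P : Lm F C 2) (f : Lm F C (m+2)) (x y : C) : C →ₗ[F] Z :=
  (-(1/2 : F)) • ((LinearMap.flip (T P) (wd (m+2) y f)).comp (pr x) +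
    (LinearMap.flip (T P) (wd (m+2) x f)).comp (pr y))

private theorem N6b_A_apply (m : ℕ) (T : Lm F C 2 →ₗ[F] Lm F C 2 →ₗ[F] Lm F C (m+3) →ₗ[F] Z)
    (P : Lm F C 2) (f : Lm F C (m+2)) (x y a : C) :
    N6b_A m T P f x y a = (-(1/2 : F)) • (T P (pr x a) (wd (m+2) y f) + T P (pr y a) (wd (m+2) x f)) := by
  simp [N6b_A]

private noncomputable def N6b_B (m : ℕ) (T : Lm F C 2 →ₗ[F] Lm F C 2 →ₗ[F] Lm F C (m+3) →ₗ[F] Z)
    (P : Lm F C 2) (f : Lm F C (m+2)) : C →ₗ[F] C →ₗ[F] C →ₗ[F] Z :=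
  LinearMap.mk₂ F (fun x y => N6b_A m T P f x y)
    (fun x x' y => by
      ext a
      simp only [LinearMap.add_apply, N6b_A_apply, map_add]
      module)
    (fun c x y => by
      ext a
      simp only [LinearMap.smul_apply, N6b_A_apply, map_smul]
      module)
    (fun x y y' => by
      ext a
      simp only [LinearMap.add_apply, N6b_A_apply, map_add]
      module)
    (fun c x y => by
      ext a
      simp only [LinearMap.smul_apply, N6b_A_apply, map_smul]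
      module)

private theorem N6b_B_apply (m : ℕ) (T : Lm F C 2 →ₗ[F] Lm F C 2 →ₗ[F] Lm F C (m+3) →ₗ[F] Z)
    (P : Lm F C 2) (f : Lm F C (m+2)) (x y a : C) :
    N6b_B m T P f x y a = (-(1/2 : F)) • (T P (pr x a) (wd (m+2) y f) + T P (pr y a) (wd (m+2) x f)) := by
  rw [N6b_B, LinearMap.mk₂_apply, N6b_A_apply]

private noncomputable def N6b_R (m : ℕ) (T : Lm F C 2 →ₗ[F] Lm F C 2 →ₗ[F] Lm F C (m+3) →ₗ[F] Z) :
    Lm F C 2 →ₗ[F] Lm F C (m+1+1) →ₗ[F] (C →ₗ[F] C →ₗ[F] C →ₗ[F] Z) :=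
  LinearMap.mk₂ F (fun P f => N6b_B m T P f)
    (fun x x' y => by
      ext a b c
      simp only [LinearMap.add_apply, N6b_B_apply, map_add]
      module)
    (fun c x y => by
      ext a b d
      simp only [LinearMap.smul_apply, N6b_B_apply, map_smul]
      module)
    (fun x y y' => by
      ext a b c
      simp only [LinearMap.add_apply, N6b_B_apply, map_add]
      module)
    (fun c x y => by
      ext a b d
      simp only [LinearMap.smul_apply, N6b_B_apply, map_smul]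
      module)

private theorem N6b_R_apply (m : ℕ) (T : Lm F C 2 →ₗ[F] Lm F C 2 →ₗ[F] Lm F C (m+3) →ₗ[F] Z)
    (P : Lm F C 2) (f : Lm F C (m+2)) (x y a : C) :
    N6b_R m T P f x y a = (-(1/2 : F)) • (T P (pr x a) (wd (m+2) y f) + T P (pr y a) (wd (m+2) x f)) := by
  rw [N6b_R, LinearMap.mk₂_apply, N6b_B_apply]

/-- steps b): the map `u` -/
theorem F2b (m : ℕ) (T : Lm F C 2 →ₗ[F] Lm F C 2 →ₗ[F] Lm F C (m+3) →ₗ[F] Z)
    (alt : ∀ p f, T p p f = 0)
    (al : ∀ x y z (f : Lm F C (m+2)), T (pr x y) (pr x z) (wd (m+2) x f) = 0)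
    (be : ∀ p q r (g : Lm F C (m+1)), T p q (mulP (m+1) r g) + T q r (mulP (m+1) p g)
      + T r p (mulP (m+1) q g) = 0) :
    ∃ u : C →ₗ[F] C →ₗ[F] C →ₗ[F] Lm F C (m+4) →ₗ[F] Z,
      (∀ x y a G, u x y a G = u y x a G) ∧
      (∀ x a p q (f : Lm F C (m+2)), u x x a (wd (m+3) p (wd (m+2) q f)) =
        - T (pr p q) (pr x a) (wd (m+2) x f)) ∧
      (∀ x G, u x x x G = 0) ∧
      (∀ x a (G : Lm F C (m+3)), u x x a (wd (m+3) x G) = 0) := by
  obtain ⟨l, hl⟩ := G1 (Z := C →ₗ[F] C →ₗ[F] C →ₗ[F] Z) (m+1) (N6b_R m T) (by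
    intro p q g
    ext x y a
    rw [LinearMap.zero_apply, LinearMap.zero_apply, LinearMap.zero_apply]
    rw [N6b_R_apply m T (pr p q) (wd (m+1) p g) x y a]
    have h1 := F2a m T alt al be (x+y) p q a g
    have h2 := F2a m T alt al be x p q a g
    have h3 := F2a m T alt al be y p q a g
    simp only [map_add, LinearMap.add_apply, h2, h3, zero_add, add_zero] at h1
    rw [add_comm] at h1
    rw [show T (pr p q) (pr x a) (wd (m+2) y (wd (m+1) p g)) +
      T (pr p q) (pr y a) (wd (m+2) x (wd (m+1) p g)) = 0 by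
        exact h1]
    rw [smul_zero])
  let u : C →ₗ[F] C →ₗ[F] C →ₗ[F] Lm F C (m+4) →ₗ[F] Z :=
    LinearMap.mk₂ F (fun x y => LinearMap.mk₂ F (fun a G => l G x y a)
        (fun a a' G => by simp) (fun c a G => by simp) (fun a G G' => by simp) (fun c a G => by simp))
      (fun x x' y => by ext a G; simp) (fun c x y => by ext a G; simp)
      (fun x y y' => by ext a G; simp) (fun c x y => by ext a G; simp)
  have hu : ∀ x y a G, u x y a G = l G x y a := fun x y a G => rfl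
  have huR : ∀ x y a (P : Lm F C 2) (f : Lm F C (m+2)), u x y a (mulP (m+2) P f) =
      (-(1/2 : F)) • (T P (pr x a) (wd (m+2) y f) + T P (pr y a) (wd (m+2) x f)) := by
    intro x y a P f
    rw [hu, ← N6b_R_apply m T P f x y a]
    have := hl P f
    rw [this]
  have h22 : ∀ x a (P : Lm F C 2) (f : Lm F C (m+2)), u x x a (mulP (m+2) P f) =
      - T P (pr x a) (wd (m+2) x f) := by
    intro x a P f
    rw [huR]
    module
  refine ⟨u, ?_, ?_, ?_, ?_⟩
  · intro x y a G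
    refine ext_mulP (m+2) (u x y a) (u y x a) (fun P f => ?_) G
    rw [huR, huR, add_comm]
  · intro x a p q f
    rw [← mulP_pr, h22]
  · intro x G
    refine ext_mulP (m+2) (u x x x) 0 (fun P f => ?_) G
    rw [h22, pr_self]
    simp
  · intro x a G
    refine ext_wd (m+2) ((u x x a).comp (wd (m+3) x)) 0 (fun q f => ?_) G
    rw [LinearMap.comp_apply, ← mulP_pr, h22, al]
    simp

end Pool.Agent.MP_754a42_al
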