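import Pool.Agent.Lib.MP_754a42_al.N3
import Pool.Agent.Lib.MP_754a42_al.N7

/-!
# MP_754a42_al, row N8a: `X2N_1`, `X2N_2` (THIS ROW); the other steps are given for context.

Setting (all rows below): `T : V_C → V_C → N → Z` (`V_C = C × Lm 2`, `N = Lm (n+4) × Lm (n+3)`), `T v v x = 0`,
`T u v (qE w e') + T v w (qE u e') + T w u (qE v e') = 0` (`e' : Lm (n+2)`).  Components, `c, c' ∈ C`, `p, p' ∈ Lm 2`, `e ∈ Lm (n+4)`,
`o ∈ Lm (n+3)`.  They are given here as separate hypotheses on five trilinear maps so that the steps are independent: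
`CCe(c,c';e)`, `CCo(c,c';o)`, `CPe(c,p;e)`, `CPo(c,p;o)`, `PPe(p,p';e)`, `PPo(p,p';o)`.

* `X2N_1` (`CCo = 0`): `o = a b g`... : `o = wd a (wd b (wd c'' g))`, `g : Lm n`; `ψ(c,c';a,b,d) := CCo(c,c'; a b d g)` satisfies `L5`:
  skew in `c,c'`, alternating in `a,b,d`, and `h4` is the hypothesis with `e' = b d g`.
* `X2N_2`: hypothesis (ccp) `CPo(c;p;c'e') - CPo(c';p;ce') = CCe(c,c';p e')`.  Take `p = xy`, `e' = x g` (`g : Lm (n+1)`): `p e' = 0`, so
  `CPo(c;xy;c' x g) = CPo(c';xy;c x g)`.  For `g = a g'`: `f(c,b,a) := CPo(c;xy; x b a g')` (`= - CPo(c;xy;b x a g')`) is symmetric in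
  `c,b` and skew in `b,a`: `SK` gives `CPo(c;xy;x f) = 0` for all `f : Lm (n+2)` (`span_wd` twice).
  `G1 (n+2)` with values in `C → Z`: `CPo(c;p;o) = lCO(c; p o)`.  Then `CCe(c,c';e) = lCO(c;c'e) - lCO(c';ce)`: for `e = p e'`
  (`ext_mulP`) it is (ccp) and `p c' e' = c' p e'` (`mulP_wd`).
* `X2N_3` is `F2 (n+1)` with `alpha n`.
* `X2N_4`: hypothesis (cpp) `CPe(c;p;p'e') - CPe(c;p';pe') + PPo(p,p';ce') = 0`.  `al`: `PPo(xy,xz;x f) = 0`, `f : Lm (n+2)`: `f = a g`,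
  (cpp) with `c = a`, `p = xy`, `p' = xz`, `e' = x g`: `p e' = p' e' = 0`, so `PPo(xy,xz; a x g) = 0`, and `a x g = - x a g`.
  `be`: `PPo(p,p';p''g) + cyc = 0` for `g : Lm (n+1)`: `g = c g'` (`g' : Lm n`), `p'' c g' = c p'' g'`, (cpp) with `e' = p'' g'`:
  `PPo(p,p';c p''g') = CPe(c;p';p p''g') - CPe(c;p;p'p''g')`; the cyclic sum vanishes by `mulP_comm`.  `F2 n`:
  `PPo(p,p';o) = lPO(p;p'o) - lPO(p';po)`.
* `X2N_5`: `CPe'(c;p;e) := CPe(c;p;e) + lPO(p;ce)` satisfies `CPe'(c;p;p'e') = CPe'(c;p';pe')` by (cpp), so by `F1 (n+1)` with values in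
  `C → Z`: `CPe(c;p;e) = lCE(c;pe) - lPO(p;ce)`.
* `X2N`: `l (c,p) (e,o) := lCE c e + lCO c o + lPE p e + lPO p o`, `e : Lm (n+6)`, `o : Lm (n+5)`:
  `T (c,p) (c',p') (e,o) = CCe + CCo + CPe(c,p';e) - CPe(c',p;e) + CPo(c,p';o) - CPo(c',p;o) + PPe + PPo`.
-/

namespace Pool.Agent.MP_754a42_al

universe u

variable {F : Type u} [Field F] [CharZero F] {C : Type u} [AddCommGroup C] [Module F C] [FiniteDimensional F C]
  {Z : Type u} [AddCommGroup Z] [Module F Z]

omit [CharZero F] [FiniteDimensional F C] in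
/-- `Lm (n+3)` is spanned by the `a ∧ b ∧ d ∧ g` -/
theorem N8a_span3 (n : ℕ) (P : Submodule F (Lm F C (n+3)))
    (h : ∀ (g : Lm F C n) (a b d : C), (wd (n+2) a (wd (n+1) b (wd n d g))) ∈ P)
    (o : Lm F C (n+3)) : o ∈ P := by
  refine span_wd (n+2) P (fun a f => ?_) o
  refine Submodule.mem_comap.1 (span_wd (n+1) (P.comap (wd (n+2) a)) (fun b f => ?_) f)
  refine Submodule.mem_comap.1 (span_wd n ((P.comap (wd (n+2) a)).comap (wd (n+1) b))
    (fun d g => ?_) f)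
  exact Submodule.mem_comap.2 (Submodule.mem_comap.2 (h g a b d))

omit [CharZero F] [FiniteDimensional F C] in
/-- a linear map on `Lm (n+3)` that vanishes on the `x ∧ b ∧ a ∧ g` (`x` fixed) vanishes on `x ∧ f` -/
theorem N8a_span2 (n : ℕ) (s : Lm F C (n+3) →ₗ[F] Z) (x : C)
    (h : ∀ (g : Lm F C n) (b a : C), s (wd (n+2) x (wd (n+1) b (wd n a g))) = 0)
    (f : Lm F C (n+2)) : s (wd (n+2) x f) = 0 := by
  refine LinearMap.mem_ker.1 (Submodule.mem_comap.1 (span_wd (n+1)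
    ((LinearMap.ker s).comap (wd (n+2) x)) (fun b f => ?_) f))
  refine Submodule.mem_comap.1 (span_wd n (((LinearMap.ker s).comap (wd (n+2) x)).comap
    (wd (n+1) b)) (fun a g => ?_) f)
  exact Submodule.mem_comap.2 (Submodule.mem_comap.2 (LinearMap.mem_ker.2 (h g b a)))

theorem X2N_1 (n : ℕ) (CCo : C →ₗ[F] C →ₗ[F] Lm F C (n+3) →ₗ[F] Z) (alt : ∀ c o, CCo c c o = 0)
    (h : ∀ a b c (e : Lm F C (n+2)), CCo a b (wd (n+2) c e) + CCo b c (wd (n+2) a e)
      + CCo c a (wd (n+2) b e) = 0) (c c' : C) (o : Lm F C (n+3)) : CCo c c' o = 0 := by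
  have skew : ∀ a b o, CCo a b o = - CCo b a o := by
    intro a b o
    have h1 := alt (a+b) o
    simp only [map_add, LinearMap.add_apply, alt, zero_add, add_zero] at h1
    rw [eq_neg_iff_add_eq_zero, add_comm]
    exact h1
  have key : ∀ (g : Lm F C n) (y z a b d : C),
      CCo y z (wd (n+2) a (wd (n+1) b (wd n d g))) = 0 := by
    intro g y z a b d
    refine L5 (F := F) (fun y z a b d : C => CCo y z (wd (n+2) a (wd (n+1) b (wd n d g))))
      ?_ ?_ ?_ ?_ y z a b d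
    · intro y z a b c
      exact skew y z _
    · intro y z a b c
      show CCo y z (wd (n+2) a (wd (n+1) b (wd n c g)))
        = - CCo y z (wd (n+2) b (wd (n+1) a (wd n c g)))
      rw [wd_skew (n+1) a b, map_neg]
    · intro y z a b c
      show CCo y z (wd (n+2) a (wd (n+1) b (wd n c g)))
        = - CCo y z (wd (n+2) a (wd (n+1) c (wd n b g)))
      rw [wd_skew n b c, map_neg, map_neg]
    · intro y z a b c
      exact h y z a (wd (n+1) b (wd n c g))
  exact LinearMap.mem_ker.1 (N8a_span3 n (LinearMap.ker (CCo c c'))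
    (fun g a b d => LinearMap.mem_ker.2 (key g c c' a b d)) o)

theorem X2N_2 (n : ℕ) (CPo : C →ₗ[F] Lm F C 2 →ₗ[F] Lm F C (n+3) →ₗ[F] Z)
    (CCe : C →ₗ[F] C →ₗ[F] Lm F C (n+4) →ₗ[F] Z)
    (h : ∀ c c' p (e : Lm F C (n+2)), CPo c p (wd (n+2) c' e) - CPo c' p (wd (n+2) c e)
      = CCe c c' (mulP (n+2) p e)) :
    ∃ lCO : C →ₗ[F] Lm F C (n+5) →ₗ[F] Z, (∀ c p o, CPo c p o = lCO c (mulP (n+3) p o)) ∧
      (∀ c c' e, CCe c c' e = lCO c (wd (n+4) c' e) - lCO c' (wd (n+4) c e)) := by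
  -- `CPo(c;xy;c' x g) = CPo(c';xy;c x g)`
  have h0 : ∀ (c c' x y : C) (g : Lm F C (n+1)),
      CPo c (pr x y) (wd (n+2) c' (wd (n+1) x g)) = CPo c' (pr x y) (wd (n+2) c (wd (n+1) x g)) := by
    intro c c' x y g
    have h1 := h c c' (pr x y) (wd (n+1) x g)
    rw [mulP_pr, wd_skew (n+1) y x, map_neg, wd_self, neg_zero, map_zero, sub_eq_zero] at h1
    exact h1
  have h2 : ∀ (x y : C) (g : Lm F C n) (c b a : C),
      CPo c (pr x y) (wd (n+2) x (wd (n+1) b (wd n a g))) = 0 := by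
    intro x y g c b a
    refine SK (F := F) (fun c b a : C => CPo c (pr x y) (wd (n+2) x (wd (n+1) b (wd n a g))))
      ?_ ?_ c b a
    · intro c b a
      show CPo c (pr x y) (wd (n+2) x (wd (n+1) b (wd n a g)))
        = CPo b (pr x y) (wd (n+2) x (wd (n+1) c (wd n a g)))
      rw [wd_skew (n+1) x b, wd_skew (n+1) x c, map_neg, map_neg, h0 c b x y (wd n a g)]
    · intro c b a
      show CPo c (pr x y) (wd (n+2) x (wd (n+1) b (wd n a g)))
        = - CPo c (pr x y) (wd (n+2) x (wd (n+1) a (wd n b g)))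
      rw [wd_skew n b a, map_neg, map_neg]
  have h3 : ∀ (c x y : C) (f : Lm F C (n+2)), CPo c (pr x y) (wd (n+2) x f) = 0 := by
    intro c x y f
    exact N8a_span2 n (CPo c (pr x y)) x (fun g b a => h2 x y g c b a) f
  obtain ⟨l, hl⟩ := G1 (Z := C →ₗ[F] Z) (n+2) (LinearMap.lflip.comp CPo.flip) (by
    intro x y f
    ext c
    simp only [LinearMap.comp_apply, LinearEquiv.coe_coe, LinearMap.lflip_apply,
      LinearMap.flip_apply, LinearMap.zero_apply]
    exact h3 c x y f)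
  have hl' : ∀ c p o, CPo c p o = l.flip c (mulP (n+3) p o) := by
    intro c p o
    have := LinearMap.congr_fun (hl p o) c
    simpa only [LinearMap.comp_apply, LinearEquiv.coe_coe, LinearMap.lflip_apply,
      LinearMap.flip_apply] using this
  refine ⟨l.flip, hl', fun c c' e => ?_⟩
  have := ext_mulP (n+2) (CCe c c') ((l.flip c).comp (wd (n+4) c') - (l.flip c').comp (wd (n+4) c))
    (fun p f => by
      rw [← h c c' p f, hl', hl', LinearMap.sub_apply, LinearMap.comp_apply, LinearMap.comp_apply,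
        mulP_wd, mulP_wd]) e
  rw [this, LinearMap.sub_apply, LinearMap.comp_apply, LinearMap.comp_apply]

end Pool.Agent.MP_754a42_al
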