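import Pool.Agent.Lib.MP_754a42_al.R0

/-!
# MP_754a42_al, row R1: the step of the recursion.

Write `s k x = DFinsupp.single k x`, `E = Π₀ k, G k`, `n = m+1`, `Y = G m`, `X = G (m+1)`, `X' = G (m+2)`.
1. `lead` extends: `R v` maps `Fil k` into `Fil (k+1)`, and for `y ∈ Fil k`: `(R v y) (k+1) = p k v (y k)`
   (induction on `DFinsupp` / write `y` as a finite sum of singles; `Submodule` spanned by the `s j x`, `j ≤ k`).
2. `Θ(v,u;x) := R ⁅v,u⁆ (s n x) - (R v (R u (s n x)) - R u (R v (s n x)))`, `x : G (m+1)`, a trilinear map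
   `L → L → G (m+1) → E`, alternating.  It takes values in `Fil (n+1)`: `R u (s n x) = s (n+1) (p u x) + t`, `t ∈ Fil n`;
   `R v (s (n+1) (p u x)) = s (n+2) (p v (p u x))` by `top`; `R v t ∈ Fil (n+1)`; the `s (n+2)`-terms cancel by `comm`.
3. `rel` gives `R v (R u y) - R u (R v y) = R ⁅v,u⁆ y` for all `y ∈ Fil m` (= degree `< n`), hence for `y ∈ Fil n`:
   `R ⁅v,u⁆ y - [R v, R u] y = Θ(v,u; y n)` (write `y = s n (y n) + y'`, `y' ∈ Fil m`).
4. Cocycle: for `y : G m`, `z := s m y`: `R w z ∈ Fil n` has component `(R w z) n = p m w y`.  So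
   `Θ(v,u; p m w y) = R ⁅v,u⁆ (R w z) - [R v,R u] (R w z)`.  Sum cyclically over `(v,u,w)`: the terms
   `[R v,R u] R w z - R w [R v,R u] z` sum to zero (Jacobi for commutators of operators), and
   `R w [R v,R u] z = R w R ⁅v,u⁆ z` by `rel`, so the cyclic sum of `Θ` is
   `∑cyc (R ⁅v,u⁆ R w z - R w R ⁅v,u⁆ z) = ∑cyc R ⁅⁅v,u⁆,w⁆ z = 0` (`rel` again (`m < n`), and the Jacobi identity in `L`).
5. `X2` with `Z = ↥(Fil F G (m+2))`, `T = Θ` (codomain restricted; or with `Z = Π₀ k, G k` and composing `l` with the projection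
   onto degrees `≤ m+2`): `Θ(v,u;x) = l v (p u x) - l u (p v x)` with `l v z ∈ Fil (m+2)`.
6. `R' v := R v + (l v) ∘ (DFinsupp.lapply (m+2))`.  Then `R' v y = R v y + l v (y (m+2))` for every `y ∈ E`.
   `lead`: for `k ≠ m+2` unchanged; for `k = m+2`: `l v x ∈ Fil (m+2)`.  `top` for `k > m+2`: unchanged.
   `rel` for `k < m+2`: `R' u (s k x) = R u (s k x)` (as `k ≠ m+2`), and `(R u (s k x)) (m+2) = 0` if `k < m+1` (it is in `Fil (k+1)`),
   and `= p u x` if `k = m+1`.  So for `k < m+1` nothing changes; for `k = m+1`: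
   `[R' v, R' u] s = [R v,R u] s + l v (p u x) - l u (p v x) = [R v, R u] s + Θ(v,u;x) = R ⁅v,u⁆ s = R' ⁅v,u⁆ s`.
-/

namespace Pool.Agent.MP_754a42_al

universe u

variable {F : Type u} [Field F] {L : Type u} [LieRing L] [LieAlgebra F L]
  {G : ℕ → Type u} [∀ k, AddCommGroup (G k)] [∀ k, Module F (G k)]

theorem r1_mem_Fil {n : ℕ} {x : Π₀ k, G k} : x ∈ Fil F G n ↔ ∀ k, n < k → x k = 0 := Iff.rfl

theorem r1_fil_mono {n n' : ℕ} (h : n ≤ n') {x : Π₀ k, G k} (hx : x ∈ Fil F G n) : x ∈ Fil F G n' :=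
  fun k hk => hx k (lt_of_le_of_lt h hk)

theorem r1_single_mem (k : ℕ) (x : G k) : (DFinsupp.single k x : Π₀ k, G k) ∈ Fil F G k := by
  intro j hj
  rw [DFinsupp.single_apply, dif_neg (by omega)]

theorem r1_fil_eq {k : ℕ} {y : Π₀ k, G k} (hy : y ∈ Fil F G k) :
    y = ∑ j ∈ Finset.range (k + 1), (DFinsupp.single j (y j) : Π₀ k, G k) := by
  ext i
  rw [DFinsupp.finsetSum_apply]
  by_cases hi : i ∈ Finset.range (k + 1)
  · rw [Finset.sum_eq_single i]
    · rw [DFinsupp.single_eq_same]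
    · intro j _ hj
      rw [DFinsupp.single_apply, dif_neg hj]
    · intro h
      exact absurd hi h
  · have hi' : k < i := by rw [Finset.mem_range] at hi; omega
    rw [hy i hi', Finset.sum_eq_zero]
    intro j hj
    rw [DFinsupp.single_apply, dif_neg]
    rintro rfl
    exact hi hj

/-- the extension of `lead` -/
theorem r1_lead {p : ∀ k, L →ₗ[F] G k →ₗ[F] G (k+1)} {n : ℕ} {R : L →ₗ[F] Module.End F (Π₀ k, G k)}
    (hR : Good p n R) (v : L) {k : ℕ} {y : Π₀ k, G k} (hy : y ∈ Fil F G k) :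
    R v y ∈ Fil F G (k + 1) ∧ (R v y) (k + 1) = p k v (y k) := by
  have key : ∀ j, j ≤ k → ∀ x : G j, R v (DFinsupp.single j x) ∈ Fil F G (k + 1) := by
    intro j hj x
    have h1 := hR.lead v j x
    have h2 : (DFinsupp.single (j + 1) (p j v x) : Π₀ k, G k) ∈ Fil F G (k + 1) :=
      r1_fil_mono (by omega) (r1_single_mem _ _)
    have h3 := (Fil F G (k + 1)).add_mem (r1_fil_mono (by omega : j ≤ k + 1) h1) h2
    rwa [sub_add_cancel] at h3
  have key2 : ∀ j, j < k → ∀ x : G j, (R v (DFinsupp.single j x)) (k + 1) = 0 := by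
    intro j hj x
    have h1 := hR.lead v j x (k + 1) (by omega)
    rw [DFinsupp.sub_apply, DFinsupp.single_apply, dif_neg (by omega), sub_zero] at h1
    exact h1
  have key3 : ∀ x : G k, (R v (DFinsupp.single k x)) (k + 1) = p k v x := by
    intro x
    have h1 := hR.lead v k x (k + 1) (by omega)
    rw [DFinsupp.sub_apply, DFinsupp.single_eq_same, sub_eq_zero] at h1
    exact h1
  have hy' := r1_fil_eq hy
  constructor
  · rw [hy', map_sum]
    refine Submodule.sum_mem _ fun j hj => key j ?_ _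
    rw [Finset.mem_range] at hj
    omega
  · conv_lhs => rw [hy']
    rw [map_sum, DFinsupp.finsetSum_apply, Finset.sum_range_succ, key3, Finset.sum_eq_zero, zero_add]
    intro j hj
    exact key2 j (Finset.mem_range.1 hj) _

/-- the extension of `rel` -/
theorem r1_rel {p : ∀ k, L →ₗ[F] G k →ₗ[F] G (k+1)} {n : ℕ} {R : L →ₗ[F] Module.End F (Π₀ k, G k)}
    (hR : Good p n R) (v u : L) {k : ℕ} (hk : k < n) {y : Π₀ k, G k} (hy : y ∈ Fil F G k) :
    R v (R u y) - R u (R v y) = R ⁅v, u⁆ y := by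
  rw [r1_fil_eq hy]
  simp only [map_sum]
  rw [← Finset.sum_sub_distrib]
  refine Finset.sum_congr rfl fun j hj => ?_
  rw [Finset.mem_range] at hj
  exact hR.rel v u j _ (by omega)

/-- the obstruction `Θ` -/
noncomputable def r1_T (R : L →ₗ[F] Module.End F (Π₀ k, G k)) (n : ℕ) :
    L →ₗ[F] L →ₗ[F] G n →ₗ[F] (Π₀ k, G k) :=
  LinearMap.mk₂ F (fun v u => (R ⁅v, u⁆ - (R v * R u - R u * R v)) ∘ₗ DFinsupp.lsingle n)
    (by
      intro v v' u
      rw [add_lie, map_add, map_add, ← LinearMap.add_comp]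
      congr 1
      rw [add_mul, mul_add]
      abel)
    (by
      intro c v u
      rw [smul_lie, map_smul, map_smul, ← LinearMap.smul_comp]
      congr 1
      rw [smul_mul_assoc, mul_smul_comm, smul_sub, smul_sub])
    (by
      intro v u u'
      rw [lie_add, map_add, map_add, ← LinearMap.add_comp]
      congr 1
      rw [add_mul, mul_add]
      abel)
    (by
      intro c v u
      rw [lie_smul, map_smul, map_smul, ← LinearMap.smul_comp]
      congr 1
      rw [smul_mul_assoc, mul_smul_comm, smul_sub, smul_sub])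

theorem r1_T_apply (R : L →ₗ[F] Module.End F (Π₀ k, G k)) (n : ℕ) (v u : L) (x : G n) :
    r1_T R n v u x = R ⁅v, u⁆ (DFinsupp.single n x) -
      (R v (R u (DFinsupp.single n x)) - R u (R v (DFinsupp.single n x))) := rfl

/-- `Θ` on elements of degree at most `n` -/
theorem r1_T_fil {p : ∀ k, L →ₗ[F] G k →ₗ[F] G (k+1)} {m : ℕ} {R : L →ₗ[F] Module.End F (Π₀ k, G k)}
    (hR : Good p (m + 1) R) (v u : L) {y : Π₀ k, G k} (hy : y ∈ Fil F G (m + 1)) :
    r1_T R (m + 1) v u (y (m + 1)) = R ⁅v, u⁆ y - (R v (R u y) - R u (R v y)) := by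
  set y' : Π₀ k, G k := y - DFinsupp.single (m + 1) (y (m + 1)) with hy'
  have hy'm : y' ∈ Fil F G m := by
    intro k hk
    rw [hy', DFinsupp.sub_apply, DFinsupp.single_apply]
    by_cases h : m + 1 = k
    · subst h
      simp
    · rw [dif_neg h, sub_zero]
      exact hy k (by omega)
  have h1 := r1_rel hR v u (by omega : m < m + 1) hy'm
  have h2 : y = DFinsupp.single (m + 1) (y (m + 1)) + y' := by rw [hy']; abel
  rw [r1_T_apply]
  conv_rhs => rw [h2]
  simp only [map_add]
  rw [← h1]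
  abel

/-- values of `Θ` -/
theorem r1_T_mem {p : ∀ k, L →ₗ[F] G k →ₗ[F] G (k+1)}
    (comm : ∀ k v u (x : G k), p (k+1) v (p k u x) = p (k+1) u (p k v x))
    {n : ℕ} {R : L →ₗ[F] Module.End F (Π₀ k, G k)} (hR : Good p n R) (v u : L) (x : G n) :
    r1_T R n v u x ∈ Fil F G (n + 1) := by
  have hRR : ∀ v u : L, R v (R u (DFinsupp.single n x)) -
      DFinsupp.single (n + 2) (p (n + 1) v (p n u x)) ∈ Fil F G (n + 1) := by
    intro v u
    have h1 := hR.lead u n x
    have h2 := (r1_lead hR v h1).1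
    rw [map_sub, hR.top v (n + 1) _ (by omega)] at h2
    exact h2
  rw [r1_T_apply]
  have h1 := (r1_lead hR ⁅v, u⁆ (r1_single_mem (F := F) n x)).1
  have h2 := hRR v u
  have h3 := hRR u v
  have h4 := (Fil F G (n + 1)).sub_mem h2 h3
  have h5 := (Fil F G (n + 1)).sub_mem h1 h4
  rw [comm n v u x] at h5
  have e : R ⁅v, u⁆ (DFinsupp.single n x) - (R v (R u (DFinsupp.single n x)) -
      DFinsupp.single (n + 2) (p (n + 1) u (p n v x)) - (R u (R v (DFinsupp.single n x)) -
      DFinsupp.single (n + 2) (p (n + 1) u (p n v x)))) = R ⁅v, u⁆ (DFinsupp.single n x) -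
      (R v (R u (DFinsupp.single n x)) - R u (R v (DFinsupp.single n x))) := by abel
  rwa [e] at h5

/-- the cocycle identity -/
theorem r1_cocycle {p : ∀ k, L →ₗ[F] G k →ₗ[F] G (k+1)} {m : ℕ} {R : L →ₗ[F] Module.End F (Π₀ k, G k)}
    (hR : Good p (m + 1) R) (u v w : L) (y : G m) :
    r1_T R (m + 1) u v (p m w y) + r1_T R (m + 1) v w (p m u y) + r1_T R (m + 1) w u (p m v y) = 0 := by
  set z : Π₀ k, G k := DFinsupp.single m y with hz
  have hzm : z ∈ Fil F G m := r1_single_mem m y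
  have hc : ∀ w : L, R w z ∈ Fil F G (m + 1) ∧ (R w z) (m + 1) = p m w y := by
    intro w
    have := r1_lead hR w hzm
    rw [hz, DFinsupp.single_eq_same] at this
    exact this
  have hT : ∀ a b c : L, r1_T R (m + 1) a b (p m c y) = R ⁅a, b⁆ (R c z) - (R a (R b (R c z)) - R b (R a (R c z))) := by
    intro a b c
    rw [← (hc c).2]
    exact r1_T_fil hR a b (hc c).1
  have hrel : ∀ a b : L, R a (R b z) - R b (R a z) = R ⁅a, b⁆ z := fun a b => r1_rel hR a b (by omega) hzm
  have hrel' : ∀ a b c : L, R c (R a (R b z)) - R c (R b (R a z)) = R c (R ⁅a, b⁆ z) := by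
    intro a b c
    rw [← map_sub, hrel]
  have hJ : R ⁅⁅u, v⁆, w⁆ z + R ⁅⁅v, w⁆, u⁆ z + R ⁅⁅w, u⁆, v⁆ z = 0 := by
    rw [← LinearMap.add_apply, ← LinearMap.add_apply, ← map_add, ← map_add]
    have : ⁅⁅u, v⁆, w⁆ + ⁅⁅v, w⁆, u⁆ + ⁅⁅w, u⁆, v⁆ = (0 : L) := by
      have h := lie_jacobi u v w
      rw [← lie_skew ⁅u, v⁆ w, ← lie_skew ⁅v, w⁆ u, ← lie_skew ⁅w, u⁆ v]
      rw [← neg_add, ← neg_add, neg_eq_zero]
      rw [← h]
      abel
    rw [this, map_zero, LinearMap.zero_apply]
  rw [hT, hT, hT]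
  have e1 := hrel ⁅u, v⁆ w
  have e2 := hrel ⁅v, w⁆ u
  have e3 := hrel ⁅w, u⁆ v
  have f1 := hrel' u v w
  have f2 := hrel' v w u
  have f3 := hrel' w u v
  rw [← e1, ← e2, ← e3, ← f1, ← f2, ← f3] at hJ
  rw [← hJ]
  abel

theorem rec_step (p : ∀ k, L →ₗ[F] G k →ₗ[F] G (k+1))
    (comm : ∀ k v u (x : G k), p (k+1) v (p k u x) = p (k+1) u (p k v x))
    (m : ℕ) (hX : X2 (p m) (p (m+1))) (R : L →ₗ[F] Module.End F (Π₀ k, G k)) (hR : Good p (m+1) R) :
    ∃ R' : L →ₗ[F] Module.End F (Π₀ k, G k), Good p (m+2) R' ∧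
      ∀ v k (x : G k), k ≤ m+1 → R' v (DFinsupp.single k x) = R v (DFinsupp.single k x) := by
  obtain ⟨l, hl⟩ := hX (Π₀ k, G k) (r1_T R (m + 1))
    (by
      intro v x
      rw [r1_T_apply, lie_self, map_zero, LinearMap.zero_apply, sub_self, sub_zero])
    (fun u v w y => r1_cocycle hR u v w y)
  -- projection to degrees `≤ m + 2`
  set π : (Π₀ k, G k) →ₗ[F] (Π₀ k, G k) := DFinsupp.filterLinearMap F G (fun k => k ≤ m + 2) with hπ
  have hπmem : ∀ y, π y ∈ Fil F G (m + 2) := by
    intro y k hk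
    show DFinsupp.filter (fun k => k ≤ m + 2) y k = 0
    rw [DFinsupp.filter_apply, if_neg (by omega)]
  have hπeq : ∀ y ∈ Fil F G (m + 2), π y = y := by
    intro y hy
    ext k
    show DFinsupp.filter (fun k => k ≤ m + 2) y k = y k
    rw [DFinsupp.filter_apply]
    split_ifs with h
    · rfl
    · exact (hy k (by omega)).symm
  have hl' : ∀ u v x, r1_T R (m + 1) u v x = π (l u (p (m + 1) v x)) - π (l v (p (m + 1) u x)) := by
    intro u v x
    rw [← map_sub, ← hl]
    exact (hπeq _ (r1_T_mem comm hR u v x)).symm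
  set S : L →ₗ[F] Module.End F (Π₀ k, G k) :=
    { toFun := fun v => π ∘ₗ (l v) ∘ₗ (DFinsupp.lapply (m + 2) : (Π₀ k, G k) →ₗ[F] G (m + 2))
      map_add' := by
        intro v v'
        refine LinearMap.ext fun y => ?_
        show π (l (v + v') (y (m + 2))) = π (l v (y (m + 2))) + π (l v' (y (m + 2)))
        rw [map_add, LinearMap.add_apply, map_add]
      map_smul' := by
        intro c v
        refine LinearMap.ext fun y => ?_
        show π (l (c • v) (y (m + 2))) = c • π (l v (y (m + 2)))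
        rw [map_smul, LinearMap.smul_apply, map_smul] } with hS
  have hSa : ∀ v y, S v y = π (l v (y (m + 2))) := fun v y => rfl
  have hR'a : ∀ v y, (R + S) v y = R v y + π (l v (y (m + 2))) := by
    intro v y
    rw [LinearMap.add_apply, LinearMap.add_apply, hSa]
  have hzero : ∀ v k (x : G k), k ≠ m + 2 → (R + S) v (DFinsupp.single k x) = R v (DFinsupp.single k x) := by
    intro v k x hk
    rw [hR'a, DFinsupp.single_apply, dif_neg hk, map_zero, map_zero, add_zero]
  refine ⟨R + S, ⟨?_, ?_, ?_⟩, fun v k x hk => hzero v k x (by omega)⟩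
  · intro v k x
    by_cases hk : k = m + 2
    · subst hk
      rw [hR'a]
      have h1 := hR.lead v (m + 2) x
      have h2 := (Fil F G (m + 2)).add_mem h1 (hπmem (l v ((DFinsupp.single (m + 2) x : Π₀ k, G k) (m + 2))))
      have e : R v (DFinsupp.single (m + 2) x) - DFinsupp.single (m + 2 + 1) (p (m + 2) v x) +
          π (l v ((DFinsupp.single (m + 2) x : Π₀ k, G k) (m + 2))) = R v (DFinsupp.single (m + 2) x) +
          π (l v ((DFinsupp.single (m + 2) x : Π₀ k, G k) (m + 2))) - DFinsupp.single (m + 2 + 1) (p (m + 2) v x) := by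
        abel
      rwa [e] at h2
    · rw [hzero v k x hk]
      exact hR.lead v k x
  · intro v k x hk
    rw [hzero v k x (by omega)]
    exact hR.top v k x (by omega)
  · intro v u k x hk
    rw [hzero u k x (by omega), hzero v k x (by omega), hzero ⁅v, u⁆ k x (by omega), hR'a, hR'a]
    rcases Nat.lt_or_ge k (m + 1) with h | h
    · have hz : ∀ w : L, (R w (DFinsupp.single k x)) (m + 2) = 0 := fun w =>
        (r1_lead hR w (r1_single_mem (F := F) k x)).1 (m + 2) (by omega)
      simp only [hz, map_zero, add_zero]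
      exact hR.rel v u k x h
    · have hk' : k = m + 1 := by omega
      subst hk'
      have hz : ∀ w : L, (R w (DFinsupp.single (m + 1) x)) (m + 2) = p (m + 1) w x := by
        intro w
        have := (r1_lead hR w (r1_single_mem (F := F) (m + 1) x)).2
        rwa [DFinsupp.single_eq_same] at this
      rw [hz, hz]
      have h1 := hl' v u x
      rw [r1_T_apply] at h1
      have e : R v (R u (DFinsupp.single (m + 1) x)) + π (l v (p (m + 1) u x)) -
          (R u (R v (DFinsupp.single (m + 1) x)) + π (l u (p (m + 1) v x))) =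
          (R v (R u (DFinsupp.single (m + 1) x)) - R u (R v (DFinsupp.single (m + 1) x))) +
          (π (l v (p (m + 1) u x)) - π (l u (p (m + 1) v x))) := by abel
      rw [e, ← h1]
      abel

end Pool.Agent.MP_754a42_al
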