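import Mathlib

/-!
# MP_754a42_al: Malcev algebras with a faithful representation. Definitions for the statement.

`F` is a field, `A` an `F`-vector space with a bilinear product `mul`.
-/

open scoped TensorProduct

namespace Pool.Agent.MP_754a42_al

/-- A Malcev algebra: `x² = 0` and `(xy)(xz) = ((xy)z)x + ((yz)x)x + ((zx)x)y`. -/
structure IsMalcev {F A : Type*} [Field F] [AddCommGroup A] [Module F A]
    (mul : A →ₗ[F] A →ₗ[F] A) : Prop where
  self : ∀ x, mul x x = 0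
  malcev : ∀ x y z, mul (mul x y) (mul x z) =
    mul (mul (mul x y) z) x + mul (mul (mul y z) x) x + mul (mul (mul z x) x) y

/-- The product of the split null extension `A ⊕ V`: `(a+u)(b+v) = ab + ρ(a)v - ρ(b)u`. -/
noncomputable def nullExt {F A V : Type*} [Field F] [AddCommGroup A] [Module F A] [AddCommGroup V]
    [Module F V] (mul : A →ₗ[F] A →ₗ[F] A) (ρ : A →ₗ[F] Module.End F V) :
    (A × V) →ₗ[F] (A × V) →ₗ[F] (A × V) :=
  LinearMap.mk₂ F (fun p q => (mul p.1 q.1, ρ p.1 q.2 - ρ q.1 p.2))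
    (fun x y z => by ext <;> simp; abel) (fun c x y => by ext <;> simp [smul_sub])
    (fun x y z => by ext <;> simp; abel) (fun c x y => by ext <;> simp [smul_sub])

@[simp] theorem nullExt_apply {F A V : Type*} [Field F] [AddCommGroup A] [Module F A]
    [AddCommGroup V] [Module F V] (mul : A →ₗ[F] A →ₗ[F] A) (ρ : A →ₗ[F] Module.End F V)
    (p q : A × V) : nullExt mul ρ p q = (mul p.1 q.1, ρ p.1 q.2 - ρ q.1 p.2) := rfl

/-- `ρ` is a representation of the Malcev algebra `(A, mul)`: the split null extension is Malcev. -/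
def IsRep {F A V : Type*} [Field F] [AddCommGroup A] [Module F A] [AddCommGroup V]
    [Module F V] (mul : A →ₗ[F] A →ₗ[F] A) (ρ : A →ₗ[F] Module.End F V) : Prop :=
  IsMalcev (nullExt mul ρ)

universe u

section
variable {F A : Type u} [Field F] [AddCommGroup A] [Module F A] (mul : A →ₗ[F] A →ₗ[F] A)

/-- `D_{a ⊗ b} : c ↦ a(bc) - b(ac) + (ab)c`, extended linearly to tensors. -/
noncomputable def Dr : A ⊗[F] A →ₗ[F] A →ₗ[F] A :=
  TensorProduct.lift (LinearMap.mk₂ F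
    (fun a b => (mul a).comp (mul b) - (mul b).comp (mul a) + mul (mul a b))
    (fun x y z => by ext; simp; abel) (fun c x y => by ext; simp [smul_sub])
    (fun x y z => by ext; simp; abel) (fun c x y => by ext; simp [smul_sub]))

@[simp] theorem Dr_tmul (a b c : A) :
    Dr mul (a ⊗ₜ b) c = mul a (mul b c) - mul b (mul a c) + mul (mul a b) c := by
  simp [Dr]

/-- `D_s` acting on `A ⊗ A` as a derivation. -/
noncomputable def DrT : A ⊗[F] A →ₗ[F] (A ⊗[F] A) →ₗ[F] (A ⊗[F] A) :=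
  (LinearMap.rTensorHom A) ∘ₗ Dr mul + (LinearMap.lTensorHom A) ∘ₗ Dr mul

@[simp] theorem DrT_tmul (s : A ⊗[F] A) (c d : A) :
    DrT mul s (c ⊗ₜ d) = (Dr mul s c) ⊗ₜ d + c ⊗ₜ (Dr mul s d) := by
  simp [DrT]

/-- The vector space `L̂ = A × (A ⊗ A)`. -/
abbrev LH (F A : Type u) [Field F] [AddCommGroup A] [Module F A] : Type u := A × (A ⊗[F] A)

/-- The bracket on `L̂`: `[(a,s),(b,t)] = (-ab + D_s b - D_t a, a ⊗ b + D_s t)`. -/
noncomputable def br : LH F A →ₗ[F] LH F A →ₗ[F] LH F A :=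
  LinearMap.mk₂ F
    (fun x y => (- mul x.1 y.1 + Dr mul x.2 y.1 - Dr mul y.2 x.1, x.1 ⊗ₜ[F] y.1 + DrT mul x.2 y.2))
    (fun x y z => by ext1 <;> simp [TensorProduct.add_tmul] <;> abel)
    (fun c x y => by ext1 <;> simp [smul_sub, smul_add, TensorProduct.smul_tmul'])
    (fun x y z => by ext1 <;> simp [TensorProduct.tmul_add] <;> abel)
    (fun c x y => by ext1 <;> simp [smul_sub, smul_add])

@[simp] theorem br_apply (x y : LH F A) :
    br mul x y = (- mul x.1 y.1 + Dr mul x.2 y.1 - Dr mul y.2 x.1,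
      x.1 ⊗ₜ[F] y.1 + DrT mul x.2 y.2) := rfl

/-- `δ̂(s) = (-2 μ(s), s)`, where `μ(a ⊗ b) = ab`. -/
noncomputable def dh : A ⊗[F] A →ₗ[F] LH F A :=
  (-(2 : F) • TensorProduct.lift mul).prod LinearMap.id

@[simp] theorem dh_tmul (a b : A) : dh mul (a ⊗ₜ b) = (-(2 : F) • mul a b, a ⊗ₜ b) := by
  simp [dh]

/-- `ad_v` on `L̂ ⊗ L̂`: `x ⊗ y ↦ [v,x] ⊗ y + x ⊗ [v,y]`. -/
noncomputable def adT (v : LH F A) : (LH F A ⊗[F] LH F A) →ₗ[F] (LH F A ⊗[F] LH F A) :=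
  TensorProduct.map (br mul v) LinearMap.id + TensorProduct.map LinearMap.id (br mul v)

@[simp] theorem adT_tmul (v x y : LH F A) :
    adT mul v (x ⊗ₜ y) = (br mul v x) ⊗ₜ y + x ⊗ₜ (br mul v y) := by
  simp [adT]

/-- `Alt (v ⊗ u ⊗ x) = v ⊗ u ⊗ x - u ⊗ v ⊗ x`. -/
noncomputable def Alt (F A : Type u) [Field F] [AddCommGroup A] [Module F A] :
    (LH F A ⊗[F] (LH F A ⊗[F] LH F A)) →ₗ[F] (LH F A ⊗[F] (LH F A ⊗[F] LH F A)) :=
  LinearMap.id - (TensorProduct.leftComm F (LH F A) (LH F A) (LH F A)).toLinearMap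

@[simp] theorem Alt_tmul (v u x : LH F A) :
    Alt F A (v ⊗ₜ (u ⊗ₜ x)) = v ⊗ₜ (u ⊗ₜ x) - u ⊗ₜ (v ⊗ₜ x) := by
  simp [Alt]

/-- `θ(v ⊗ u ⊗ x) = [[v,u],x]`. -/
noncomputable def th : (LH F A ⊗[F] (LH F A ⊗[F] LH F A)) →ₗ[F] LH F A :=
  (TensorProduct.lift (br mul)) ∘ₗ (LinearMap.rTensor (LH F A) (TensorProduct.lift (br mul))) ∘ₗ
    (TensorProduct.assoc F (LH F A) (LH F A) (LH F A)).symm.toLinearMap

@[simp] theorem th_tmul (v u x : LH F A) :
    th mul (v ⊗ₜ (u ⊗ₜ x)) = br mul (br mul v u) x := by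
  simp [th]

/-- `Q` contains all `x ⊗ y - y ⊗ x`. -/
def CSymm (Q : Submodule F (LH F A ⊗[F] LH F A)) : Prop :=
  ∀ x y : LH F A, x ⊗ₜ[F] y - y ⊗ₜ[F] x ∈ Q

/-- `Q` contains all `(a,0) ⊗ δ̂(a ⊗ b)`. -/
def CMal (Q : Submodule F (LH F A ⊗[F] LH F A)) : Prop :=
  ∀ a b : A, ((a, 0) : LH F A) ⊗ₜ[F] dh mul (a ⊗ₜ b) ∈ Q

/-- `Q` is stable under all `ad_v`. -/
def CAd (Q : Submodule F (LH F A ⊗[F] LH F A)) : Prop :=
  ∀ v : LH F A, ∀ q ∈ Q, adT mul v q ∈ Q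

/-- `Q` contains `N ⊗ L̂`. -/
def CLeft (N : Submodule F (LH F A)) (Q : Submodule F (LH F A ⊗[F] LH F A)) : Prop :=
  ∀ n ∈ N, ∀ x : LH F A, n ⊗ₜ[F] x ∈ Q

/-- `N` contains all `[x,x]`. -/
def CSelf (N : Submodule F (LH F A)) : Prop := ∀ x : LH F A, br mul x x ∈ N

/-- `N` contains `[x,n]` for all `n ∈ N`. -/
def CIdeal (N : Submodule F (LH F A)) : Prop := ∀ x : LH F A, ∀ n ∈ N, br mul x n ∈ N

/-- The kernel of `L̂ ⊗ (L̂ ⊗ L̂) → (L̂/N) ⊗ ((L̂ ⊗ L̂)/Q)`, which is `N ⊗ (L̂ ⊗ L̂) + L̂ ⊗ Q`. -/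
noncomputable def kerNQ (N : Submodule F (LH F A)) (Q : Submodule F (LH F A ⊗[F] LH F A)) :
    Submodule F (LH F A ⊗[F] (LH F A ⊗[F] LH F A)) :=
  LinearMap.ker (TensorProduct.map N.mkQ Q.mkQ)

/-- If `Alt ξ` lies in `N ⊗ (L̂ ⊗ L̂) + L̂ ⊗ Q`, then `θ(ξ) ∈ N`. -/
def CStar (N : Submodule F (LH F A)) (Q : Submodule F (LH F A ⊗[F] LH F A)) : Prop :=
  ∀ ξ : LH F A ⊗[F] (LH F A ⊗[F] LH F A), Alt F A ξ ∈ kerNQ N Q → th mul ξ ∈ N

/-- **Closed pairs.** `N ⊆ L̂` and `Q ⊆ L̂ ⊗ L̂` are subspaces such that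
* `Q` contains `x ⊗ y - y ⊗ x`, `(a,0) ⊗ δ̂(a ⊗ b)` and `N ⊗ L̂`, and is stable under all `ad_v`;
* `N` contains `[x,x]` and `[x,n]` for `n ∈ N`;
* if `Alt ξ` lies in `N ⊗ (L̂ ⊗ L̂) + L̂ ⊗ Q`, then `θ(ξ) ∈ N`. -/
structure Closed (N : Submodule F (LH F A)) (Q : Submodule F (LH F A ⊗[F] LH F A)) : Prop where
  symm : CSymm Q
  mal : CMal mul Q
  ad : CAd mul Q
  left : CLeft N Q
  self : CSelf mul N
  ideal : CIdeal mul N
  star : CStar mul N Q

/-- The first component of the smallest closed pair. -/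
noncomputable def rad : Submodule F (LH F A) := sInf {N | ∃ Q, Closed mul N Q}

/-- The second component of the smallest closed pair. -/
noncomputable def radQ : Submodule F (LH F A ⊗[F] LH F A) := sInf {Q | ∃ N, Closed mul N Q}

/-- everything the closure conditions force into `N` in one step -/
noncomputable def stepN (N : Submodule F (LH F A)) (Q : Submodule F (LH F A ⊗[F] LH F A)) :
    Submodule F (LH F A) :=
  N ⊔ Submodule.span F {y | ∃ x, br mul x x = y} ⊔ Submodule.span F {y | ∃ x, ∃ n ∈ N, br mul x n = y}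
    ⊔ Submodule.map (th mul) (Submodule.comap (Alt F A) (kerNQ N Q))

/-- everything the closure conditions force into `Q` in one step -/
noncomputable def stepQ (N : Submodule F (LH F A)) (Q : Submodule F (LH F A ⊗[F] LH F A)) :
    Submodule F (LH F A ⊗[F] LH F A) :=
  Q ⊔ Submodule.span F {t | ∃ x y : LH F A, x ⊗ₜ[F] y - y ⊗ₜ[F] x = t}
    ⊔ Submodule.span F {t | ∃ a b : A, ((a, 0) : LH F A) ⊗ₜ[F] dh mul (a ⊗ₜ b) = t}
    ⊔ Submodule.span F {t | ∃ v, ∃ q ∈ Q, adT mul v q = t}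
    ⊔ Submodule.span F {t | ∃ n ∈ N, ∃ x : LH F A, n ⊗ₜ[F] x = t}

/-- the iteration, started at `(0,0)` -/
noncomputable def chain : ℕ → Submodule F (LH F A) × Submodule F (LH F A ⊗[F] LH F A)
  | 0 => (⊥, ⊥)
  | (k+1) => (stepN mul (chain k).1 (chain k).2, stepQ mul (chain k).1 (chain k).2)

end

end Pool.Agent.MP_754a42_al
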