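import Pool.Agent.Lib.MP_754a42_al.Stmt
import Pool.Agent.Lib.MP_754a42_al.Base

/-!
# MP_754a42_al, row V3: a closed pair gives base data, first part (`dl_eq`, `exists_m`, `exists_ad`; the rest is row V3b).
-/

open scoped TensorProduct

namespace Pool.Agent.MP_754a42_al

universe u

variable {F A : Type u} [Field F] [CharZero F] [AddCommGroup A] [Module F A] {mul : A →ₗ[F] A →ₗ[F] A}
  {N : Submodule F (LH F A)} {Q : Submodule F (LH F A ⊗[F] LH F A)}
  {L : Type u} [LieRing L] [LieAlgebra F L] {π : LH F A →ₗ[F] L}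

/-- `r a = π (a,0)` -/
noncomputable def rr (π : LH F A →ₗ[F] L) : A →ₗ[F] L := π ∘ₗ LinearMap.inl F A (A ⊗[F] A)

omit [CharZero F] in
private theorem v3_rr_apply (a : A) : rr π a = π (a, 0) := rfl

theorem dl_eq (anti : ∀ a, mul a a = 0) (hb : ∀ x y, π (br mul x y) = ⁅π x, π y⁆) (a b : A) :
    dl mul (rr π) a b = π (dh mul (a ⊗ₜ b)) := by
  have h1 : dl mul (rr π) a b = ⁅π (a, 0), π (b, 0)⁆ - π (mul a b, 0) := by
    simp [dl, v3_rr_apply]
  rw [h1, ← hb, ← map_sub]
  congr 1
  ext1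
  · simp only [br_apply, dh_tmul, Prod.fst_sub, map_zero, LinearMap.zero_apply]
    rw [neg_smul, two_smul]
    abel
  · simp

omit [CharZero F] in
private theorem v3_sub_mem (hk : LinearMap.ker π = N) {s : L →ₗ[F] LH F A}
    (hs' : π ∘ₗ s = LinearMap.id) (x : LH F A) : x - s (π x) ∈ N := by
  rw [← hk, LinearMap.mem_ker, map_sub]
  have h : π (s (π x)) = π x := LinearMap.congr_fun hs' (π x)
  rw [h, sub_self]

omit [CharZero F] in
private theorem v3_right (h : Closed mul N Q) {n : LH F A} (hn : n ∈ N) (x : LH F A) :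
    x ⊗ₜ[F] n ∈ Q := by
  have h1 := Q.add_mem (h.symm x n) (h.left n hn x)
  rwa [sub_add_cancel] at h1

theorem Closed.exists_m (h : Closed mul N Q) (hs : Function.Surjective π) (hk : LinearMap.ker π = N) :
    ∃ m : L →ₗ[F] L →ₗ[F] ((LH F A ⊗[F] LH F A) ⧸ Q), ∀ x y, m (π x) (π y) = Q.mkQ (x ⊗ₜ y) := by
  obtain ⟨s, hs'⟩ := π.exists_rightInverse_of_surjective (LinearMap.range_eq_top.2 hs)
  refine ⟨((TensorProduct.mk F (LH F A) (LH F A)).compl₁₂ s s).compr₂ Q.mkQ, fun x y => ?_⟩
  have hx := v3_sub_mem hk hs' x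
  have hy := v3_sub_mem hk hs' y
  simp only [LinearMap.compr₂_apply, LinearMap.compl₁₂_apply, TensorProduct.mk_apply]
  rw [← sub_eq_zero, ← map_sub, Submodule.mkQ_apply, Submodule.Quotient.mk_eq_zero]
  have e : (s (π x)) ⊗ₜ[F] (s (π y)) - x ⊗ₜ[F] y =
      -((x - s (π x)) ⊗ₜ[F] y) - (s (π x)) ⊗ₜ[F] (y - s (π y)) := by
    rw [TensorProduct.sub_tmul, TensorProduct.tmul_sub]
    abel
  rw [e]
  exact Q.sub_mem (Q.neg_mem (h.left _ hx y)) (v3_right h hy _)

omit [CharZero F] in
private theorem v3_br_left (h : Closed mul N Q) {n : LH F A} (hn : n ∈ N) (x : LH F A) :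
    br mul n x ∈ N := by
  have h1 := h.self (n + x)
  have h2 : br mul (n + x) (n + x) = br mul n n + br mul n x + (br mul x n + br mul x x) := by
    have h4 : br mul (n + x) = br mul n + br mul x := map_add _ _ _
    rw [h4, LinearMap.add_apply, map_add, map_add]
  rw [h2] at h1
  have h3 : br mul n x = (br mul n n + br mul n x + (br mul x n + br mul x x)) -
      (br mul n n + (br mul x n + br mul x x)) := by abel
  rw [h3]
  exact N.sub_mem h1 (N.add_mem (h.self n) (N.add_mem (h.ideal x n hn) (h.self x)))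

omit [CharZero F] in
private theorem v3_adT_mem (h : Closed mul N Q) {n : LH F A} (hn : n ∈ N)
    (t : LH F A ⊗[F] LH F A) : adT mul n t ∈ Q := by
  induction t using TensorProduct.induction_on with
  | zero => simp
  | tmul x y =>
    rw [adT_tmul]
    exact Q.add_mem (h.left _ (v3_br_left h hn x) y) (v3_right h (v3_br_left h hn y) x)
  | add x y hx hy =>
    rw [map_add]
    exact Q.add_mem hx hy

/-- `v ↦ adT v` as a linear map -/
private noncomputable def v3_adL (mul : A →ₗ[F] A →ₗ[F] A) :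
    LH F A →ₗ[F] (LH F A ⊗[F] LH F A) →ₗ[F] (LH F A ⊗[F] LH F A) :=
  (LinearMap.rTensorHom (LH F A)) ∘ₗ br mul + (LinearMap.lTensorHom (LH F A)) ∘ₗ br mul

theorem Closed.exists_ad (h : Closed mul N Q) (hs : Function.Surjective π) (hk : LinearMap.ker π = N) :
    ∃ ad : L →ₗ[F] ((LH F A ⊗[F] LH F A) ⧸ Q) →ₗ[F] ((LH F A ⊗[F] LH F A) ⧸ Q),
      ∀ v t, ad (π v) (Q.mkQ t) = Q.mkQ (adT mul v t) := by
  obtain ⟨s, hs'⟩ := π.exists_rightInverse_of_surjective (LinearMap.range_eq_top.2 hs)
  have hq : ∀ v, Q ≤ Q.comap (adT mul v) := fun v q hq => h.ad v q hq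
  refine ⟨{ toFun := fun u => Q.mapQ Q (adT mul (s u)) (hq (s u))
            map_add' := ?_
            map_smul' := ?_ }, fun v t => ?_⟩
  · intro u u'
    refine LinearMap.ext fun x => ?_
    obtain ⟨t, rfl⟩ := Submodule.mkQ_surjective Q x
    have h1 : adT mul (s (u + u')) t = adT mul (s u) t + adT mul (s u') t := by
      rw [map_add]
      exact LinearMap.congr_fun (map_add (v3_adL mul) (s u) (s u')) t
    simp only [Submodule.mkQ_apply, Submodule.mapQ_apply, LinearMap.add_apply, h1]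
    rfl
  · intro c u
    refine LinearMap.ext fun x => ?_
    obtain ⟨t, rfl⟩ := Submodule.mkQ_surjective Q x
    have h1 : adT mul (s (c • u)) t = c • adT mul (s u) t := by
      rw [map_smul]
      exact LinearMap.congr_fun (map_smul (v3_adL mul) c (s u)) t
    simp only [Submodule.mkQ_apply, Submodule.mapQ_apply, LinearMap.smul_apply, h1,
      RingHom.id_apply]
    rfl
  · have hv := v3_sub_mem hk hs' v
    have h2 : adT mul (s (π v)) t = adT mul v t - adT mul (v - s (π v)) t := by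
      have h3 := LinearMap.congr_fun (map_sub (v3_adL mul) v (s (π v))) t
      have h4 : adT mul (v - s (π v)) t = adT mul v t - adT mul (s (π v)) t := h3
      rw [h4]
      abel
    show Q.mapQ Q (adT mul (s (π v))) (hq (s (π v))) (Q.mkQ t) = Q.mkQ (adT mul v t)
    rw [Submodule.mkQ_apply, Submodule.mapQ_apply, Submodule.mkQ_apply, h2,
      Submodule.Quotient.eq]
    have h5 : adT mul v t - adT mul (v - s (π v)) t - adT mul v t = -adT mul (v - s (π v)) t := by
      abel
    rw [h5]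
    exact Q.neg_mem (v3_adT_mem h hv t)

end Pool.Agent.MP_754a42_al
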