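import Pool.Agent.Lib.MP_754a42_al.V3

/-!
# MP_754a42_al, row V4: the projection to the exterior side (THIS ROW: `closed_C`; `exists_projN` is row V4b).

`C := A ⧸ A2 mul`, `κ = mkQ` (here abstract: `κ : A → C` surjective with kernel `A2 mul`).
`qh : LH → C × Lm 2`, `qh (a,s) = (κ a, 2 • s̄)`, where `s̄ = TensorProduct.lift (pr ∘ κ ∘ κ) s`, i.e. `(a ⊗ b)‾ = pr (κ a) (κ b)`.
`ph : LH ⊗ LH → Lm 4 × Lm 3`, `ph (x ⊗ y) = (mulP 2 (qh x).2 (qh y).2, wd 2 (qh x).1 (qh y).2 + wd 2 (qh y).1 (qh x).2)`.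

`closed_C`: `(ker qh, ker ph)` is closed.
* `qh (br v x) = (0, 2 • pr (κ v.1) (κ x.1))`: the first component of `br v x` is in `A²`; `(D_s t)‾ = 0` because `D_s a ∈ A²`
  (induct on `s`, `t`).
* `symm`: `mulP 2 p p' = mulP 2 p' p` (`p, p' : Lm 2`; prove by `ext_pr`, `mulP_wd`, or take `mulP_swap` from row F7a: you may import
  `Pool.Agent.Lib.MP_754a42_al.F7a`), and symmetry of the second component.
* `mal`: `qh (a,0) = (κa, 0)`, `qh (dh (a⊗b)) = (κ(-2ab), 2 pr κa κb) = (0, 2 pr (κa) (κb))`; `ph = (0, wd κa (2 pr κa κb)) = 0` (`wd_self`).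
* `ad`: `ph (adT v t) = (2 wd 3 (κ v.1) (ph t).2, 0)`: on `t = x ⊗ y`, with `v1 = κ v.1` etc.: first component
  `(2 v1∧x1)∧y2 + x2∧(2 v1∧y1) = 2 v1∧(x1∧y2 + y1∧x2)` (`mulP_pr`, `mulP_swap`, `wd_skew`..); second: `y1∧(2 v1∧x1) + x1∧(2 v1∧y1) = 0`.
  So `ker ph` is stable.
* `left`: `qh n = 0`.  `self`: `(0, 2 pr κx κx) = 0`.  `ideal`: `κ n.1 = 0`.
* `star`: always `th ξ ∈ ker qh`: `qh (br (br v u) x) = (0, 2 pr (κ (br v u).1) (κ x.1)) = 0` (pure tensors, then linearity).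

`exists_projN`: `rad mul ≤ ker qh`, `radQ mul ≤ ker ph` (`sInf_le ⟨_, closed_C⟩`).  With `π` surjective, `ker π = rad mul`: `q` is the factorisation
of `qh` through `π` (`q (π x) = qh x`), `prN := (radQ mul).liftQ ph _`.  Then `q_r`, `q_dl` (by `dl_eq`), `pr_m`
(by surjectivity of `π`, `hm`).
-/

open scoped TensorProduct

namespace Pool.Agent.MP_754a42_al

universe u

variable {F A : Type u} [Field F] [CharZero F] [AddCommGroup A] [Module F A] {mul : A →ₗ[F] A →ₗ[F] A}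
  {C : Type u} [AddCommGroup C] [Module F C]

/-- `qh (a,s) = (κ a, 2 s̄)` -/
noncomputable def qh (κ : A →ₗ[F] C) : LH F A →ₗ[F] (C × Lm F C 2) :=
  (κ.prodMap ((2 : F) • TensorProduct.lift (pr.compl₁₂ κ κ)))

/-- `ph (x ⊗ y)` -/
noncomputable def ph (κ : A →ₗ[F] C) : LH F A ⊗[F] LH F A →ₗ[F] (Lm F C 4 × Lm F C 3) :=
  TensorProduct.lift (LinearMap.mk₂ F
    (fun x y => (mulP 2 (qh κ x).2 (qh κ y).2, wd 2 (qh κ x).1 (qh κ y).2 + wd 2 (qh κ y).1 (qh κ x).2))
    (fun x y z => by simp; abel) (fun c x y => by simp [smul_add])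
    (fun x y z => by simp; abel) (fun c x y => by simp [smul_add]))

omit [CharZero F] in
private theorem v4_swap (p p' : Lm F C 2) : mulP 2 p p' = mulP 2 p' p := by
  refine ext_pr ((mulP 2).flip p') (mulP 2 p') (fun a b => ?_) p
  rw [LinearMap.flip_apply, mulP_pr]
  have e : (pr a b : Lm F C 2) = wd 1 a (wd 0 b one) := rfl
  have e1 : mulP 0 p' (one : Lm F C 0) = p' := by
    ext
    rw [mulP_val]
    show (p' : ExteriorAlgebra F C) * 1 = _
    rw [mul_one]
  rw [e, mulP_wd, mulP_wd, e1]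

omit [CharZero F] in
private theorem v4_mul (κ : A →ₗ[F] C) (hκ : ∀ a, κ a = 0 ↔ a ∈ A2 mul) (a b : A) :
    κ (mul a b) = 0 := (hκ _).2 (Submodule.subset_span ⟨a, b, rfl⟩)

omit [CharZero F] in
private theorem v4_Dr (κ : A →ₗ[F] C) (hκ : ∀ a, κ a = 0 ↔ a ∈ A2 mul) (s : A ⊗[F] A) (c : A) :
    κ (Dr mul s c) = 0 := by
  induction s using TensorProduct.induction_on with
  | zero => simp
  | tmul a b => rw [Dr_tmul, map_add, map_sub, v4_mul κ hκ, v4_mul κ hκ, v4_mul κ hκ]; simp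
  | add x y hx hy => rw [map_add, LinearMap.add_apply, map_add, hx, hy, add_zero]

omit [CharZero F] in
private theorem v4_DrT (κ : A →ₗ[F] C) (hκ : ∀ a, κ a = 0 ↔ a ∈ A2 mul) (s t : A ⊗[F] A) :
    TensorProduct.lift ((pr (F := F)).compl₁₂ κ κ) (DrT mul s t) = 0 := by
  induction t using TensorProduct.induction_on with
  | zero => simp
  | tmul c d =>
    rw [DrT_tmul, map_add, TensorProduct.lift.tmul, TensorProduct.lift.tmul,
      LinearMap.compl₁₂_apply, LinearMap.compl₁₂_apply, v4_Dr κ hκ, v4_Dr κ hκ]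
    simp
  | add x y hx hy => rw [map_add, map_add, hx, hy, add_zero]

omit [CharZero F] in
private theorem v4_qh (κ : A →ₗ[F] C) (a : A) (s : A ⊗[F] A) :
    qh κ (a, s) = (κ a, (2 : F) • TensorProduct.lift ((pr (F := F)).compl₁₂ κ κ) s) := rfl

omit [CharZero F] in
private theorem v4_br (κ : A →ₗ[F] C) (hκ : ∀ a, κ a = 0 ↔ a ∈ A2 mul) (v x : LH F A) :
    qh κ (br mul v x) = (0, (2 : F) • pr (κ v.1) (κ x.1)) := by
  rw [br_apply, v4_qh, map_add, v4_DrT κ hκ, map_sub, map_add, map_neg, v4_mul κ hκ, v4_Dr κ hκ,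
    v4_Dr κ hκ, TensorProduct.lift.tmul, LinearMap.compl₁₂_apply, add_zero]
  simp

omit [CharZero F] in
private theorem v4_fst (κ : A →ₗ[F] C) (x : LH F A) : (qh κ x).1 = κ x.1 := rfl

omit [CharZero F] in
private theorem v4_ph (κ : A →ₗ[F] C) (x y : LH F A) :
    ph κ (x ⊗ₜ y) =
      (mulP 2 (qh κ x).2 (qh κ y).2, wd 2 (qh κ x).1 (qh κ y).2 + wd 2 (qh κ y).1 (qh κ x).2) := by
  simp [ph]

omit [CharZero F] in
private theorem v4_ad (κ : A →ₗ[F] C) (hκ : ∀ a, κ a = 0 ↔ a ∈ A2 mul) (v : LH F A)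
    (t : LH F A ⊗[F] LH F A) :
    ph κ (adT mul v t) = ((2 : F) • wd 3 (κ v.1) (ph κ t).2, 0) := by
  induction t using TensorProduct.induction_on with
  | zero => simp only [map_zero, Prod.snd_zero, smul_zero]; rfl
  | tmul x y =>
    rw [adT_tmul, map_add, v4_ph, v4_ph, v4_ph, v4_br κ hκ, v4_br κ hκ]
    ext1
    · simp only [Prod.fst_add, map_smul, LinearMap.smul_apply, map_add]
      rw [mulP_pr, v4_swap, mulP_pr, v4_fst, v4_fst, smul_add]
    · simp only [Prod.snd_add, map_zero, LinearMap.zero_apply, zero_add, add_zero, map_smul]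
      rw [v4_fst, v4_fst, ← smul_add]
      have e : ∀ a b : C, (pr a b : Lm F C 2) = wd 1 a (wd 0 b one) := fun _ _ => rfl
      rw [e, e, wd_skew 1 (κ y.1), wd_skew 1 (κ x.1), ← neg_add, ← map_add,
        wd_skew 0 (κ y.1) (κ x.1), neg_add_cancel, map_zero, neg_zero, smul_zero]
  | add x y hx hy =>
    rw [map_add, map_add, hx, hy, map_add, Prod.mk_add_mk, Prod.snd_add, map_add, smul_add, add_zero]

theorem closed_C (anti : ∀ a, mul a a = 0) (κ : A →ₗ[F] C) (hκ : ∀ a, κ a = 0 ↔ a ∈ A2 mul) :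
    Closed mul (LinearMap.ker (qh κ)) (LinearMap.ker (ph κ)) where
  symm x y := by
    rw [LinearMap.mem_ker, map_sub, v4_ph, v4_ph, v4_swap, add_comm (wd 2 (qh κ x).1 _), sub_self]
  mal a b := by
    have h1 : qh κ ((a, 0) : LH F A) = (κ a, 0) := by rw [v4_qh, map_zero, smul_zero]
    have h2 : qh κ (dh mul (a ⊗ₜ b)) = (0, (2 : F) • pr (κ a) (κ b)) := by
      rw [dh_tmul, v4_qh, map_smul, v4_mul κ hκ, smul_zero, TensorProduct.lift.tmul,
        LinearMap.compl₁₂_apply]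
    have e : (pr (κ a) (κ b) : Lm F C 2) = wd 1 (κ a) (wd 0 (κ b) one) := rfl
    rw [LinearMap.mem_ker, v4_ph, h1, h2]
    ext1
    · simp
    · simp only [map_smul, map_zero, add_zero, Prod.snd_zero]
      rw [e, wd_self, smul_zero]
  ad v q hq := by
    rw [LinearMap.mem_ker] at hq ⊢
    rw [v4_ad κ hκ, hq]
    simp
  left n hn x := by
    rw [LinearMap.mem_ker] at hn ⊢
    rw [v4_ph, hn]
    simp
  self x := by
    rw [LinearMap.mem_ker, v4_br κ hκ, pr_self, smul_zero]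
    rfl
  ideal x n hn := by
    rw [LinearMap.mem_ker] at hn ⊢
    rw [v4_br κ hκ, ← v4_fst κ n, hn]
    simp
  star ξ _ := by
    rw [LinearMap.mem_ker]
    have h : (qh κ).comp (th mul) = 0 := by
      refine TensorProduct.ext' (fun v w => ?_)
      rw [LinearMap.zero_apply]
      induction w using TensorProduct.induction_on with
      | zero => rw [TensorProduct.tmul_zero, map_zero]
      | tmul u x =>
        rw [LinearMap.comp_apply, th_tmul, v4_br κ hκ, ← v4_fst κ (br mul v u), v4_br κ hκ]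
        simp
      | add x y hx hy => rw [TensorProduct.tmul_add, map_add, hx, hy, add_zero]
    exact LinearMap.congr_fun h ξ

end Pool.Agent.MP_754a42_al
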